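import Pool.Agent.HwS.Rep

/-!
# Module HwS/AppLevy: `2n+1 = 2p+q` in the random sieve

Let `z ≥ 2`, `W = primorial z`, `m = 2n+1`.
Residue: for every odd `m` there is `r < W` with `r` and `m - 2r` (in `ℤ`) coprime to `W`: for `ℓ = 2` take `r`
odd; for an odd prime `ℓ ≤ z` at most two residues (0 and `m/2`) are excluded, `ℓ ≥ 3`; Chinese remainder
theorem (`Nat.chineseRemainderOfFinset` or induction on the primes).
`I n = {p : 2m < 5p, ... }`: take `p ∈ (m/3, 2m/5)` with `p ≡ r mod W`; then `q = m - 2p ∈ (m/5, m/3)`;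
`t n p = {p, m - 2p}`, `a n = m/5`, `b n = m + 1`, `s = 2`.  Disjoint: `p > m/3 > q`, and both `p` and `q` are
injective in `p`.  `|I n| ≥ m/(15 W) - 2`, so the sum condition of `rep` holds (exponent `≥ c' n/(log n)^2`).
`p` and `q` are coprime to `W` and `> z` for large `n`, hence active; they are odd since `2 ∣ W`.
-/

open MeasureTheory ProbabilityTheory Filter Topology
open scoped ENNReal

namespace Pool.Agent.HwS

variable {Ω : Type} [MeasurableSpace Ω] {μ : Measure Ω} {S : ℕ → ℕ → Set Ω} [IsProbabilityMeasure μ]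

theorem levy_res (z m : ℕ) (hm : m % 2 = 1) :
    ∃ r : ℕ, ∀ p : ℕ, p % z.factorial = r % z.factorial → ∀ l : ℕ, l.Prime → l ≤ z →
      ¬ l ∣ p ∧ ¬ (l : ℤ) ∣ (m : ℤ) - 2 * p := by
  classical
  let c : ℕ → ℕ := fun l => if (l : ℤ) ∣ (m : ℤ) - 2 then 2 else 1
  obtain ⟨r, hr⟩ := Nat.chineseRemainderOfFinset c (fun l => l)
    ((Finset.range (z + 1)).filter Nat.Prime)
    (fun l hl => (Finset.mem_filter.1 hl).2.ne_zero)
    (by
      intro a ha b hb hab
      have ha' := (Finset.mem_filter.1 ha).2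
      have hb' := (Finset.mem_filter.1 hb).2
      exact (Nat.coprime_primes ha' hb').2 hab)
  refine ⟨r, fun p hp l hl hlz => ?_⟩
  have h1 : r ≡ c l [MOD l] :=
    hr l (Finset.mem_filter.2 ⟨Finset.mem_range.2 (by omega), hl⟩)
  have h2 : p ≡ r [MOD l] :=
    Nat.ModEq.of_dvd (Nat.dvd_factorial hl.pos hlz) hp
  have h3 : p ≡ c l [MOD l] := h2.trans h1
  have h4 : (l : ℤ) ∣ (c l : ℤ) - p := (Nat.modEq_iff_dvd.1 h3)
  have hl1 : ¬ (l : ℤ) ∣ 1 := by
    intro h
    have : l ∣ 1 := by exact_mod_cast h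
    exact hl.one_lt.ne' (Nat.dvd_one.1 this)
  by_cases hd : (l : ℤ) ∣ (m : ℤ) - 2
  · have hc : c l = 2 := if_pos hd
    have hl2 : ¬ (l : ℤ) ∣ 2 := by
      intro h
      have h' : l ∣ 2 := by exact_mod_cast h
      have h'' : l = 2 := (Nat.prime_dvd_prime_iff_eq hl Nat.prime_two).1 h'
      rw [h''] at hd
      push_cast at hd
      omega
    rw [hc] at h4
    push_cast at h4
    constructor
    · intro h
      have h' : (l : ℤ) ∣ p := by exact_mod_cast h
      exact hl2 (by simpa using dvd_add h4 h')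
    · intro h
      have h5 : (l : ℤ) ∣ 2 * (2 - p) := Dvd.dvd.mul_left h4 2
      have h6 : (l : ℤ) ∣ ((m : ℤ) - 2) - (m - 2 * p) + 2 * (2 - p) :=
        dvd_add (dvd_sub hd h) h5
      have h7 : ((m : ℤ) - 2) - (m - 2 * p) + 2 * (2 - p) = 2 := by ring
      rw [h7] at h6
      exact hl2 h6
  · have hc : c l = 1 := if_neg hd
    rw [hc] at h4
    push_cast at h4
    constructor
    · intro h
      have h' : (l : ℤ) ∣ p := by exact_mod_cast h
      exact hl1 (by simpa using dvd_add h4 h')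
    · intro h
      have h5 : (l : ℤ) ∣ 2 * (1 - p) := Dvd.dvd.mul_left h4 2
      have h6 : (l : ℤ) ∣ (m - 2 * p) - 2 * (1 - p) := dvd_sub h h5
      have h7 : ((m : ℤ) - 2 * p) - 2 * (1 - p) = m - 2 := by ring
      rw [h7] at h6
      exact hd h6

/-- The starting value of the index. -/
private def levyLo (z n : ℕ) : ℕ := (2 * n + 1) / (3 * z.factorial) + 1

/-- The end value of the index. -/
private def levyHi (z n : ℕ) : ℕ := (2 * (2 * n + 1)) / (5 * z.factorial)

private theorem levy_bounds (z n k r : ℕ) (hr : r < z.factorial)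
    (hk : k ∈ Finset.Ico (levyLo z n) (levyHi z n)) :
    2 * n + 1 < 3 * (r + z.factorial * k) ∧ 5 * (r + z.factorial * k) < 2 * (2 * n + 1) := by
  rw [Finset.mem_Ico] at hk
  obtain ⟨h1, h2⟩ := hk
  unfold levyLo at h1
  unfold levyHi at h2
  have hW : 0 < z.factorial := z.factorial_pos
  constructor
  · have h3 : (2 * n + 1) / (3 * z.factorial) < k := h1
    rw [Nat.div_lt_iff_lt_mul (by positivity)] at h3
    nlinarith
  · have h3 : k + 1 ≤ (2 * (2 * n + 1)) / (5 * z.factorial) := h2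
    rw [Nat.le_div_iff_mul_le (by positivity)] at h3
    nlinarith

private theorem levy_card (z n : ℕ) :
    (2 * (n : ℝ) + 1) / (15 * z.factorial) - 2 ≤
      ((Finset.Ico (levyLo z n) (levyHi z n)).card : ℝ) := by
  have hW : (0 : ℝ) < z.factorial := by exact_mod_cast z.factorial_pos
  rw [Nat.card_Ico]
  have h0 : (levyHi z n : ℝ) - (levyLo z n : ℝ) ≤ ((levyHi z n - levyLo z n : ℕ) : ℝ) := by
    rcases le_total (levyLo z n) (levyHi z n) with h | h
    · rw [Nat.cast_sub h]
    · have : (levyHi z n : ℝ) ≤ levyLo z n := by exact_mod_cast h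
      have h' : (0 : ℝ) ≤ ((levyHi z n - levyLo z n : ℕ) : ℝ) := Nat.cast_nonneg _
      linarith
  have h1 : (levyLo z n : ℝ) ≤ (2 * (n : ℝ) + 1) / (3 * z.factorial) + 1 := by
    unfold levyLo
    push_cast
    have := @Nat.cast_div_le ℝ _ _ _ (2 * n + 1) (3 * z.factorial)
    push_cast at this
    linarith
  have h2 : (2 * (2 * (n : ℝ) + 1)) / (5 * z.factorial) - 1 ≤ (levyHi z n : ℝ) := by
    unfold levyHi
    have h3 := Nat.lt_div_mul_add (a := 2 * (2 * n + 1)) (b := 5 * z.factorial) (by positivity)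
    have h4 : ((2 * (2 * n + 1) : ℕ) : ℝ) <
        ((2 * (2 * n + 1) / (5 * z.factorial) * (5 * z.factorial) + 5 * z.factorial : ℕ) : ℝ) := by
      exact_mod_cast h3
    push_cast at h4 ⊢
    rw [sub_le_iff_le_add, div_le_iff₀ (by positivity)]
    linarith
  have h3 : (2 * (2 * (n : ℝ) + 1)) / (5 * z.factorial) - (2 * (n : ℝ) + 1) / (3 * z.factorial) =
      (2 * (n : ℝ) + 1) / (15 * z.factorial) := by
    field_simp
    ring
  linarith

private theorem levy_sum (z : ℕ) (c : ℝ) (hc : 0 < c) :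
    Summable (fun N : ℕ => Real.exp (-(((Finset.Ico (levyLo z N) (levyHi z N)).card : ℝ) *
      (c / Real.log ((2 * N + 2 : ℕ) : ℝ)) ^ 2))) := by
  have hW : (0 : ℝ) < z.factorial := by exact_mod_cast z.factorial_pos
  have hs : Summable (fun n : ℕ => 1 / ((n : ℝ)) ^ 2) :=
    Real.summable_one_div_nat_pow.2 (by norm_num)
  refine Summable.of_norm_bounded_eventually_nat hs ?_
  have hlog : ∀ᶠ x : ℝ in atTop, Real.log x ^ 3 ≤ (c ^ 2 / (60 * z.factorial)) * x := by
    have h := (Real.isLittleO_pow_log_id_atTop (n := 3)).bound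
      (show (0 : ℝ) < c ^ 2 / (60 * z.factorial) by positivity)
    filter_upwards [h, eventually_ge_atTop (1 : ℝ)] with x hx hx1
    have h1 : 0 ≤ Real.log x := Real.log_nonneg hx1
    rw [Real.norm_of_nonneg (by positivity), id, Real.norm_of_nonneg (by linarith)] at hx
    exact hx
  have htend : Tendsto (fun n : ℕ => ((2 * n + 2 : ℕ) : ℝ)) atTop atTop := by
    apply tendsto_natCast_atTop_atTop.comp
    exact tendsto_atTop_mono (fun n => by show n ≤ 2 * n + 2; omega) tendsto_id
  have hlin : ∀ᶠ n : ℕ in atTop, 90 * (z.factorial : ℝ) ≤ ((2 * n + 2 : ℕ) : ℝ) :=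
    htend.eventually (eventually_ge_atTop _)
  filter_upwards [htend.eventually hlog, hlin, eventually_ge_atTop 1] with n h1 h2 h3
  rw [Real.norm_of_nonneg (Real.exp_pos _).le]
  set x : ℝ := ((2 * n + 2 : ℕ) : ℝ) with hx
  have hxn : x = 2 * n + 2 := by rw [hx]; push_cast; ring
  have hn1 : (1 : ℝ) ≤ n := by exact_mod_cast h3
  have hx4 : 4 ≤ x := by rw [hxn]; linarith
  have hL : 0 < Real.log x := Real.log_pos (by linarith)
  have hcard := levy_card z n
  have hcard2 : x / (30 * z.factorial) ≤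
      ((Finset.Ico (levyLo z n) (levyHi z n)).card : ℝ) := by
    refine le_trans ?_ hcard
    have e : (2 * (n : ℝ) + 1) = x - 1 := by rw [hxn]; ring
    have hW1 : (1 : ℝ) ≤ z.factorial := by exact_mod_cast Nat.succ_le_of_lt z.factorial_pos
    rw [e, div_le_iff₀ (by positivity)]
    have e2 : ((x - 1) / (15 * (z.factorial : ℝ)) - 2) * (30 * z.factorial) =
        2 * (x - 1) - 60 * z.factorial := by
      field_simp
      ring
    rw [e2]
    nlinarith
  have hmain : 2 * Real.log x ≤ ((Finset.Ico (levyLo z n) (levyHi z n)).card : ℝ) *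
      (c / Real.log x) ^ 2 := by
    have h4 : x / (30 * z.factorial) * (c / Real.log x) ^ 2 ≤
        ((Finset.Ico (levyLo z n) (levyHi z n)).card : ℝ) * (c / Real.log x) ^ 2 :=
      mul_le_mul_of_nonneg_right hcard2 (by positivity)
    refine le_trans ?_ h4
    rw [div_pow, div_mul_div_comm, le_div_iff₀ (by positivity)]
    have h5 : Real.log x ^ 3 * (60 * z.factorial) ≤ c ^ 2 * x := by
      have := mul_le_mul_of_nonneg_right h1 (show (0 : ℝ) ≤ 60 * z.factorial by positivity)
      have e : c ^ 2 / (60 * (z.factorial : ℝ)) * x * (60 * z.factorial) = c ^ 2 * x := by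
        field_simp
      linarith
    nlinarith
  calc Real.exp (-(((Finset.Ico (levyLo z n) (levyHi z n)).card : ℝ) * (c / Real.log x) ^ 2))
      ≤ Real.exp (-(2 * Real.log x)) := Real.exp_le_exp.2 (by linarith)
    _ = 1 / x ^ 2 := by
        rw [Real.exp_neg, mul_comm, Real.exp_mul, Real.exp_log (by linarith)]
        norm_num
    _ ≤ 1 / (n : ℝ) ^ 2 := by
        apply one_div_le_one_div_of_le (by positivity)
        apply pow_le_pow_left₀ (by positivity)
        rw [hxn]; linarith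

theorem levy (hS : IsStrikes μ S) (z : ℕ) (hz : 2 ≤ z) :
    ∀ᵐ ω ∂μ, ∀ᶠ n : ℕ in atTop, ∃ p q : ℕ, Sel z (Kof S ω) p ∧ Sel z (Kof S ω) q ∧
      p % 2 = 1 ∧ q % 2 = 1 ∧ 2 * n + 1 = 2 * p + q := by
  have hres : ∀ n : ℕ, ∃ r : ℕ, ∀ p : ℕ, p % z.factorial = r % z.factorial →
      ∀ l : ℕ, l.Prime → l ≤ z → ¬ l ∣ p ∧ ¬ (l : ℤ) ∣ ((2 * n + 1 : ℕ) : ℤ) - 2 * p :=
    fun n => levy_res z (2 * n + 1) (by omega)
  choose r hr using hres
  let P : ℕ → ℕ → ℕ := fun n k => r n % z.factorial + z.factorial * k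
  have hW : 0 < z.factorial := z.factorial_pos
  have hb : ∀ n k, k ∈ Finset.Ico (levyLo z n) (levyHi z n) →
      2 * n + 1 < 3 * P n k ∧ 5 * P n k < 2 * (2 * n + 1) :=
    fun n k hk => levy_bounds z n k _ (Nat.mod_lt _ hW) hk
  have hinj : ∀ n k k', P n k = P n k' → k = k' := by
    intro n k k' h
    have h' : z.factorial * k = z.factorial * k' := Nat.add_left_cancel h
    exact Nat.eq_of_mul_eq_mul_left hW h'
  have hdiv : ∀ n k l, l.Prime → l ≤ z → 2 * P n k ≤ 2 * n + 1 →
      ¬ l ∣ P n k ∧ ¬ l ∣ (2 * n + 1 - 2 * P n k) := by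
    intro n k l hl hlz hle
    have hmod : P n k % z.factorial = r n % z.factorial := by
      simp [P, Nat.add_mul_mod_self_left]
    obtain ⟨h1, h2⟩ := hr n (P n k) hmod l hl hlz
    refine ⟨h1, fun h => h2 ?_⟩
    have h3 : (l : ℤ) ∣ ((2 * n + 1 - 2 * P n k : ℕ) : ℤ) := by exact_mod_cast h
    rw [Nat.cast_sub hle] at h3
    push_cast at h3 ⊢
    exact h3
  have key := rep hS z 2 (fun n => Finset.Ico (levyLo z n) (levyHi z n))
    (fun n k => {P n k, 2 * n + 1 - 2 * P n k}) (fun n => (2 * n + 1) / 5) (fun n => 2 * n + 2)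
    (by
      refine tendsto_atTop_atTop.2 fun b => ⟨5 * b, fun n hn => ?_⟩
      show b ≤ (2 * n + 1) / 5
      omega)
    (Eventually.of_forall fun n => by
      show (2 * n + 1) / 5 ≤ 2 * n + 2
      omega)
    (Eventually.of_forall fun n i hi j hj hij => by
      have h1 := hb n i hi
      have h2 := hb n j hj
      have h3 : P n i ≠ P n j := fun h => hij (hinj n i j h)
      rw [Finset.disjoint_left]
      intro x hx hy
      simp only [Finset.mem_insert, Finset.mem_singleton] at hx hy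
      omega)
    (by
      filter_upwards [eventually_ge_atTop (5 * z + 10)] with n hn
      intro k hk m hm
      have h1 := hb n k hk
      have h2 := fun l hl hlz => hdiv n k l hl hlz (by omega)
      simp only [Finset.mem_insert, Finset.mem_singleton] at hm
      rcases hm with rfl | rfl
      · exact ⟨by omega, by omega, by omega, by omega, fun l hl hlz => (h2 l hl hlz).1⟩
      · exact ⟨by omega, by omega, by omega, by omega, fun l hl hlz => (h2 l hl hlz).2⟩)
    (Eventually.of_forall fun n i hi => Finset.card_le_two)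
    (fun c hc => levy_sum z c hc)
  filter_upwards [key] with ω hω
  filter_upwards [hω] with n hn
  obtain ⟨k, hk, hsel⟩ := hn
  have h1 := hb n k hk
  have h2 := hdiv n k 2 Nat.prime_two hz (by omega)
  refine ⟨P n k, 2 * n + 1 - 2 * P n k, hsel _ (by simp), hsel _ (by simp), ?_, ?_, by omega⟩
  · omega
  · omega

end Pool.Agent.HwS
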