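import Pool.Agent.HwS.QrFin

/-!
# Module HwS/QrMany: many integers modulo which `n` is a square, between `n ^ 2` and `(n + 1) ^ 2`, for all large `n`

`L = log n / log 2`, `y = L / 64`, `X = 2 ^ (L / 6)`, `w = n ^ (1 / 4)`, `K = L / 1536`; for even `n` the parameter `b` is between
`28 w / 25` and `29 w / 25`, for odd `n` it is between `w / 4` and `w / 2`.
-/

open Filter Topology

namespace Pool.Agent.HwS

theorem qr_size3 {w n b : ℕ} (hw : 1000 ≤ w) (h1 : w ^ 4 ≤ n) (h2 : n < (w + 1) ^ 4)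
    (h3 : 28 * w < 25 * b) (h4 : 25 * b ≤ 29 * w) :
    3 < 2 * b ^ 2 ∧ 2 * 3 * n < (2 * b ^ 2 - 3) ^ 2 ∧ (2 * b ^ 2 - 3) ^ 2 ≤ 2 * (3 + 1) * n := by
  have hb : 1000 < b := by omega
  have h5 : 3 < 2 * b ^ 2 := by nlinarith
  obtain ⟨t, ht⟩ : ∃ t : ℕ, t = 2 * b ^ 2 - 3 := ⟨_, rfl⟩
  have ht2 : t + 3 = 2 * b ^ 2 := by omega
  rw [← ht]
  have a1 : (28 * w) ^ 2 < (25 * b) ^ 2 := Nat.pow_lt_pow_left h3 (by norm_num)
  have a2 : (25 * b) ^ 2 ≤ (29 * w) ^ 2 := Nat.pow_le_pow_left h4 2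
  have a3 : 1000 * 1000 ≤ w ^ 2 := by nlinarith
  have a4 : 1567 * w ^ 2 ≤ 625 * t := by nlinarith
  have a5 : 625 * t ≤ 1682 * w ^ 2 := by nlinarith
  have b1 : (1567 * w ^ 2) ^ 2 ≤ (625 * t) ^ 2 := Nat.pow_le_pow_left a4 2
  have b2 : (625 * t) ^ 2 ≤ (1682 * w ^ 2) ^ 2 := Nat.pow_le_pow_left a5 2
  have b3 : (1000 * (w + 1)) ^ 4 ≤ (1001 * w) ^ 4 := Nat.pow_le_pow_left (by omega) 4
  have e1 : (1567 * w ^ 2) ^ 2 = 2455489 * w ^ 4 := by ring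
  have e2 : (1682 * w ^ 2) ^ 2 = 2829124 * w ^ 4 := by ring
  have e3 : (625 * t) ^ 2 = 390625 * t ^ 2 := by ring
  have e4 : (1000 * (w + 1)) ^ 4 = 1000000000000 * (w + 1) ^ 4 := by ring
  have e5 : (1001 * w) ^ 4 = 1004006004001 * w ^ 4 := by ring
  rw [e1, e3] at b1
  rw [e2, e3] at b2
  rw [e4, e5] at b3
  generalize w ^ 4 = u at *
  generalize (w + 1) ^ 4 = v at *
  generalize t ^ 2 = s at *
  refine ⟨h5, by omega, by omega⟩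

theorem qr_size0 {w n b : ℕ} (h1 : w ^ 4 ≤ n) (h3 : 0 < b) (h4 : 2 * b ≤ w) :
    0 < 2 * b ^ 2 ∧ 2 * 0 * n < (2 * b ^ 2 - 0) ^ 2 ∧ (2 * b ^ 2 - 0) ^ 2 ≤ 2 * (0 + 1) * n := by
  have a1 : (2 * b) ^ 4 ≤ w ^ 4 := Nat.pow_le_pow_left h4 4
  have e1 : (2 * b) ^ 4 = 16 * b ^ 4 := by ring
  have e2 : (2 * b ^ 2 - 0) ^ 2 = 4 * b ^ 4 := by
    rw [Nat.sub_zero]
    ring
  have e3 : 0 < b ^ 4 := by positivity
  rw [e2]
  refine ⟨by positivity, by omega, by omega⟩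

theorem qr_cube : ∀ᶠ L : ℕ in atTop, 2 ^ ((L + 1) / 8 + 1) * L ^ 3 ≤ 2 ^ (L / 6) / 2 := by
  have h1 := tendsto_pow_const_div_const_pow_of_one_lt 3 (r := (2 : ℝ)) (by norm_num)
  have h2 := h1.eventually (gt_mem_nhds (show (0 : ℝ) < 1 / (8 * 48 ^ 3) by norm_num))
  obtain ⟨m0, hm0⟩ := eventually_atTop.1 h2
  filter_upwards [eventually_ge_atTop (24 * (m0 + 1))] with L hL
  obtain ⟨m, hm⟩ : ∃ m : ℕ, m = L / 24 := ⟨_, rfl⟩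
  have h3 : m0 ≤ m := by omega
  have h4 : 1 ≤ m := by omega
  have h5 := hm0 m h3
  rw [div_lt_iff₀ (by positivity)] at h5
  have h6 : 8 * 48 ^ 3 * m ^ 3 ≤ 2 ^ m := by
    have h7 : (8 * 48 ^ 3 : ℝ) * (m : ℝ) ^ 3 ≤ 2 ^ m := by
      have := mul_le_mul_of_nonneg_left h5.le (show (0 : ℝ) ≤ 8 * 48 ^ 3 by norm_num)
      rw [← mul_assoc] at this
      norm_num at this ⊢
      exact this
    exact_mod_cast h7
  have h8 : L ≤ 48 * m := by omega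
  have h9 : L ^ 3 ≤ (48 * m) ^ 3 := Nat.pow_le_pow_left h8 3
  have e1 : (48 * m) ^ 3 = 48 ^ 3 * m ^ 3 := by ring
  rw [e1] at h9
  have h10 : 8 * L ^ 3 ≤ 2 ^ m := by
    calc 8 * L ^ 3 ≤ 8 * (48 ^ 3 * m ^ 3) := Nat.mul_le_mul_left _ h9
      _ = 8 * 48 ^ 3 * m ^ 3 := by ring
      _ ≤ 2 ^ m := h6
  have h11 : 2 ^ ((L + 1) / 8 + 1) * L ^ 3 * 8 ≤ 2 ^ (L / 6 + 2) := by
    calc 2 ^ ((L + 1) / 8 + 1) * L ^ 3 * 8 = 2 ^ ((L + 1) / 8 + 1) * (8 * L ^ 3) := by ring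
      _ ≤ 2 ^ ((L + 1) / 8 + 1) * 2 ^ m := Nat.mul_le_mul_left _ h10
      _ = 2 ^ ((L + 1) / 8 + 1 + m) := by rw [pow_add _ ((L + 1) / 8 + 1)]
      _ ≤ 2 ^ (L / 6 + 2) := Nat.pow_le_pow_right (by norm_num) (by omega)
  have e2 : 2 ^ (L / 6 + 2) = 4 * 2 ^ (L / 6) := by
    rw [pow_add]
    ring
  rw [e2] at h11
  omega

theorem qr_many (z : ℕ) : ∀ᶠ n : ℕ in atTop, ∃ T : Finset ℕ,
    2 ^ ((Nat.log 2 n + 1) / 8 + 1) * Nat.log 2 n ^ 3 ≤ T.card ∧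
    ∀ p ∈ T, n ^ 2 < p ∧ p < (n + 1) ^ 2 ∧ p.Coprime n ∧ (∃ x : ℕ, x ^ 2 ≡ n [MOD p]) ∧
      ∀ l : ℕ, l.Prime → l ≤ z → ¬ l ∣ p := by
  obtain ⟨L1, hL1⟩ := eventually_atTop.1 qr_cube
  obtain ⟨Q, hQ⟩ : ∃ Q : ℕ, Q = 2 ^ 1536 := ⟨_, rfl⟩
  filter_upwards [eventually_ge_atTop (2 ^ (L1 + 64 * Q + 64 * z + 1000))] with n hn
  obtain ⟨L, hL⟩ : ∃ L : ℕ, L = Nat.log 2 n := ⟨_, rfl⟩
  have hn0 : n ≠ 0 := by
    have : 0 < 2 ^ (L1 + 64 * Q + 64 * z + 1000) := by positivity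
    omega
  have hLL : L1 + 64 * Q + 64 * z + 1000 ≤ L := by
    rw [hL]
    exact Nat.le_log_of_pow_le (by norm_num) hn
  have hpow : 2 ^ L ≤ n := by
    rw [hL]
    exact Nat.pow_log_le_self 2 hn0
  have hlt : n < 2 ^ (L + 1) := by
    rw [hL]
    exact Nat.lt_pow_succ_log_self (by norm_num) n
  rw [← hL]
  obtain ⟨w, hw⟩ : ∃ w : ℕ, w = Nat.sqrt (Nat.sqrt n) := ⟨_, rfl⟩
  have hw1 : w ^ 4 ≤ n := by
    have h1 : w ^ 2 ≤ Nat.sqrt n := by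
      rw [hw]
      exact Nat.sqrt_le' _
    have h2 : (w ^ 2) ^ 2 ≤ (Nat.sqrt n) ^ 2 := Nat.pow_le_pow_left h1 2
    have h3 : (Nat.sqrt n) ^ 2 ≤ n := Nat.sqrt_le' _
    calc w ^ 4 = (w ^ 2) ^ 2 := by ring
      _ ≤ n := h2.trans h3
  have hw2 : n < (w + 1) ^ 4 := by
    have h1 : Nat.sqrt n < (w + 1) ^ 2 := by
      rw [hw]
      exact Nat.lt_succ_sqrt' _
    have h2 : n < (Nat.sqrt n + 1) ^ 2 := Nat.lt_succ_sqrt' _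
    have h3 : (Nat.sqrt n + 1) ^ 2 ≤ ((w + 1) ^ 2) ^ 2 := Nat.pow_le_pow_left h1 2
    calc n < ((w + 1) ^ 2) ^ 2 := h2.trans_le h3
      _ = (w + 1) ^ 4 := by ring
  have hw3 : 2 ^ (L / 4) ≤ w := by
    rw [hw, Nat.le_sqrt', Nat.le_sqrt']
    calc ((2 ^ (L / 4)) ^ 2) ^ 2 = 2 ^ (L / 4 * 4) := by
          rw [← pow_mul, ← pow_mul]
      _ ≤ 2 ^ L := Nat.pow_le_pow_right (by norm_num) (Nat.div_mul_le_self L 4)
      _ ≤ n := hpow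
  have hw4 : 1000 ≤ w := by
    have h1 : 2 ^ 10 ≤ 2 ^ (L / 4) := Nat.pow_le_pow_right (by norm_num) (by omega)
    omega
  have hy : 2 ^ 1536 ≤ L / 64 := by
    rw [← hQ]
    omega
  have hP : primorial (L / 64) * (2 ^ (L / 6) + 1) * 25 ≤ w := by
    have h1 : primorial (L / 64) ≤ 2 ^ (2 * (L / 64)) := by
      rw [pow_mul]
      exact primorial_le_four_pow _
    have h2 : 2 ^ (L / 6) + 1 ≤ 2 ^ (L / 6 + 1) := by
      have : 0 < 2 ^ (L / 6) := by positivity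
      rw [pow_succ]
      omega
    calc primorial (L / 64) * (2 ^ (L / 6) + 1) * 25 ≤
        2 ^ (2 * (L / 64)) * 2 ^ (L / 6 + 1) * 2 ^ 5 :=
          Nat.mul_le_mul (Nat.mul_le_mul h1 h2) (by norm_num)
      _ = 2 ^ (2 * (L / 64) + (L / 6 + 1) + 5) := by rw [← pow_add, ← pow_add]
      _ ≤ 2 ^ (L / 4) := Nat.pow_le_pow_right (by norm_num) (by omega)
      _ ≤ w := hw3
  have hP' : primorial (L / 64) * (2 ^ (L / 6) + 1) ≤ w / 25 :=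
    (Nat.le_div_iff_mul_le (by norm_num)).2 hP
  have hX : L / 64 ≤ 2 ^ (L / 6) := by
    have : L / 6 < 2 ^ (L / 6) := Nat.lt_two_pow_self
    omega
  have hK : ∀ m : ℕ, m ≠ 0 → m ≤ n →
      (m.primeFactors.filter fun l => L / 64 < l).card ≤ L / 1536 := by
    intro m hm hmn
    rw [Nat.le_div_iff_mul_le (by norm_num), mul_comm]
    exact few_primes hm (hmn.trans_lt hlt) hy
  have h4n : 4 ≤ n := by
    have h1 : 2 ^ 2 ≤ 2 ^ L := Nat.pow_le_pow_right (by norm_num) (by omega)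
    omega
  obtain ⟨c, A, hc, hcn, hsize⟩ : ∃ c A : ℕ, ((c = 0 ∧ Odd n) ∨ (c = 3 ∧ Even n)) ∧ c < n ∧
      ∀ b : ℕ, A < b → b ≤ A + primorial (L / 64) * (2 ^ (L / 6) + 1) →
        c < 2 * b ^ 2 ∧ 2 * c * n < (2 * b ^ 2 - c) ^ 2 ∧
          (2 * b ^ 2 - c) ^ 2 ≤ 2 * (c + 1) * n := by
    rcases Nat.even_or_odd n with he | ho
    · refine ⟨3, 28 * w / 25, Or.inr ⟨rfl, he⟩, by omega, fun b hb1 hb2 => ?_⟩
      have h1 := hb2.trans (Nat.add_le_add_left hP' _)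
      exact qr_size3 hw4 hw1 hw2 (by omega) (by omega)
    · refine ⟨0, w / 4, Or.inl ⟨rfl, ho⟩, by omega, fun b hb1 hb2 => ?_⟩
      have h1 := hb2.trans (Nat.add_le_add_left hP' _)
      exact qr_size0 hw1 (by omega) (by omega)
  obtain ⟨T, hT1, hT2⟩ := qr_fin (X := 2 ^ (L / 6)) (K := L / 1536) hc h4n
    (by omega) hX (by omega)
    (hK _ (by omega) (by omega)) (hK _ hn0 le_rfl) hsize
  refine ⟨T, (hL1 L (by omega)).trans hT1, fun p hp => ?_⟩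
  obtain ⟨h1, h2, h3, h4, h5⟩ := hT2 p hp
  exact ⟨h1, h2, h3, h4, fun l hl hlz => h5 l hl (by omega)⟩

end Pool.Agent.HwS
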