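import Pool.Agent.HwS.Rep
import Pool.Agent.HwS.QrMany

/-!
# Module HwS/AppQr: between consecutive squares in the random sieve, with `n` a square

`QrMany` gives at least `M B` numbers, `B = L ^ 3`, `L = log n / log 2`, `M ^ 8 ≥ n`. They are divided in `M` blocks of size
`B`. The number `N` codes the pair `(n, k)`, `N = n ^ 2 + k`, `k ≤ 2 n`. `rep` for the block of index `k`, `a N = n ^ 2`,
`b N = (n + 1) ^ 2`: for large `n` there is a selected number in every block.
-/

open MeasureTheory ProbabilityTheory Filter Topology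
open scoped ENNReal

namespace Pool.Agent.HwS

variable {Ω : Type} [MeasurableSpace Ω] {μ : Measure Ω} {S : ℕ → ℕ → Set Ω} [IsProbabilityMeasure μ]

/-- The size of the blocks. -/
private def qrB (n : ℕ) : ℕ := Nat.log 2 n ^ 3

/-- The number of the blocks. -/
private def qrM (n : ℕ) : ℕ := 2 ^ ((Nat.log 2 n + 1) / 8 + 1)

private theorem qr_sum (c : ℝ) (hc : 0 < c) :
    Summable (fun N : ℕ => Real.exp (-(((Finset.range (qrB (Nat.sqrt N))).card : ℝ) *
      (c / Real.log (((Nat.sqrt N + 1) ^ 2 : ℕ) : ℝ)) ^ 1))) := by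
  have hg : Summable (fun N : ℕ => 1 / (N : ℝ) ^ 2) :=
    Real.summable_one_div_nat_pow.2 (by norm_num)
  refine Summable.of_norm_bounded_eventually_nat hg ?_
  obtain ⟨C, hC⟩ := exists_nat_ge (32 / c)
  filter_upwards [eventually_ge_atTop (2 ^ (C + 1) * 2 ^ (C + 1))] with N hN
  rw [Finset.card_range]
  have hn2 : 2 ^ (C + 1) ≤ Nat.sqrt N := Nat.le_sqrt.2 hN
  have hNn : N < (Nat.sqrt N + 1) ^ 2 := Nat.lt_succ_sqrt' N
  have hN0 : N ≠ 0 := by
    have : 0 < 2 ^ (C + 1) * 2 ^ (C + 1) := by positivity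
    omega
  generalize Nat.sqrt N = n at *
  obtain ⟨L, hL⟩ : ∃ L : ℕ, L = Nat.log 2 n := ⟨_, rfl⟩
  have hLC : C + 1 ≤ L := by
    rw [hL]
    exact Nat.le_log_of_pow_le (by norm_num) hn2
  have hlt : n < 2 ^ (L + 1) := by
    rw [hL]
    exact Nat.lt_pow_succ_log_self (by norm_num) n
  have hn : qrB n = L ^ 3 := by
    rw [hL]
    rfl
  rw [hn]
  have hn1 : (0 : ℝ) < n := by
    have : 0 < 2 ^ (C + 1) := by positivity
    have : 0 < n := by omega
    exact_mod_cast this
  have hN1 : (0 : ℝ) < N := by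
    have : 0 < N := by omega
    exact_mod_cast this
  have hL1 : (1 : ℝ) ≤ L := by
    have : 1 ≤ L := by omega
    exact_mod_cast this
  have hLc : 32 / c ≤ L := by
    have : (C : ℝ) ≤ L := by
      have : C ≤ L := by omega
      exact_mod_cast this
    linarith
  have hlog2 : Real.log 2 ≤ 1 := by
    have := Real.log_two_lt_d9
    linarith
  have hlogn : Real.log ((n : ℝ) + 1) ≤ 2 * L := by
    have h1 : ((n : ℝ) + 1) ≤ 2 ^ (L + 1) := by exact_mod_cast hlt
    have h2 : Real.log ((n : ℝ) + 1) ≤ Real.log (2 ^ (L + 1)) := Real.log_le_log (by linarith) h1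
    rw [Real.log_pow] at h2
    push_cast at h2
    have h3 : ((L : ℝ) + 1) * Real.log 2 ≤ ((L : ℝ) + 1) * 1 :=
      mul_le_mul_of_nonneg_left hlog2 (by linarith)
    linarith
  have hlogp : 0 < Real.log ((n : ℝ) + 1) := Real.log_pos (by linarith)
  have e2 : Real.log (((n + 1) ^ 2 : ℕ) : ℝ) = 2 * Real.log ((n : ℝ) + 1) := by
    push_cast
    rw [Real.log_pow]
    push_cast
    ring
  have hlogN : Real.log N ≤ 2 * Real.log ((n : ℝ) + 1) := by
    rw [← e2]
    exact Real.log_le_log hN1 (by exact_mod_cast hNn.le)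
  rw [Real.norm_of_nonneg (Real.exp_pos _).le]
  have e1 : 1 / (N : ℝ) ^ 2 = Real.exp (-(2 * Real.log N)) := by
    rw [Real.exp_neg, one_div]
    congr 1
    rw [two_mul, Real.exp_add, Real.exp_log hN1, sq]
  rw [e1, Real.exp_le_exp, neg_le_neg_iff, pow_one, e2]
  push_cast
  have h5 : c / (4 * L) ≤ c / (2 * Real.log ((n : ℝ) + 1)) :=
    div_le_div_of_nonneg_left hc.le (by linarith) (by linarith)
  have h6 : (0 : ℝ) < L := by linarith
  have h7 : 32 ≤ c * L := by
    rw [div_le_iff₀ hc] at hLc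
    linarith
  calc 2 * Real.log N ≤ 8 * L := by linarith
    _ ≤ (L : ℝ) ^ 3 * (c / (4 * L)) := by
      have e3 : (L : ℝ) ^ 3 * (c / (4 * L)) = L * (c * L) / 4 := by
        field_simp
      rw [e3]
      nlinarith
    _ ≤ (L : ℝ) ^ 3 * (c / (2 * Real.log ((n : ℝ) + 1))) :=
      mul_le_mul_of_nonneg_left h5 (by positivity)

/-- Enumeration of a finite set. -/
private theorem exists_enum (T : Finset ℕ) : ∃ f : ℕ → ℕ, (∀ i < T.card, f i ∈ T) ∧
    ∀ i < T.card, ∀ j < T.card, f i = f j → i = j := by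
  refine ⟨fun i => if h : i < T.card then T.orderEmbOfFin rfl ⟨i, h⟩ else 0, ?_, ?_⟩
  · intro i hi
    simp only [hi, dite_true]
    exact T.orderEmbOfFin_mem rfl _
  · intro i hi j hj h
    simp only [hi, hj, dite_true] at h
    have h1 := (T.orderEmbOfFin rfl).injective h
    exact congrArg Fin.val h1

theorem squaresQr (hS : IsStrikes μ S) (z : ℕ) (hz : 2 ≤ z) :
    ∀ᵐ ω ∂μ, ∀ᶠ n : ℕ in atTop, ∃ F : Finset ℕ, n ≤ F.card ^ 8 ∧ ∀ p ∈ F,
      n ^ 2 < p ∧ p < (n + 1) ^ 2 ∧ Sel z (Kof S ω) p ∧ p.Coprime n ∧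
        ∃ x : ℕ, x ^ 2 ≡ n [MOD p] := by
  classical
  obtain ⟨N0, hN0⟩ := eventually_atTop.1 (qr_many z)
  have hch : ∀ n : ℕ, ∃ f : ℕ → ℕ, N0 ≤ n →
      (∀ i < qrM n * qrB n, n ^ 2 < f i ∧ f i < (n + 1) ^ 2 ∧ (f i).Coprime n ∧
        (∃ x : ℕ, x ^ 2 ≡ n [MOD f i]) ∧ ∀ l : ℕ, l.Prime → l ≤ z → ¬ l ∣ f i) ∧
      ∀ i < qrM n * qrB n, ∀ j < qrM n * qrB n, f i = f j → i = j := by
    intro n
    by_cases h : N0 ≤ n
    · obtain ⟨T, hT1, hT2⟩ := hN0 n h
      obtain ⟨f, hf1, hf2⟩ := exists_enum T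
      exact ⟨f, fun _ => ⟨fun i hi => hT2 _ (hf1 i (hi.trans_le hT1)), fun i hi j hj hij =>
        hf2 i (hi.trans_le hT1) j (hj.trans_le hT1) hij⟩⟩
    · exact ⟨fun _ => 0, fun h' => absurd h' h⟩
  choose f hf using hch
  have hM0 : ∀ n, 0 < qrM n := fun n => by
    unfold qrM
    positivity
  have hidx : ∀ n k i : ℕ, i < qrB n → k % qrM n * qrB n + i < qrM n * qrB n := by
    intro n k i hi
    have h1 : k % qrM n + 1 ≤ qrM n := Nat.mod_lt _ (hM0 n)
    calc k % qrM n * qrB n + i < k % qrM n * qrB n + qrB n := by omega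
      _ = (k % qrM n + 1) * qrB n := by ring
      _ ≤ qrM n * qrB n := Nat.mul_le_mul_right _ h1
  have hsq : Tendsto Nat.sqrt atTop atTop := by
    refine tendsto_atTop.2 fun b => ?_
    filter_upwards [eventually_ge_atTop (b * b)] with N hN
    exact Nat.le_sqrt.2 hN
  have h := rep hS z 1 (fun N => Finset.range (qrB (Nat.sqrt N)))
    (fun N i => {f (Nat.sqrt N) ((N - Nat.sqrt N * Nat.sqrt N) % qrM (Nat.sqrt N) *
      qrB (Nat.sqrt N) + i)})
    (fun N => Nat.sqrt N ^ 2) (fun N => (Nat.sqrt N + 1) ^ 2)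
    ((tendsto_pow_atTop (by norm_num)).comp hsq)
    (Eventually.of_forall fun N => Nat.pow_le_pow_left (Nat.le_succ _) 2)
    ?_ ?_ (Eventually.of_forall fun N i _ => by simp) qr_sum
  · filter_upwards [h] with ω hω
    obtain ⟨N1, hN1⟩ := eventually_atTop.1 hω
    filter_upwards [eventually_ge_atTop N0, eventually_ge_atTop (N1 + 16)] with n hn hn1
    obtain ⟨hf1, hf2⟩ := hf n hn
    have hMn : qrM n ≤ n + n ∧ n ≤ qrM n ^ 8 ∧ 0 < qrB n := by
      obtain ⟨L, hL⟩ : ∃ L : ℕ, L = Nat.log 2 n := ⟨_, rfl⟩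
      have hL4 : 4 ≤ L := by
        rw [hL]
        exact Nat.le_log_of_pow_le (by norm_num) (by omega)
      have hpow : 2 ^ L ≤ n := by
        rw [hL]
        exact Nat.pow_log_le_self 2 (by omega)
      have hlt : n < 2 ^ (L + 1) := by
        rw [hL]
        exact Nat.lt_pow_succ_log_self (by norm_num) n
      unfold qrM qrB
      rw [← hL]
      refine ⟨?_, ?_, by positivity⟩
      · have h1 : 2 ^ ((L + 1) / 8 + 1) ≤ 2 ^ L := Nat.pow_le_pow_right (by norm_num) (by omega)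
        omega
      · rw [← pow_mul]
        exact hlt.le.trans (Nat.pow_le_pow_right (by norm_num) (by omega))
    obtain ⟨m1, m2, m3⟩ := hMn
    have hsel : ∀ k : ℕ, ∃ i : ℕ, k < qrM n → i < qrB n ∧
        Sel z (Kof S ω) (f n (k * qrB n + i)) := by
      intro k
      by_cases hk : k < qrM n
      · have e1 : Nat.sqrt (n * n + k) = n := Nat.sqrt_add_eq n (by omega)
        have h1 : n ≤ n * n := Nat.le_mul_self n
        obtain ⟨i, hi, hm⟩ := hN1 (n * n + k) (by omega)
        simp only [e1, Nat.add_sub_cancel_left, Nat.mod_eq_of_lt hk] at hi hm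
        exact ⟨i, fun _ => ⟨Finset.mem_range.1 hi, hm _ (Finset.mem_singleton_self _)⟩⟩
      · exact ⟨0, fun h' => absurd h' hk⟩
    choose i hi using hsel
    have hlt : ∀ k < qrM n, k * qrB n + i k < qrM n * qrB n := fun k hk => by
      have h1 := hidx n k (i k) (hi k hk).1
      rwa [Nat.mod_eq_of_lt hk] at h1
    refine ⟨(Finset.range (qrM n)).image fun k => f n (k * qrB n + i k), ?_, fun p hp => ?_⟩
    · rw [Finset.card_image_of_injOn, Finset.card_range]
      · exact m2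
      · intro k hk k' hk' hkk
        have a1 := Finset.mem_range.1 (Finset.mem_coe.1 hk)
        have a2 := Finset.mem_range.1 (Finset.mem_coe.1 hk')
        have e1 := hf2 _ (hlt k a1) _ (hlt k' a2) hkk
        have e2 : (k * qrB n + i k) / qrB n = k := by
          rw [Nat.mul_comm, Nat.mul_add_div m3, Nat.div_eq_of_lt (hi k a1).1, Nat.add_zero]
        have e3 : (k' * qrB n + i k') / qrB n = k' := by
          rw [Nat.mul_comm, Nat.mul_add_div m3, Nat.div_eq_of_lt (hi k' a2).1, Nat.add_zero]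
        rw [← e2, ← e3, e1]
    · obtain ⟨k, hk, rfl⟩ := Finset.mem_image.1 hp
      have a1 := Finset.mem_range.1 hk
      obtain ⟨h1, h2, h3, h4, -⟩ := hf1 _ (hlt k a1)
      exact ⟨h1, h2, (hi k a1).2, h3, h4⟩
  · filter_upwards [hsq.eventually_ge_atTop N0] with N hN i hi j hj hij
    rw [Finset.disjoint_singleton]
    intro he
    have h1 := (hf _ hN).2 _ (hidx _ _ _ (Finset.mem_range.1 hi)) _
      (hidx _ _ _ (Finset.mem_range.1 hj)) he
    omega
  · filter_upwards [hsq.eventually_ge_atTop N0, hsq.eventually_ge_atTop (z + 2)]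
      with N hN hNz i hi m hm
    rw [Finset.mem_singleton] at hm
    have h0 := (hf _ hN).1 _ (hidx _ (N - Nat.sqrt N * Nat.sqrt N) _ (Finset.mem_range.1 hi))
    rw [← hm] at h0
    obtain ⟨h1, h2, -, -, h5⟩ := h0
    have h6 : Nat.sqrt N ≤ Nat.sqrt N ^ 2 := Nat.le_self_pow (by norm_num) _
    exact ⟨h1.le, h2, by omega, by omega, h5⟩

end Pool.Agent.HwS
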