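import Pool.Agent.HwS.Rep

/-!
# Module HwS/AppSun: `n = p + x(x+1)` for odd `n`, and `p, n²-n+p, n²+n-p`, in the random sieve

Let `z ≥ 2`, `W = primorial z`.

`sun1`.  Residue: for every odd `n` there is `r < W` with `n - r(r+1)` coprime to `W`: for `ℓ = 2` automatic
(`r(r+1)` even), for an odd prime `ℓ`: `r ≡ 0` if `ℓ ∤ n`, and `r ≡ 1` if `ℓ ∣ n` (value `n - 2`).
`rep` is applied with index `N` and `n = 2N+1`, `I N = {x ≥ 1 : x ≡ r mod W, 4 x^2 ≤ N}`,
`t N x = {n - x(x+1)}` (injective in `x`), `s = 1`, `a N = N`, `b N = 2N+2`; `|I N| ≥ sqrt N/(2W) - 2`.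

`sun2`.  For every `n` there is `r < W` with `r`, `n²-n+r`, `n²+n-r` coprime to `W`: for `ℓ = 2` take `r` odd
(`n² ± n` even); for `ℓ = 3` the excluded residues `0, n-n², n²+n` are `{0}`, `{0,2}`, `{0,1}` for
`n ≡ 0, 1, 2`; for `ℓ ≥ 5` at most three residues are excluded.  `I n = {p : n < 2p, p < n, p ≡ r mod W}`,
`t n p = {p, n²-n+p, n²+n-p}`, `s = 3`, `a n = n/2`, `b n = 2n²+1`.  Disjoint: the three maps are injective,
`p < n ≤ n² - n + p'` (n ≥ 2), and `n²-n+p = n²+n-p'` would give `p + p' = 2n`.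
`|I n| ≥ n/(2W) - 2`.
-/

open MeasureTheory ProbabilityTheory Filter Topology
open scoped ENNReal

namespace Pool.Agent.HwS

variable {Ω : Type} [MeasurableSpace Ω] {μ : Measure Ω} {S : ℕ → ℕ → Set Ω} [IsProbabilityMeasure μ]

/-- Chinese remainder theorem for the primes up to `z`. -/
private theorem crt (z : ℕ) (f : ℕ → ℕ) : ∃ r, r < primorial z ∧
    ∀ l : ℕ, l.Prime → l ≤ z → r ≡ f l [MOD l] := by
  have hs : ∀ i ∈ (Finset.range (z + 1)).filter Nat.Prime, (id i : ℕ) ≠ 0 := by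
    intro i hi
    exact (Finset.mem_filter.1 hi).2.ne_zero
  have pp : Set.Pairwise ((Finset.range (z + 1)).filter Nat.Prime : Finset ℕ)
      (Function.onFun Nat.Coprime (id : ℕ → ℕ)) := by
    intro i hi j hj hij
    have hi' := (Finset.mem_filter.1 (Finset.mem_coe.1 hi)).2
    have hj' := (Finset.mem_filter.1 (Finset.mem_coe.1 hj)).2
    exact (Nat.coprime_primes hi' hj').2 hij
  obtain ⟨k, hk⟩ := Nat.chineseRemainderOfFinset f id _ hs pp
  refine ⟨k % primorial z, Nat.mod_lt _ (primorial_pos z), ?_⟩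
  intro l hl hlz
  have h1 : k ≡ f l [MOD l] := hk l (Finset.mem_filter.2 ⟨Finset.mem_range.2 (by omega), hl⟩)
  have h2 : l ∣ primorial z := hl.dvd_primorial_iff.2 hlz
  have h3 : k % primorial z ≡ k [MOD l] := (Nat.mod_modEq k (primorial z)).of_dvd h2
  exact h3.trans h1

private theorem summ (s : ℕ) {c : ℝ} (hc : 0 < c) (u b : ℕ → ℕ)
    (hu : ∀ᶠ N in atTop, N ≤ (u N + 1) ^ 4)
    (hb : ∀ᶠ N in atTop, 2 ≤ b N ∧ b N ≤ N ^ 6) :
    Summable (fun N : ℕ => Real.exp (-((u N : ℝ) * (c / Real.log (b N)) ^ s))) := by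
  have heps : 0 < c ^ s / (4 * 6 ^ s) := by positivity
  have hlog := ((isLittleO_log_rpow_rpow_atTop ((s : ℝ) + 1)
    (show (0 : ℝ) < 1 / 4 by norm_num)).bound heps)
  have hlogN := tendsto_natCast_atTop_atTop.eventually hlog
  have hsum : Summable (fun N : ℕ => 1 / (N : ℝ) ^ 2) :=
    Real.summable_one_div_nat_pow.2 (by norm_num)
  refine Summable.of_norm_bounded_eventually_nat hsum ?_
  filter_upwards [hu, hb, hlogN, eventually_ge_atTop 16] with N h1 h2 h3 h4
  have hN : (16 : ℝ) ≤ N := by exact_mod_cast h4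
  have hN0 : (0 : ℝ) < N := by linarith
  have hL : 0 < Real.log N := Real.log_pos (by linarith)
  set L := Real.log N with hLdef
  set y : ℝ := (N : ℝ) ^ (1 / 4 : ℝ) with hy
  have hy0 : 0 < y := Real.rpow_pos_of_pos hN0 _
  have hy2 : 2 ≤ y := by
    have : (2 : ℝ) = 16 ^ (1 / 4 : ℝ) := by
      rw [show (16 : ℝ) = 2 ^ (4 : ℝ) by norm_num, ← Real.rpow_mul (by norm_num)]
      norm_num
    rw [this, hy]
    exact Real.rpow_le_rpow (by norm_num) hN (by norm_num)
  have hy4 : y ^ 4 = N := by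
    rw [hy, ← Real.rpow_natCast, ← Real.rpow_mul hN0.le]
    norm_num
  have hu1 : y ≤ (u N : ℝ) + 1 := by
    by_contra hcon
    push Not at hcon
    have h5 : ((u N : ℝ) + 1) ^ 4 < y ^ 4 := by
      apply pow_lt_pow_left₀ hcon (by positivity) (by norm_num)
    rw [hy4] at h5
    have h6 : (N : ℝ) ≤ ((u N : ℝ) + 1) ^ 4 := by exact_mod_cast h1
    linarith
  have hu2 : y / 2 ≤ (u N : ℝ) := by linarith
  have hb1 : (2 : ℝ) ≤ b N := by exact_mod_cast h2.1
  have hb2 : (b N : ℝ) ≤ (N : ℝ) ^ 6 := by exact_mod_cast h2.2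
  have hlb0 : 0 < Real.log (b N) := Real.log_pos (by linarith)
  have hlb : Real.log (b N) ≤ 6 * L := by
    have := Real.log_le_log (by linarith) hb2
    rwa [Real.log_pow] at this
  have h7 : (c / (6 * L)) ^ s ≤ (c / Real.log (b N)) ^ s := by
    gcongr
  have h8 : L ^ (s + 1) ≤ c ^ s / (4 * 6 ^ s) * y := by
    have h9 : ‖L ^ ((s : ℝ) + 1)‖ ≤ c ^ s / (4 * 6 ^ s) * ‖y‖ := h3
    rw [Real.norm_of_nonneg hy0.le] at h9
    have h10 : L ^ ((s : ℝ) + 1) = L ^ (s + 1) := by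
      rw [← Real.rpow_natCast]
      push_cast
      rfl
    rw [h10, Real.norm_of_nonneg (by positivity)] at h9
    exact h9
  have h11 : 2 * L ≤ (u N : ℝ) * (c / Real.log (b N)) ^ s := by
    calc 2 * L ≤ y / 2 * (c / (6 * L)) ^ s := by
          rw [div_pow, mul_pow, div_mul_div_comm, le_div_iff₀ (by positivity)]
          have h12 : 4 * 6 ^ s * L ^ (s + 1) ≤ c ^ s * y := by
            have := mul_le_mul_of_nonneg_left h8 (show (0 : ℝ) ≤ 4 * 6 ^ s by positivity)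
            calc 4 * 6 ^ s * L ^ (s + 1) ≤ 4 * 6 ^ s * (c ^ s / (4 * 6 ^ s) * y) := this
              _ = c ^ s * y := by field_simp
          rw [pow_succ] at h12
          nlinarith
      _ ≤ (u N : ℝ) * (c / Real.log (b N)) ^ s := by
          gcongr
  rw [Real.norm_of_nonneg (Real.exp_pos _).le]
  calc Real.exp (-((u N : ℝ) * (c / Real.log (b N)) ^ s)) ≤ Real.exp (-(2 * L)) := by
        apply Real.exp_le_exp.2
        linarith
    _ = 1 / (N : ℝ) ^ 2 := by
        rw [Real.exp_neg, hLdef, show 2 * Real.log (N : ℝ) = Real.log ((N : ℝ) ^ 2) by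
          rw [Real.log_pow]; norm_num, Real.exp_log (by positivity), one_div]

private theorem card_ge {I : Finset ℕ} {r W B K : ℕ} (hW : 0 < W)
    (h : ∀ k < K, r + W * (B + k) ∈ I) : K ≤ I.card := by
  have hsub : (Finset.range K).image (fun k => r + W * (B + k)) ⊆ I := by
    intro x hx
    obtain ⟨k, hk, rfl⟩ := Finset.mem_image.1 hx
    exact h k (Finset.mem_range.1 hk)
  have h2 := Finset.card_le_card hsub
  rw [Finset.card_image_of_injective, Finset.card_range] at h2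
  · exact h2
  · intro a b hab
    have h3 : W * (B + a) = W * (B + b) := Nat.add_left_cancel hab
    have h4 := Nat.eq_of_mul_eq_mul_left hW h3
    omega

private def KK (N : ℕ) : ℕ := Nat.sqrt (Nat.sqrt N)

private theorem KK_lt (N : ℕ) : N ≤ (KK N + 1) ^ 4 := by
  have h1 : N < (Nat.sqrt N + 1) ^ 2 := Nat.lt_succ_sqrt' N
  have h2 : Nat.sqrt N < (KK N + 1) ^ 2 := Nat.lt_succ_sqrt' (Nat.sqrt N)
  have h3 : (Nat.sqrt N + 1) ^ 2 ≤ ((KK N + 1) ^ 2) ^ 2 := Nat.pow_le_pow_left h2 2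
  calc N ≤ (Nat.sqrt N + 1) ^ 2 := h1.le
    _ ≤ ((KK N + 1) ^ 2) ^ 2 := h3
    _ = (KK N + 1) ^ 4 := by ring

private theorem KK_le (N : ℕ) : KK N ^ 4 ≤ N := by
  have h1 : Nat.sqrt N ^ 2 ≤ N := Nat.sqrt_le' N
  have h2 : KK N ^ 2 ≤ Nat.sqrt N := Nat.sqrt_le' (Nat.sqrt N)
  have h3 : (KK N ^ 2) ^ 2 ≤ Nat.sqrt N ^ 2 := Nat.pow_le_pow_left h2 2
  calc KK N ^ 4 = (KK N ^ 2) ^ 2 := by ring
    _ ≤ Nat.sqrt N ^ 2 := h3
    _ ≤ N := h1

private theorem KK_ge (M : ℕ) : ∀ᶠ N in atTop, M ≤ KK N := by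
  filter_upwards [eventually_ge_atTop (M ^ 4)] with N hN
  unfold KK
  rw [Nat.le_sqrt', Nat.le_sqrt']
  calc (M ^ 2) ^ 2 = M ^ 4 := by ring
    _ ≤ N := hN

theorem sun1 (hS : IsStrikes μ S) (z : ℕ) (hz : 2 ≤ z) :
    ∀ᵐ ω ∂μ, ∀ᶠ n : ℕ in atTop, n % 2 = 1 →
      ∃ p x : ℕ, 1 ≤ x ∧ Sel z (Kof S ω) p ∧ n = p + x * (x + 1) := by
  have hW : 0 < primorial z := primorial_pos z
  set W := primorial z with hWdef
  have hr : ∀ N : ℕ, ∃ r, r < W ∧ ∀ l : ℕ, l.Prime → l ≤ z →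
      r ≡ (if l ∣ 2 * N + 1 then 1 else 0) [MOD l] := fun N =>
    crt z (fun l => if l ∣ 2 * N + 1 then 1 else 0)
  choose r hrlt hrmod using hr
  have key1 : ∀ N x l : ℕ, l.Prime → l ≤ z → x ≡ r N [MOD W] → x * (x + 1) ≤ 2 * N + 1 →
      ¬ l ∣ 2 * N + 1 - x * (x + 1) := by
    intro N x l hl hlz hx hle hdvd
    have h1 : l ∣ W := hl.dvd_primorial_iff.2 hlz
    have h2 := (hx.of_dvd h1).trans (hrmod N l hl hlz)
    by_cases h : l ∣ 2 * N + 1
    · rw [if_pos h] at h2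
      have h3 : l ∣ x * (x + 1) := by
        have h4 : x * (x + 1) = (2 * N + 1) - (2 * N + 1 - x * (x + 1)) := by omega
        rw [h4]
        exact Nat.dvd_sub h hdvd
      have h5 : x * (x + 1) ≡ 1 * (1 + 1) [MOD l] := h2.mul (h2.add_right 1)
      have h6 : l ∣ 2 := by
        have h7 := (h5.dvd_iff (dvd_refl l)).1 h3
        simpa using h7
      have h8 : l = 2 := (Nat.prime_dvd_prime_iff_eq hl Nat.prime_two).1 h6
      rw [h8] at h
      omega
    · rw [if_neg h] at h2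
      have h3 : l ∣ x := (Nat.modEq_zero_iff_dvd).1 h2
      have h4 : l ∣ x * (x + 1) := h3.mul_right _
      apply h
      have h5 : 2 * N + 1 = (2 * N + 1 - x * (x + 1)) + x * (x + 1) := by omega
      rw [h5]
      exact Nat.dvd_add hdvd h4
  let I : ℕ → Finset ℕ := fun N =>
    (Finset.range (N + 1)).filter (fun x => 1 ≤ x ∧ x ≡ r N [MOD W] ∧ 4 * x ^ 2 ≤ N)
  have hI : ∀ N x, x ∈ I N → 1 ≤ x ∧ x ≡ r N [MOD W] ∧ x * (x + 1) ≤ N := by
    intro N x hx
    obtain ⟨_, h1, h2, h3⟩ := Finset.mem_filter.1 hx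
    refine ⟨h1, h2, ?_⟩
    nlinarith
  have hcardI : ∀ᶠ N in atTop, N ≤ ((I N).card + 1) ^ 4 := by
    filter_upwards [KK_ge (4 * W)] with N hN
    have h1 : KK N ≤ (I N).card := by
      apply card_ge (r := r N) (B := 1) hW
      intro k hk
      have hx2 : 2 * (r N + W * (1 + k)) ≤ KK N ^ 2 := by
        have h2 := hrlt N
        have h3 : W * (1 + k) + W ≤ W * (KK N + 1) := by nlinarith
        have h4 : 4 * W * (KK N + 1) ≤ KK N * (KK N + 1) := Nat.mul_le_mul_right _ hN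
        nlinarith
      have h5 : 4 * (r N + W * (1 + k)) ^ 2 ≤ N := by
        calc 4 * (r N + W * (1 + k)) ^ 2 = (2 * (r N + W * (1 + k))) ^ 2 := by ring
          _ ≤ (KK N ^ 2) ^ 2 := Nat.pow_le_pow_left hx2 2
          _ = KK N ^ 4 := by ring
          _ ≤ N := KK_le N
      have h6 : 1 ≤ r N + W * (1 + k) := by nlinarith
      refine Finset.mem_filter.2 ⟨Finset.mem_range.2 (by nlinarith), h6, ?_, h5⟩
      simp [Nat.ModEq]
    calc N ≤ (KK N + 1) ^ 4 := KK_lt N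
      _ ≤ ((I N).card + 1) ^ 4 := Nat.pow_le_pow_left (by omega) 4
  have key := rep hS z 1 I (fun N x => {2 * N + 1 - x * (x + 1)}) (fun N => N)
    (fun N => 2 * N + 2) tendsto_id (Eventually.of_forall fun N => by omega) ?_ ?_ ?_ ?_
  · filter_upwards [key] with ω hω
    rw [eventually_atTop] at hω ⊢
    obtain ⟨N0, hN0⟩ := hω
    refine ⟨2 * N0 + 1, fun n hn hodd => ?_⟩
    obtain ⟨N, rfl⟩ : ∃ N, n = 2 * N + 1 := ⟨n / 2, by omega⟩
    obtain ⟨x, hx, hsel⟩ := hN0 N (by omega)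
    obtain ⟨h1, _, h3⟩ := hI N x hx
    exact ⟨2 * N + 1 - x * (x + 1), x, h1, hsel _ (Finset.mem_singleton_self _), by omega⟩
  · refine Eventually.of_forall fun N i hi j hj hij => ?_
    rw [Finset.disjoint_singleton]
    intro h
    obtain ⟨_, _, h3⟩ := hI N i hi
    obtain ⟨_, _, h3'⟩ := hI N j hj
    have h4 : i * (i + 1) = j * (j + 1) := by omega
    rcases Nat.lt_or_gt_of_ne hij with h5 | h5
    · nlinarith
    · nlinarith
  · filter_upwards [eventually_ge_atTop (z + 2)] with N hN i hi m hm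
    obtain ⟨_, h2, h3⟩ := hI N i hi
    rw [Finset.mem_singleton] at hm
    subst hm
    refine ⟨by omega, by omega, by omega, by omega, ?_⟩
    intro l hl hlz
    exact key1 N i l hl hlz h2 (by omega)
  · exact Eventually.of_forall fun N i hi => by simp
  · intro c hc
    refine summ 1 hc (fun N => (I N).card) (fun N => 2 * N + 2) hcardI ?_
    filter_upwards [eventually_ge_atTop 2] with N hN
    refine ⟨by omega, ?_⟩
    have h1 : 2 ^ 5 ≤ N ^ 5 := Nat.pow_le_pow_left hN 5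
    calc 2 * N + 2 ≤ 32 * N := by omega
      _ ≤ N ^ 5 * N := Nat.mul_le_mul_right _ h1
      _ = N ^ 6 := by ring

private theorem res2 (n l : ℕ) (hl : l.Prime) : ∃ f : ℕ, ¬ (l : ℤ) ∣ f ∧
    ¬ (l : ℤ) ∣ (n : ℤ) ^ 2 - n + f ∧ ¬ (l : ℤ) ∣ (n : ℤ) ^ 2 + n - f := by
  by_cases h2 : l = 2
  · subst h2
    refine ⟨1, by norm_num, ?_⟩
    rcases Nat.even_or_odd' n with ⟨k, hk | hk⟩
    · have e : (n : ℤ) ^ 2 = 4 * ((k : ℤ) * k) := by
        rw [hk]
        push_cast
        ring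
      rw [e]
      push_cast
      generalize (k : ℤ) * k = q
      omega
    · have e : (n : ℤ) ^ 2 = 4 * ((k : ℤ) * k) + 4 * k + 1 := by
        rw [hk]
        push_cast
        ring
      rw [e]
      push_cast
      generalize (k : ℤ) * k = q
      omega
  by_cases h3 : l = 3
  · subst h3
    have hk : ∃ k, n = 3 * k ∨ n = 3 * k + 1 ∨ n = 3 * k + 2 := ⟨n / 3, by omega⟩
    obtain ⟨k, hk | hk | hk⟩ := hk
    · refine ⟨1, by norm_num, ?_⟩
      have e : (n : ℤ) ^ 2 = 9 * ((k : ℤ) * k) := by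
        rw [hk]
        push_cast
        ring
      rw [e]
      push_cast
      generalize (k : ℤ) * k = q
      omega
    · refine ⟨1, by norm_num, ?_⟩
      have e : (n : ℤ) ^ 2 = 9 * ((k : ℤ) * k) + 6 * k + 1 := by
        rw [hk]
        push_cast
        ring
      rw [e]
      push_cast
      generalize (k : ℤ) * k = q
      omega
    · refine ⟨2, by norm_num, ?_⟩
      have e : (n : ℤ) ^ 2 = 9 * ((k : ℤ) * k) + 12 * k + 4 := by
        rw [hk]
        push_cast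
        ring
      rw [e]
      push_cast
      generalize (k : ℤ) * k = q
      omega
  have h4 : 4 ≤ l := by
    have := hl.two_le
    omega
  have hno : ∀ d : ℤ, 0 < d → d < 4 → ¬ (l : ℤ) ∣ d := by
    intro d hd0 hd4 h
    have := Int.le_of_dvd hd0 h
    omega
  by_contra hcon
  push Not at hcon
  set A : ℤ := (n : ℤ) ^ 2 - n with hA
  set B : ℤ := (n : ℤ) ^ 2 + n with hB
  have g : ∀ f : ℕ, ¬ (l : ℤ) ∣ (f : ℤ) → (l : ℤ) ∣ A + f ∨ (l : ℤ) ∣ B - f := by
    intro f hf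
    by_cases h : (l : ℤ) ∣ A + f
    · exact Or.inl h
    · exact Or.inr (hcon f hf h)
  have g1 := g 1 (hno _ (by norm_num) (by norm_num))
  have g2 := g 2 (hno _ (by norm_num) (by norm_num))
  have g3 := g 3 (hno _ (by norm_num) (by norm_num))
  push_cast at g1 g2 g3
  have d1 : ¬ (l : ℤ) ∣ 1 := hno 1 (by norm_num) (by norm_num)
  have d2 : ¬ (l : ℤ) ∣ 2 := hno 2 (by norm_num) (by norm_num)
  rcases g1 with g1 | g1 <;> rcases g2 with g2 | g2 <;> rcases g3 with g3 | g3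
  · exact d1 (by have := Int.dvd_sub g2 g1; ring_nf at this; exact this)
  · exact d1 (by have := Int.dvd_sub g2 g1; ring_nf at this; exact this)
  · exact d2 (by have := Int.dvd_sub g3 g1; ring_nf at this; exact this)
  · exact d1 (by have := Int.dvd_sub g2 g3; ring_nf at this; exact this)
  · exact d1 (by have := Int.dvd_sub g3 g2; ring_nf at this; exact this)
  · exact d2 (by have := Int.dvd_sub g1 g3; ring_nf at this; exact this)
  · exact d1 (by have := Int.dvd_sub g1 g2; ring_nf at this; exact this)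
  · exact d1 (by have := Int.dvd_sub g1 g2; ring_nf at this; exact this)

theorem sun2 (hS : IsStrikes μ S) (z : ℕ) (hz : 2 ≤ z) :
    ∀ᵐ ω ∂μ, ∀ᶠ n : ℕ in atTop, ∃ p : ℕ, p < n ∧ Sel z (Kof S ω) p ∧
      Sel z (Kof S ω) (n ^ 2 - n + p) ∧ Sel z (Kof S ω) (n ^ 2 + n - p) := by
  have hW : 0 < primorial z := primorial_pos z
  set W := primorial z with hWdef
  have hf : ∀ n l : ℕ, ∃ f : ℕ, l.Prime → (¬ (l : ℤ) ∣ f ∧
      ¬ (l : ℤ) ∣ (n : ℤ) ^ 2 - n + f ∧ ¬ (l : ℤ) ∣ (n : ℤ) ^ 2 + n - f) := by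
    intro n l
    by_cases hl : l.Prime
    · obtain ⟨f, hf⟩ := res2 n l hl
      exact ⟨f, fun _ => hf⟩
    · exact ⟨0, fun h => absurd h hl⟩
  choose f hf using hf
  have hr : ∀ n : ℕ, ∃ r, r < W ∧ ∀ l : ℕ, l.Prime → l ≤ z → r ≡ f n l [MOD l] := fun n =>
    crt z (f n)
  choose r hrlt hrmod using hr
  have key1 : ∀ n p l : ℕ, l.Prime → l ≤ z → p ≡ r n [MOD W] → p ≤ n →
      ¬ l ∣ p ∧ ¬ l ∣ n ^ 2 - n + p ∧ ¬ l ∣ n ^ 2 + n - p := by
    intro n p l hl hlz hp hle
    have h1 : l ∣ W := hl.dvd_primorial_iff.2 hlz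
    have h2 := (hp.of_dvd h1).trans (hrmod n l hl hlz)
    have h3 : (l : ℤ) ∣ (f n l : ℤ) - p := (Nat.modEq_iff_dvd).1 h2
    obtain ⟨h4, h5, h6⟩ := hf n l hl
    have hsq : n ≤ n ^ 2 := Nat.le_self_pow (by norm_num) n
    refine ⟨?_, ?_, ?_⟩
    · intro h
      apply h4
      have h7 : (l : ℤ) ∣ (p : ℤ) := Int.natCast_dvd_natCast.2 h
      have h8 := Int.dvd_add h3 h7
      rwa [sub_add_cancel] at h8
    · intro h
      apply h5
      have h7 : (l : ℤ) ∣ ((n ^ 2 - n + p : ℕ) : ℤ) := Int.natCast_dvd_natCast.2 h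
      rw [Nat.cast_add, Nat.cast_sub hsq, Nat.cast_pow] at h7
      have h8 := Int.dvd_add h3 h7
      have e : (f n l : ℤ) - p + ((n : ℤ) ^ 2 - n + p) = (n : ℤ) ^ 2 - n + f n l := by ring
      rwa [e] at h8
    · intro h
      apply h6
      have h7 : (l : ℤ) ∣ ((n ^ 2 + n - p : ℕ) : ℤ) := Int.natCast_dvd_natCast.2 h
      rw [Nat.cast_sub (by omega), Nat.cast_add, Nat.cast_pow] at h7
      have h8 := Int.dvd_sub h7 h3
      have e : (n : ℤ) ^ 2 + n - p - ((f n l : ℤ) - p) = (n : ℤ) ^ 2 + n - f n l := by ring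
      rwa [e] at h8
  let I : ℕ → Finset ℕ := fun n =>
    (Finset.range n).filter (fun p => n < 2 * p ∧ p ≡ r n [MOD W])
  have hI : ∀ n p, p ∈ I n → p < n ∧ n < 2 * p ∧ p ≡ r n [MOD W] := by
    intro n p hp
    obtain ⟨h0, h1, h2⟩ := Finset.mem_filter.1 hp
    exact ⟨Finset.mem_range.1 h0, h1, h2⟩
  have hcardI : ∀ᶠ N in atTop, N ≤ ((I N).card + 1) ^ 4 := by
    filter_upwards [KK_ge (4 * W)] with n hN
    have h1 : KK n ≤ (I n).card := by
      apply card_ge (r := r n) (B := n / (2 * W) + 1) hW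
      intro k hk
      have h2 := hrlt n
      have h3 : 2 * W * (n / (2 * W)) ≤ n := Nat.mul_div_le n (2 * W)
      have h4 : n < 2 * W * (n / (2 * W)) + 2 * W := by
        have := Nat.div_add_mod n (2 * W)
        have h5 := Nat.mod_lt n (show 0 < 2 * W by omega)
        omega
      have hK4 := KK_le n
      have hK2 : 2 * KK n ^ 2 ≤ KK n ^ 4 := by
        have h6 : 2 ≤ KK n ^ 2 := by nlinarith
        calc 2 * KK n ^ 2 ≤ KK n ^ 2 * KK n ^ 2 := Nat.mul_le_mul_right _ h6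
          _ = KK n ^ 4 := by ring
      have e : r n + W * (n / (2 * W) + 1 + k) =
          r n + W * (n / (2 * W)) + W + W * k := by ring
      have h3' : 2 * (W * (n / (2 * W))) ≤ n := by rwa [← mul_assoc]
      have h4' : n < 2 * (W * (n / (2 * W))) + 2 * W := by rwa [← mul_assoc]
      have h7 : W * k + W ≤ W * KK n := by nlinarith
      have h8 : 4 * (W * KK n) ≤ KK n ^ 2 := by nlinarith
      have h9 : 4 * W ≤ KK n ^ 2 := by nlinarith
      refine Finset.mem_filter.2 ⟨Finset.mem_range.2 ?_, ?_, ?_⟩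
      · rw [e]
        generalize W * (n / (2 * W)) = q at *
        generalize W * k = q1 at *
        generalize W * KK n = q2 at *
        omega
      · rw [e]
        generalize W * (n / (2 * W)) = q at *
        generalize W * k = q1 at *
        omega
      · simp [Nat.ModEq]
    calc n ≤ (KK n + 1) ^ 4 := KK_lt n
      _ ≤ ((I n).card + 1) ^ 4 := Nat.pow_le_pow_left (by omega) 4
  have hsq : ∀ n : ℕ, 2 ≤ n → 2 * n ≤ n ^ 2 := fun n hn => by nlinarith
  have key := rep hS z 3 I (fun n p => {p, n ^ 2 - n + p, n ^ 2 + n - p}) (fun n => n / 2)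
    (fun n => 2 * n ^ 2 + 1) ?_ ?_ ?_ ?_ ?_ ?_
  · filter_upwards [key] with ω hω
    filter_upwards [hω] with n hn
    obtain ⟨p, hp, hsel⟩ := hn
    exact ⟨p, (hI n p hp).1, hsel _ (by simp), hsel _ (by simp), hsel _ (by simp)⟩
  · rw [tendsto_atTop]
    intro M
    filter_upwards [eventually_ge_atTop (2 * M)] with n hn
    omega
  · refine Eventually.of_forall fun n => ?_
    have : n ≤ n ^ 2 := Nat.le_self_pow (by norm_num) n
    change n / 2 ≤ 2 * n ^ 2 + 1
    omega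
  · filter_upwards [eventually_ge_atTop 2] with n hn i hi j hj hij
    obtain ⟨h1, h2, _⟩ := hI n i hi
    obtain ⟨h1', h2', _⟩ := hI n j hj
    have h3 := hsq n hn
    rw [Finset.disjoint_left]
    intro a ha hb
    simp only [Finset.mem_insert, Finset.mem_singleton] at ha hb
    generalize n ^ 2 = q at *
    omega
  · filter_upwards [eventually_ge_atTop (2 * z + 4)] with n hn i hi m hm
    obtain ⟨h1, h2, h3⟩ := hI n i hi
    have h4 := hsq n (by omega)
    have hk : ∀ l : ℕ, l.Prime → l ≤ z →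
      ¬ l ∣ i ∧ ¬ l ∣ n ^ 2 - n + i ∧ ¬ l ∣ n ^ 2 + n - i := fun l hl hlz =>
      key1 n i l hl hlz h3 h1.le
    simp only [Finset.mem_insert, Finset.mem_singleton] at hm
    rcases hm with hm | hm | hm
    · subst hm
      refine ⟨by omega, ?_, by omega, by omega, fun l hl hlz => (hk l hl hlz).1⟩
      generalize n ^ 2 = q at *
      omega
    · subst hm
      refine ⟨?_, ?_, ?_, ?_, fun l hl hlz => (hk l hl hlz).2.1⟩ <;>
      · generalize n ^ 2 = q at *
        omega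
    · subst hm
      refine ⟨?_, ?_, ?_, ?_, fun l hl hlz => (hk l hl hlz).2.2⟩ <;>
      · generalize n ^ 2 = q at *
        omega
  · exact Eventually.of_forall fun n i hi => Finset.card_le_three
  · intro c hc
    refine summ 3 hc (fun n => (I n).card) (fun n => 2 * n ^ 2 + 1) hcardI ?_
    filter_upwards [eventually_ge_atTop 2] with n hn
    have h1 : 2 ^ 4 ≤ n ^ 4 := Nat.pow_le_pow_left hn 4
    have h2 : 2 ^ 2 ≤ n ^ 2 := Nat.pow_le_pow_left hn 2
    refine ⟨by omega, ?_⟩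
    calc 2 * n ^ 2 + 1 ≤ 2 ^ 4 * n ^ 2 := by omega
      _ ≤ n ^ 4 * n ^ 2 := Nat.mul_le_mul_right _ h1
      _ = n ^ 6 := by ring

end Pool.Agent.HwS
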