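import Pool.Agent.HwS.Rep

/-!
# Module HwS/AppThree: `2^n + 2^i + 1` in the random sieve

Let `z ≥ 2` and `λ = ∏_{ℓ ≤ z odd prime} (ℓ - 1)` (or any common multiple, e.g. `z !`).  If `n ≡ 1`, `i ≡ 0 mod λ`,
`0 < i < n`, then for every odd prime `ℓ ≤ z`: `2^n + 2^i + 1 ≡ 2 + 1 + 1 = 4 mod ℓ` (Fermat), not `0`, and
`2^n + 2^i + 1` is odd: so it is active when it is `> z`.

`rep` with index `N`: `I N` codes the pairs `(n,i)` with `N < i < n`, `2N ≤ n`... simplest: `n ∈ [2N, 3N)`,
`i ∈ [N, 2N)`, `n ≡ 1`, `i ≡ 0 mod λ` (code a pair by `Nat.pair n i` or by the number `2^n + 2^i + 1` itself);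
`t N (n,i) = {2^n + 2^i + 1}`, different pairs give different numbers (binary expansion), `s = 1`,
`a N = 2^N`, `b N = 2^(3N)`, `|I N| ≥ (N/λ - 1)^2`; `|I N| c/(3 N log 2) ≥ c' N` for large `N`.
Conclusion for all large `N` some pair with `n ≥ N`: infinitely many.
-/

set_option linter.all false

open MeasureTheory ProbabilityTheory Filter Topology
open scoped ENNReal

namespace Pool.Agent.HwS

variable {Ω : Type} [MeasurableSpace Ω] {μ : Measure Ω} {S : ℕ → ℕ → Set Ω} [IsProbabilityMeasure μ]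

/-- the exponent `i` -/
private def three_i (L N j : ℕ) : ℕ := L * (N / L + 1 + j / (N / L - 2))

/-- the exponent `n` -/
private def three_n (L N j : ℕ) : ℕ := L * (2 * N / L + 1 + j % (N / L - 2)) + 1

private theorem three_bd {L N j : ℕ} (hL : 2 ≤ L) (hj : j < (N / L - 2) * (N / L - 2)) :
    N < three_i L N j ∧ three_i L N j < three_n L N j ∧ three_n L N j + 3 ≤ 3 * N := by
  have hq : 0 < N / L - 2 := by
    rcases Nat.eq_zero_or_pos (N / L - 2) with h | h
    · rw [h] at hj; simp at hj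
    · exact h
  have hu : j / (N / L - 2) < N / L - 2 := Nat.div_lt_of_lt_mul hj
  have hv : j % (N / L - 2) < N / L - 2 := Nat.mod_lt _ hq
  have h1 : L * (N / L) ≤ N := Nat.mul_div_le N L
  have h2 : N < L * (N / L + 1) := Nat.lt_mul_div_succ N (by omega)
  have h3 : L * (2 * N / L) ≤ 2 * N := Nat.mul_div_le _ L
  have h4 : 2 * N < L * (2 * N / L + 1) := Nat.lt_mul_div_succ _ (by omega)
  unfold three_i three_n
  generalize j / (N / L - 2) = u at *
  generalize j % (N / L - 2) = v at *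
  generalize N / L = w at *
  generalize 2 * N / L = w2 at *
  have h5 : L * (w + 1 + u) + 2 * L ≤ L * (2 * w) := by
    have : w + 1 + u + 2 ≤ 2 * w := by omega
    calc L * (w + 1 + u) + 2 * L = L * (w + 1 + u + 2) := by ring
      _ ≤ L * (2 * w) := Nat.mul_le_mul_left _ this
  have h6 : L * (w2 + 1 + v) + 2 * L ≤ L * w2 + L * w := by
    have : w2 + 1 + v + 2 ≤ w2 + w := by omega
    calc L * (w2 + 1 + v) + 2 * L = L * (w2 + 1 + v + 2) := by ring
      _ ≤ L * (w2 + w) := Nat.mul_le_mul_left _ this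
      _ = L * w2 + L * w := by ring
  have h7 : L * (w + 1) ≤ L * (w + 1 + u) := Nat.mul_le_mul_left _ (by omega)
  have h8 : L * (w2 + 1) ≤ L * (w2 + 1 + v) := Nat.mul_le_mul_left _ (by omega)
  have h9 : L * (2 * w) = 2 * (L * w) := by ring
  refine ⟨by omega, by omega, by omega⟩

private theorem three_inj {n i n' i' : ℕ} (h : i < n) (h' : i' < n')
    (he : 2 ^ n + 2 ^ i + 1 = 2 ^ n' + 2 ^ i' + 1) : n = n' ∧ i = i' := by
  have key : ∀ {n i n' i' : ℕ}, i < n → 2 ^ n + 2 ^ i + 1 = 2 ^ n' + 2 ^ i' + 1 → ¬ n < n' := by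
    intro n i n' i' hi he hlt
    have h1 : 2 ^ i < 2 ^ n := Nat.pow_lt_pow_right (by norm_num) hi
    have h2 : 2 ^ (n + 1) ≤ 2 ^ n' := Nat.pow_le_pow_right (by norm_num) hlt
    have h3 : 2 ^ (n + 1) = 2 * 2 ^ n := by rw [pow_succ]; ring
    have h4 : 0 < 2 ^ i' := by positivity
    omega
  have hn : n = n' := by
    rcases lt_trichotomy n n' with h1 | h1 | h1
    · exact absurd h1 (key h he)
    · exact h1
    · exact absurd h1 (key h' he.symm)
  refine ⟨hn, ?_⟩
  subst hn
  have h2 : 2 ^ i = 2 ^ i' := by omega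
  exact Nat.pow_right_injective le_rfl h2

private theorem three_ndvd {z p u v : ℕ} (hp : p.Prime) (hpz : p ≤ z) (hu : 1 ≤ u) :
    ¬ p ∣ 2 ^ (z.factorial * v + 1) + 2 ^ (z.factorial * u) + 1 := by
  intro hd
  have hfpos : 0 < z.factorial := Nat.factorial_pos z
  by_cases h2 : p = 2
  · subst h2
    have h3 : 2 ∣ 2 ^ (z.factorial * v + 1) := dvd_pow_self 2 (by omega)
    have h4 : 2 ∣ 2 ^ (z.factorial * u) := by
      refine dvd_pow_self 2 ?_
      have : 0 < z.factorial * u := Nat.mul_pos hfpos (by omega)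
      omega
    have h5 := (Nat.dvd_add_right (dvd_add h3 h4)).1 hd
    omega
  · haveI := Fact.mk hp
    have h3 : (2 : ZMod p) ≠ 0 := by
      intro h
      have h4 : ((2 : ℕ) : ZMod p) = 0 := by exact_mod_cast h
      rw [ZMod.natCast_eq_zero_iff] at h4
      exact h2 ((Nat.prime_dvd_prime_iff_eq hp Nat.prime_two).1 h4)
    have h4 : (2 : ZMod p) ^ (p - 1) = 1 := ZMod.pow_card_sub_one_eq_one h3
    have h5 : (p - 1) ∣ z.factorial :=
      Nat.dvd_factorial (by have := hp.two_le; omega) (by omega)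
    obtain ⟨w, hw⟩ := h5
    have h6 : ∀ x, (2 : ZMod p) ^ (z.factorial * x) = 1 := by
      intro x
      rw [hw, mul_assoc, pow_mul, h4, one_pow]
    have h7 : ((2 ^ (z.factorial * v + 1) + 2 ^ (z.factorial * u) + 1 : ℕ) : ZMod p) = 0 :=
      (ZMod.natCast_eq_zero_iff _ _).2 hd
    push_cast at h7
    rw [pow_succ, h6, h6] at h7
    have h8 : (2 : ZMod p) ^ 2 = 0 := by
      rw [← h7]; ring
    exact h3 (pow_eq_zero_iff (by norm_num) |>.1 h8)

private theorem three_sum (L : ℕ) (hL : 2 ≤ L) (c : ℝ) (hc : 0 < c) :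
    Summable (fun N : ℕ => Real.exp (-((((Finset.range ((N / L - 2) * (N / L - 2))).card : ℕ) : ℝ) *
      (c / Real.log ((2 ^ (3 * N) : ℕ) : ℝ)) ^ 1))) := by
  have hL0 : (0 : ℝ) < L := by
    have : 0 < L := by omega
    exact_mod_cast this
  have hlog2 : 0 < Real.log 2 := Real.log_pos (by norm_num)
  obtain ⟨c', hc'⟩ : ∃ c' : ℝ, c' = c / (12 * (L : ℝ) ^ 2 * Real.log 2) := ⟨_, rfl⟩
  have hc'0 : 0 < c' := by rw [hc']; positivity
  have hg : Summable (fun N : ℕ => Real.exp (-c') ^ N) :=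
    summable_geometric_of_lt_one (Real.exp_pos _).le
      (by rw [← Real.exp_zero]; exact Real.exp_lt_exp.2 (by linarith))
  refine Summable.of_norm_bounded_eventually_nat hg ?_
  filter_upwards [eventually_ge_atTop (6 * L)] with N hN
  rw [Real.norm_of_nonneg (Real.exp_pos _).le, ← Real.exp_nat_mul, Real.exp_le_exp, pow_one,
    Finset.card_range]
  have hN0 : (0 : ℝ) < N := by
    have : 0 < N := by omega
    exact_mod_cast this
  have hlog : Real.log ((2 ^ (3 * N) : ℕ) : ℝ) = 3 * N * Real.log 2 := by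
    push_cast
    rw [Real.log_pow]
    push_cast
    ring
  rw [hlog]
  have hq : (N : ℝ) / (2 * L) ≤ ((N / L - 2 : ℕ) : ℝ) := by
    have h1 : N < L * (N / L + 1) := Nat.lt_mul_div_succ N (by omega)
    have h6 : 6 ≤ N / L := by
      rw [Nat.le_div_iff_mul_le (by omega)]
      omega
    have h2 : (N : ℝ) < L * (((N / L - 2 : ℕ) : ℝ) + 3) := by
      have h3 : N / L + 1 = (N / L - 2) + 3 := by omega
      rw [h3] at h1
      exact_mod_cast h1
    rw [div_le_iff₀ (by positivity)]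
    have h4 : (6 : ℝ) * L ≤ N := by exact_mod_cast hN
    nlinarith
  have hq2 : ((N : ℝ) / (2 * L)) ^ 2 ≤ (((N / L - 2) * (N / L - 2) : ℕ) : ℝ) := by
    push_cast
    rw [sq]
    exact mul_le_mul hq hq (by positivity) (Nat.cast_nonneg _)
  have hfin : (N : ℝ) * c' ≤ (((N / L - 2) * (N / L - 2) : ℕ) : ℝ) * (c / (3 * N * Real.log 2)) := by
    calc (N : ℝ) * c' = ((N : ℝ) / (2 * L)) ^ 2 * (c / (3 * N * Real.log 2)) := by
          rw [hc']
          field_simp
          ring
      _ ≤ _ := mul_le_mul_of_nonneg_right hq2 (by positivity)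
  linarith

theorem threeOnes (hS : IsStrikes μ S) (z : ℕ) (hz : 2 ≤ z) :
    ∀ᵐ ω ∂μ, ∀ᶠ N : ℕ in atTop, ∃ n i : ℕ, N ≤ i ∧ i < n ∧ n < 3 * N ∧
      Sel z (Kof S ω) (2 ^ n + 2 ^ i + 1) := by
  obtain ⟨L, hLdef⟩ : ∃ L : ℕ, L = z.factorial := ⟨_, rfl⟩
  have hL : 2 ≤ L := by
    rw [hLdef]
    exact hz.trans (Nat.self_le_factorial z)
  have h := rep hS z 1 (fun N => Finset.range ((N / L - 2) * (N / L - 2)))
    (fun N j => {2 ^ (three_n L N j) + 2 ^ (three_i L N j) + 1}) (fun N => 2 ^ N)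
    (fun N => 2 ^ (3 * N)) (tendsto_pow_atTop_atTop_of_one_lt (by norm_num))
    (Eventually.of_forall fun N => Nat.pow_le_pow_right (by norm_num) (by omega))
    (Eventually.of_forall fun N i hi j hj hij => ?_)
    ?_ (Eventually.of_forall fun N i hi => by simp)
    (fun c hc => three_sum L hL c hc)
  · filter_upwards [h] with ω hω
    filter_upwards [hω] with N hN
    obtain ⟨j, hj, hm⟩ := hN
    obtain ⟨h1, h2, h3⟩ := three_bd hL (Finset.mem_range.1 hj)
    exact ⟨three_n L N j, three_i L N j, h1.le, h2, by omega, hm _ (Finset.mem_singleton_self _)⟩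
  · rw [Finset.disjoint_singleton]
    intro he
    obtain ⟨-, a2, -⟩ := three_bd hL (Finset.mem_range.1 hi)
    obtain ⟨-, b2, -⟩ := three_bd hL (Finset.mem_range.1 hj)
    obtain ⟨e1, e2⟩ := three_inj a2 b2 he
    apply hij
    unfold three_n at e1
    unfold three_i at e2
    have hL0 : 0 < L := by omega
    have e3 := Nat.eq_of_mul_eq_mul_left hL0 (Nat.add_right_cancel e1)
    have e4 := Nat.eq_of_mul_eq_mul_left hL0 e2
    have e5 : i % (N / L - 2) = j % (N / L - 2) := by omega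
    have e6 : i / (N / L - 2) = j / (N / L - 2) := by omega
    rw [← Nat.div_add_mod i (N / L - 2), ← Nat.div_add_mod j (N / L - 2), e5, e6]
  · filter_upwards [eventually_ge_atTop z] with N hN j hj m hm
    rw [Finset.mem_singleton] at hm
    obtain ⟨h1, h2, h3⟩ := three_bd hL (Finset.mem_range.1 hj)
    have h4 : 2 ^ N ≤ 2 ^ (three_i L N j) := Nat.pow_le_pow_right (by norm_num) h1.le
    have h5 : 2 ^ (three_i L N j) < 2 ^ (three_n L N j) := Nat.pow_lt_pow_right (by norm_num) h2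
    have h6 : 2 ^ (three_n L N j + 3) ≤ 2 ^ (3 * N) := Nat.pow_le_pow_right (by norm_num) h3
    have h7 : 2 ^ (three_n L N j + 3) = 8 * 2 ^ (three_n L N j) := by rw [pow_add]; ring
    have h8 : z < 2 ^ N := (Nat.lt_two_pow_self (n := z)).trans_le
      (Nat.pow_le_pow_right (by norm_num) hN)
    have h9 : 0 < 2 ^ (three_i L N j) := by positivity
    refine ⟨?_, ?_, ?_, ?_, ?_⟩
    · rw [hm]; omega
    · rw [hm]; omega
    · rw [hm]; omega
    · rw [hm]; omega
    · intro p hp hpz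
      rw [hm]
      unfold three_n three_i
      rw [hLdef]
      exact three_ndvd hp hpz (Nat.succ_le_of_lt (by positivity))

end Pool.Agent.HwS
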