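import Mathlib

/-!
# A random sieve (Hawkins sieve after a sieve by the true primes up to z)

`Sel z K n`: the number `n` is selected.  Numbers `n ≤ z` are selected iff they are prime.
A number `n > z` is selected iff `2 ≤ n`, no prime `p ≤ z` divides `n`, and no selected number `m`
with `z < m < n` strikes `n` (`K m n` means that `m` strikes `n`).

In the probabilistic model (`IsStrikes`) the events `S m n` (number `m` strikes number `n`) are
independent and have probability `1/m`.
-/

open MeasureTheory ProbabilityTheory Filter Topology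
open scoped ENNReal

namespace Pool.Agent.HwS

/-- `n` is selected by the sieve with strikes `K`. -/
def Sel (z : ℕ) (K : ℕ → ℕ → Prop) (n : ℕ) : Prop :=
  if n ≤ z then n.Prime
  else 2 ≤ n ∧ (∀ p : ℕ, p.Prime → p ≤ z → ¬ p ∣ n) ∧
    ∀ m : Fin n, z < (m : ℕ) → Sel z K (m : ℕ) → ¬ K (m : ℕ) n
termination_by n
decreasing_by exact m.2

/-- The strike events `S m n` are measurable, independent, of probability `1/m` for `m ≥ 1`. -/
structure IsStrikes {Ω : Type} [MeasurableSpace Ω] (μ : Measure Ω) (S : ℕ → ℕ → Set Ω) : Prop where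
  meas : ∀ m n, MeasurableSet (S m n)
  indep : iIndepSet (fun p : ℕ × ℕ => S p.1 p.2) μ
  prob : ∀ m n, 1 ≤ m → μ (S m n) = ((m : ℕ) : ℝ≥0∞)⁻¹

/-- The strikes at the sample point `ω`. -/
def Kof {Ω : Type} (S : ℕ → ℕ → Set Ω) (ω : Ω) : ℕ → ℕ → Prop := fun m n => ω ∈ S m n

open Classical in
/-- The history: the selected numbers below `n`. -/
noncomputable def H (z : ℕ) (K : ℕ → ℕ → Prop) (n : ℕ) : Finset ℕ :=
  (Finset.range n).filter (fun m => Sel z K m)

/-- `n` can be selected (given a suitable history): `n > z`, `n ≥ 2`, no prime `≤ z` divides `n`. -/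
def act (z n : ℕ) : Prop := z < n ∧ 2 ≤ n ∧ ∀ p : ℕ, p.Prime → p ≤ z → ¬ p ∣ n

/-- The histories that can occur. -/
def Good (z n : ℕ) (A : Finset ℕ) : Prop :=
  A ⊆ Finset.range n ∧ ∀ m ∈ A, (m ≤ z ∧ m.Prime) ∨ act z m

/-- The conditional probability that an active `n` is selected, given the history `A`. -/
noncomputable def yy (z : ℕ) (A : Finset ℕ) (n : ℕ) : ℝ :=
  ∏ m ∈ A.filter (fun m => z < m ∧ m < n), (1 - 1 / (m : ℝ))

/-- Expectation of a function of the history below `n`. -/
noncomputable def Ex {Ω : Type} [MeasurableSpace Ω] (μ : Measure Ω) (S : ℕ → ℕ → Set Ω)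
    (z n : ℕ) (g : Finset ℕ → ℝ) : ℝ := ∫ ω, g (H z (Kof S ω) n) ∂μ

/-- The terms of the Cunningham chain of the first kind which starts at `n`. -/
def ch (j n : ℕ) : ℕ := 2 ^ j * (n + 1) - 1

/-- `1/(j-1)` summed over the active `j < n`. -/
noncomputable def hsum (z n : ℕ) : ℝ :=
  open Classical in ∑ j ∈ (Finset.range n).filter (fun j => act z j), 1 / ((j : ℝ) - 1)

/-- `n` starts a chain of selected numbers of exact length `k`. -/
def StartsExact (R : ℕ → Prop) (n k : ℕ) : Prop := (∀ j < k, R (ch j n)) ∧ ¬ R (ch k n)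

open Classical in
/-- Number of residues `r` mod `p` killed by `p` for a chain of length `k`. -/
noncomputable def nu (k p : ℕ) : ℕ :=
  ((Finset.range p).filter (fun r => ∃ j < k, p ∣ ch j r)).card

/-- The partial product (over `p ≤ z`) of the Bateman-Horn constant of the chain of length `k`. -/
noncomputable def sing (z k : ℕ) : ℝ :=
  ∏ p ∈ (Finset.range (z + 1)).filter Nat.Prime, (1 - (nu k p : ℝ) / p) * (1 - 1 / (p : ℝ))⁻¹ ^ k

theorem sel_iff (z : ℕ) (K : ℕ → ℕ → Prop) (n : ℕ) :
    Sel z K n ↔ (n ≤ z ∧ n.Prime) ∨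
      (act z n ∧ ∀ m, z < m → m < n → Sel z K m → ¬ K m n) := by
  rw [Sel]
  unfold act
  by_cases h : n ≤ z
  · simp only [h, if_true, true_and]
    constructor
    · intro hp; exact Or.inl hp
    · rintro (hp | ⟨⟨h1, _⟩, _⟩)
      · exact hp
      · omega
  · simp only [h, if_false, false_and, false_or]
    constructor
    · rintro ⟨h2, h3, h4⟩
      exact ⟨⟨by omega, h2, h3⟩, fun m hzm hmn hs => h4 ⟨m, hmn⟩ hzm hs⟩
    · rintro ⟨⟨_, h2, h3⟩, h4⟩
      exact ⟨h2, h3, fun m hzm hs => h4 m hzm m.2 hs⟩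

end Pool.Agent.HwS
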