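import Pool.Agent.HwS.Base

/-!
# Module HwS/SumA: summation over windows (deterministic)

`X' r i = ⌈(1+1/(r+3))^i⌉` (same as `X r i` of module Win, repeated here so that this file is independent).
If for all `r` and all `η > 0` the number of `n ∈ [X' r i, X' r (i+1))` with `P n` is
`(1 ± η) κ (X' r (i+1) - X' r i) / log(X' r i)^k` for all large `i`, then
`#{n ≤ x : P n} (log x)^k / x → κ`.

Proof (Stolz-Cesaro).  With `W i = X' r i`, `G i = W i / log(W i)^k` and
`D i = (W (i+1) - W i)/log(W i)^k` one has `G (i+1) - G i - D i = o(D i)`, so the number of `n ∈ [1, W N)`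
with `P n` is `~ κ G N`.  For `W N ≤ x < W (N+1)` the quotient `#{n ≤ x : P n} (log x)^k / x` lies between
two quantities which tend to `κ / a` and `κ a`, where `a = 1 + 1/(r+3)`.  Let `r → ∞`.
-/

open Filter Topology

namespace Pool.Agent.HwS

/-- A form of the Stolz-Cesaro theorem. -/
theorem stolz_aux (c D G : ℕ → ℝ) (κ : ℝ) (hD : ∀ i, 0 ≤ D i)
    (hDG : (fun i => (G (i + 1) - G i) - D i) =o[atTop] D)
    (hDs : Tendsto (fun n => ∑ i ∈ Finset.range n, D i) atTop atTop)
    (hc : (fun i => c i - κ * D i) =o[atTop] D) :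
    Tendsto (fun n => (∑ i ∈ Finset.range n, c i) / G n) atTop (𝓝 κ) := by
  have h1 := (hDG.sum_range hD hDs).tendsto_div_nhds_zero
  have h2 := (hc.sum_range hD hDs).tendsto_div_nhds_zero
  have hne : ∀ᶠ n in atTop, 0 < ∑ i ∈ Finset.range n, D i := hDs.eventually_gt_atTop 0
  have h3 : Tendsto (fun n => G 0 / ∑ i ∈ Finset.range n, D i) atTop (𝓝 0) :=
    hDs.const_div_atTop (G 0)
  have h4 : Tendsto (fun n => G n / ∑ i ∈ Finset.range n, D i) atTop (𝓝 1) := by
    have h5 := (h1.add h3).add_const 1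
    rw [zero_add, zero_add] at h5
    refine h5.congr' ?_
    filter_upwards [hne] with n hn
    rw [Finset.sum_sub_distrib, Finset.sum_range_sub]
    field_simp
    ring
  have h6 : Tendsto (fun n => (∑ i ∈ Finset.range n, c i) / ∑ i ∈ Finset.range n, D i) atTop
      (𝓝 κ) := by
    have h7 := h2.add_const κ
    rw [zero_add] at h7
    refine h7.congr' ?_
    filter_upwards [hne] with n hn
    rw [Finset.sum_sub_distrib, ← Finset.mul_sum]
    field_simp
    ring
  have h8 := h6.div h4 one_ne_zero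
  rw [div_one] at h8
  refine h8.congr' ?_
  filter_upwards [hne] with n hn
  simp only [Pi.div_apply]
  rw [div_div_div_cancel_right₀ hn.ne']

/-- The limits used for the windows. -/
theorem win_lim (a : ℝ) (ha : 1 < a) (W : ℕ → ℕ) (hW : ∀ i, W i = ⌈a ^ i⌉₊) (k : ℕ) :
    Tendsto (fun i => (W i : ℝ)) atTop atTop ∧
    Tendsto (fun i => (W (i + 1) : ℝ) / W i) atTop (𝓝 a) ∧
    Tendsto (fun i => Real.log (W i) / Real.log (W (i + 1))) atTop (𝓝 1) ∧
    Tendsto (fun i => (W i : ℝ) / Real.log (W i) ^ k) atTop atTop := by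
  have ha0 : 0 < a := by linarith
  have hp : Tendsto (fun i : ℕ => a ^ i) atTop atTop := tendsto_pow_atTop_atTop_of_one_lt ha
  have hW1 : Tendsto (fun i => (W i : ℝ)) atTop atTop := by
    refine tendsto_atTop_mono (fun i => ?_) hp
    rw [hW]
    exact Nat.le_ceil _
  have hWpos : ∀ i, 0 < (W i : ℝ) := fun i => by
    rw [hW]
    exact lt_of_lt_of_le (pow_pos ha0 i) (Nat.le_ceil _)
  have hr : Tendsto (fun i => (W i : ℝ) / a ^ i) atTop (𝓝 1) := by
    have h := (tendsto_nat_ceil_div_atTop (R := ℝ)).comp hp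
    refine h.congr (fun i => ?_)
    simp only [Function.comp]
    rw [hW]
  have hq : Tendsto (fun i => (W (i + 1) : ℝ) / W i) atTop (𝓝 a) := by
    have h1 := ((tendsto_add_atTop_iff_nat (f := fun i => (W i : ℝ) / a ^ i) 1).2 hr)
    have h2 := (h1.div hr one_ne_zero).const_mul a
    rw [div_one, mul_one] at h2
    refine h2.congr (fun i => ?_)
    simp only [Pi.div_apply]
    have hi := (hWpos i).ne'
    have hai : a ^ i ≠ 0 := (pow_pos ha0 i).ne'
    rw [pow_succ]
    field_simp
  have hlog : Tendsto (fun i => Real.log (W i)) atTop atTop := Real.tendsto_log_atTop.comp hW1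
  have hlog1 : Tendsto (fun i => Real.log (W (i + 1))) atTop atTop :=
    (tendsto_add_atTop_iff_nat (f := fun i => Real.log (W i : ℝ)) 1).2 hlog
  have hd : Tendsto (fun i => Real.log ((W (i + 1) : ℝ) / W i)) atTop (𝓝 (Real.log a)) :=
    hq.log ha0.ne'
  refine ⟨hW1, hq, ?_, ?_⟩
  · have h3 : Tendsto (fun i => 1 - Real.log ((W (i + 1) : ℝ) / W i) / Real.log (W (i + 1)))
        atTop (𝓝 (1 - 0)) := (hd.div_atTop hlog1).const_sub 1
    rw [sub_zero] at h3
    refine h3.congr' ?_
    filter_upwards [hlog1.eventually_gt_atTop 0] with i hi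
    rw [Real.log_div (hWpos (i + 1)).ne' (hWpos i).ne']
    field_simp
    ring
  · have h4 : Tendsto (fun x : ℝ => x / Real.log x ^ k) atTop atTop := by
      have h5 := (Real.isLittleO_pow_log_id_atTop (n := k)).tendsto_div_nhds_zero
      have h6 : Tendsto (fun x : ℝ => (Real.log x ^ k / id x)⁻¹) atTop atTop := by
        refine Tendsto.inv_tendsto_nhdsGT_zero ?_
        refine tendsto_nhdsWithin_iff.2 ⟨h5, ?_⟩
        filter_upwards [eventually_gt_atTop 1] with x hx
        exact div_pos (pow_pos (Real.log_pos hx) k) (by simp only [id]; linarith)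
      refine h6.congr (fun x => ?_)
      rw [inv_div, id]
    exact h4.comp hW1

open Classical in
/-- The number of `n ∈ [1, W N)` with `P n` is asymptotically `κ W N / log(W N)^k`. -/
theorem count_windows (P : ℕ → Prop) (κ : ℝ) (hκ : 0 < κ) (k : ℕ) (a : ℝ) (ha : 1 < a)
    (W : ℕ → ℕ) (hW : ∀ i, W i = ⌈a ^ i⌉₊)
    (h : ∀ η : ℝ, 0 < η → η < 1 → ∀ᶠ i : ℕ in atTop,
      |((((Finset.Ico (W i) (W (i + 1))).filter (fun n => P n)).card : ℝ) -
        κ * ((W (i + 1) : ℝ) - W i) / Real.log (W i) ^ k)| ≤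
        η * (κ * ((W (i + 1) : ℝ) - W i) / Real.log (W i) ^ k)) :
    Tendsto (fun N => (((Finset.Ico 1 (W N)).filter (fun n => P n)).card : ℝ) /
      ((W N : ℝ) / Real.log (W N) ^ k)) atTop (𝓝 κ) := by
  have ha0 : 0 < a := by linarith
  obtain ⟨hW1, hq, hl, hG⟩ := win_lim a ha W hW k
  have hmono : Monotone W := by
    intro i j hij
    rw [hW, hW]
    exact Nat.ceil_mono (pow_le_pow_right₀ ha.le hij)
  have hWpos : ∀ i, 1 ≤ W i := fun i => by
    rw [hW]
    exact Nat.one_le_ceil_iff.2 (pow_pos ha0 i)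
  have hWposR : ∀ i, 0 < (W i : ℝ) := fun i => by
    have := hWpos i
    exact_mod_cast this
  have hW0 : W 0 = 1 := by rw [hW]; simp
  have hlog0 : ∀ i, 0 ≤ Real.log (W i) := fun i =>
    Real.log_nonneg (by exact_mod_cast hWpos i)
  set D : ℕ → ℝ := fun i => ((W (i + 1) : ℝ) - W i) / Real.log (W i) ^ k with hDdef
  set G : ℕ → ℝ := fun i => (W i : ℝ) / Real.log (W i) ^ k with hGdef
  have hD : ∀ i, 0 ≤ D i := fun i => by
    have h1 : (W i : ℝ) ≤ W (i + 1) := by exact_mod_cast hmono (Nat.le_succ i)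
    exact div_nonneg (by linarith) (pow_nonneg (hlog0 i) k)
  have hDtop : Tendsto D atTop atTop := by
    have h1 : Tendsto (fun i => ((W (i + 1) : ℝ) / W i - 1) * G i) atTop atTop :=
      Tendsto.pos_mul_atTop (C := a - 1) (by linarith) (hq.sub_const 1) hG
    refine h1.congr (fun i => ?_)
    have hi := (hWposR i).ne'
    simp only [hDdef, hGdef]
    rw [div_sub_one hi]
    rw [div_mul_div_comm, mul_comm (W i : ℝ) (Real.log _ ^ k), mul_div_mul_right _ _ hi]
  have hDs : Tendsto (fun n => ∑ i ∈ Finset.range n, D i) atTop atTop := by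
    rw [← tendsto_add_atTop_iff_nat 1]
    refine tendsto_atTop_mono (fun n => ?_) hDtop
    exact Finset.single_le_sum (fun i _ => hD i) (Finset.mem_range.2 (Nat.lt_succ_self n))
  have hDpos : ∀ᶠ i in atTop, 0 < D i := hDtop.eventually_gt_atTop 0
  have hlogpos : ∀ᶠ i in atTop, 0 < Real.log (W i) :=
    (Real.tendsto_log_atTop.comp hW1).eventually_gt_atTop 0
  have hDG : (fun i => (G (i + 1) - G i) - D i) =o[atTop] D := by
    refine Asymptotics.isLittleO_of_tendsto' ?_ ?_
    · filter_upwards [hDpos] with i hi h0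
      exact absurd h0 hi.ne'
    · have h1 : Tendsto (fun i => ((W (i + 1) : ℝ) / W i) / ((W (i + 1) : ℝ) / W i - 1) *
          ((Real.log (W i) / Real.log (W (i + 1))) ^ k - 1)) atTop (𝓝 (a / (a - 1) * (1 ^ k - 1))) :=
        (hq.div (hq.sub_const 1) (by linarith)).mul ((hl.pow k).sub_const 1)
      rw [one_pow, sub_self, mul_zero] at h1
      refine h1.congr' ?_
      filter_upwards [hDpos, hlogpos] with i hi hli
      have hi0 := (hWposR i).ne'
      have hli1 : 0 < Real.log (W (i + 1)) := by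
        refine lt_of_lt_of_le hli ?_
        exact Real.log_le_log (hWposR i) (by exact_mod_cast hmono (Nat.le_succ i))
      have hw : (W (i + 1) : ℝ) - W i ≠ 0 := by
        intro h0
        simp only [hDdef] at hi
        rw [h0, zero_div] at hi
        exact lt_irrefl _ hi
      have hlk := (pow_pos hli k).ne'
      have hlk1 := (pow_pos hli1 k).ne'
      simp only [hDdef, hGdef]
      rw [div_sub_one hi0, div_div_div_cancel_right₀ hi0, div_pow]
      rw [eq_div_iff (div_ne_zero hw hlk)]
      field_simp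
      ring
  have hc : (fun i => (((Finset.Ico (W i) (W (i + 1))).filter (fun n => P n)).card : ℝ) - κ * D i)
      =o[atTop] D := by
    rw [Asymptotics.isLittleO_iff]
    intro c hc
    have hη : 0 < min (c / κ) (1 / 2) := lt_min (div_pos hc hκ) (by norm_num)
    have hη1 : min (c / κ) (1 / 2) < 1 := lt_of_le_of_lt (min_le_right _ _) (by norm_num)
    filter_upwards [h _ hη hη1] with i hi
    rw [mul_div_assoc] at hi
    rw [Real.norm_eq_abs, Real.norm_eq_abs, abs_of_nonneg (hD i)]
    refine hi.trans ?_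
    have h2 : min (c / κ) (1 / 2) * (κ * D i) ≤ c / κ * (κ * D i) :=
      mul_le_mul_of_nonneg_right (min_le_left _ _) (mul_nonneg hκ.le (hD i))
    refine h2.trans (le_of_eq ?_)
    field_simp
  have key := stolz_aux _ D G κ hD hDG hDs hc
  refine key.congr (fun N => ?_)
  simp only [hGdef]
  congr 1
  rw [← Nat.cast_sum]
  congr 1
  induction N with
  | zero => simp [hW0]
  | succ n ih =>
    rw [Finset.sum_range_succ, ih]
    rw [← Finset.card_union_of_disjoint, ← Finset.filter_union,
      Finset.Ico_union_Ico_eq_Ico (hWpos n) (hmono (Nat.le_succ n))]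
    refine Finset.disjoint_filter_filter ?_
    exact Finset.Ico_disjoint_Ico_consecutive _ _ _

open Classical in
theorem sum_windows (P : ℕ → Prop) (κ : ℝ) (hκ : 0 < κ) (k : ℕ) (X' : ℕ → ℕ → ℕ)
    (hX : ∀ r i : ℕ, X' r i = ⌈(1 + 1 / ((r : ℝ) + 3)) ^ i⌉₊)
    (h : ∀ r : ℕ, ∀ η : ℝ, 0 < η → η < 1 → ∀ᶠ i : ℕ in atTop,
      |((((Finset.Ico (X' r i) (X' r (i + 1))).filter (fun n => P n)).card : ℝ) -
        κ * ((X' r (i + 1) : ℝ) - X' r i) / Real.log (X' r i) ^ k)| ≤
        η * (κ * ((X' r (i + 1) : ℝ) - X' r i) / Real.log (X' r i) ^ k)) :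
    Tendsto (fun x : ℕ => (((Finset.range (x + 1)).filter (fun n => P n)).card : ℝ) *
      Real.log x ^ k / x) atTop (𝓝 κ) := by
  -- bounds for a fixed `r`
  have hr : ∀ r : ℕ, ∀ lo hi : ℝ, lo < κ / (1 + 1 / ((r : ℝ) + 3)) →
      κ * (1 + 1 / ((r : ℝ) + 3)) < hi → ∀ᶠ x : ℕ in atTop,
      lo < (((Finset.range (x + 1)).filter (fun n => P n)).card : ℝ) * Real.log x ^ k / x ∧
      (((Finset.range (x + 1)).filter (fun n => P n)).card : ℝ) * Real.log x ^ k / x < hi := by
    intro r lo hi hlo hhi
    set a : ℝ := 1 + 1 / ((r : ℝ) + 3) with hadef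
    have ha : 1 < a := by
      have : 0 < 1 / ((r : ℝ) + 3) := by positivity
      linarith
    have ha0 : 0 < a := by linarith
    set W : ℕ → ℕ := X' r with hWdef
    have hW : ∀ i, W i = ⌈a ^ i⌉₊ := fun i => hX r i
    obtain ⟨hW1, hq, hl, hG⟩ := win_lim a ha W hW k
    have hcount := count_windows P κ hκ k a ha W hW (h r)
    have hWpos : ∀ i, 1 ≤ W i := fun i => by
      rw [hW]
      exact Nat.one_le_ceil_iff.2 (pow_pos ha0 i)
    have hWposR : ∀ i, 0 < (W i : ℝ) := fun i => by
      have := hWpos i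
      exact_mod_cast this
    have hlog0 : ∀ i, 0 ≤ Real.log (W i) := fun i =>
      Real.log_nonneg (by exact_mod_cast hWpos i)
    -- the lower function
    have hL : Tendsto (fun N => (((Finset.Ico 1 (W N)).filter (fun n => P n)).card : ℝ) /
        ((W N : ℝ) / Real.log (W N) ^ k) / ((W (N + 1) : ℝ) / W N)) atTop (𝓝 (κ / a)) :=
      hcount.div hq ha0.ne'
    -- the upper function
    have hU : Tendsto (fun N => ((((Finset.Ico 1 (W (N + 1))).filter (fun n => P n)).card : ℝ) /
        ((W (N + 1) : ℝ) / Real.log (W (N + 1)) ^ k) +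
          1 / ((W (N + 1) : ℝ) / Real.log (W (N + 1)) ^ k)) *
          ((W (N + 1) : ℝ) / W N)) atTop (𝓝 ((κ + 0) * a)) := by
      refine Tendsto.mul (Tendsto.add ?_ ?_) hq
      · exact (tendsto_add_atTop_iff_nat (f := fun N =>
          (((Finset.Ico 1 (W N)).filter (fun n => P n)).card : ℝ) /
          ((W N : ℝ) / Real.log (W N) ^ k)) 1).2 hcount
      · exact (tendsto_add_atTop_iff_nat (f := fun N =>
          1 / ((W N : ℝ) / Real.log (W N) ^ k)) 1).2 (hG.const_div_atTop 1)
    rw [add_zero] at hU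
    have hN : Tendsto (fun x : ℕ => ⌊Real.log x / Real.log a⌋₊) atTop atTop := by
      refine tendsto_nat_floor_atTop.comp ?_
      exact ((Real.tendsto_log_atTop.comp tendsto_natCast_atTop_atTop).atTop_div_const
        (Real.log_pos ha))
    filter_upwards [hN.eventually (hL.eventually_const_lt hlo),
      hN.eventually (hU.eventually_lt_const hhi), eventually_ge_atTop 1,
      hN.eventually ((Real.tendsto_log_atTop.comp hW1).eventually_gt_atTop 0)] with x h1 h2 hx hlW
    simp only [Function.comp] at hlW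
    set N := ⌊Real.log x / Real.log a⌋₊ with hNdef
    have hxR : (1 : ℝ) ≤ x := by exact_mod_cast hx
    have hx0 : (0 : ℝ) < x := by linarith
    have hloga : 0 < Real.log a := Real.log_pos ha
    have hN1 : a ^ N ≤ x := by
      rw [← Real.log_le_log_iff (pow_pos ha0 N) hx0, Real.log_pow]
      have := Nat.floor_le (div_nonneg (Real.log_nonneg hxR) hloga.le)
      rwa [le_div_iff₀ hloga] at this
    have hN2 : (x : ℝ) < a ^ (N + 1) := by
      rw [← Real.log_lt_log_iff hx0 (pow_pos ha0 _), Real.log_pow]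
      have := Nat.lt_floor_add_one (Real.log x / Real.log a)
      rw [div_lt_iff₀ hloga] at this
      push_cast
      exact this
    have hWN : W N ≤ x := by
      rw [hW]
      exact Nat.ceil_le.2 hN1
    have hWN1 : x < W (N + 1) := by
      have : (x : ℝ) < W (N + 1) := by
        rw [hW]
        exact lt_of_lt_of_le hN2 (Nat.le_ceil _)
      exact_mod_cast this
    have hWNR : (W N : ℝ) ≤ x := by exact_mod_cast hWN
    have hWN1R : (x : ℝ) ≤ W (N + 1) := by exact_mod_cast hWN1.le
    have hlogx0 : 0 ≤ Real.log x := Real.log_nonneg hxR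
    have hlog1 : Real.log (W N) ≤ Real.log x := Real.log_le_log (hWposR N) hWNR
    have hlog2 : Real.log x ≤ Real.log (W (N + 1)) := Real.log_le_log hx0 hWN1R
    -- counts
    have hc1 : (((Finset.Ico 1 (W N)).filter (fun n => P n)).card : ℝ) ≤
        (((Finset.range (x + 1)).filter (fun n => P n)).card : ℝ) := by
      have : ((Finset.Ico 1 (W N)).filter (fun n => P n)) ⊆
          ((Finset.range (x + 1)).filter (fun n => P n)) := by
        refine Finset.filter_subset_filter _ ?_
        intro n hn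
        rw [Finset.mem_Ico] at hn
        rw [Finset.mem_range]
        omega
      exact_mod_cast Finset.card_le_card this
    have hc2 : (((Finset.range (x + 1)).filter (fun n => P n)).card : ℝ) ≤
        (((Finset.Ico 1 (W (N + 1))).filter (fun n => P n)).card : ℝ) + 1 := by
      have : ((Finset.range (x + 1)).filter (fun n => P n)) ⊆
          insert 0 ((Finset.Ico 1 (W (N + 1))).filter (fun n => P n)) := by
        intro n hn
        rw [Finset.mem_filter, Finset.mem_range] at hn
        rw [Finset.mem_insert, Finset.mem_filter, Finset.mem_Ico]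
        rcases Nat.eq_zero_or_pos n with h0 | h0
        · exact Or.inl h0
        · exact Or.inr ⟨⟨h0, by omega⟩, hn.2⟩
      have h3 := (Finset.card_le_card this).trans (Finset.card_insert_le _ _)
      exact_mod_cast h3
    set A : ℝ := (((Finset.range (x + 1)).filter (fun n => P n)).card : ℝ) with hA
    set B : ℝ := (((Finset.Ico 1 (W N)).filter (fun n => P n)).card : ℝ) with hB
    set C : ℝ := (((Finset.Ico 1 (W (N + 1))).filter (fun n => P n)).card : ℝ) with hC
    have hA0 : 0 ≤ A := Nat.cast_nonneg _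
    have hB0 : 0 ≤ B := Nat.cast_nonneg _
    have hC0 : 0 ≤ C := Nat.cast_nonneg _
    have hWN0 := (hWposR N)
    have hWN10 := (hWposR (N + 1))
    have hlk : 0 < Real.log (W N) ^ k := pow_pos hlW k
    have hlk1 : 0 < Real.log (W (N + 1)) ^ k := pow_pos (by linarith) k
    constructor
    · refine lt_of_lt_of_le h1 ?_
      have e1 : B / ((W N : ℝ) / Real.log (W N) ^ k) / ((W (N + 1) : ℝ) / W N) =
          B * Real.log (W N) ^ k / W (N + 1) := by
        field_simp
      rw [e1]
      have : Real.log (W N) ^ k ≤ Real.log x ^ k := pow_le_pow_left₀ hlW.le hlog1 k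
      calc B * Real.log (W N) ^ k / W (N + 1) ≤ A * Real.log x ^ k / W (N + 1) := by gcongr
        _ ≤ A * Real.log x ^ k / x := by gcongr
    · refine lt_of_le_of_lt ?_ h2
      have e2 : (C / ((W (N + 1) : ℝ) / Real.log (W (N + 1)) ^ k) +
          1 / ((W (N + 1) : ℝ) / Real.log (W (N + 1)) ^ k)) * ((W (N + 1) : ℝ) / W N) =
          (C + 1) * Real.log (W (N + 1)) ^ k / W N := by
        field_simp
      rw [e2]
      have : Real.log x ^ k ≤ Real.log (W (N + 1)) ^ k := pow_le_pow_left₀ hlogx0 hlog2 k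
      calc A * Real.log x ^ k / x ≤ (C + 1) * Real.log (W (N + 1)) ^ k / x := by gcongr
        _ ≤ (C + 1) * Real.log (W (N + 1)) ^ k / W N := by gcongr
  -- let `r → ∞`
  have hlim : Tendsto (fun r : ℕ => 1 + 1 / ((r : ℝ) + 3)) atTop (𝓝 1) := by
    have h1 : Tendsto (fun r : ℕ => (r : ℝ) + 3) atTop atTop :=
      tendsto_atTop_add_const_right _ _ tendsto_natCast_atTop_atTop
    have h2 := (h1.const_div_atTop 1).const_add 1
    rwa [add_zero] at h2
  rw [tendsto_order]
  constructor
  · intro lo hlo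
    have h1 : Tendsto (fun r : ℕ => κ / (1 + 1 / ((r : ℝ) + 3))) atTop (𝓝 κ) := by
      have := (tendsto_const_nhds (x := κ)).div hlim one_ne_zero
      rwa [div_one] at this
    obtain ⟨r, hr1⟩ := (h1.eventually_const_lt hlo).exists
    filter_upwards [hr r lo (κ * (1 + 1 / ((r : ℝ) + 3)) + 1) hr1 (by linarith)] with x hx
    exact hx.1
  · intro hi hhi
    have h1 : Tendsto (fun r : ℕ => κ * (1 + 1 / ((r : ℝ) + 3))) atTop (𝓝 κ) := by
      have := hlim.const_mul κ
      rwa [mul_one] at this
    obtain ⟨r, hr1⟩ := (h1.eventually_lt_const hhi).exists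
    filter_upwards [hr r (κ / (1 + 1 / ((r : ℝ) + 3)) - 1) hi (by linarith) hr1] with x hx
    exact hx.2

end Pool.Agent.HwS
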