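import Pool.Agent.HwS.Win
import Pool.Agent.HwS.SumA

/-!
# Module HwS/Cnt: the number of chains of exact length `k`

Proof.  `window` for all `k ≥ 1`, `r` and `η = 1/(s+2)` (countably many null sets) and `sum_windows` (a smaller
`η` suffices for a larger one) give almost surely for all `k ≥ 1`:
`N_k(x) (log x)^k / x → sing z k`, `N_k(x) = #{n ≤ x : Sel (ch j n) for all j < k}`.
`{n ≤ x : StartsExact n k}` is the difference of the sets for `k` and `k+1`
(the second is contained in the first), and `N_{k+1}(x) (log x)^k / x → 0`.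
-/

open MeasureTheory ProbabilityTheory Filter Topology
open scoped ENNReal

namespace Pool.Agent.HwS

variable {Ω : Type} [MeasurableSpace Ω] {μ : Measure Ω} {S : ℕ → ℕ → Set Ω} [IsProbabilityMeasure μ]

theorem cnt_X_mono (r i : ℕ) : (X r i : ℝ) ≤ X r (i + 1) := by
  have h : X r i ≤ X r (i + 1) := by
    unfold X
    refine Nat.ceil_mono (pow_le_pow_right₀ ?_ (Nat.le_succ i))
    have : 0 ≤ 1 / ((r : ℝ) + 3) := by positivity
    linarith
  exact_mod_cast h

theorem cnt_Q_nonneg (z k r i : ℕ) :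
    0 ≤ sing z k * ((X r (i + 1) : ℝ) - X r i) / Real.log (X r i) ^ k := by
  have h1 := cnt_X_mono r i
  have h2 := (sing_pos z k).le
  have h3 : 0 ≤ Real.log (X r i) := Real.log_natCast_nonneg _
  exact div_nonneg (mul_nonneg h2 (by linarith)) (pow_nonneg h3 _)

open Classical in
theorem cnt_lim (R : ℕ → Prop) {k : ℕ} {c d : ℝ}
    (h1 : Tendsto (fun x : ℕ => (((Finset.range (x + 1)).filter
      (fun n => ∀ j < k, R (ch j n))).card : ℝ) * Real.log x ^ k / x) atTop (𝓝 c))
    (h2 : Tendsto (fun x : ℕ => (((Finset.range (x + 1)).filter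
      (fun n => ∀ j < k + 1, R (ch j n))).card : ℝ) * Real.log x ^ (k + 1) / x) atTop (𝓝 d)) :
    Tendsto (fun x : ℕ => (Set.ncard {n : ℕ | n ≤ x ∧ StartsExact R n k} : ℝ) *
        Real.log x ^ k / x) atTop (𝓝 c) := by
  have hlog : Tendsto (fun x : ℕ => (Real.log x)⁻¹) atTop (𝓝 0) :=
    (Real.tendsto_log_atTop.comp tendsto_natCast_atTop_atTop).inv_tendsto_atTop
  have h3 := h1.sub (h2.mul hlog)
  rw [mul_zero, sub_zero] at h3
  refine h3.congr' ?_
  filter_upwards [eventually_ge_atTop 2] with x hx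
  have hx0 : Real.log x ≠ 0 := by
    have : 0 < Real.log x := Real.log_pos (by exact_mod_cast hx)
    exact this.ne'
  have hset : {n : ℕ | n ≤ x ∧ StartsExact R n k} =
      (((Finset.range (x + 1)).filter (fun n => ∀ j < k, R (ch j n))) \
        ((Finset.range (x + 1)).filter (fun n => ∀ j < k + 1, R (ch j n))) : Finset ℕ) := by
    ext n
    simp only [Set.mem_ofPred_eq, Finset.coe_sdiff, Finset.coe_filter, Finset.mem_range,
      Set.mem_sdiff, StartsExact]
    constructor
    · rintro ⟨h4, h5, h6⟩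
      exact ⟨⟨by omega, h5⟩, fun h7 => h6 (h7.2 k (Nat.lt_succ_self k))⟩
    · rintro ⟨⟨h4, h5⟩, h6⟩
      refine ⟨by omega, h5, fun h7 => h6 ⟨h4, fun j hj => ?_⟩⟩
      rcases Nat.lt_succ_iff_lt_or_eq.1 hj with h8 | h8
      · exact h5 j h8
      · rw [h8]
        exact h7
  have hsub : (Finset.range (x + 1)).filter (fun n => ∀ j < k + 1, R (ch j n)) ⊆
      (Finset.range (x + 1)).filter (fun n => ∀ j < k, R (ch j n)) := by
    intro n hn
    rw [Finset.mem_filter] at hn ⊢
    exact ⟨hn.1, fun j hj => hn.2 j (by omega)⟩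
  rw [hset, Set.ncard_coe_finset, Finset.card_sdiff_of_subset hsub,
    Nat.cast_sub (Finset.card_le_card hsub)]
  rw [pow_succ]
  field_simp

theorem count_exact (hS : IsStrikes μ S) (z : ℕ) :
    ∀ᵐ ω ∂μ, ∀ k : ℕ, 1 ≤ k →
      Tendsto (fun x : ℕ => (Set.ncard {n : ℕ | n ≤ x ∧ StartsExact (Sel z (Kof S ω)) n k} : ℝ) *
        Real.log x ^ k / x) atTop (𝓝 (sing z k)) := by
  classical
  have hall : ∀ᵐ ω ∂μ, ∀ (k r s : ℕ), 1 ≤ k → ∀ᶠ i : ℕ in atTop,
      |((((Finset.Ico (X r i) (X r (i + 1))).filter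
          (fun n => ∀ j < k, Sel z (Kof S ω) (ch j n))).card : ℝ) -
        sing z k * ((X r (i + 1) : ℝ) - X r i) / Real.log (X r i) ^ k)| ≤
        (1 / ((s : ℝ) + 2)) * (sing z k * ((X r (i + 1) : ℝ) - X r i) / Real.log (X r i) ^ k) := by
    rw [ae_all_iff]
    intro k
    rw [ae_all_iff]
    intro r
    rw [ae_all_iff]
    intro s
    by_cases hk : 1 ≤ k
    · have hs : (0 : ℝ) < (s : ℝ) + 2 := by positivity
      filter_upwards [window hS z k r hk (η := 1 / ((s : ℝ) + 2)) (by positivity)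
        (by rw [div_lt_one hs]; linarith [Nat.cast_nonneg (α := ℝ) s])] with ω hω _
      convert hω
    · filter_upwards with ω h
      exact absurd h hk
  filter_upwards [hall] with ω hω
  have hk : ∀ k : ℕ, 1 ≤ k → Tendsto (fun x : ℕ => (((Finset.range (x + 1)).filter
      (fun n => ∀ j < k, Sel z (Kof S ω) (ch j n))).card : ℝ) * Real.log x ^ k / x) atTop
      (𝓝 (sing z k)) := by
    intro k hk
    have h := sum_windows (fun n => ∀ j < k, Sel z (Kof S ω) (ch j n)) (sing z k) (sing_pos z k) k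
      X (fun _ _ => rfl) (by
        intro r η hη hη1
        obtain ⟨s, hs⟩ := exists_nat_ge (1 / η)
        have hs2 : 1 / ((s : ℝ) + 2) ≤ η := by
          rw [div_le_iff₀ (by positivity)]
          rw [div_le_iff₀ hη] at hs
          nlinarith
        filter_upwards [hω k r s hk] with i hi
        have hi2 := hi.trans (mul_le_mul_of_nonneg_right hs2 (cnt_Q_nonneg z k r i))
        refine le_trans (le_of_eq ?_) hi2
        congr 5)
    convert h
  intro k hk1
  exact cnt_lim (Sel z (Kof S ω)) (hk k hk1) (hk (k + 1) (by omega))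

end Pool.Agent.HwS
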