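import Pool.Agent.HwS.Base
import Pool.Agent.RSC.Crt

/-!
# Module HwS/Den: densities (deterministic)

`W = ∏_{p ≤ z} p` (Mathlib `primorial z`).  Everything below is periodic mod `W`.
* `nu_lt`: `r = p - 1` is never killed: `ch j (p-1) = 2^j p - 1` is not divisible by `p`
  (`2^j p - 1 ≥ 1`, `p ∣ 2^j p - 1` and `p ∣ 2^j p` would give `p ∣ 1`).
* `count_ch`: for `n > z`, `n ≥ 2` the terms `ch j n ≥ n` are `> z` and `≥ 2`, so `act z (ch j n)` iff no prime
  `p ≤ z` divides it.  The condition 'for all primes p ≤ z and all j < k: ¬ p ∣ ch j n' depends only on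
  `n mod W`, and by the Chinese remainder theorem the number of good residues mod `W` is
  `∏_p (p - nu k p)`, i.e. `W * dens z k`.  In `[a, b)` there are `⌊(b-a)/W⌋` full periods and a rest of
  length `< W`: error at most `W`.  (Instead of the Chinese remainder theorem one can also induct on the
  primes: adding one prime `q` multiplies the count in a period by `q - nu k q`.)
* `count_act`: the same for `act` itself (this is `k = 1`: `ch 0 n = n`, `nu 1 p = 1`).
* `hsum_tendsto`: with `A(x) = #{j < x : act z j} = rho z * x + O(1)`, Abel summation gives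
  `hsum z n = rho z * log n + O(1)`.
-/

open Filter Topology

namespace Pool.Agent.HwS

/-- density of the numbers without prime factor `≤ z` -/
noncomputable def rho (z : ℕ) : ℝ :=
  ∏ p ∈ (Finset.range (z + 1)).filter Nat.Prime, (1 - 1 / (p : ℝ))

/-- density of the `n` for which the first `k` terms of the chain have no prime factor `≤ z` -/
noncomputable def dens (z k : ℕ) : ℝ :=
  ∏ p ∈ (Finset.range (z + 1)).filter Nat.Prime, (1 - (nu k p : ℝ) / p)

theorem nu_lt {p : ℕ} (hp : p.Prime) (k : ℕ) : nu k p < p := by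
  unfold nu
  have h1 : (Finset.range p).filter (fun r => ∃ j < k, p ∣ ch j r) ⊆
      (Finset.range p).erase (p - 1) := by
    intro r hr
    rw [Finset.mem_filter] at hr
    rw [Finset.mem_erase]
    refine ⟨?_, hr.1⟩
    rintro rfl
    obtain ⟨j, _, hj⟩ := hr.2
    unfold ch at hj
    have h2 : p - 1 + 1 = p := Nat.sub_add_cancel hp.one_le
    rw [h2] at hj
    have h3 : 1 ≤ 2 ^ j * p := Nat.mul_pos (by positivity) hp.pos
    have h4 : p ∣ 2 ^ j * p := Dvd.intro_left _ rfl
    have h5 : p ∣ 2 ^ j * p - (2 ^ j * p - 1) := Nat.dvd_sub h4 hj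
    have h6 : 2 ^ j * p - (2 ^ j * p - 1) = 1 := by omega
    rw [h6] at h5
    exact hp.one_lt.ne' (Nat.dvd_one.1 h5)
  have h2 := Finset.card_le_card h1
  rw [Finset.card_erase_of_mem (Finset.mem_range.2 (Nat.sub_lt hp.pos one_pos)),
    Finset.card_range] at h2
  have := hp.pos
  omega

theorem Den_fac {p : ℕ} (hp : p.Prime) : 0 < 1 - 1 / (p : ℝ) := by
  have h1 : (1 : ℝ) < p := by exact_mod_cast hp.one_lt
  rw [sub_pos, div_lt_one (by linarith)]
  exact h1

theorem rho_pos (z : ℕ) : 0 < rho z := by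
  unfold rho
  exact Finset.prod_pos fun p hp => Den_fac (Finset.mem_filter.1 hp).2

theorem rho_le_one (z : ℕ) : rho z ≤ 1 := by
  unfold rho
  refine Finset.prod_le_one (fun p hp => (Den_fac (Finset.mem_filter.1 hp).2).le) fun p _ => ?_
  have : 0 ≤ 1 / (p : ℝ) := by positivity
  linarith

theorem dens_pos (z k : ℕ) : 0 < dens z k := by
  unfold dens
  refine Finset.prod_pos fun p hp => ?_
  have hpp := (Finset.mem_filter.1 hp).2
  have h1 : (nu k p : ℝ) < p := by exact_mod_cast nu_lt hpp k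
  have h2 : (0 : ℝ) < p := by exact_mod_cast hpp.pos
  rw [sub_pos, div_lt_one h2]
  exact h1

theorem sing_eq (z k : ℕ) : sing z k = dens z k / rho z ^ k := by
  unfold sing dens rho
  rw [Finset.prod_mul_distrib, div_eq_mul_inv, ← Finset.prod_pow, ← Finset.prod_inv_distrib]
  congr 1
  exact Finset.prod_congr rfl fun p _ => by rw [inv_pow]

theorem sing_pos (z k : ℕ) : 0 < sing z k := by
  rw [sing_eq]
  exact div_pos (dens_pos z k) (pow_pos (rho_pos z) k)

theorem Den_window {f : ℕ → ℝ} {d : ℕ} (hper : ∀ b, f (b + d) = f b) (M : ℕ) :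
    ∑ b ∈ Finset.Ico M (M + d), f b = ∑ b ∈ Finset.range d, f b := by
  induction M with
  | zero => rw [Nat.zero_add, Finset.range_eq_Ico]
  | succ M ih =>
    have h1 : ∑ b ∈ Finset.Ico M (M + 1 + d), f b =
        f M + ∑ b ∈ Finset.Ico (M + 1) (M + 1 + d), f b :=
      Finset.sum_eq_sum_Ico_succ_bot (by omega) f
    have h2 : ∑ b ∈ Finset.Ico M (M + d + 1), f b =
        ∑ b ∈ Finset.Ico M (M + d), f b + f (M + d) :=
      Finset.sum_Ico_succ_top (by omega) f
    have h3 : M + 1 + d = M + d + 1 := by omega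
    rw [h3] at h1 ⊢
    rw [hper] at h2
    linarith

theorem Den_per {f : ℕ → ℝ} {d : ℕ} (hd : 0 < d) (hper : ∀ b, f (b + d) = f b)
    (hsum : ∑ b ∈ Finset.range d, f b = 0) {B : ℝ} (hB : ∀ b, |f b| ≤ B) (l : ℕ) :
    ∀ M : ℕ, |∑ b ∈ Finset.Ico M (M + l), f b| ≤ d * B := by
  have hB0 : 0 ≤ B := (abs_nonneg _).trans (hB 0)
  induction l using Nat.strong_induction_on with
  | _ l ih =>
    intro M
    rcases Nat.lt_or_ge l d with h | h
    · calc |∑ b ∈ Finset.Ico M (M + l), f b| ≤ ∑ b ∈ Finset.Ico M (M + l), |f b| :=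
            Finset.abs_sum_le_sum_abs _ _
        _ ≤ ∑ b ∈ Finset.Ico M (M + l), B := Finset.sum_le_sum fun b _ => hB b
        _ = l * B := by simp
        _ ≤ d * B := mul_le_mul_of_nonneg_right (by exact_mod_cast h.le) hB0
    · obtain ⟨m, rfl⟩ := Nat.exists_eq_add_of_le h
      have h1 := Finset.sum_Ico_consecutive f (show M ≤ M + d by omega)
        (show M + d ≤ M + d + m by omega)
      rw [Den_window hper M, hsum, zero_add] at h1
      rw [← Nat.add_assoc, ← h1]
      exact ih m (by omega) (M + d)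

theorem Den_ch_mod {p : ℕ} (j n : ℕ) : p ∣ ch j (n + p) ↔ p ∣ ch j n := by
  unfold ch
  have h1 : 2 ^ j * (n + p + 1) - 1 = (2 ^ j * (n + 1) - 1) + p * 2 ^ j := by
    have h2 : 1 ≤ 2 ^ j * (n + 1) := Nat.mul_pos (by positivity) (by omega)
    have h3 : 2 ^ j * (n + p + 1) = 2 ^ j * (n + 1) + p * 2 ^ j := by ring
    omega
  rw [h1]
  exact (Nat.dvd_add_left (Dvd.intro _ rfl))

theorem Den_crt (P : Finset ℕ) (hP : ∀ p ∈ P, p.Prime) (f : ℕ → ℕ → ℝ)
    (hper : ∀ p b, f p (b + p) = f p b) :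
    ∑ b ∈ Finset.range (∏ p ∈ P, p), ∏ p ∈ P, f p b = ∏ p ∈ P, ∑ b ∈ Finset.range p, f p b := by
  classical
  induction P using Finset.induction_on with
  | empty => simp
  | insert q P hq ih =>
    have hP' : ∀ p ∈ P, p.Prime := fun p hp => hP p (Finset.mem_insert_of_mem hp)
    have hqp : q.Prime := hP q (Finset.mem_insert_self q P)
    rw [Finset.prod_insert hq, Finset.prod_insert hq, ← ih hP']
    rw [← Pool.Agent.RSC.crt_mul hqp.pos (Finset.prod_pos fun p hp => (hP' p hp).pos)
      (Nat.Coprime.prod_right fun p hp => (Nat.coprime_primes hqp (hP' p hp)).2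
        (fun h => hq (h ▸ hp))) (hper q)
      (fun b => Pool.Agent.RSC.prod_per (fun p _ b => hper p b) b)]
    exact Finset.sum_congr rfl fun b _ => Finset.prod_insert hq

open Classical in
theorem count_ch (z k : ℕ) : ∃ C : ℝ, ∀ a b : ℕ, z < a → 2 ≤ a → a ≤ b →
    |((((Finset.Ico a b).filter (fun n => ∀ j < k, act z (ch j n))).card : ℝ) -
      dens z k * ((b : ℝ) - a))| ≤ C := by
  set P := (Finset.range (z + 1)).filter Nat.Prime with hPdef
  have hP : ∀ p ∈ P, p.Prime := fun p hp => (Finset.mem_filter.1 hp).2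
  set W := ∏ p ∈ P, p with hW
  have hWpos : 0 < W := Finset.prod_pos fun p hp => (hP p hp).pos
  let f : ℕ → ℕ → ℝ := fun p n => if ∃ j < k, p ∣ ch j n then 0 else 1
  have hper : ∀ p n, f p (n + p) = f p n := by
    intro p n
    show (if ∃ j < k, p ∣ ch j (n + p) then (0 : ℝ) else 1) = if ∃ j < k, p ∣ ch j n then 0 else 1
    simp only [Den_ch_mod]
  have hsum : ∀ p ∈ P, ∑ n ∈ Finset.range p, f p n = (p : ℝ) - nu k p := by
    intro p hp
    have h1 : ∑ n ∈ Finset.range p, (1 - f p n) = (nu k p : ℝ) := by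
      unfold nu
      rw [Finset.card_filter]
      push_cast
      refine Finset.sum_congr rfl fun n _ => ?_
      show 1 - (if ∃ j < k, p ∣ ch j n then (0 : ℝ) else 1) = _
      split_ifs <;> simp
    rw [Finset.sum_sub_distrib] at h1
    simp only [Finset.sum_const, Finset.card_range, nsmul_eq_mul, mul_one] at h1
    linarith
  have htot : ∑ n ∈ Finset.range W, ∏ p ∈ P, f p n = W * dens z k := by
    rw [hW, Den_crt P hP f hper, Finset.prod_congr rfl hsum]
    unfold dens
    rw [← hPdef]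
    push_cast
    rw [← Finset.prod_mul_distrib]
    refine Finset.prod_congr rfl fun p hp => ?_
    have : (p : ℝ) ≠ 0 := by exact_mod_cast (hP p hp).ne_zero
    field_simp
  have hd0 : 0 < dens z k := dens_pos z k
  have hd1 : dens z k ≤ 1 := by
    unfold dens
    refine Finset.prod_le_one (fun p hp => ?_) fun p hp => ?_
    · have hpp := (Finset.mem_filter.1 hp).2
      have h1 : (nu k p : ℝ) < p := by exact_mod_cast nu_lt hpp k
      have h2 : (0 : ℝ) < p := by exact_mod_cast hpp.pos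
      have : (nu k p : ℝ) / p ≤ 1 := by rw [div_le_one h2]; exact h1.le
      linarith
    · have : 0 ≤ (nu k p : ℝ) / p := by positivity
      linarith
  have hf01 : ∀ n, (∏ p ∈ P, f p n) = 0 ∨ (∏ p ∈ P, f p n) = 1 := by
    intro n
    by_cases h : ∃ p ∈ P, f p n = 0
    · obtain ⟨p, hp, h0⟩ := h
      exact Or.inl (Finset.prod_eq_zero hp h0)
    · push Not at h
      refine Or.inr (Finset.prod_eq_one fun p hp => ?_)
      have h1 := h p hp
      show (if ∃ j < k, p ∣ ch j n then (0 : ℝ) else 1) = 1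
      by_cases h2 : ∃ j < k, p ∣ ch j n
      · exact absurd (if_pos h2) h1
      · exact if_neg h2
  have hper' : ∀ n, (∏ p ∈ P, f p (n + W)) = ∏ p ∈ P, f p n :=
    fun n => Pool.Agent.RSC.prod_per (fun p _ b => hper p b) n
  have hmain := Den_per (f := fun n => (∏ p ∈ P, f p n) - dens z k) hWpos
    (fun n => by rw [hper' n]) (by
      rw [Finset.sum_sub_distrib, htot]
      simp) (B := 1) (by
      intro n
      rcases hf01 n with h | h
      · rw [h, abs_le]
        constructor <;> linarith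
      · rw [h, abs_le]
        constructor <;> linarith)
  refine ⟨W * 1, fun a b ha ha2 hab => ?_⟩
  have h1 := hmain (b - a) a
  have h2 : a + (b - a) = b := by omega
  rw [h2, Finset.sum_sub_distrib] at h1
  have h3 : ∑ n ∈ Finset.Ico a b, ∏ p ∈ P, f p n =
      (((Finset.Ico a b).filter (fun n => ∀ j < k, act z (ch j n))).card : ℝ) := by
    rw [Finset.card_filter]
    push_cast
    refine Finset.sum_congr rfl fun n hn => ?_
    have hna := (Finset.mem_Ico.1 hn).1
    by_cases hc : ∀ j < k, act z (ch j n)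
    · rw [if_pos hc]
      refine Finset.prod_eq_one fun p hp => ?_
      refine if_neg ?_
      rintro ⟨j, hj, hd⟩
      have hpz : p ≤ z := by
        have := Finset.mem_range.1 (Finset.mem_filter.1 hp).1
        omega
      exact (hc j hj).2.2 p (hP p hp) hpz hd
    · rw [if_neg hc]
      rcases hf01 n with h | h
      · exact h
      · exfalso
        apply hc
        intro j hj
        have hge : n ≤ ch j n := by
          unfold ch
          have : 1 * (n + 1) ≤ 2 ^ j * (n + 1) := Nat.mul_le_mul_right _ Nat.one_le_two_pow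
          omega
        refine ⟨by omega, by omega, fun p hp hpz hd => ?_⟩
        have hpP : p ∈ P := Finset.mem_filter.2 ⟨Finset.mem_range.2 (by omega), hp⟩
        have h0 : (∏ p ∈ P, f p n) = 0 := Finset.prod_eq_zero hpP (if_pos ⟨j, hj, hd⟩)
        rw [h0] at h
        exact zero_ne_one h
  rw [h3] at h1
  simp only [Finset.sum_const, Nat.card_Ico, nsmul_eq_mul] at h1
  rw [Nat.cast_sub hab] at h1
  rw [mul_comm (dens z k)]
  exact h1

theorem Den_ch_zero (n : ℕ) : ch 0 n = n := by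
  unfold ch
  omega

theorem Den_nu_one {p : ℕ} (hp : p.Prime) : nu 1 p = 1 := by
  classical
  unfold nu
  rw [Finset.card_eq_one]
  refine ⟨0, ?_⟩
  ext r
  rw [Finset.mem_filter, Finset.mem_range, Finset.mem_singleton]
  constructor
  · rintro ⟨h1, j, hj, hd⟩
    have hj0 : j = 0 := by omega
    rw [hj0, Den_ch_zero] at hd
    exact Nat.eq_zero_of_dvd_of_lt hd h1
  · rintro rfl
    exact ⟨hp.pos, 0, one_pos, by rw [Den_ch_zero]; exact dvd_zero p⟩

theorem Den_dens_one (z : ℕ) : dens z 1 = rho z := by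
  unfold dens rho
  refine Finset.prod_congr rfl fun p hp => ?_
  rw [Den_nu_one (Finset.mem_filter.1 hp).2]
  simp

open Classical in
theorem count_act (z : ℕ) : ∃ C : ℝ, ∀ a b : ℕ, z < a → 2 ≤ a → a ≤ b →
    |((((Finset.Ico a b).filter (fun n => act z n)).card : ℝ) - rho z * ((b : ℝ) - a))| ≤ C := by
  obtain ⟨C, hC⟩ := count_ch z 1
  refine ⟨C, fun a b h1 h2 h3 => ?_⟩
  have h4 := hC a b h1 h2 h3
  rw [Den_dens_one] at h4
  have h5 : ∀ (i1 : DecidablePred fun n => ∀ j < 1, act z (ch j n)),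
      (@Finset.filter ℕ (fun n => ∀ j < 1, act z (ch j n)) i1 (Finset.Ico a b)).card =
      ((Finset.Ico a b).filter (fun n => act z n)).card := by
    intro i1
    congr 1
    ext n
    rw [Finset.mem_filter, Finset.mem_filter]
    refine and_congr_right fun _ => ?_
    constructor
    · intro h
      have := h 0 one_pos
      rwa [Den_ch_zero] at this
    · intro h j hj
      have hj0 : j = 0 := by omega
      rw [hj0, Den_ch_zero]
      exact h
  rw [h5] at h4
  exact h4

theorem Den_abel {f : ℕ → ℝ} {C : ℝ} {j0 : ℕ} (hj0 : 2 ≤ j0)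
    (hC : ∀ n, j0 ≤ n → |∑ j ∈ Finset.Ico j0 n, f j| ≤ C) (n : ℕ) (hn : j0 ≤ n) :
    |∑ j ∈ Finset.Ico j0 n, f j * (1 / ((j : ℝ) - 1))| ≤ C := by
  let F : ℕ → ℝ := fun n => ∑ j ∈ Finset.Ico j0 n, f j
  let w : ℕ → ℝ := fun j => 1 / ((j : ℝ) - 1)
  have hC0 : 0 ≤ C := (abs_nonneg _).trans (hC j0 le_rfl)
  have hw : ∀ j, j0 ≤ j → w (j + 1) ≤ w j := by
    intro j hj
    have h1 : (2 : ℝ) ≤ j := by exact_mod_cast hj0.trans hj
    show 1 / (((j + 1 : ℕ) : ℝ) - 1) ≤ 1 / ((j : ℝ) - 1)
    push_cast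
    exact one_div_le_one_div_of_le (by linarith) (by linarith)
  have hid : ∀ n, j0 ≤ n → ∑ j ∈ Finset.Ico j0 n, f j * w j =
      F n * w n + ∑ j ∈ Finset.Ico j0 n, F (j + 1) * (w j - w (j + 1)) := by
    intro n hn
    induction n, hn using Nat.le_induction with
    | base => simp [F]
    | succ n hn ih =>
      rw [Finset.sum_Ico_succ_top hn, Finset.sum_Ico_succ_top hn, ih]
      have h1 : F (n + 1) = F n + f n := Finset.sum_Ico_succ_top hn f
      rw [h1]
      ring
  have htel : ∀ n, j0 ≤ n → ∑ j ∈ Finset.Ico j0 n, (w j - w (j + 1)) = w j0 - w n := by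
    intro n hn
    induction n, hn using Nat.le_induction with
    | base => simp
    | succ n hn ih =>
      rw [Finset.sum_Ico_succ_top hn, ih]
      ring
  have hwn : 0 ≤ w n := by
    have h1 : (2 : ℝ) ≤ n := by exact_mod_cast hj0.trans hn
    exact one_div_nonneg.2 (by linarith)
  have hw0 : w j0 ≤ 1 := by
    have h1 : (2 : ℝ) ≤ j0 := by exact_mod_cast hj0
    show 1 / ((j0 : ℝ) - 1) ≤ 1
    rw [div_le_one (by linarith)]
    linarith
  show |∑ j ∈ Finset.Ico j0 n, f j * w j| ≤ C
  rw [hid n hn]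
  have h2 : |∑ j ∈ Finset.Ico j0 n, F (j + 1) * (w j - w (j + 1))| ≤ C * (w j0 - w n) := by
    rw [← htel n hn, Finset.mul_sum]
    refine (Finset.abs_sum_le_sum_abs _ _).trans (Finset.sum_le_sum fun j hj => ?_)
    have hj' := (Finset.mem_Ico.1 hj).1
    have h3 := hw j hj'
    rw [abs_mul, abs_of_nonneg (sub_nonneg.2 h3)]
    exact mul_le_mul_of_nonneg_right (hC (j + 1) (by omega)) (sub_nonneg.2 h3)
  have h3 : |F n * w n| ≤ C * w n := by
    rw [abs_mul, abs_of_nonneg hwn]
    exact mul_le_mul_of_nonneg_right (hC n hn) hwn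
  calc |F n * w n + ∑ j ∈ Finset.Ico j0 n, F (j + 1) * (w j - w (j + 1))|
      ≤ |F n * w n| + |∑ j ∈ Finset.Ico j0 n, F (j + 1) * (w j - w (j + 1))| := abs_add_le _ _
    _ ≤ C * w n + C * (w j0 - w n) := add_le_add h3 h2
    _ = C * w j0 := by ring
    _ ≤ C := by nlinarith

theorem Den_harm {j0 : ℕ} (hj0 : 2 ≤ j0) : ∃ C : ℝ, ∀ n, j0 ≤ n →
    |∑ j ∈ Finset.Ico j0 n, 1 / ((j : ℝ) - 1) - Real.log n| ≤ C := by
  have hH : ∀ n, j0 ≤ n → ∑ j ∈ Finset.Ico j0 n, 1 / ((j : ℝ) - 1) =
      ((harmonic (n - 2) : ℚ) : ℝ) - ((harmonic (j0 - 2) : ℚ) : ℝ) := by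
    intro n hn
    induction n, hn using Nat.le_induction with
    | base => simp
    | succ n hn ih =>
      rw [Finset.sum_Ico_succ_top hn, ih]
      have h1 : n + 1 - 2 = (n - 2) + 1 := by omega
      rw [h1, harmonic_succ]
      have h2 : ((n - 2 : ℕ) : ℝ) = (n : ℝ) - 2 := by
        rw [Nat.cast_sub (by omega)]
        norm_num
      push_cast
      rw [h2]
      have h3 : (n : ℝ) - 2 + 1 = n - 1 := by ring
      rw [h3]
      ring
  refine ⟨3 + |((harmonic (j0 - 2) : ℚ) : ℝ)|, fun n hn => ?_⟩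
  rw [hH n hn]
  have hn2 : (2 : ℝ) ≤ n := by exact_mod_cast hj0.trans hn
  have h4 := log_add_one_le_harmonic (n - 2)
  have h5 := harmonic_le_one_add_log (n - 2)
  have h6 : ((n - 2 + 1 : ℕ) : ℝ) = (n : ℝ) - 1 := by
    have : n - 2 + 1 = n - 1 := by omega
    rw [this, Nat.cast_sub (by omega)]
    norm_num
  have h7 : Real.log ((n : ℝ) - 1) ≤ ((harmonic (n - 2) : ℚ) : ℝ) := by
    rw [← h6]
    exact_mod_cast h4
  have h8 : Real.log n ≤ Real.log ((n : ℝ) - 1) + 1 := by
    have h9 : Real.log n - Real.log ((n : ℝ) - 1) = Real.log (n / ((n : ℝ) - 1)) :=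
      (Real.log_div (by linarith) (by linarith)).symm
    have h10 : (n : ℝ) / ((n : ℝ) - 1) ≤ 2 := by
      rw [div_le_iff₀ (by linarith)]
      linarith
    have h11 : Real.log (n / ((n : ℝ) - 1)) ≤ n / ((n : ℝ) - 1) - 1 :=
      Real.log_le_sub_one_of_pos (div_pos (by linarith) (by linarith))
    linarith
  have h12 : ((harmonic (n - 2) : ℚ) : ℝ) ≤ 1 + Real.log n := by
    refine h5.trans ?_
    have : Real.log ((n - 2 : ℕ) : ℝ) ≤ Real.log n := by
      rcases Nat.eq_zero_or_pos (n - 2) with h0 | h0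
      · rw [h0]
        simp only [Nat.cast_zero, Real.log_zero]
        exact Real.log_nonneg (by linarith)
      · exact Real.log_le_log (by exact_mod_cast h0) (by exact_mod_cast Nat.sub_le n 2)
    linarith
  have h13 := neg_abs_le ((harmonic (j0 - 2) : ℚ) : ℝ)
  have h14 := le_abs_self ((harmonic (j0 - 2) : ℚ) : ℝ)
  rw [abs_le]
  constructor <;> linarith

theorem hsum_tendsto (z : ℕ) :
    Tendsto (fun n : ℕ => hsum z n / Real.log n) atTop (𝓝 (rho z)) := by
  classical
  obtain ⟨C, hC⟩ := count_act z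
  set j0 := z + 2 with hj0
  obtain ⟨C2, hC2⟩ := Den_harm (j0 := j0) (by omega)
  let f : ℕ → ℝ := fun j => (if act z j then 1 else 0) - rho z
  have hf : ∀ n, j0 ≤ n → |∑ j ∈ Finset.Ico j0 n, f j| ≤ C := by
    intro n hn
    have h1 := hC j0 n (by omega) (by omega) hn
    have h2 : ∑ j ∈ Finset.Ico j0 n, f j =
        ((((Finset.Ico j0 n).filter (fun n => act z n)).card : ℝ)) - rho z * ((n : ℝ) - j0) := by
      show ∑ j ∈ Finset.Ico j0 n, ((if act z j then (1 : ℝ) else 0) - rho z) = _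
      rw [Finset.sum_sub_distrib, Finset.card_filter]
      push_cast
      simp only [Finset.sum_const, Nat.card_Ico, nsmul_eq_mul]
      rw [Nat.cast_sub hn]
      ring
    rw [h2]
    exact h1
  have hab := fun n hn => Den_abel (f := f) (by omega) hf n hn
  have hsplit : ∀ n, j0 ≤ n → hsum z n = (∑ j ∈ Finset.Ico j0 n, f j * (1 / ((j : ℝ) - 1))) +
      rho z * (∑ j ∈ Finset.Ico j0 n, 1 / ((j : ℝ) - 1)) +
      ∑ j ∈ Finset.range j0, (if act z j then 1 / ((j : ℝ) - 1) else 0) := by
    intro n hn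
    unfold hsum
    rw [Finset.sum_filter, ← Finset.sum_range_add_sum_Ico _ hn, Finset.mul_sum,
      ← Finset.sum_add_distrib, add_comm]
    congr 1
    refine Finset.sum_congr rfl fun j _ => ?_
    show _ = ((if act z j then (1 : ℝ) else 0) - rho z) * (1 / ((j : ℝ) - 1)) + _
    split_ifs <;> ring
  set K := ∑ j ∈ Finset.range j0, (if act z j then 1 / ((j : ℝ) - 1) else 0) with hK
  have hbd : ∀ n, j0 ≤ n → |hsum z n - rho z * Real.log n| ≤ C + rho z * C2 + |K| := by
    intro n hn
    rw [hsplit n hn]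
    have h1 := hab n hn
    have h2 := hC2 n hn
    have h3 : (∑ j ∈ Finset.Ico j0 n, f j * (1 / ((j : ℝ) - 1))) +
      rho z * (∑ j ∈ Finset.Ico j0 n, 1 / ((j : ℝ) - 1)) + K - rho z * Real.log n =
      (∑ j ∈ Finset.Ico j0 n, f j * (1 / ((j : ℝ) - 1))) +
      rho z * (∑ j ∈ Finset.Ico j0 n, 1 / ((j : ℝ) - 1) - Real.log n) + K := by ring
    rw [h3]
    refine (abs_add_le _ _).trans (add_le_add ((abs_add_le _ _).trans (add_le_add h1 ?_)) le_rfl)
    rw [abs_mul, abs_of_pos (rho_pos z)]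
    exact mul_le_mul_of_nonneg_left h2 (rho_pos z).le
  have hlog : Tendsto (fun n : ℕ => Real.log (n : ℝ)) atTop atTop :=
    Real.tendsto_log_atTop.comp tendsto_natCast_atTop_atTop
  have h1 : Tendsto (fun n : ℕ => (hsum z n - rho z * Real.log n) / Real.log n) atTop (𝓝 0) := by
    refine squeeze_zero_norm' ?_ ((tendsto_const_nhds (x := C + rho z * C2 + |K|)).div_atTop hlog)
    filter_upwards [eventually_ge_atTop j0, hlog.eventually_gt_atTop 0] with n hn hl
    rw [Real.norm_eq_abs, abs_div, abs_of_pos hl]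
    exact div_le_div_of_nonneg_right (hbd n hn) hl.le
  have h2 : Tendsto (fun n : ℕ => (hsum z n - rho z * Real.log n) / Real.log n + rho z) atTop
      (𝓝 (0 + rho z)) := h1.add_const _
  rw [zero_add] at h2
  refine h2.congr' ?_
  filter_upwards [hlog.eventually_gt_atTop 0] with n hl
  field_simp
  ring

end Pool.Agent.HwS
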