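import Pool.Agent.HwS.Base

/-!
# Module HwS/Exi: the strike model exists

`Ω = ℕ × ℕ → Bool` with the product measure (`MeasureTheory.Measure.infinitePi`) of the Bernoulli
measures with parameter `1 / max m 1` at `(m, n)`, and `S m n = {ω | ω (m,n) = true}`.
Independence: the coordinate maps are independent (`iIndepFun_infinitePi`), hence the events are.
-/

open MeasureTheory ProbabilityTheory Filter Topology
open scoped ENNReal

namespace Pool.Agent.HwS

/-- A Bernoulli measure on `Bool`. -/
noncomputable def exiB (q : ℝ≥0∞) : Measure Bool :=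
  q • Measure.dirac true + (1 - q) • Measure.dirac false

theorem exiB_prob (q : ℝ≥0∞) (hq : q ≤ 1) : IsProbabilityMeasure (exiB q) := by
  constructor
  simp [exiB, add_tsub_cancel_of_le hq]

theorem exiB_true (q : ℝ≥0∞) : exiB q {true} = q := by
  simp [exiB]

/-- The parameter at `(m, n)`. -/
noncomputable def exiQ (m : ℕ) : ℝ≥0∞ := ((max m 1 : ℕ) : ℝ≥0∞)⁻¹

theorem exiQ_le (m : ℕ) : exiQ m ≤ 1 := by
  unfold exiQ
  rw [ENNReal.inv_le_one]
  exact_mod_cast le_max_right m 1

theorem exists_strikes : ∃ (Ω : Type) (_ : MeasurableSpace Ω) (μ : Measure Ω)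
    (_ : IsProbabilityMeasure μ) (S : ℕ → ℕ → Set Ω), IsStrikes μ S := by
  have : ∀ p : ℕ × ℕ, IsProbabilityMeasure (exiB (exiQ p.1)) :=
    fun p => exiB_prob _ (exiQ_le _)
  have hind : iIndepFun (fun (p : ℕ × ℕ) (ω : ℕ × ℕ → Bool) => ω p)
      (Measure.infinitePi (fun p : ℕ × ℕ => exiB (exiQ p.1))) :=
    iIndepFun_infinitePi (X := fun _ => id) (fun _ => measurable_id)
  have hm : ∀ p : ℕ × ℕ, MeasurableSet {ω : ℕ × ℕ → Bool | ω p = true} := by
    intro p
    have h : Measurable (fun ω : ℕ × ℕ → Bool => ω p) := measurable_pi_apply p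
    exact h (measurableSet_singleton true)
  refine ⟨ℕ × ℕ → Bool, inferInstance, Measure.infinitePi (fun p : ℕ × ℕ => exiB (exiQ p.1)),
    inferInstance, fun m n => {ω | ω (m, n) = true}, ?_, ?_, ?_⟩
  · intro m n
    exact hm (m, n)
  · rw [iIndepSet_iff_meas_biInter (fun p => hm _)]
    intro s
    exact hind.measure_inter_preimage_eq_mul s (sets := fun _ => {true})
      (fun _ _ => measurableSet_singleton true)
  · intro m n hmn
    have h1 : (Measure.infinitePi (fun p : ℕ × ℕ => exiB (exiQ p.1))).map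
        (fun ω => ω (m, n)) = exiB (exiQ m) := Measure.infinitePi_map_eval _ (m, n)
    have h2 := Measure.map_apply (μ := Measure.infinitePi (fun p : ℕ × ℕ => exiB (exiQ p.1)))
      (measurable_pi_apply (m, n)) (measurableSet_singleton true)
    rw [h1, exiB_true] at h2
    have h3 : ((fun ω : ℕ × ℕ → Bool => ω (m, n)) ⁻¹' {true}) = {ω | ω (m, n) = true} := rfl
    rw [h3] at h2
    rw [← h2, exiQ, max_eq_left hmn]

end Pool.Agent.HwS
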