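import Pool.Agent.HwS.Tail

/-!
# Module HwS/TailC: tail bounds (corollaries of `master`)

All with `Z = #{i ∈ I : t i ⊆ H b}` and `M = Σ_i ∏_{m ∈ t i} q m`, `1 + x ≤ exp x`.
* `tail_up` (λ ≥ 0, θ = exp λ - 1 ≥ 0): on the event `exp (λ T) ≤ (1+θ)^Z`, so by `Ex_ind`, `Ex_mono`,
  `Ex_const_mul`: `P ≤ exp(-λT) E[..] ≤ exp(-λT) ∏ (1 + θ ∏ q) ≤ exp(-λ T + (exp λ - 1) M)`.
* `tail_lo` (λ ≥ 0, θ = exp(-λ) - 1 ∈ (-1, 0]): on the event `(1+θ)^Z ≥ exp(-λ T)`.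
  (If λ = 0 then θ = 0 and `Cnd` also asks `yy ≤ q`; treat λ = 0 separately: the bound is 1.)
* `tail_zero`: θ = -1: `(1+θ)^Z = 0^0 = 1` when `Z = 0`.
* `tail_one`: `I = {0}`, `t 0 = t`: for every θ > 0:
  `θ P(cond ∧ t ⊆ H b) ≤ E[1_cond ((1+θ)^Z - 1)] ≤ (1 + θ ∏ q) - P(cond)`, hence
  `P(cond ∧ t ⊆ H b) ≤ ∏ q + 1/θ` (as `P(cond) ≥ 0`); let θ → ∞.
-/

open MeasureTheory ProbabilityTheory Filter Topology
open scoped ENNReal

namespace Pool.Agent.HwS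

variable {Ω : Type} [MeasurableSpace Ω] {μ : Measure Ω} {S : ℕ → ℕ → Set Ω} [IsProbabilityMeasure μ]

open Classical in
private theorem tail_gen (hS : IsStrikes μ S) {z a b : ℕ} (hza : z < a) (hab : a ≤ b)
    (I : Finset ℕ) (t : ℕ → Finset ℕ)
    (hdisj : ∀ i ∈ I, ∀ j ∈ I, i ≠ j → Disjoint (t i) (t j))
    (hmem : ∀ i ∈ I, ∀ m ∈ t i, a ≤ m ∧ m < b ∧ act z m)
    (q : ℕ → ℝ) (hq0 : ∀ m, 0 ≤ q m) (hq1 : ∀ m, q m ≤ 1) (θ : ℝ) (hθ : -1 ≤ θ)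
    (c : ℝ) (hc : 0 ≤ c) (P : Finset ℕ → Prop)
    (hP : ∀ A, P A → (∀ m, a ≤ m → m < b → act z m → Cnd θ q z A m) ∧
      1 ≤ c * (1 + θ) ^ (I.filter (fun i => t i ⊆ A)).card) :
    μ.real {ω | P (H z (Kof S ω) b)} ≤ c * ∏ i ∈ I, (1 + θ * ∏ m ∈ t i, q m) := by
  rw [Ex_ind hS]
  calc Ex μ S z b (fun A => if P A then 1 else 0)
      ≤ Ex μ S z b (fun A => c * (if (∀ m, a ≤ m → m < b → act z m → Cnd θ q z A m) then
        (1 + θ) ^ (I.filter (fun i => t i ⊆ A)).card else 0)) := by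
        apply Ex_mono hS
        intro A _
        by_cases h : P A
        · rw [if_pos h, if_pos (hP A h).1]
          exact (hP A h).2
        · rw [if_neg h]
          apply mul_nonneg hc
          split_ifs
          · exact pow_nonneg (by linarith) _
          · exact le_rfl
    _ = c * Ex μ S z b (fun A => if (∀ m, a ≤ m → m < b → act z m → Cnd θ q z A m) then
        (1 + θ) ^ (I.filter (fun i => t i ⊆ A)).card else 0) := Ex_const_mul hS z b c _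
    _ ≤ c * ∏ i ∈ I, (1 + θ * ∏ m ∈ t i, q m) :=
        mul_le_mul_of_nonneg_left (master hS hza hab I t hdisj hmem q hq0 hq1 θ hθ) hc

private theorem prod_le (I : Finset ℕ) (t : ℕ → Finset ℕ) (q : ℕ → ℝ) (hq0 : ∀ m, 0 ≤ q m)
    (hq1 : ∀ m, q m ≤ 1) (θ : ℝ) (hθ : -1 ≤ θ) :
    ∏ i ∈ I, (1 + θ * ∏ m ∈ t i, q m) ≤ Real.exp (θ * ∑ i ∈ I, ∏ m ∈ t i, q m) := by
  rw [Finset.mul_sum, Real.exp_sum]
  apply Finset.prod_le_prod
  · intro i _
    have h0 : 0 ≤ ∏ m ∈ t i, q m := Finset.prod_nonneg fun m _ => hq0 m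
    have h1 : ∏ m ∈ t i, q m ≤ 1 := Finset.prod_le_one (fun m _ => hq0 m) fun m _ => hq1 m
    nlinarith
  · intro i _
    have := Real.add_one_le_exp (θ * ∏ m ∈ t i, q m)
    linarith

open Classical in
theorem tail_up (hS : IsStrikes μ S) {z a b : ℕ} (hza : z < a) (hab : a ≤ b)
    (I : Finset ℕ) (t : ℕ → Finset ℕ)
    (hdisj : ∀ i ∈ I, ∀ j ∈ I, i ≠ j → Disjoint (t i) (t j))
    (hmem : ∀ i ∈ I, ∀ m ∈ t i, a ≤ m ∧ m < b ∧ act z m)
    (q : ℕ → ℝ) (hq0 : ∀ m, 0 ≤ q m) (hq1 : ∀ m, q m ≤ 1) (l T : ℝ) (hl : 0 ≤ l) :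
    μ.real {ω | (∀ m, a ≤ m → m < b → act z m → yy z (H z (Kof S ω) b) m ≤ q m) ∧
        T ≤ ((I.filter (fun i => t i ⊆ H z (Kof S ω) b)).card : ℝ)} ≤
      Real.exp (- l * T + (Real.exp l - 1) * ∑ i ∈ I, ∏ m ∈ t i, q m) := by
  rcases eq_or_lt_of_le hl with h | h
  · rw [← h]
    simp only [neg_zero, zero_mul, Real.exp_zero, sub_self, add_zero]
    exact measureReal_le_one
  · have hθ : 0 < Real.exp l - 1 := by
      have := Real.add_one_lt_exp h.ne'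
      linarith
    have key := tail_gen hS hza hab I t hdisj hmem q hq0 hq1 (Real.exp l - 1) (by linarith)
      (Real.exp (-l * T)) (Real.exp_pos _).le
      (fun A => (∀ m, a ≤ m → m < b → act z m → yy z A m ≤ q m) ∧
        T ≤ ((I.filter (fun i => t i ⊆ A)).card : ℝ)) (by
      rintro A ⟨h1, h2⟩
      refine ⟨fun m hm1 hm2 hm3 => ⟨fun _ => h1 m hm1 hm2 hm3, fun h3 => ?_⟩, ?_⟩
      · linarith
      · rw [add_sub_cancel, ← Real.exp_nat_mul, ← Real.exp_add, Real.one_le_exp_iff]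
        nlinarith)
    refine key.trans ?_
    rw [Real.exp_add]
    exact mul_le_mul_of_nonneg_left (prod_le I t q hq0 hq1 _ (by linarith)) (Real.exp_pos _).le

open Classical in
theorem tail_lo (hS : IsStrikes μ S) {z a b : ℕ} (hza : z < a) (hab : a ≤ b)
    (I : Finset ℕ) (t : ℕ → Finset ℕ)
    (hdisj : ∀ i ∈ I, ∀ j ∈ I, i ≠ j → Disjoint (t i) (t j))
    (hmem : ∀ i ∈ I, ∀ m ∈ t i, a ≤ m ∧ m < b ∧ act z m)
    (q : ℕ → ℝ) (hq0 : ∀ m, 0 ≤ q m) (hq1 : ∀ m, q m ≤ 1) (l T : ℝ) (hl : 0 ≤ l) :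
    μ.real {ω | (∀ m, a ≤ m → m < b → act z m → q m ≤ yy z (H z (Kof S ω) b) m) ∧
        ((I.filter (fun i => t i ⊆ H z (Kof S ω) b)).card : ℝ) ≤ T} ≤
      Real.exp (l * T - (1 - Real.exp (-l)) * ∑ i ∈ I, ∏ m ∈ t i, q m) := by
  rcases eq_or_lt_of_le hl with h | h
  · rw [← h]
    simp only [neg_zero, zero_mul, Real.exp_zero, sub_self]
    exact measureReal_le_one
  · have hθ : Real.exp (-l) - 1 < 0 := by
      have : Real.exp (-l) < 1 := by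
        rw [← Real.exp_zero]
        exact Real.exp_lt_exp.2 (by linarith)
      linarith
    have hθ2 : -1 ≤ Real.exp (-l) - 1 := by
      have := Real.exp_pos (-l)
      linarith
    have key := tail_gen hS hza hab I t hdisj hmem q hq0 hq1 (Real.exp (-l) - 1) hθ2
      (Real.exp (l * T)) (Real.exp_pos _).le
      (fun A => (∀ m, a ≤ m → m < b → act z m → q m ≤ yy z A m) ∧
        ((I.filter (fun i => t i ⊆ A)).card : ℝ) ≤ T) (by
      rintro A ⟨h1, h2⟩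
      refine ⟨fun m hm1 hm2 hm3 => ⟨fun h3 => ?_, fun _ => h1 m hm1 hm2 hm3⟩, ?_⟩
      · linarith
      · rw [add_sub_cancel, ← Real.exp_nat_mul, ← Real.exp_add, Real.one_le_exp_iff]
        nlinarith)
    refine key.trans ?_
    have e : l * T - (1 - Real.exp (-l)) * ∑ i ∈ I, ∏ m ∈ t i, q m =
        l * T + (Real.exp (-l) - 1) * ∑ i ∈ I, ∏ m ∈ t i, q m := by ring
    rw [e, Real.exp_add]
    exact mul_le_mul_of_nonneg_left (prod_le I t q hq0 hq1 _ hθ2) (Real.exp_pos _).le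

theorem tail_zero (hS : IsStrikes μ S) {z a b : ℕ} (hza : z < a) (hab : a ≤ b)
    (I : Finset ℕ) (t : ℕ → Finset ℕ)
    (hdisj : ∀ i ∈ I, ∀ j ∈ I, i ≠ j → Disjoint (t i) (t j))
    (hmem : ∀ i ∈ I, ∀ m ∈ t i, a ≤ m ∧ m < b ∧ act z m)
    (q : ℕ → ℝ) (hq0 : ∀ m, 0 ≤ q m) (hq1 : ∀ m, q m ≤ 1) :
    μ.real {ω | (∀ m, a ≤ m → m < b → act z m → q m ≤ yy z (H z (Kof S ω) b) m) ∧
        ∀ i ∈ I, ¬ t i ⊆ H z (Kof S ω) b} ≤
      Real.exp (- ∑ i ∈ I, ∏ m ∈ t i, q m) := by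
  classical
  have key := tail_gen hS hza hab I t hdisj hmem q hq0 hq1 (-1) le_rfl 1 zero_le_one
    (fun A => (∀ m, a ≤ m → m < b → act z m → q m ≤ yy z A m) ∧ ∀ i ∈ I, ¬ t i ⊆ A) (by
    rintro A ⟨h1, h2⟩
    refine ⟨fun m hm1 hm2 hm3 => ⟨fun h3 => ?_, fun _ => h1 m hm1 hm2 hm3⟩, ?_⟩
    · linarith
    · have h3 : I.filter (fun i => t i ⊆ A) = ∅ := Finset.filter_eq_empty_iff.2 h2
      rw [h3, Finset.card_empty, pow_zero, mul_one])
  refine key.trans ?_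
  rw [one_mul]
  refine (prod_le I t q hq0 hq1 (-1) le_rfl).trans ?_
  rw [neg_one_mul]

theorem tail_one (hS : IsStrikes μ S) {z a b : ℕ} (hza : z < a) (hab : a ≤ b)
    (t : Finset ℕ) (hmem : ∀ m ∈ t, a ≤ m ∧ m < b ∧ act z m)
    (q : ℕ → ℝ) (hq0 : ∀ m, 0 ≤ q m) (hq1 : ∀ m, q m ≤ 1) :
    μ.real {ω | (∀ m, a ≤ m → m < b → act z m → yy z (H z (Kof S ω) b) m ≤ q m) ∧
        t ⊆ H z (Kof S ω) b} ≤ ∏ m ∈ t, q m := by
  classical
  by_contra hcon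
  have hcon := not_le.1 hcon
  set p := μ.real {ω | (∀ m, a ≤ m → m < b → act z m → yy z (H z (Kof S ω) b) m ≤ q m) ∧
        t ⊆ H z (Kof S ω) b} with hp
  set Q := ∏ m ∈ t, q m with hQ
  have hp0 : 0 ≤ p := measureReal_nonneg
  have hδ : 0 < p - Q := by linarith
  have hθ : 0 < 2 / (p - Q) := by positivity
  have key := tail_gen hS hza hab {0} (fun _ => t) (by
      intro i hi j hj hij
      rw [Finset.mem_singleton] at hi hj
      exact absurd (hi.trans hj.symm) hij) (fun i _ m hm => hmem m hm) q hq0 hq1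
    (2 / (p - Q)) (by linarith) (1 / (1 + 2 / (p - Q))) (by positivity)
    (fun A => (∀ m, a ≤ m → m < b → act z m → yy z A m ≤ q m) ∧ t ⊆ A) (by
    rintro A ⟨h1, h2⟩
    refine ⟨fun m hm1 hm2 hm3 => ⟨fun _ => h1 m hm1 hm2 hm3, fun h3 => ?_⟩, ?_⟩
    · linarith
    · have h3 : ({0} : Finset ℕ).filter (fun _ => t ⊆ A) = {0} :=
        Finset.filter_true_of_mem fun _ _ => h2
      rw [h3, Finset.card_singleton, pow_one, one_div, inv_mul_cancel₀ (by positivity)])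
  rw [Finset.prod_singleton, ← hp, ← hQ, one_div, inv_mul_eq_div, le_div_iff₀ (by positivity)] at key
  have h4 : 2 / (p - Q) * (p - Q) = 2 := div_mul_cancel₀ 2 hδ.ne'
  nlinarith

end Pool.Agent.HwS
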