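import Pool.Agent.HwS.YAs
import Pool.Agent.HwS.TailC

/-!
# Module HwS/Upp: no longer chains

Let `L = log (2^i)`, `K = ⌈(1+ε) L / log L⌉₊`.
Let `C = 2 / rho z ≥ 2`, `q m = min 1 (C / log m)` for `m ≥ 3`, `q m = 1` for `m < 3`.  For `m0 ≥ max (z+1) 3`
let `G m0` be the event `yy z (H m) m ≤ q m` for all `m ≥ m0`; by `yy_tendsto` (and `yy ≤ 1`) almost surely
some `G m0` holds, so it is enough to treat a fixed `m0`.
For `1 ≤ n ≤ 2^i` let `t = {ch j n : j < K, m0 ≤ ch j n}`.  If `Sel (ch j n)` for all `j < K` then all elements of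
`t` are active (`sel_iff`, they are `> z`) and `t ⊆ H b`, `b = 2^(K+i+2)`; so if some element of `t` is not
active the event is empty, otherwise by `tail_one` (with `a = m0`) the probability of
`G m0 ∩ {∀ j < K, Sel (ch j n)}` is at most `∏_{m ∈ t} q m`.  Since `ch j n ≥ 2^j` (`n ≥ 1`), all `j ≥ j0`
(`j0 ≥ 1` with `2^j0 ≥ m0`) contribute a factor `≤ C / (j log 2) = C'/j`: the product is at most
`∏_{j0 ≤ j < K} (C'/j) ≤ A * C'^K / (K-1)!` with a constant `A = A(m0)`.
Union over `n ≤ 2^i`: `exp(L) * A * C'^K / (K-1)! ≤ A exp(-ε L / 4)` for large `i`, since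
`log (K-1)! ≥ (K-1)(log (K-1) - 1)` and `K - 1 ≥ (1+ε) L/log L - 1` give
`log((K-1)!/C'^K) ≥ (1 + ε/2) L` eventually.  Summable in `i`; Borel-Cantelli.
-/

open MeasureTheory ProbabilityTheory Filter Topology
open scoped ENNReal

namespace Pool.Agent.HwS

variable {Ω : Type} [MeasurableSpace Ω] {μ : Measure Ω} {S : ℕ → ℕ → Set Ω} [IsProbabilityMeasure μ]

private theorem Upp_ch_ge {j n : ℕ} (hn : 1 ≤ n) : 2 ^ j ≤ ch j n := by
  unfold ch
  have h1 : 1 ≤ 2 ^ j := Nat.one_le_two_pow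
  have h2 : 2 ^ j * 2 ≤ 2 ^ j * (n + 1) := Nat.mul_le_mul_left _ (by omega)
  omega

private theorem Upp_ch_lt {j n i K : ℕ} (hn : n ≤ 2 ^ i) (hj : j < K) :
    ch j n < 2 ^ (K + i + 1) := by
  unfold ch
  have h1 : 2 ^ j ≤ 2 ^ K := Nat.pow_le_pow_right (by norm_num) hj.le
  have h3 : 1 ≤ 2 ^ i := Nat.one_le_two_pow
  have h2 : 2 ^ j * (n + 1) ≤ 2 ^ K * (2 ^ i + 2 ^ i) := Nat.mul_le_mul h1 (by omega)
  have h4 : 2 ^ K * (2 ^ i + 2 ^ i) = 2 ^ (K + i + 1) := by
    rw [pow_succ, pow_add]; ring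
  have h5 : 1 ≤ 2 ^ j * (n + 1) := Nat.mul_pos (by positivity) (by omega)
  omega

private theorem Upp_ch_inj {j j' n : ℕ} (h : ch j n = ch j' n) : j = j' := by
  unfold ch at h
  have h1 : 1 ≤ 2 ^ j * (n + 1) := Nat.mul_pos (by positivity) (by omega)
  have h2 : 1 ≤ 2 ^ j' * (n + 1) := Nat.mul_pos (by positivity) (by omega)
  have h3 : 2 ^ j * (n + 1) = 2 ^ j' * (n + 1) := by omega
  have h4 := Nat.eq_of_mul_eq_mul_right (by omega) h3
  exact Nat.pow_right_injective le_rfl h4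

private noncomputable def uq (C : ℝ) (m : ℕ) : ℝ := if 3 ≤ m then min 1 (C / Real.log m) else 1

private theorem uq_nonneg {C : ℝ} (hC : 0 ≤ C) (m : ℕ) : 0 ≤ uq C m := by
  unfold uq
  split_ifs with h
  · have : 0 ≤ Real.log m := Real.log_natCast_nonneg m
    exact le_min zero_le_one (div_nonneg hC this)
  · exact zero_le_one

private theorem uq_le_one (C : ℝ) (m : ℕ) : uq C m ≤ 1 := by
  unfold uq
  split_ifs
  · exact min_le_left _ _
  · exact le_rfl

private theorem uq_ch {C : ℝ} (hC : 0 ≤ C) {j n : ℕ} (hj : 1 ≤ j) (hn : 1 ≤ n) :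
    uq C (ch j n) ≤ (C / Real.log 2) / j := by
  have h1 := Upp_ch_ge (j := j) hn
  have h2 : 2 ^ 1 ≤ 2 ^ j := Nat.pow_le_pow_right (by norm_num) hj
  have h3 : 3 ≤ ch j n := by
    unfold ch at h1 ⊢
    have h4 : 2 ^ j * 2 ≤ 2 ^ j * (n + 1) := Nat.mul_le_mul_left _ (by omega)
    omega
  unfold uq
  rw [if_pos h3]
  refine (min_le_right _ _).trans ?_
  have hj0 : (0 : ℝ) < j := by exact_mod_cast hj
  have hlog2 : 0 < Real.log 2 := Real.log_pos one_lt_two
  rw [div_div]
  apply div_le_div_of_nonneg_left hC (by positivity)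
  have h5 : ((2 : ℝ) ^ j) ≤ (ch j n : ℝ) := by exact_mod_cast h1
  have h6 := Real.log_le_log (by positivity) h5
  rw [Real.log_pow] at h6
  linarith

private theorem Upp_prod {C : ℝ} (hC : 0 ≤ C) {m0 j0 K n : ℕ} (hj0 : 1 ≤ j0) (hm0 : m0 ≤ 2 ^ j0)
    (hn : 1 ≤ n) :
    ∏ m ∈ ((Finset.range K).filter (fun j => m0 ≤ ch j n)).image (fun j => ch j n), uq C m ≤
      ∏ j ∈ Finset.Ico j0 K, ((C / Real.log 2) / (j : ℝ)) := by
  rw [Finset.prod_image (fun a _ b _ h => Upp_ch_inj h)]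
  have hsub : Finset.Ico j0 K ⊆ (Finset.range K).filter (fun j => m0 ≤ ch j n) := by
    intro j hj
    rw [Finset.mem_Ico] at hj
    rw [Finset.mem_filter, Finset.mem_range]
    refine ⟨hj.2, hm0.trans ?_⟩
    exact (Nat.pow_le_pow_right (by norm_num) hj.1).trans (Upp_ch_ge hn)
  rw [← Finset.prod_sdiff hsub]
  have h1 : ∏ j ∈ (Finset.range K).filter (fun j => m0 ≤ ch j n) \ Finset.Ico j0 K,
      uq C (ch j n) ≤ 1 := Finset.prod_le_one (fun _ _ => uq_nonneg hC _) fun _ _ => uq_le_one _ _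
  have h2 : ∏ j ∈ Finset.Ico j0 K, uq C (ch j n) ≤
      ∏ j ∈ Finset.Ico j0 K, ((C / Real.log 2) / (j : ℝ)) := by
    apply Finset.prod_le_prod (fun _ _ => uq_nonneg hC _)
    intro j hj
    rw [Finset.mem_Ico] at hj
    exact uq_ch hC (by omega) hn
  have h3 : 0 ≤ ∏ j ∈ Finset.Ico j0 K, uq C (ch j n) := Finset.prod_nonneg fun _ _ => uq_nonneg hC _
  calc _ ≤ 1 * ∏ j ∈ Finset.Ico j0 K, uq C (ch j n) := mul_le_mul_of_nonneg_right h1 h3
    _ ≤ _ := by rw [one_mul]; exact h2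

private theorem Upp_fac {D : ℝ} (hD : 1 ≤ D) {j0 K : ℕ} (hj0 : 1 ≤ j0) (hK : j0 ≤ K) {x : ℝ}
    (hx : 0 < x) :
    ∏ j ∈ Finset.Ico j0 K, (D / (j : ℝ)) ≤
      (j0.factorial : ℝ) * ((D / x) ^ (K - 1) * Real.exp x) := by
  have hprod : ∀ N : ℕ, ∏ j ∈ Finset.Ico 1 (N + 1), (D / (j : ℝ)) = D ^ N / (N.factorial : ℝ) := by
    intro N
    rw [Finset.prod_div_distrib, Finset.prod_const, Nat.card_Ico, Nat.add_sub_cancel]
    congr 1
    have := Finset.prod_Ico_id_eq_factorial N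
    rw [← this]
    push_cast
    rfl
  obtain ⟨N, rfl⟩ : ∃ N, K = N + 1 := ⟨K - 1, by omega⟩
  obtain ⟨M, rfl⟩ : ∃ M, j0 = M + 1 := ⟨j0 - 1, by omega⟩
  have h1 := Finset.prod_Ico_consecutive (fun j : ℕ => D / (j : ℝ)) hj0 hK
  rw [hprod, hprod] at h1
  have hM : (0 : ℝ) < M.factorial := by exact_mod_cast M.factorial_pos
  have hN : (0 : ℝ) < N.factorial := by exact_mod_cast N.factorial_pos
  have hDM : 1 ≤ D ^ M := one_le_pow₀ hD
  have h2 : ∏ j ∈ Finset.Ico (M + 1) (N + 1), (D / (j : ℝ)) =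
      (M.factorial : ℝ) / D ^ M * (D ^ N / N.factorial) := by
    rw [← h1]
    field_simp
  rw [h2, Nat.add_sub_cancel]
  have h3 : (M.factorial : ℝ) / D ^ M ≤ ((M + 1).factorial : ℝ) := by
    have h4 : (M.factorial : ℝ) / D ^ M ≤ (M.factorial : ℝ) := div_le_self hM.le hDM
    have h5 : (M.factorial : ℝ) ≤ ((M + 1).factorial : ℝ) := by
      exact_mod_cast Nat.factorial_le (Nat.le_succ M)
    exact h4.trans h5
  have h4 : D ^ N / (N.factorial : ℝ) ≤ (D / x) ^ N * Real.exp x := by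
    have h5 := Real.pow_div_factorial_le_exp x hx.le N
    rw [div_le_iff₀ hN] at h5
    rw [div_le_iff₀ hN, div_pow]
    have hxN : 0 < x ^ N := by positivity
    have h6 : D ^ N = D ^ N / x ^ N * x ^ N := by field_simp
    calc D ^ N = D ^ N / x ^ N * x ^ N := h6
      _ ≤ D ^ N / x ^ N * (Real.exp x * N.factorial) :=
          mul_le_mul_of_nonneg_left h5 (by positivity)
      _ = _ := by ring
  exact mul_le_mul h3 h4 (by positivity) (by positivity)

/-- the analytic estimate -/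
private theorem Upp_est {ε : ℝ} (hε : 0 < ε) (c : ℝ) :
    ∀ᶠ L : ℝ in atTop, ∀ K : ℝ, (1 + ε) * (L / Real.log L) ≤ K →
      (1 + ε / 2) * L - (K - 1) * (Real.log L + c) ≤ - (ε / 4) * L := by
  have hlog := Real.tendsto_log_atTop
  have t1 : Tendsto (fun L : ℝ => (1 + ε) * c / Real.log L) atTop (𝓝 0) :=
    hlog.const_div_atTop _
  have t2 : Tendsto (fun L : ℝ => Real.log L / L) atTop (𝓝 0) := by
    simpa using Real.isLittleO_log_id_atTop.tendsto_div_nhds_zero
  have t3 : Tendsto (fun L : ℝ => c / L) atTop (𝓝 0) := tendsto_id.const_div_atTop _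
  have t4 : Tendsto (fun L : ℝ => ε / 4 + (1 + ε) * c / Real.log L - Real.log L / L - c / L) atTop
      (𝓝 (ε / 4)) := by
    have := ((t1.const_add (ε / 4)).sub t2).sub t3
    simpa using this
  have e1 := t4.eventually (eventually_gt_nhds (show (0 : ℝ) < ε / 4 by positivity))
  filter_upwards [e1, eventually_gt_atTop 1, hlog.eventually_gt_atTop 0,
    hlog.eventually_ge_atTop (-c)] with L h1 h2 h3 h4 K hK
  have hL : 0 < L := by linarith
  have h5 : ((1 + ε) * (L / Real.log L) - 1) * (Real.log L + c) ≤ (K - 1) * (Real.log L + c) :=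
    mul_le_mul_of_nonneg_right (by linarith) (by linarith)
  have h6 : ((1 + ε) * (L / Real.log L) - 1) * (Real.log L + c) - (1 + 3 * ε / 4) * L =
      L * (ε / 4 + (1 + ε) * c / Real.log L - Real.log L / L - c / L) := by
    field_simp
    ring
  have h7 := mul_pos hL h1
  nlinarith

theorem upp (hS : IsStrikes μ S) (z : ℕ) {ε : ℝ} (hε : 0 < ε) :
    ∀ᵐ ω ∂μ, ∀ᶠ i : ℕ in atTop, ∀ n : ℕ, 1 ≤ n → n ≤ 2 ^ i →
      ∃ j : ℕ, (j : ℝ) < (1 + ε) * (Real.log ((2 : ℝ) ^ i) / Real.log (Real.log ((2 : ℝ) ^ i))) ∧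
        ¬ Sel z (Kof S ω) (ch j n) := by
  classical
  have hρ := rho_pos z
  have hρ1 := rho_le_one z
  set C : ℝ := 2 * (rho z)⁻¹ with hC
  have hinv : 1 ≤ (rho z)⁻¹ := (one_le_inv₀ hρ).2 hρ1
  have hC2 : 2 ≤ C := by rw [hC]; linarith
  have hC0 : 0 ≤ C := by linarith
  have hlog2 : 0 < Real.log 2 := Real.log_pos one_lt_two
  have hlog2' : Real.log 2 < 1 := by
    have := Real.log_two_lt_d9
    linarith
  set D : ℝ := C / Real.log 2 with hD
  have hD1 : 1 ≤ D := by
    rw [hD, le_div_iff₀ hlog2]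
    linarith
  -- the key statement for a fixed starting point
  have key : ∀ m0 : ℕ, z < m0 → ∀ᵐ ω ∂μ, (∀ m, m0 ≤ m → yy z (H z (Kof S ω) m) m ≤ uq C m) →
      ∀ᶠ i : ℕ in atTop, ∀ n : ℕ, 1 ≤ n → n ≤ 2 ^ i →
      ∃ j : ℕ, (j : ℝ) < (1 + ε) * (Real.log ((2 : ℝ) ^ i) / Real.log (Real.log ((2 : ℝ) ^ i))) ∧
        ¬ Sel z (Kof S ω) (ch j n) := by
    intro m0 hm0
    obtain ⟨j0, hj0, hj0'⟩ : ∃ j0 : ℕ, 1 ≤ j0 ∧ m0 ≤ 2 ^ j0 :=
      ⟨m0 + 1, by omega, (Nat.lt_two_pow_self (n := m0)).le.trans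
        (Nat.pow_le_pow_right (by norm_num) (by omega))⟩
    set K : ℕ → ℕ := fun i =>
      ⌈(1 + ε) * (Real.log ((2 : ℝ) ^ i) / Real.log (Real.log ((2 : ℝ) ^ i)))⌉₊ with hK
    set G : Set Ω := {ω | ∀ m, m0 ≤ m → yy z (H z (Kof S ω) m) m ≤ uq C m} with hG
    set B : ℕ → ℕ → Set Ω := fun i n => {ω | ω ∈ G ∧ ∀ j < K i, Sel z (Kof S ω) (ch j n)} with hB
    -- one n
    have one : ∀ i n : ℕ, 1 ≤ n → n ≤ 2 ^ i → μ.real (B i n) ≤
        ∏ j ∈ Finset.Ico j0 (K i), (D / (j : ℝ)) := by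
      intro i n hn hni
      set t := ((Finset.range (K i)).filter (fun j => m0 ≤ ch j n)).image (fun j => ch j n) with ht
      have hbound := Upp_prod (K := K i) hC0 hj0 hj0' hn
      rw [← ht, ← hD] at hbound
      refine le_trans ?_ hbound
      by_cases hact : ∀ m ∈ t, act z m
      · have hmem : ∀ m ∈ t, m0 ≤ m ∧ m < 2 ^ (K i + i + 1) + m0 ∧ act z m := by
          intro m hm
          have ha := hact m hm
          rw [ht, Finset.mem_image] at hm
          obtain ⟨j, hj, rfl⟩ := hm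
          rw [Finset.mem_filter, Finset.mem_range] at hj
          have := Upp_ch_lt hni hj.1
          exact ⟨hj.2, by omega, ha⟩
        have h1 := tail_one hS hm0 (Nat.le_add_left m0 (2 ^ (K i + i + 1))) t hmem (uq C)
          (uq_nonneg hC0) (uq_le_one C)
        refine le_trans (measureReal_mono ?_) h1
        rintro ω ⟨hω1, hω2⟩
        refine ⟨fun m hm1 hm2 _ => ?_, fun m hm => ?_⟩
        · rw [yy_H _ hm2.le]
          exact hω1 m hm1
        · rw [mem_H]
          refine ⟨(hmem m hm).2.1, ?_⟩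
          rw [ht, Finset.mem_image] at hm
          obtain ⟨j, hj, rfl⟩ := hm
          rw [Finset.mem_filter, Finset.mem_range] at hj
          exact hω2 j hj.1
      · have hempty : B i n = ∅ := by
          rw [Set.eq_empty_iff_forall_notMem]
          rintro ω ⟨_, hω2⟩
          apply hact
          intro m hm
          rw [ht, Finset.mem_image] at hm
          obtain ⟨j, hj, rfl⟩ := hm
          rw [Finset.mem_filter, Finset.mem_range] at hj
          rcases (sel_iff z _ _).1 (hω2 j hj.1) with h | h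
          · omega
          · exact h.1
        rw [hempty, measureReal_empty]
        exact Finset.prod_nonneg fun m _ => uq_nonneg hC0 m
    -- all n
    set E : ℕ → Set Ω := fun i => ⋃ n ∈ Finset.Icc 1 (2 ^ i), B i n with hE
    have hL : Tendsto (fun i : ℕ => Real.log ((2 : ℝ) ^ i)) atTop atTop := by
      have : (fun i : ℕ => Real.log ((2 : ℝ) ^ i)) = fun i : ℕ => (i : ℝ) * Real.log 2 := by
        funext i
        rw [Real.log_pow]
      rw [this]
      exact tendsto_natCast_atTop_atTop.atTop_mul_const hlog2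
    have hLL : Tendsto (fun L : ℝ => L / Real.log L) atTop atTop := by
      have t2 : Tendsto (fun L : ℝ => Real.log L / L) atTop (𝓝 0) := by
        simpa using Real.isLittleO_log_id_atTop.tendsto_div_nhds_zero
      have t3 : Tendsto (fun L : ℝ => Real.log L / L) atTop (𝓝[>] 0) := by
        rw [tendsto_nhdsWithin_iff]
        refine ⟨t2, ?_⟩
        filter_upwards [eventually_gt_atTop 1] with L hL1
        exact div_pos (Real.log_pos hL1) (by linarith)
      have t4 := t3.inv_tendsto_nhdsGT_zero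
      refine t4.congr fun L => ?_
      rw [Pi.inv_apply, inv_div]
    have hKe : ∀ᶠ i : ℕ in atTop, j0 ≤ K i := by
      have h1 := (hLL.comp hL).eventually_ge_atTop (j0 : ℝ)
      filter_upwards [h1] with i hi
      have h2 := Nat.le_ceil
        ((1 + ε) * (Real.log ((2 : ℝ) ^ i) / Real.log (Real.log ((2 : ℝ) ^ i))))
      have h3 : (j0 : ℝ) ≤ Real.log ((2 : ℝ) ^ i) / Real.log (Real.log ((2 : ℝ) ^ i)) := hi
      have h4 : (0 : ℝ) ≤ j0 := Nat.cast_nonneg _
      have h5 : (j0 : ℝ) ≤ (K i : ℝ) := by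
        refine le_trans ?_ h2
        nlinarith
      exact_mod_cast h5
    have hest := hL.eventually (Upp_est hε (Real.log (ε / 2 / D)))
    have hsmall : ∀ᶠ i : ℕ in atTop, μ.real (E i) ≤
        (j0.factorial : ℝ) * Real.exp (- (ε / 4) * Real.log 2) ^ i := by
      filter_upwards [hKe, hest, hL.eventually_gt_atTop 0] with i h1 h2 h3
      have hx : 0 < ε / 2 * Real.log ((2 : ℝ) ^ i) := by positivity
      have h4 := Upp_fac hD1 hj0 h1 hx
      have h5 : μ.real (E i) ≤ ∑ n ∈ Finset.Icc 1 (2 ^ i), μ.real (B i n) :=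
        measureReal_biUnion_finset_le _ _
      have h6 : ∑ n ∈ Finset.Icc 1 (2 ^ i), μ.real (B i n) ≤
          ∑ n ∈ Finset.Icc 1 (2 ^ i), ((j0.factorial : ℝ) *
            ((D / (ε / 2 * Real.log ((2 : ℝ) ^ i))) ^ (K i - 1) *
              Real.exp (ε / 2 * Real.log ((2 : ℝ) ^ i)))) := by
        apply Finset.sum_le_sum
        intro n hn
        rw [Finset.mem_Icc] at hn
        exact (one i n hn.1 hn.2).trans h4
      rw [Finset.sum_const, Nat.card_Icc, Nat.add_sub_cancel, nsmul_eq_mul] at h6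
      refine h5.trans (h6.trans ?_)
      push_cast
      have hK1 : 1 ≤ K i := hj0.trans h1
      have h7 := h2 (K i) (Nat.le_ceil _)
      have hDx : D / (ε / 2 * Real.log ((2 : ℝ) ^ i)) =
          Real.exp (-(Real.log (Real.log ((2 : ℝ) ^ i)) + Real.log (ε / 2 / D))) := by
        rw [neg_add, Real.exp_add, Real.exp_neg, Real.exp_neg, Real.exp_log h3,
          Real.exp_log (by positivity)]
        field_simp
      have h2i : (2 : ℝ) ^ i = Real.exp (Real.log ((2 : ℝ) ^ i)) :=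
        (Real.exp_log (by positivity)).symm
      have hpow : Real.exp (- (ε / 4) * Real.log 2) ^ i =
          Real.exp (-(ε / 4) * Real.log ((2 : ℝ) ^ i)) := by
        rw [← Real.exp_nat_mul, Real.log_pow]
        congr 1
        ring
      rw [hpow, hDx, ← Real.exp_nat_mul, Nat.cast_sub hK1, Nat.cast_one]
      have h8 : (2 : ℝ) ^ i * ((j0.factorial : ℝ) *
          (Real.exp (((K i : ℝ) - 1) *
            (-(Real.log (Real.log ((2 : ℝ) ^ i)) + Real.log (ε / 2 / D)))) *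
          Real.exp (ε / 2 * Real.log ((2 : ℝ) ^ i)))) =
          (j0.factorial : ℝ) * Real.exp ((1 + ε / 2) * Real.log ((2 : ℝ) ^ i) -
            ((K i : ℝ) - 1) * (Real.log (Real.log ((2 : ℝ) ^ i)) + Real.log (ε / 2 / D))) := by
        have h9 : (1 + ε / 2) * Real.log ((2 : ℝ) ^ i) -
            ((K i : ℝ) - 1) * (Real.log (Real.log ((2 : ℝ) ^ i)) + Real.log (ε / 2 / D)) =
            Real.log ((2 : ℝ) ^ i) + (((K i : ℝ) - 1) *
            (-(Real.log (Real.log ((2 : ℝ) ^ i)) + Real.log (ε / 2 / D))) +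
            ε / 2 * Real.log ((2 : ℝ) ^ i)) := by ring
        rw [h9, Real.exp_add, Real.exp_add, ← h2i]
        ring
      rw [h8]
      exact mul_le_mul_of_nonneg_left (Real.exp_le_exp.2 h7) (by positivity)
    obtain ⟨i1, hi1⟩ := eventually_atTop.1 hsmall
    have hr0 : 0 ≤ Real.exp (- (ε / 4) * Real.log 2) := (Real.exp_pos _).le
    have hr1 : Real.exp (- (ε / 4) * Real.log 2) < 1 := by
      rw [Real.exp_lt_one_iff]
      have : 0 < ε / 4 * Real.log 2 := by positivity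
      linarith
    have hsum : Summable fun i : ℕ => (j0.factorial : ℝ) *
        Real.exp (- (ε / 4) * Real.log 2) ^ (i + i1) := by
      have h1 := (summable_geometric_of_lt_one hr0 hr1).mul_left (j0.factorial : ℝ)
      exact (summable_nat_add_iff i1).2 h1
    have hne : (∑' i, μ (E (i + i1))) ≠ ∞ := by
      refine ne_top_of_le_ne_top hsum.tsum_ofReal_ne_top (ENNReal.tsum_le_tsum fun i => ?_)
      rw [← ENNReal.ofReal_toReal (measure_ne_top μ (E (i + i1)))]
      exact ENNReal.ofReal_le_ofReal (hi1 (i + i1) (Nat.le_add_left _ _))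
    filter_upwards [ae_eventually_notMem hne] with ω hω hGω
    obtain ⟨i2, hi2⟩ := eventually_atTop.1 hω
    filter_upwards [eventually_ge_atTop (i1 + i2)] with i hi n hn hni
    have h1 := hi2 (i - i1) (by omega)
    rw [Nat.sub_add_cancel (by omega)] at h1
    by_contra hcon
    push Not at hcon
    apply h1
    rw [hE]
    simp only [Set.mem_iUnion]
    refine ⟨n, Finset.mem_Icc.2 ⟨hn, hni⟩, hGω, fun j hj => ?_⟩
    exact hcon j (Nat.lt_ceil.1 hj)
  -- conclusion
  have hall : ∀ᵐ ω ∂μ, ∀ m0 : ℕ, z < m0 →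
      (∀ m, m0 ≤ m → yy z (H z (Kof S ω) m) m ≤ uq C m) →
      ∀ᶠ i : ℕ in atTop, ∀ n : ℕ, 1 ≤ n → n ≤ 2 ^ i →
      ∃ j : ℕ, (j : ℝ) < (1 + ε) * (Real.log ((2 : ℝ) ^ i) / Real.log (Real.log ((2 : ℝ) ^ i))) ∧
        ¬ Sel z (Kof S ω) (ch j n) := by
    rw [ae_all_iff]
    intro m0
    by_cases h : z < m0
    · filter_upwards [key m0 h] with ω hω _
      exact hω
    · exact Eventually.of_forall fun ω h' => absurd h' h
  filter_upwards [yy_tendsto hS z, hall] with ω h1 h2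
  have h3 : (rho z)⁻¹ < C := by rw [hC]; linarith
  obtain ⟨m1, hm1⟩ := eventually_atTop.1 (h1.eventually (eventually_lt_nhds h3))
  refine h2 (m1 + z + 1) (by omega) fun m hm => ?_
  have h4 := hm1 m (by omega)
  have h5 := yy_le_one (H_good z (Kof S ω) m) m
  unfold uq
  split_ifs with hm3
  · refine le_min h5 ?_
    have hlm : 0 < Real.log m := Real.log_pos (by exact_mod_cast (by omega : 1 < m))
    rw [le_div_iff₀ hlm]
    exact h4.le
  · exact h5

end Pool.Agent.HwS
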