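import Pool.Agent.HwS.Low
import Pool.Agent.HwS.Upp

/-!
# Module HwS/Fin: the set of exact lengths of chains that start below `x`

Write `l(y) = log y / log (log y)` (increasing for large `y`, `l(2y)/l(y) → 1`, `l(y) = o(log y)`).
Take `ω` in the null-set complements of `low` and `upp` for `ε = 1/s`, `s = 1, 2, ...` (`s ≥ 2` for `low`).
Note `Sel z K 0` is false, so `StartsExact n k`, `k ≥ 1` implies `n ≥ 1` (`ch 0 n = n`), and
`ch a (ch b n) = ch (a+b) n`.
* Upper bound: let `n ≤ x`, `StartsExact n k`, `k ≥ 1`, `2^i ≤ x < 2^(i+1)`.  By `upp` at `i+1` (with `ε' < ε`)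
  there is `j < (1+ε') l(2^(i+1))` with `¬ Sel (ch j n)`, so `k ≤ j` and `j < (1+ε) l(x)` for large `x`
  because `2^(i+1) ≤ 2x`.
* Lower bound: let `1 ≤ k ≤ (1-ε) l(x)`, `i = ⌊(1-ε/4) log x / log 2⌋₊`, `2^i ≤ x^(1-ε/4) < 2^(i+1)`.  By `low`
  (with `ε' ≤ ε/2`) there is `n ∈ [2^i, 2^(i+1))` with `Sel (ch j n)` for all `j < (1-ε') l(2^i)`, and
  `(1-ε') l(2^i) ≥ (1-ε) l(x) ≥ k` for large `x` (`(1-ε/2)(1-ε/4) > 1-ε`).  By `upp` at `i+1` (with `ε = 1`) some
  `ch j n` with `j < 2 l(2^(i+1))` is not selected; let `N` be the least such `j`; `N ≥ k`.  Put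
  `n' = ch (N-k) n`: `StartsExact n' k`, and `n' ≤ 2^N (n+1) ≤ 2^(2 l(2^(i+1)) + i + 1) ≤ x` for large `x`.
-/

open MeasureTheory ProbabilityTheory Filter Topology
open scoped ENNReal

namespace Pool.Agent.HwS

variable {Ω : Type} [MeasurableSpace Ω] {μ : Measure Ω} {S : ℕ → ℕ → Set Ω} [IsProbabilityMeasure μ]

private theorem fin_ch_ch (a b n : ℕ) : ch a (ch b n) = ch (a + b) n := by
  unfold ch
  have h : 1 ≤ 2 ^ b * (n + 1) := Nat.mul_pos (by positivity) (Nat.succ_pos n)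
  rw [Nat.sub_add_cancel h, pow_add, mul_assoc]

private theorem fin_ch_zero (n : ℕ) : ch 0 n = n := by
  unfold ch
  simp

private theorem fin_sel_zero (z : ℕ) (K : ℕ → ℕ → Prop) : ¬ Sel z K 0 := by
  rw [sel_iff]
  rintro (⟨_, h⟩ | ⟨⟨h, _⟩, _⟩)
  · exact Nat.not_prime_zero h
  · omega

/-- The deterministic part, upper bound. -/
private theorem fin_upper {R : ℕ → Prop} (h0 : ¬ R 0)
    (hU : ∀ s : ℕ, 1 ≤ s → ∀ᶠ i : ℕ in atTop, ∀ n : ℕ, 1 ≤ n → n ≤ 2 ^ i →
      ∃ j : ℕ, (j : ℝ) < (1 + 1 / (s : ℝ)) *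
        (Real.log ((2 : ℝ) ^ i) / Real.log (Real.log ((2 : ℝ) ^ i))) ∧ ¬ R (ch j n))
    {ε : ℝ} (hε : 0 < ε) :
    ∀ᶠ x : ℕ in atTop, ∀ n ≤ x, ∀ k : ℕ, StartsExact R n k →
        (k : ℝ) ≤ (1 + ε) * (Real.log x / Real.log (Real.log x)) := by
  obtain ⟨s, hs⟩ := exists_nat_gt (2 / ε)
  have hs0 : (0 : ℝ) < s := lt_trans (by positivity) hs
  have hs1 : 1 ≤ s := by
    have : 0 < s := by exact_mod_cast hs0
    exact this
  have hse : 1 / (s : ℝ) ≤ ε / 2 := by
    rw [div_le_div_iff₀ hs0 (by norm_num)]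
    rw [div_lt_iff₀ hε] at hs
    linarith
  obtain ⟨i0, hi0⟩ := eventually_atTop.1 (hU s hs1)
  have hL : Tendsto (fun x : ℕ => Real.log (x : ℝ)) atTop atTop :=
    Real.tendsto_log_atTop.comp tendsto_natCast_atTop_atTop
  filter_upwards [hL.eventually_ge_atTop 2,
    hL.eventually_ge_atTop ((1 + ε / 2) * Real.log 2 / (ε / 2)),
    eventually_ge_atTop (2 ^ i0)] with x hx1 hx2 hx3 n hn k hk
  have hx0 : x ≠ 0 := by
    have : 0 < 2 ^ i0 := by positivity
    omega
  have hxpos : (0 : ℝ) < x := by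
    have : 0 < x := Nat.pos_of_ne_zero hx0
    exact_mod_cast this
  set L : ℝ := Real.log (x : ℝ) with hLdef
  have hlogL : 0 < Real.log L := Real.log_pos (by linarith)
  have hR : 0 ≤ (1 + ε) * (L / Real.log L) := by positivity
  rcases Nat.eq_zero_or_pos k with hk0 | hkpos
  · rw [hk0]
    simpa using hR
  -- n is positive
  have hn1 : 1 ≤ n := by
    rcases Nat.eq_zero_or_pos n with h | h
    · exfalso
      have := hk.1 0 hkpos
      rw [fin_ch_zero, h] at this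
      exact h0 this
    · exact h
  set i := Nat.log 2 x with hi
  have hxi : x < 2 ^ (i + 1) := Nat.lt_pow_succ_log_self (by norm_num) x
  have hxi' : 2 ^ i ≤ x := Nat.pow_log_le_self 2 hx0
  have hii : i0 ≤ i + 1 := by
    by_contra hcon
    push Not at hcon
    have : 2 ^ (i + 1) ≤ 2 ^ i0 := Nat.pow_le_pow_right (by norm_num) (by omega)
    omega
  obtain ⟨j, hj1, hj2⟩ := hi0 (i + 1) hii n hn1 (by omega)
  have hkj : k ≤ j := by
    by_contra hcon
    push Not at hcon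
    exact hj2 (hk.1 j hcon)
  have hkj' : (k : ℝ) ≤ j := by exact_mod_cast hkj
  -- the size of log (2^(i+1))
  have hM1 : L ≤ Real.log ((2 : ℝ) ^ (i + 1)) := by
    apply Real.log_le_log hxpos
    exact_mod_cast hxi.le
  have hM2 : Real.log ((2 : ℝ) ^ (i + 1)) ≤ L + Real.log 2 := by
    rw [pow_succ, Real.log_mul (by positivity) (by norm_num)]
    have : Real.log ((2 : ℝ) ^ i) ≤ L := by
      apply Real.log_le_log (by positivity)
      exact_mod_cast hxi'
    linarith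
  have hlM : Real.log L ≤ Real.log (Real.log ((2 : ℝ) ^ (i + 1))) :=
    Real.log_le_log (by linarith) hM1
  have h1 : Real.log ((2 : ℝ) ^ (i + 1)) / Real.log (Real.log ((2 : ℝ) ^ (i + 1))) ≤
      (L + Real.log 2) / Real.log L := by
    have hl2 : 0 < Real.log 2 := Real.log_pos (by norm_num)
    exact div_le_div₀ (by linarith) hM2 hlogL hlM
  have h2 : (1 + 1 / (s : ℝ)) *
      (Real.log ((2 : ℝ) ^ (i + 1)) / Real.log (Real.log ((2 : ℝ) ^ (i + 1)))) ≤
      (1 + ε / 2) * ((L + Real.log 2) / Real.log L) := by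
    have hl2 : 0 < Real.log 2 := Real.log_pos (by norm_num)
    have h3 : 0 ≤ (L + Real.log 2) / Real.log L := by positivity
    have h4 : 0 ≤ 1 / (s : ℝ) := by positivity
    calc _ ≤ (1 + 1 / (s : ℝ)) * ((L + Real.log 2) / Real.log L) :=
          mul_le_mul_of_nonneg_left h1 (by linarith)
      _ ≤ _ := mul_le_mul_of_nonneg_right (by linarith) h3
  have h5 : (1 + ε / 2) * ((L + Real.log 2) / Real.log L) ≤ (1 + ε) * (L / Real.log L) := by
    rw [← mul_div_assoc, ← mul_div_assoc]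
    apply div_le_div_of_nonneg_right _ hlogL.le
    rw [div_le_iff₀ (by positivity)] at hx2
    nlinarith
  linarith

/-- The deterministic part, lower bound. -/
private theorem fin_lower {R : ℕ → Prop}
    (hU : ∀ s : ℕ, 1 ≤ s → ∀ᶠ i : ℕ in atTop, ∀ n : ℕ, 1 ≤ n → n ≤ 2 ^ i →
      ∃ j : ℕ, (j : ℝ) < (1 + 1 / (s : ℝ)) *
        (Real.log ((2 : ℝ) ^ i) / Real.log (Real.log ((2 : ℝ) ^ i))) ∧ ¬ R (ch j n))
    (hLw : ∀ s : ℕ, 2 ≤ s → ∀ᶠ i : ℕ in atTop, ∃ n : ℕ, 2 ^ i ≤ n ∧ n < 2 ^ (i + 1) ∧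
      ∀ j : ℕ, (j : ℝ) < (1 - 1 / (s : ℝ)) *
        (Real.log ((2 : ℝ) ^ i) / Real.log (Real.log ((2 : ℝ) ^ i))) → R (ch j n))
    {ε : ℝ} (hε : 0 < ε) (hε1 : ε < 1) :
    ∀ᶠ x : ℕ in atTop, ∀ k : ℕ, 1 ≤ k →
      (k : ℝ) ≤ (1 - ε) * (Real.log x / Real.log (Real.log x)) →
        ∃ n ≤ x, StartsExact R n k := by
  classical
  obtain ⟨s, hs⟩ := exists_nat_gt (2 / ε)
  have hs0 : (0 : ℝ) < s := lt_trans (by positivity) hs
  have hs2 : (2 : ℝ) < s := by
    have : 2 < 2 / ε := by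
      rw [lt_div_iff₀ hε]
      linarith
    linarith
  have hs1 : 2 ≤ s := by
    have : 2 < s := by exact_mod_cast hs2
    omega
  have hse : 1 / (s : ℝ) ≤ ε / 2 := by
    rw [div_le_div_iff₀ hs0 (by norm_num)]
    rw [div_lt_iff₀ hε] at hs
    linarith
  obtain ⟨i0, hi0⟩ := eventually_atTop.1 (hLw s hs1)
  obtain ⟨i1, hi1⟩ := eventually_atTop.1 (hU 1 (le_refl 1))
  have hL : Tendsto (fun x : ℕ => Real.log (x : ℝ)) atTop atTop :=
    Real.tendsto_log_atTop.comp tendsto_natCast_atTop_atTop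
  have hl2 : 0 < Real.log 2 := Real.log_pos (by norm_num)
  have hl2' : Real.log 2 < 1 := by
    have := Real.log_two_lt_d9
    linarith
  filter_upwards [hL.eventually_ge_atTop 8,
    hL.eventually_ge_atTop (8 / ε),
    hL.eventually_ge_atTop (2 * Real.exp (64 / ε)),
    hL.eventually_ge_atTop (2 * (i0 + i1 + 2 : ℝ))] with x hx1 hx2 hx3 hx4 k hk1 hk2
  set L : ℝ := Real.log (x : ℝ) with hLdef
  have hxpos : (0 : ℝ) < x := by
    rcases Nat.eq_zero_or_pos x with h | h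
    · rw [hLdef, h] at hx1
      simp at hx1
      linarith
    · exact_mod_cast h
  have hlogL : 0 < Real.log L := Real.log_pos (by linarith)
  set i : ℕ := ⌊(1 - ε / 4) * L / Real.log 2⌋₊ with hi
  have hq0 : 0 ≤ (1 - ε / 4) * L / Real.log 2 := by
    apply div_nonneg (mul_nonneg (by linarith) (by linarith)) hl2.le
  have hi_le : (i : ℝ) * Real.log 2 ≤ (1 - ε / 4) * L := by
    have := Nat.floor_le hq0
    rwa [← hi, le_div_iff₀ hl2] at this
  have hi_gt : (1 - ε / 4) * L < ((i : ℝ) + 1) * Real.log 2 := by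
    have := Nat.lt_floor_add_one ((1 - ε / 4) * L / Real.log 2)
    rwa [← hi, div_lt_iff₀ hl2] at this
  have h34 : (3 / 4) * L ≤ (1 - ε / 4) * L := mul_le_mul_of_nonneg_right (by linarith) (by linarith)
  -- i is large
  have hi_big : (i0 + i1 : ℝ) ≤ i := by
    have h1 : ((i : ℝ) + 1) * Real.log 2 ≤ (i : ℝ) + 1 := by
      have : (0 : ℝ) ≤ (i : ℝ) + 1 := by positivity
      nlinarith
    linarith
  have hi_big' : i0 + i1 ≤ i := by exact_mod_cast hi_big
  have hlog2i : Real.log ((2 : ℝ) ^ i) = i * Real.log 2 := Real.log_pow 2 i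
  have hlog2i1 : Real.log ((2 : ℝ) ^ (i + 1)) = ((i : ℝ) + 1) * Real.log 2 := by
    rw [Real.log_pow]
    push_cast
    ring
  obtain ⟨n, hn1, hn2, hn3⟩ := hi0 i (by omega)
  -- l(2^i) is large
  have hA : (1 - ε) * (L / Real.log L) ≤ (1 - 1 / (s : ℝ)) *
        (Real.log ((2 : ℝ) ^ i) / Real.log (Real.log ((2 : ℝ) ^ i))) := by
    rw [hlog2i]
    have h1 : (1 - ε / 4) * L - Real.log 2 ≤ i * Real.log 2 := by linarith
    have h2 : 1 < i * Real.log 2 := by linarith
    have h3 : 0 < Real.log (i * Real.log 2) := Real.log_pos h2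
    have h4 : Real.log (i * Real.log 2) ≤ Real.log L := by
      apply Real.log_le_log (by linarith)
      have : (1 - ε / 4) * L ≤ 1 * L := mul_le_mul_of_nonneg_right (by linarith) (by linarith)
      linarith
    have h5 : ((1 - ε / 4) * L - Real.log 2) / Real.log L ≤
        i * Real.log 2 / Real.log (i * Real.log 2) :=
      div_le_div₀ (by linarith) h1 h3 h4
    have h6 : 0 ≤ ((1 - ε / 4) * L - Real.log 2) / Real.log L := by
      apply div_nonneg _ hlogL.le
      linarith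
    have h7 : (1 - ε / 2) * (((1 - ε / 4) * L - Real.log 2) / Real.log L) ≤
        (1 - 1 / (s : ℝ)) * (i * Real.log 2 / Real.log (i * Real.log 2)) := by
      calc _ ≤ (1 - 1 / (s : ℝ)) * (((1 - ε / 4) * L - Real.log 2) / Real.log L) :=
            mul_le_mul_of_nonneg_right (by linarith) h6
        _ ≤ _ := mul_le_mul_of_nonneg_left h5 (by linarith)
    refine le_trans ?_ h7
    rw [← mul_div_assoc, ← mul_div_assoc]
    apply div_le_div_of_nonneg_right _ hlogL.le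
    rw [div_le_iff₀ hε] at hx2
    have h8 : (1 - ε / 2) * ((1 - ε / 4) * L - Real.log 2) =
        (1 - ε) * L + (ε * L / 4 + ε * ε * L / 8 - (1 - ε / 2) * Real.log 2) := by ring
    rw [h8]
    have h9 : 0 ≤ ε * ε * L / 8 := by positivity
    have h10 : (1 - ε / 2) * Real.log 2 ≤ 1 := by nlinarith
    nlinarith
  have hRk : ∀ j < k, R (ch j n) := by
    intro j hj
    apply hn3
    have : (j : ℝ) < k := by exact_mod_cast hj
    linarith
  have hn0 : 1 ≤ n := le_trans Nat.one_le_two_pow hn1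
  obtain ⟨j, hj1, hj2⟩ := hi1 (i + 1) (by omega) n hn0 hn2.le
  have hex : ∃ N, ¬ R (ch N n) := ⟨j, hj2⟩
  set N := Nat.find hex with hN
  have hNspec : ¬ R (ch N n) := Nat.find_spec hex
  have hNmin : ∀ m < N, R (ch m n) := by
    intro m hm
    have := Nat.find_min hex hm
    push Not at this
    exact this
  have hNj : N ≤ j := Nat.find_min' hex hj2
  have hkN : k ≤ N := by
    by_contra hcon
    push Not at hcon
    exact hNspec (hRk N hcon)
  refine ⟨ch (N - k) n, ?_, ?_, ?_⟩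
  · -- the size
    have hb1 : ch (N - k) n ≤ 2 ^ (N + i + 1) := by
      unfold ch
      have h1 : 2 ^ (N - k) ≤ 2 ^ N := Nat.pow_le_pow_right (by norm_num) (Nat.sub_le _ _)
      have h2 : 2 ^ (N - k) * (n + 1) ≤ 2 ^ N * 2 ^ (i + 1) := Nat.mul_le_mul h1 hn2
      rw [← pow_add] at h2
      have e : N + (i + 1) = N + i + 1 := by ring
      rw [e] at h2
      exact (Nat.sub_le _ _).trans h2
    refine hb1.trans ?_
    have hNr : (N : ℝ) ≤ ε * L / 16 := by
      have h1 : (N : ℝ) ≤ j := by exact_mod_cast hNj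
      have h2 : (j : ℝ) < 2 * (Real.log ((2 : ℝ) ^ (i + 1)) /
          Real.log (Real.log ((2 : ℝ) ^ (i + 1)))) := by
        have := hj1
        norm_num at this
        norm_num
        linarith
      have h3 : Real.log ((2 : ℝ) ^ (i + 1)) ≤ 2 * L := by
        rw [hlog2i1]
        have : (1 - ε / 4) * L ≤ 1 * L := mul_le_mul_of_nonneg_right (by linarith) (by linarith)
        linarith
      have h4 : 64 / ε ≤ Real.log (Real.log ((2 : ℝ) ^ (i + 1))) := by
        rw [hlog2i1, Real.le_log_iff_exp_le (by linarith)]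
        linarith
      have h5 : 0 < 64 / ε := by positivity
      have h6 : Real.log ((2 : ℝ) ^ (i + 1)) / Real.log (Real.log ((2 : ℝ) ^ (i + 1))) ≤
          2 * L / (64 / ε) := div_le_div₀ (by linarith) h3 h5 h4
      have h7 : 2 * L / (64 / ε) = ε * L / 32 := by
        field_simp
        ring
      linarith
    have hfin : ((N : ℝ) + i + 1) * Real.log 2 ≤ L := by
      rw [div_le_iff₀ hε] at hx2
      have h1 : (N : ℝ) * Real.log 2 ≤ N := by
        have : (0 : ℝ) ≤ N := by positivity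
        nlinarith
      nlinarith
    have h1 : Real.log ((2 : ℝ) ^ (N + i + 1)) ≤ Real.log x := by
      rw [Real.log_pow]
      push_cast
      linarith
    have h2 : (2 : ℝ) ^ (N + i + 1) ≤ x := (Real.log_le_log_iff (by positivity) hxpos).1 h1
    exact_mod_cast h2
  · intro m hm
    rw [fin_ch_ch]
    exact hNmin _ (by omega)
  · rw [fin_ch_ch]
    have e : k + (N - k) = N := by omega
    rw [e]
    exact hNspec

theorem lengths (hS : IsStrikes μ S) (z : ℕ) :
    ∀ᵐ ω ∂μ, ∀ ε : ℝ, 0 < ε → ε < 1 → ∀ᶠ x : ℕ in atTop,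
      (∀ k : ℕ, 1 ≤ k → (k : ℝ) ≤ (1 - ε) * (Real.log x / Real.log (Real.log x)) →
        ∃ n ≤ x, StartsExact (Sel z (Kof S ω)) n k) ∧
      (∀ n ≤ x, ∀ k : ℕ, StartsExact (Sel z (Kof S ω)) n k →
        (k : ℝ) ≤ (1 + ε) * (Real.log x / Real.log (Real.log x))) := by
  have hU : ∀ᵐ ω ∂μ, ∀ s : ℕ, 1 ≤ s → ∀ᶠ i : ℕ in atTop, ∀ n : ℕ, 1 ≤ n → n ≤ 2 ^ i →
      ∃ j : ℕ, (j : ℝ) < (1 + 1 / (s : ℝ)) *
        (Real.log ((2 : ℝ) ^ i) / Real.log (Real.log ((2 : ℝ) ^ i))) ∧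
        ¬ Sel z (Kof S ω) (ch j n) := by
    rw [ae_all_iff]
    intro s
    by_cases hs : 1 ≤ s
    · have : (0 : ℝ) < 1 / (s : ℝ) := by
        have : (0 : ℝ) < s := by exact_mod_cast hs
        positivity
      filter_upwards [upp hS z this] with ω hω _
      exact hω
    · exact Filter.Eventually.of_forall fun ω h => absurd h hs
  have hLw : ∀ᵐ ω ∂μ, ∀ s : ℕ, 2 ≤ s → ∀ᶠ i : ℕ in atTop, ∃ n : ℕ, 2 ^ i ≤ n ∧ n < 2 ^ (i + 1) ∧
      ∀ j : ℕ, (j : ℝ) < (1 - 1 / (s : ℝ)) *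
        (Real.log ((2 : ℝ) ^ i) / Real.log (Real.log ((2 : ℝ) ^ i))) →
        Sel z (Kof S ω) (ch j n) := by
    rw [ae_all_iff]
    intro s
    by_cases hs : 2 ≤ s
    · have hs' : (2 : ℝ) ≤ s := by exact_mod_cast hs
      have h1 : (0 : ℝ) < 1 / (s : ℝ) := by positivity
      have h2 : 1 / (s : ℝ) < 1 := by
        rw [div_lt_one (by linarith)]
        linarith
      filter_upwards [low hS z h1 h2] with ω hω _
      exact hω
    · exact Filter.Eventually.of_forall fun ω h => absurd h hs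
  filter_upwards [hU, hLw] with ω h1 h2 ε hε hε1
  filter_upwards [fin_upper (fin_sel_zero z _) h1 hε, fin_lower h1 h2 hε hε1] with x hx1 hx2
  exact ⟨hx2, hx1⟩

end Pool.Agent.HwS
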