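import Pool.Agent.HwS.YAs
import Pool.Agent.HwS.TailC

/-!
# Module HwS/Low: long chains exist

Let `L = log (2^i) = i log 2`, `K = ⌈(1-ε) L / log L⌉₊` (so `(j:ℝ) < (1-ε) L / log L ↔ j < K`),
`W = primorial z`, `I = {n ∈ [2^i, 2^(i+1)) : W ∣ n + 1}`, `|I| ≥ 2^i / W - 1`.
For `n ∈ I` and a prime `p ≤ z`: `p ∣ W ∣ n+1`, so `p ∤ ch j n = 2^j (n+1) - 1`; for large `i` all `ch j n ≥ n` are
`> z` and `≥ 2`: active.  `t n = {ch j n : j < K}` are pairwise disjoint (as in module Win: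
`ch j n ≤ 2^(j+i+1) - 1 < 2^(j+1) (2^i + 1) - 1`) and contained in `[2^i, b)`, `b = 2^(K+i+1)`.
`K ≤ i/2` for large `i`.  By `yy_tendsto` (limit `1/rho > 1/(2 rho)`) almost surely for all large `i` and all
`m ∈ [2^i, b)`: `yy z (H b) m = yy z (H m) m ≥ 1/(2 rho log m) ≥ q := 1/(4 rho L)` (`log m ≤ 2 L`), `q ≤ 1`.
`tail_zero`: `P(cond, no n ∈ I with t n ⊆ H b) ≤ exp(-|I| q^K)` and
`|I| q^K ≥ (2^i/(2W)) exp(-K log (4 rho L)) ≥ exp(ε L / 2)/(2W) ≥ i` for large `i`, because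
`K log(4 rho L) ≤ ((1-ε) L / log L + 1)(log L + log 4) ≤ (1 - ε/2) L` eventually.  Summable; Borel-Cantelli.
-/

open MeasureTheory ProbabilityTheory Filter Topology
open scoped ENNReal

namespace Pool.Agent.HwS

private theorem Low_ana {ε : ℝ} (hε : 0 < ε) (hε1 : ε < 1) (W : ℝ) (hW : 1 ≤ W) :
    ∀ᶠ L : ℝ in atTop, 1 ≤ Real.log L ∧ 1 ≤ L ∧
      2 * L ≤ Real.exp L / (2 * W) *
        Real.exp (-(((1 - ε) * (L / Real.log L) + 1) * Real.log (4 * L))) := by
  have h1 : ∀ᶠ L : ℝ in atTop, 1 ≤ Real.log L :=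
    Real.tendsto_log_atTop.eventually_ge_atTop 1
  have h2 : ∀ᶠ L : ℝ in atTop, 4 / ε * Real.log 4 ≤ Real.log L :=
    Real.tendsto_log_atTop.eventually_ge_atTop _
  have h3 : ∀ᶠ L : ℝ in atTop, ‖Real.log L‖ ≤ ε / 8 * ‖id L‖ :=
    Real.isLittleO_log_id_atTop.bound (by positivity)
  have h4 : ∀ᶠ L : ℝ in atTop, 1 ≤ L := eventually_ge_atTop 1
  have h5 : ∀ᶠ L : ℝ in atTop, 8 / ε * Real.log 4 ≤ L := eventually_ge_atTop _
  have h6 : ∀ᶠ L : ℝ in atTop, 32 * W / ε ^ 2 ≤ L := eventually_ge_atTop _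
  filter_upwards [h1, h2, h3, h4, h5, h6] with L h1 h2 h3 h4 h5 h6
  refine ⟨h1, h4, ?_⟩
  have hlog4 : 0 < Real.log 4 := Real.log_pos (by norm_num)
  have hL : 0 < L := by linarith
  have hlL : 0 < Real.log L := by linarith
  have hlog : Real.log (4 * L) = Real.log 4 + Real.log L :=
    Real.log_mul (by norm_num) hL.ne'
  have h3' : Real.log L ≤ ε / 8 * L := by
    have := h3
    rw [Real.norm_of_nonneg hlL.le, id, Real.norm_of_nonneg hL.le] at this
    exact this
  have h5' : Real.log 4 ≤ ε / 8 * L := by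
    have : ε / 8 * (8 / ε * Real.log 4) ≤ ε / 8 * L :=
      mul_le_mul_of_nonneg_left h5 (by positivity)
    calc Real.log 4 = ε / 8 * (8 / ε * Real.log 4) := by field_simp
      _ ≤ _ := this
  have h2' : L / Real.log L * Real.log 4 ≤ ε / 4 * L := by
    rw [div_mul_eq_mul_div, div_le_iff₀ hlL]
    have : ε / 4 * L * (4 / ε * Real.log 4) ≤ ε / 4 * L * Real.log L :=
      mul_le_mul_of_nonneg_left h2 (by positivity)
    calc L * Real.log 4 = ε / 4 * L * (4 / ε * Real.log 4) := by field_simp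
      _ ≤ _ := this
  have hf : ((1 - ε) * (L / Real.log L) + 1) * Real.log (4 * L) ≤ (1 - ε / 2) * L := by
    rw [hlog]
    have e1 : ((1 - ε) * (L / Real.log L) + 1) * (Real.log 4 + Real.log L) =
        (1 - ε) * (L / Real.log L * Real.log 4) + (1 - ε) * L + Real.log 4 + Real.log L := by
      field_simp
      ring
    rw [e1]
    have e2 : (1 - ε) * (L / Real.log L * Real.log 4) ≤ 1 * (L / Real.log L * Real.log 4) :=
      mul_le_mul_of_nonneg_right (by linarith) (by positivity)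
    nlinarith
  have hq : 4 * W * L ≤ Real.exp (ε / 2 * L) := by
    have h := Real.quadratic_le_exp_of_nonneg (x := ε / 2 * L) (by positivity)
    have h7 : 32 * W ≤ L * ε ^ 2 := by
      rw [div_le_iff₀ (by positivity)] at h6
      exact h6
    nlinarith [mul_le_mul_of_nonneg_right h7 hL.le, mul_pos hε hL]
  have hm : Real.exp (ε / 2 * L) ≤ Real.exp L *
      Real.exp (-(((1 - ε) * (L / Real.log L) + 1) * Real.log (4 * L))) := by
    rw [← Real.exp_add]
    apply Real.exp_le_exp.2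
    linarith
  have hW0 : 0 < 2 * W := by linarith
  rw [div_mul_eq_mul_div, le_div_iff₀ hW0]
  nlinarith

private theorem Low_card (W i : ℕ) (hW : 1 ≤ W) (hi : 2 * (W : ℝ) ≤ 2 ^ i) :
    (2 : ℝ) ^ i / (2 * W) ≤ ((Finset.Ioc (2 ^ i / W) (2 ^ (i + 1) / W)).card : ℝ) := by
  rw [Nat.card_Ioc]
  have hW0 : (0 : ℝ) < W := by exact_mod_cast hW
  have h1 : ((2 ^ i / W : ℕ) : ℝ) ≤ (2 : ℝ) ^ i / W := by
    have := @Nat.cast_div_le ℝ _ _ _ (2 ^ i) W
    push_cast at this
    exact this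
  have h2 : (2 : ℝ) ^ (i + 1) / W - 1 ≤ ((2 ^ (i + 1) / W : ℕ) : ℝ) := by
    have h3 : 2 ^ (i + 1) < W * (2 ^ (i + 1) / W + 1) := by
      have := Nat.div_add_mod (2 ^ (i + 1)) W
      have h4 := Nat.mod_lt (2 ^ (i + 1)) hW
      nlinarith
    have h3' : (2 : ℝ) ^ (i + 1) < W * (((2 ^ (i + 1) / W : ℕ) : ℝ) + 1) := by
      exact_mod_cast h3
    have : (2 : ℝ) ^ (i + 1) / W < ((2 ^ (i + 1) / W : ℕ) : ℝ) + 1 := by
      rw [div_lt_iff₀ hW0]
      linarith
    linarith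
  have hle : 2 ^ i / W ≤ 2 ^ (i + 1) / W :=
    Nat.div_le_div_right (Nat.pow_le_pow_right (by norm_num) (by omega))
  rw [Nat.cast_sub hle]
  have h5 : (2 : ℝ) ^ (i + 1) / W = 2 * ((2 : ℝ) ^ i / W) := by
    rw [pow_succ]
    ring
  have h6 : 1 ≤ (2 : ℝ) ^ i / (2 * W) := by
    rw [le_div_iff₀ (by linarith)]
    linarith
  have h7 : (2 : ℝ) ^ i / W = 2 * ((2 : ℝ) ^ i / (2 * W)) := by
    field_simp
  linarith

variable {Ω : Type} [MeasurableSpace Ω] {μ : Measure Ω} {S : ℕ → ℕ → Set Ω} [IsProbabilityMeasure μ]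

private theorem Low_event (hS : IsStrikes μ S) (z i K W : ℕ) (hzi : z < 2 ^ i) (hi2 : 2 ≤ 2 ^ i)
    (hW : 1 ≤ W) (hWp : ∀ p : ℕ, p.Prime → p ≤ z → p ∣ W) (q : ℝ) (hq0 : 0 ≤ q) (hq1 : q ≤ 1) :
    μ.real {ω | (∀ m, 2 ^ i ≤ m → m < 2 ^ (K + i + 1) → act z m →
          q ≤ yy z (H z (Kof S ω) (2 ^ (K + i + 1))) m) ∧
        ∀ m ∈ Finset.Ioc (2 ^ i / W) (2 ^ (i + 1) / W),
          ¬ (Finset.range K).image (fun j => ch j (W * m - 1)) ⊆
            H z (Kof S ω) (2 ^ (K + i + 1))} ≤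
      Real.exp (-((Finset.Ioc (2 ^ i / W) (2 ^ (i + 1) / W)).card * q ^ K)) := by
  have key : ∀ m ∈ Finset.Ioc (2 ^ i / W) (2 ^ (i + 1) / W), 2 ^ i < W * m ∧ W * m ≤ 2 ^ (i + 1) := by
    intro m hm
    rw [Finset.mem_Ioc] at hm
    constructor
    · have h1 : W * (2 ^ i / W + 1) ≤ W * m := Nat.mul_le_mul_left _ (by omega)
      have := Nat.div_add_mod (2 ^ i) W
      have h4 := Nat.mod_lt (2 ^ i) hW
      nlinarith
    · calc W * m ≤ W * (2 ^ (i + 1) / W) := Nat.mul_le_mul_left _ hm.2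
        _ ≤ 2 ^ (i + 1) := Nat.mul_div_le _ _
  have hch : ∀ m ∈ Finset.Ioc (2 ^ i / W) (2 ^ (i + 1) / W), ∀ j,
      ch j (W * m - 1) = 2 ^ j * (W * m) - 1 := by
    intro m hm j
    have := (key m hm).1
    unfold ch
    rw [Nat.sub_add_cancel (by omega)]
  have hbound : ∀ m ∈ Finset.Ioc (2 ^ i / W) (2 ^ (i + 1) / W), ∀ j,
      2 ^ (j + i) < 2 ^ j * (W * m) ∧ 2 ^ j * (W * m) ≤ 2 ^ (j + i + 1) := by
    intro m hm j
    obtain ⟨h1, h2⟩ := key m hm
    constructor
    · rw [pow_add]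
      exact Nat.mul_lt_mul_of_pos_left h1 (by positivity)
    · rw [add_assoc, pow_add]
      exact Nat.mul_le_mul_left _ h2
  have h := tail_zero (μ := μ) (S := S) hS (z := z) (a := 2 ^ i) (b := 2 ^ (K + i + 1)) hzi
    (Nat.pow_le_pow_right (by norm_num) (by omega))
    (Finset.Ioc (2 ^ i / W) (2 ^ (i + 1) / W))
    (fun m => (Finset.range K).image (fun j => ch j (W * m - 1)))
    (by
      intro m hm m' hm' hne
      rw [Finset.disjoint_left]
      intro x hx hx'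
      simp only [Finset.mem_image, Finset.mem_range] at hx hx'
      obtain ⟨j, hj, rfl⟩ := hx
      obtain ⟨j', hj', he⟩ := hx'
      rw [hch m hm, hch m' hm'] at he
      have b1 := hbound m hm j
      have b2 := hbound m' hm' j'
      have p1 : 0 < 2 ^ (j + i) := by positivity
      have p2 : 0 < 2 ^ (j' + i) := by positivity
      have he' : 2 ^ j' * (W * m') = 2 ^ j * (W * m) := by omega
      rcases lt_trichotomy j j' with hlt | heq | hgt
      · have : 2 ^ (j + i + 1) ≤ 2 ^ (j' + i) := Nat.pow_le_pow_right (by norm_num) (by omega)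
        omega
      · subst heq
        have h3 := Nat.eq_of_mul_eq_mul_left (by positivity) he'
        have h4 := Nat.eq_of_mul_eq_mul_left hW h3
        exact hne h4.symm
      · have : 2 ^ (j' + i + 1) ≤ 2 ^ (j + i) := Nat.pow_le_pow_right (by norm_num) (by omega)
        omega)
    (by
      intro m hm x hx
      simp only [Finset.mem_image, Finset.mem_range] at hx
      obtain ⟨j, hj, rfl⟩ := hx
      rw [hch m hm]
      have b1 := hbound m hm j
      have p1 : 2 ^ i ≤ 2 ^ (j + i) := Nat.pow_le_pow_right (by norm_num) (by omega)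
      have p2 : 2 ^ (j + i + 1) ≤ 2 ^ (K + i + 1) := Nat.pow_le_pow_right (by norm_num) (by omega)
      refine ⟨by omega, by omega, by omega, by omega, ?_⟩
      intro p hp hpz hdvd
      have h1 : p ∣ 2 ^ j * (W * m) := Dvd.dvd.mul_left (Dvd.dvd.mul_right (hWp p hp hpz) _) _
      have h2 : p ∣ 2 ^ j * (W * m) - (2 ^ j * (W * m) - 1) := Nat.dvd_sub h1 hdvd
      have h3 : 2 ^ j * (W * m) - (2 ^ j * (W * m) - 1) = 1 := by omega
      rw [h3] at h2
      exact hp.one_lt.ne' (Nat.dvd_one.1 h2))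
    (fun _ => q) (fun _ => hq0) (fun _ => hq1)
  refine h.trans (Real.exp_le_exp.2 (neg_le_neg ?_))
  rw [← nsmul_eq_mul, ← Finset.sum_const]
  refine Finset.sum_le_sum fun m _ => ?_
  rw [Finset.prod_const]
  apply pow_le_pow_of_le_one hq0 hq1
  exact Finset.card_image_le.trans (Finset.card_range K).le

theorem low (hS : IsStrikes μ S) (z : ℕ) {ε : ℝ} (hε : 0 < ε) (hε1 : ε < 1) :
    ∀ᵐ ω ∂μ, ∀ᶠ i : ℕ in atTop, ∃ n : ℕ, 2 ^ i ≤ n ∧ n < 2 ^ (i + 1) ∧
      ∀ j : ℕ, (j : ℝ) < (1 - ε) * (Real.log ((2 : ℝ) ^ i) / Real.log (Real.log ((2 : ℝ) ^ i))) →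
        Sel z (Kof S ω) (ch j n) := by
  obtain ⟨W, hWdef⟩ : ∃ W, W = primorial z := ⟨_, rfl⟩
  have hW : 1 ≤ W := hWdef ▸ primorial_pos z
  have hWp : ∀ p : ℕ, p.Prime → p ≤ z → p ∣ W := by
    intro p hp hpz
    rw [hWdef]
    exact (hp.dvd_primorial_iff).2 hpz
  have hW' : (1 : ℝ) ≤ W := by exact_mod_cast hW
  obtain ⟨L, hLdef⟩ : ∃ L : ℕ → ℝ, L = fun i => Real.log ((2 : ℝ) ^ i) := ⟨_, rfl⟩
  have hLi : ∀ i : ℕ, L i = i * Real.log 2 := fun i => by rw [hLdef]; exact Real.log_pow 2 i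
  have hlog2 : 0 < Real.log 2 := Real.log_pos (by norm_num)
  have hlog2' : Real.log 2 < 0.7 := by have := Real.log_two_lt_d9; linarith
  have hlog2'' : 0.5 < Real.log 2 := by have := Real.log_two_gt_d9; linarith
  have hLt : Tendsto L atTop atTop := by
    have : L = fun i : ℕ => (i : ℝ) * Real.log 2 := funext hLi
    rw [this]
    exact Tendsto.atTop_mul_const hlog2 tendsto_natCast_atTop_atTop
  obtain ⟨K, hKdef⟩ : ∃ K : ℕ → ℕ, K = fun i => ⌈(1 - ε) * (L i / Real.log (L i))⌉₊ := ⟨_, rfl⟩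
  obtain ⟨q, hqdef⟩ : ∃ q : ℕ → ℝ, q = fun i => 1 / (4 * rho z * L i) := ⟨_, rfl⟩
  have hrho := rho_pos z
  have hrho1 := rho_le_one z
  -- the good indices
  have hgood : ∀ᶠ i : ℕ in atTop, z < 2 ^ i ∧ 2 ≤ 2 ^ i ∧ 0 ≤ q i ∧ q i ≤ 1 ∧ K i + 1 ≤ i ∧
      1 ≤ L i ∧
      (i : ℝ) ≤ (Finset.Ioc (2 ^ i / W) (2 ^ (i + 1) / W)).card * q i ^ K i := by
    have h1 := hLt.eventually (Low_ana hε hε1 (W : ℝ) hW')
    have h2 : ∀ᶠ i : ℕ in atTop, 1 / (4 * rho z) ≤ L i := hLt.eventually_ge_atTop _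
    have h3 : ∀ᶠ i : ℕ in atTop, 2 * (W : ℝ) ≤ 2 ^ i :=
      (tendsto_pow_atTop_atTop_of_one_lt (by norm_num : (1 : ℝ) < 2)).eventually_ge_atTop _
    have h4 : ∀ᶠ i : ℕ in atTop, z < i := eventually_gt_atTop z
    have h5 : ∀ᶠ i : ℕ in atTop, 10 ≤ i := eventually_ge_atTop 10
    filter_upwards [h1, h2, h3, h4, h5] with i h1 h2 h3 h4 h5
    obtain ⟨g1, g2, g3⟩ := h1
    have hLpos : 0 < L i := by linarith
    have hd : 0 < 4 * rho z * L i := by positivity
    have hq0 : 0 < q i := by rw [hqdef]; positivity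
    have hq1 : q i ≤ 1 := by
      rw [hqdef]
      simp only
      rw [div_le_one hd]
      have : 1 / (4 * rho z) * (4 * rho z) ≤ L i * (4 * rho z) :=
        mul_le_mul_of_nonneg_right h2 (by positivity)
      rw [div_mul_cancel₀ _ (by positivity)] at this
      linarith
    have hK : (K i : ℝ) ≤ (1 - ε) * (L i / Real.log (L i)) + 1 := by
      rw [hKdef]
      exact (Nat.ceil_lt_add_one (by
        have : 0 ≤ L i / Real.log (L i) := by positivity
        have h' : 0 ≤ 1 - ε := by linarith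
        positivity)).le
    have hKi : K i + 1 ≤ i := by
      have e1 : L i / Real.log (L i) ≤ L i := div_le_self hLpos.le g1
      have e2 : (1 - ε) * (L i / Real.log (L i)) ≤ 1 * (L i / Real.log (L i)) :=
        mul_le_mul_of_nonneg_right (by linarith) (by positivity)
      have e3 : (10 : ℝ) ≤ i := by exact_mod_cast h5
      have e4 : (K i : ℝ) + 1 ≤ i := by
        have e5 := hLi i
        nlinarith
      exact_mod_cast e4
    refine ⟨?_, ?_, hq0.le, hq1, hKi, g2, ?_⟩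
    · exact h4.trans Nat.lt_two_pow_self
    · calc 2 = 2 ^ 1 := rfl
        _ ≤ 2 ^ i := Nat.pow_le_pow_right (by norm_num) (by omega)
    · have c1 := Low_card W i hW h3
      have c2 : Real.exp (-(((1 - ε) * (L i / Real.log (L i)) + 1) * Real.log (4 * L i))) ≤
          q i ^ K i := by
        have d1 : 1 / (4 * L i) ≤ q i := by
          rw [hqdef]
          simp only
          apply one_div_le_one_div_of_le hd
          nlinarith
        have d2 : (1 / (4 * L i)) ^ K i ≤ q i ^ K i := pow_le_pow_left₀ (by positivity) d1 _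
        refine le_trans ?_ d2
        have d3 : (1 / (4 * L i)) ^ K i = Real.exp (-(K i * Real.log (4 * L i))) := by
          rw [← Real.log_pow, Real.exp_neg, Real.exp_log (by positivity), one_div, inv_pow]
        rw [d3]
        apply Real.exp_le_exp.2
        have d4 : 0 ≤ Real.log (4 * L i) := Real.log_nonneg (by linarith)
        have := mul_le_mul_of_nonneg_right hK d4
        linarith
      have c3 : Real.exp (L i) = (2 : ℝ) ^ i := by
        rw [hLdef]
        exact Real.exp_log (by positivity)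
      rw [c3] at g3
      have c4 : (i : ℝ) ≤ 2 * L i := by
        rw [hLi i]
        have : (0 : ℝ) ≤ i := by positivity
        nlinarith
      calc (i : ℝ) ≤ 2 * L i := c4
        _ ≤ _ := g3
        _ ≤ _ := mul_le_mul c1 c2 (Real.exp_pos _).le (by positivity)
  obtain ⟨i0, hi0⟩ := eventually_atTop.1 hgood
  obtain ⟨E, hE⟩ : ∃ E : ℕ → Set Ω, E = fun i =>
    {ω | (∀ m, 2 ^ i ≤ m → m < 2 ^ (K i + i + 1) → act z m →
          q i ≤ yy z (H z (Kof S ω) (2 ^ (K i + i + 1))) m) ∧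
        ∀ m ∈ Finset.Ioc (2 ^ i / W) (2 ^ (i + 1) / W),
          ¬ (Finset.range (K i)).image (fun j => ch j (W * m - 1)) ⊆
            H z (Kof S ω) (2 ^ (K i + i + 1))} := ⟨_, rfl⟩
  have hEb : ∀ i, i0 ≤ i → μ (E i) ≤ ENNReal.ofReal (Real.exp (-(i : ℝ))) := by
    intro i hi
    obtain ⟨g1, g2, g3, g4, g5, g6, g7⟩ := hi0 i hi
    have := Low_event (μ := μ) (S := S) hS z i (K i) W g1 g2 hW hWp (q i) g3 g4
    have h2 : μ.real (E i) ≤ Real.exp (-(i : ℝ)) := by
      rw [hE]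
      exact this.trans (Real.exp_le_exp.2 (neg_le_neg g7))
    rw [← ENNReal.ofReal_toReal (measure_ne_top μ (E i))]
    exact ENNReal.ofReal_le_ofReal h2
  have hsum : ∑' i, μ (E (i + i0)) ≠ ∞ := by
    refine ne_top_of_le_ne_top ?_ (ENNReal.tsum_le_tsum fun i => hEb (i + i0) (by omega))
    have hs : Summable (fun i : ℕ => Real.exp (-((i + i0 : ℕ) : ℝ))) :=
      (summable_nat_add_iff i0).2 Real.summable_exp_neg_nat
    rw [← ENNReal.ofReal_tsum_of_nonneg (fun _ => (Real.exp_pos _).le) hs]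
    exact ENNReal.ofReal_ne_top
  have hBC := ae_eventually_notMem hsum
  filter_upwards [hBC, yy_tendsto (μ := μ) (S := S) hS z] with ω h1 h2
  have hlim : (2 * rho z)⁻¹ < (rho z)⁻¹ := by
    apply inv_strictAnti₀ hrho
    linarith
  have h3 := h2.eventually (lt_mem_nhds hlim)
  obtain ⟨N, hN⟩ := eventually_atTop.1 h3
  obtain ⟨i1, hi1⟩ := eventually_atTop.1 h1
  filter_upwards [eventually_ge_atTop i0, eventually_ge_atTop (i0 + i1), eventually_ge_atTop N]
    with i a1 a2 a3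
  obtain ⟨g1, g2, g3, g4, g5, g6, g7⟩ := hi0 i a1
  have hnot : ω ∉ E i := by
    have := hi1 (i - i0) (by omega)
    rwa [Nat.sub_add_cancel a1] at this
  have hcond : ∀ m, 2 ^ i ≤ m → m < 2 ^ (K i + i + 1) → act z m →
      q i ≤ yy z (H z (Kof S ω) (2 ^ (K i + i + 1))) m := by
    intro m hm1 hm2 _
    rw [yy_H _ hm2.le]
    have hNm : N ≤ m := a3.trans (Nat.lt_two_pow_self.le.trans hm1)
    have h5 := hN m hNm
    have hm0 : (2 : ℝ) ≤ m := by exact_mod_cast g2.trans hm1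
    have hlm : 0 < Real.log m := Real.log_pos (by linarith)
    have h6 : Real.log m ≤ 2 * L i := by
      have e1 : (m : ℝ) ≤ 2 ^ (2 * i) := by
        have : m ≤ 2 ^ (2 * i) :=
          hm2.le.trans (Nat.pow_le_pow_right (by norm_num) (by omega))
        exact_mod_cast this
      have e2 := Real.log_le_log (by linarith) e1
      rw [Real.log_pow] at e2
      rw [hLi i]
      push_cast at e2
      linarith
    have hLpos : 0 < L i := by linarith
    have h7 : (2 * rho z)⁻¹ / Real.log m ≤ yy z (H z (Kof S ω) m) m := by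
      rw [div_le_iff₀ hlm]
      exact h5.le
    refine le_trans ?_ h7
    rw [hqdef]
    simp only
    rw [inv_eq_one_div, div_div]
    apply one_div_le_one_div_of_le (by positivity)
    nlinarith
  have hex : ∃ m ∈ Finset.Ioc (2 ^ i / W) (2 ^ (i + 1) / W),
      (Finset.range (K i)).image (fun j => ch j (W * m - 1)) ⊆
        H z (Kof S ω) (2 ^ (K i + i + 1)) := by
    by_contra hcon
    push Not at hcon
    apply hnot
    rw [hE]
    exact ⟨hcond, hcon⟩
  obtain ⟨m, hm, hsub⟩ := hex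
  rw [Finset.mem_Ioc] at hm
  have k1 : 2 ^ i < W * m := by
    have h1 : W * (2 ^ i / W + 1) ≤ W * m := Nat.mul_le_mul_left _ (by omega)
    have := Nat.div_add_mod (2 ^ i) W
    have h4 := Nat.mod_lt (2 ^ i) hW
    nlinarith
  have k2 : W * m ≤ 2 ^ (i + 1) :=
    (Nat.mul_le_mul_left _ hm.2).trans (Nat.mul_div_le _ _)
  refine ⟨W * m - 1, by omega, by omega, ?_⟩
  intro j hj
  have hjK : j < K i := by
    rw [hKdef]
    apply Nat.lt_ceil.2
    rw [hLdef]
    exact hj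
  have := hsub (Finset.mem_image.2 ⟨j, Finset.mem_range.2 hjK, rfl⟩)
  exact ((mem_H _).1 this).2

end Pool.Agent.HwS
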