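import Pool.Agent.HwS.Step

/-!
# Module HwS/Mom: moments of `Y_n = 1 / yy z (H n) n`

Write `Y n A = (yy z A n)⁻¹`, `h n = hsum z n`.
For a good history `A` (A ⊆ range n): `yy z A (n+1) = yy z A n` (no element of `A` is `≥ n`), and for `n` active
`yy z (insert n A) (n+1) = yy z A n * (1 - 1/n)`, so `Y (n+1) (insert n A) = Y n A * n/(n-1) = Y n A + Y n A/(n-1)`
(`n ≥ 2`), and `h (n+1) = h n + 1/(n-1)`.  `Y n A > 0`, `yy * Y = 1`.  At `n = z+1`: good histories have all
elements `≤ z`, so `Y = 1` and `h = 0`.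

* `EY`: `mart` from `a = z+1` with `g m A = Y m A - h m`:
  `y (Y + Y/(n-1) - h - 1/(n-1)) + (1-y)(Y - h - 1/(n-1)) = Y - h` because `y Y = 1`.
* `EM2`: put `M = Y - 1 - h`.  With `y Y = 1`:
  `y (M + (Y-1)/(n-1))^2 + (1-y)(M - 1/(n-1))^2 = M^2 + (y (Y-1)^2 + (1-y))/(n-1)^2 = M^2 + (Y-1)/(n-1)^2`
  `≤ M^2 + Y/(n-1)^2`.  So `E M_{n+1}^2 ≤ E M_n^2 + (1 + h n)/(n-1)^2` (by `EY`), `h n ≤ 1 + log n`
  (harmonic sum; `h n ≤ Σ_{2 ≤ j < n} 1/(j-1)`), and `Σ (2 + log n)/(n-1)^2` converges
  (e.g. `log n ≤ 2 sqrt n`).  `E M_{z+1}^2 = 0`.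
-/

open MeasureTheory ProbabilityTheory Filter Topology
open scoped ENNReal

namespace Pool.Agent.HwS

variable {Ω : Type} [MeasurableSpace Ω] {μ : Measure Ω} {S : ℕ → ℕ → Set Ω} [IsProbabilityMeasure μ]

private theorem Mom_hs_act {z n : ℕ} (hn : act z n) :
    hsum z (n + 1) = hsum z n + 1 / ((n : ℝ) - 1) := by
  classical
  unfold hsum
  rw [Finset.range_add_one, Finset.filter_insert, if_pos hn, Finset.sum_insert, add_comm]
  rw [Finset.mem_filter]
  exact fun h => Finset.notMem_range_self h.1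

private theorem Mom_hs_inact {z n : ℕ} (hn : ¬ act z n) : hsum z (n + 1) = hsum z n := by
  classical
  unfold hsum
  rw [Finset.range_add_one, Finset.filter_insert, if_neg hn]

private theorem Mom_hs_start {z n : ℕ} (hn : n ≤ z + 1) : hsum z n = 0 := by
  classical
  unfold hsum
  apply Finset.sum_eq_zero
  intro j hj
  rw [Finset.mem_filter, Finset.mem_range] at hj
  have := hj.2.1
  omega

private theorem Mom_hs_two {z n : ℕ} (hn : n ≤ 2) : hsum z n = 0 := by
  classical
  unfold hsum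
  apply Finset.sum_eq_zero
  intro j hj
  rw [Finset.mem_filter, Finset.mem_range] at hj
  have := hj.2.2.1
  omega

private theorem Mom_hs_nonneg (z n : ℕ) : 0 ≤ hsum z n := by
  classical
  unfold hsum
  apply Finset.sum_nonneg
  intro j hj
  rw [Finset.mem_filter] at hj
  have h2 : (2 : ℝ) ≤ j := by exact_mod_cast hj.2.2.1
  exact div_nonneg zero_le_one (by linarith)

private theorem Mom_yy_start (z : ℕ) (A : Finset ℕ) : yy z A (z + 1) = 1 := by
  unfold yy
  apply Finset.prod_eq_one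
  intro m hm
  rw [Finset.mem_filter] at hm
  omega

open Classical in
private noncomputable def MomF (z n : ℕ) : ℝ :=
  ∑ j ∈ (Finset.range n).filter (fun j => act z j), hsum z j / ((j : ℝ) - 1) ^ 2

private theorem MomF_act {z n : ℕ} (hn : act z n) :
    MomF z (n + 1) = MomF z n + hsum z n / ((n : ℝ) - 1) ^ 2 := by
  classical
  unfold MomF
  rw [Finset.range_add_one, Finset.filter_insert, if_pos hn, Finset.sum_insert, add_comm]
  rw [Finset.mem_filter]
  exact fun h => Finset.notMem_range_self h.1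

private theorem MomF_inact {z n : ℕ} (hn : ¬ act z n) : MomF z (n + 1) = MomF z n := by
  classical
  unfold MomF
  rw [Finset.range_add_one, Finset.filter_insert, if_neg hn]

private theorem MomF_start {z n : ℕ} (hn : n ≤ z + 1) : MomF z n = 0 := by
  classical
  unfold MomF
  apply Finset.sum_eq_zero
  intro j hj
  rw [Finset.mem_filter, Finset.mem_range] at hj
  have := hj.2.1
  omega

private theorem MomF_three {z n : ℕ} (hn : n ≤ 3) : MomF z n = 0 := by
  classical
  unfold MomF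
  apply Finset.sum_eq_zero
  intro j hj
  rw [Finset.mem_filter, Finset.mem_range] at hj
  rw [Mom_hs_two (by omega), zero_div]

private theorem Mom_hs_three (z : ℕ) : hsum z 3 ≤ 1 := by
  by_cases h : act z 2
  · rw [Mom_hs_act h, Mom_hs_two le_rfl]
    norm_num
  · rw [Mom_hs_inact h, Mom_hs_two le_rfl]
    norm_num

private theorem MomF_bound (z : ℕ) {n : ℕ} (hn : 3 ≤ n) :
    MomF z n + (hsum z n + 1) / ((n : ℝ) - 2) ≤ 2 := by
  induction n, hn using Nat.le_induction with
  | base =>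
    rw [MomF_three le_rfl]
    have := Mom_hs_three z
    norm_num
    linarith
  | succ n hn ih =>
    have h3 : (3 : ℝ) ≤ n := by exact_mod_cast hn
    have hh := Mom_hs_nonneg z n
    refine le_trans ?_ ih
    push_cast
    obtain ⟨x, hx⟩ : ∃ x : ℝ, x = (n : ℝ) - 2 := ⟨_, rfl⟩
    have hx1 : 1 ≤ x := by linarith
    have e1 : (n : ℝ) - 1 = x + 1 := by rw [hx]; ring
    have e2 : (n : ℝ) + 1 - 2 = x + 1 := by rw [hx]; ring
    by_cases h : act z n
    · rw [Mom_hs_act h, MomF_act h, e1, e2, ← hx]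
      have e3 : (hsum z n + 1) / x - (hsum z n + 1 / (x + 1) + 1) / (x + 1) -
          hsum z n / (x + 1) ^ 2 = (hsum z n + 1) / (x * (x + 1) ^ 2) := by
        field_simp
        ring
      have e4 : 0 ≤ (hsum z n + 1) / (x * (x + 1) ^ 2) := by positivity
      linarith
    · rw [Mom_hs_inact h, MomF_inact h, e2, ← hx]
      have e4 : (hsum z n + 1) / (x + 1) ≤ (hsum z n + 1) / x := by
        apply div_le_div_of_nonneg_left (by linarith) (by linarith) (by linarith)
      linarith

private theorem MomF_le (z n : ℕ) : MomF z n ≤ 2 := by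
  rcases Nat.lt_or_ge n 3 with h | h
  · rw [MomF_three h.le]
    norm_num
  · have h1 := MomF_bound z h
    have h3 : (3 : ℝ) ≤ n := by exact_mod_cast h
    have hh := Mom_hs_nonneg z n
    have h2 : 0 ≤ (hsum z n + 1) / ((n : ℝ) - 2) := div_nonneg (by linarith) (by linarith)
    linarith

theorem yy_succ {z n : ℕ} {A : Finset ℕ} (hA : Good z n A) : yy z A (n + 1) = yy z A n := by
  unfold yy
  congr 1
  ext m
  rw [Finset.mem_filter, Finset.mem_filter]
  constructor
  · rintro ⟨h1, h2, h3⟩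
    exact ⟨h1, h2, Finset.mem_range.1 (hA.1 h1)⟩
  · rintro ⟨h1, h2, h3⟩
    exact ⟨h1, h2, by omega⟩

theorem yy_insert {z n : ℕ} {A : Finset ℕ} (hA : Good z n A) (hn : act z n) :
    yy z (insert n A) (n + 1) = yy z A n * (1 - 1 / (n : ℝ)) := by
  have hnA : n ∉ A := fun h => Finset.notMem_range_self (hA.1 h)
  have h1 : (insert n A).filter (fun m => z < m ∧ m < n + 1) =
      insert n (A.filter (fun m => z < m ∧ m < n)) := by
    ext m
    rw [Finset.mem_filter, Finset.mem_insert, Finset.mem_insert, Finset.mem_filter]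
    constructor
    · rintro ⟨h1 | h1, h2, h3⟩
      · exact Or.inl h1
      · exact Or.inr ⟨h1, h2, Finset.mem_range.1 (hA.1 h1)⟩
    · rintro (h1 | ⟨h1, h2, h3⟩)
      · rw [h1]
        exact ⟨Or.inl rfl, hn.1, by omega⟩
      · exact ⟨Or.inr h1, h2, by omega⟩
  unfold yy
  rw [h1, Finset.prod_insert, mul_comm]
  rw [Finset.mem_filter]
  exact fun h => hnA h.1

theorem EY (hS : IsStrikes μ S) {z n : ℕ} (hn : z < n) :
    Ex μ S z n (fun A => (yy z A n)⁻¹) = 1 + hsum z n := by
  have h1 := mart hS (z := z) (a := z + 1) (b := n) (by omega) (by omega)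
    (fun m A => (yy z A m)⁻¹ - hsum z m)
    (fun m _ _ A hA hm => by
      have hy := yy_pos hA m
      have h2 : (2 : ℝ) ≤ m := by exact_mod_cast hm.2.1
      rw [yy_insert hA hm, yy_succ hA, Mom_hs_act hm]
      have h3 : (m : ℝ) - 1 ≠ 0 := by linarith
      have h4 : (m : ℝ) ≠ 0 := by linarith
      have h5 : (yy z A m * (1 - 1 / (m : ℝ)))⁻¹ = (yy z A m)⁻¹ * (m / (m - 1)) := by
        rw [mul_inv]
        congr 1
        rw [one_sub_div h4, inv_div]
      rw [h5]
      field_simp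
      ring)
    (fun m _ _ A hA hm => by
      rw [yy_succ hA, Mom_hs_inact hm])
  have h2 : Ex μ S z (z + 1) (fun A => (yy z A (z + 1))⁻¹ - hsum z (z + 1)) = 1 := by
    have h3 : Ex μ S z (z + 1) (fun A => (yy z A (z + 1))⁻¹ - hsum z (z + 1)) =
        Ex μ S z (z + 1) (fun _ => 1) := by
      apply Ex_congr hS
      intro A _
      rw [Mom_yy_start, Mom_hs_start le_rfl]
      norm_num
    rw [h3, Ex_const]
  rw [h2] at h1
  have h4 : Ex μ S z n (fun A => (yy z A n)⁻¹ - hsum z n) =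
      Ex μ S z n (fun A => (yy z A n)⁻¹) - hsum z n := by
    have h5 := Ex_add hS z n (fun A => (yy z A n)⁻¹) (fun _ => - hsum z n)
    rw [Ex_const] at h5
    simp only [← sub_eq_add_neg] at h5
    exact h5
  have h6 : Ex μ S z n (fun A => (yy z A n)⁻¹ - hsum z n) = 1 := h1
  rw [h4] at h6
  linarith

theorem EM2 (z : ℕ) : ∃ C : ℝ, ∀ (Ω : Type) (_ : MeasurableSpace Ω) (μ : Measure Ω)
    (_ : IsProbabilityMeasure μ) (S : ℕ → ℕ → Set Ω), IsStrikes μ S → ∀ n, z < n →
      Ex μ S z n (fun A => ((yy z A n)⁻¹ - 1 - hsum z n) ^ 2) ≤ C := by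
  refine ⟨2, ?_⟩
  intro Ω _ μ _ S hS n hn
  refine le_trans (le_of_eq ?_) (MomF_le z n)
  have hn' : z + 1 ≤ n := hn
  clear hn
  induction n, hn' using Nat.le_induction with
  | base =>
    rw [MomF_start le_rfl]
    have h3 : Ex μ S z (z + 1) (fun A => ((yy z A (z + 1))⁻¹ - 1 - hsum z (z + 1)) ^ 2) =
        Ex μ S z (z + 1) (fun _ => 0) := by
      apply Ex_congr hS
      intro A _
      rw [Mom_yy_start, Mom_hs_start le_rfl]
      norm_num
    rw [h3, Ex_const]
  | succ n hn ih =>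
    by_cases h : act z n
    · rw [step hS h, MomF_act h, ← ih]
      have h2 : (2 : ℝ) ≤ n := by exact_mod_cast h.2.1
      have h3 : (n : ℝ) - 1 ≠ 0 := by linarith
      have h4 : (n : ℝ) ≠ 0 := by linarith
      have e1 : Ex μ S z n (fun A => yy z A n *
            (((yy z (insert n A) (n + 1))⁻¹ - 1 - hsum z (n + 1)) ^ 2) +
          (1 - yy z A n) * (((yy z A (n + 1))⁻¹ - 1 - hsum z (n + 1)) ^ 2)) =
          Ex μ S z n (fun A => (((yy z A n)⁻¹ - 1 - hsum z n) ^ 2) +
            (1 / ((n : ℝ) - 1) ^ 2 * (yy z A n)⁻¹ + -(1 / ((n : ℝ) - 1) ^ 2))) := by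
        apply Ex_congr hS
        intro A hA
        have hy := yy_pos hA n
        rw [yy_insert hA h, yy_succ hA, Mom_hs_act h]
        have h5 : (yy z A n * (1 - 1 / (n : ℝ)))⁻¹ = (yy z A n)⁻¹ * (n / (n - 1)) := by
          rw [mul_inv]
          congr 1
          rw [one_sub_div h4, inv_div]
        rw [h5]
        field_simp
        ring
      rw [e1, Ex_add hS, Ex_add hS, Ex_const_mul hS, Ex_const, EY hS (by omega)]
      ring
    · rw [step_inact (by omega) h, MomF_inact h, ← ih]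
      apply Ex_congr hS
      intro A hA
      rw [yy_succ hA, Mom_hs_inact h]

end Pool.Agent.HwS
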