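import Mathlib

/-!
# Module HwS/QrAlg: integers modulo which `n` is a square

`t = 2 b ^ 2 - c`, `N = (n + t) ^ 2 - 4 b ^ 2 n = n ^ 2 - 2 c n + t ^ 2`, with `c = 0` for odd `n` and `c = 3` for even `n`.
`N` is odd. If `b` is coprime to `n - c` then `2 b` is a unit modulo `N` and `n` is the square of `(n + t) / (2 b)`.
If `t` is coprime to `n` then so is `N`. Modulo an odd prime `l`: `N = (n - c) ^ 2` if `l` divides `b`, and
`N = 4 (1 - c)` if `l` divides `n - c` and `b - 1`.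
-/

namespace Pool.Agent.HwS

/-- The number `N`. -/
def qrN (c n b : ℤ) : ℤ := (n + (2 * b ^ 2 - c)) ^ 2 - 4 * b ^ 2 * n

theorem qrN_eq (c n b : ℤ) : qrN c n b = n ^ 2 - 2 * c * n + (2 * b ^ 2 - c) ^ 2 := by
  unfold qrN
  ring

theorem qrN_odd {c n : ℤ} (h : Odd (n + c)) (b : ℤ) : Odd (qrN c n b) := by
  have h1 : qrN c n b = (n + c) ^ 2 + 2 * (2 * b ^ 4 - 2 * b ^ 2 * c - 2 * c * n) := by
    unfold qrN
    ring
  rw [h1]
  exact (h.pow).add_even (even_two_mul _)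

theorem qrN_cop_b {c n b : ℤ} (h : IsCoprime b (n - c)) : IsCoprime b (qrN c n b) := by
  have h1 : qrN c n b = (n - c) ^ 2 + b * (4 * b ^ 3 - 4 * b * c) := by
    unfold qrN
    ring
  rw [h1]
  exact (h.pow_right).add_mul_left_right _

theorem qrN_cop_n {c n b : ℤ} (h : IsCoprime n (2 * b ^ 2 - c)) : IsCoprime n (qrN c n b) := by
  have h1 : qrN c n b = (2 * b ^ 2 - c) ^ 2 + n * (n - 2 * c) := by
    unfold qrN
    ring
  rw [h1]
  exact (h.pow_right).add_mul_left_right _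

theorem qrN_square {c n b : ℤ} (ho : Odd (n + c)) (h : IsCoprime b (n - c)) :
    ∃ x : ℤ, qrN c n b ∣ x ^ 2 - n := by
  have h1 : IsCoprime (2 : ℤ) (qrN c n b) := Int.isCoprime_two_left.2 (qrN_odd ho b)
  have h2 : IsCoprime (2 * b) (qrN c n b) := h1.mul_left (qrN_cop_b h)
  obtain ⟨u, v, huv⟩ := h2
  have h4 : (n + (2 * b ^ 2 - c)) ^ 2 = qrN c n b + 4 * b ^ 2 * n := by
    unfold qrN
    ring
  refine ⟨(n + (2 * b ^ 2 - c)) * u, u ^ 2 - n * v * (2 * b * u + 1), ?_⟩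
  linear_combination u ^ 2 * h4 + n * (2 * b * u + 1) * huv

theorem not_dvd_of_b {l c n b : ℤ} (hl : Prime l) (hb : l ∣ b) (h : ¬ l ∣ n - c) :
    ¬ l ∣ qrN c n b := by
  intro h1
  have h2 : qrN c n b = (n - c) ^ 2 + b * (4 * b ^ 3 - 4 * b * c) := by
    unfold qrN
    ring
  rw [h2] at h1
  have h3 := (dvd_add_left (hb.mul_right _)).1 h1
  exact h (hl.dvd_of_dvd_pow h3)

theorem not_dvd_of_one {l c n b : ℤ} (hl : Prime l) (hl2 : ¬ l ∣ 2) (hc : c = 0 ∨ c = 3)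
    (hb : l ∣ b - 1) (h : l ∣ n - c) : ¬ l ∣ qrN c n b := by
  intro h1
  have h2 : qrN c n b = 4 * (1 - c) + (b - 1) * (4 * (b + 1) * (b ^ 2 + 1 - c)) +
      (n - c) * (n - c) := by
    unfold qrN
    ring
  rw [h2] at h1
  have h3 := (dvd_add_left (h.mul_right _)).1 h1
  have h4 := (dvd_add_left (hb.mul_right _)).1 h3
  rcases hc with rfl | rfl
  · have h5 : l ∣ 2 ^ 2 := by
      have : (2 : ℤ) ^ 2 = 4 * (1 - 0) := by norm_num
      rw [this]
      exact h4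
    exact hl2 (hl.dvd_of_dvd_pow h5)
  · have h5 : l ∣ 2 ^ 3 := by
      have : (2 : ℤ) ^ 3 = -(4 * (1 - 3)) := by norm_num
      rw [this]
      exact h4.neg_right
    exact hl2 (hl.dvd_of_dvd_pow h5)

end Pool.Agent.HwS
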