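import Pool.Agent.HwS.QrAlg

/-!
# Module HwS/QrCnt: many integers modulo which `n` is a square, between `n ^ 2` and `(n + 1) ^ 2`

Let `P` be the product of the primes `l ≤ y`. By the Chinese remainder theorem there is `b0 < P` with `b0 = 1` modulo the
`l ≤ y` which divide `n - c`, and `b0 = 0` modulo the others. In the progression `a + P j`, `j < X`, `a = b0` modulo `P`,
at most half of the terms `b` are bad: a prime `l > y` divides `n - c` and `b`, or `n` and `2 b ^ 2 - c`. A prime `l` spoils at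
most `2 (X / l + 1)` terms, and there are few primes `l > y` which divide `n (n - c)`.
-/

namespace Pool.Agent.HwS

/-- Among `a + P j`, `j < X`, few lie in given classes modulo a prime not dividing `P`. -/
theorem count_res {l P a X : ℕ} (hl : l.Prime) (hP : ¬ l ∣ P) (R : Finset (ZMod l)) :
    ((Finset.range X).filter fun j => ((a + P * j : ℕ) : ZMod l) ∈ R).card ≤
      R.card * (X / l + 1) := by
  classical
  haveI := Fact.mk hl
  have hinj : Set.InjOn (fun j : ℕ => (((a + P * j : ℕ) : ZMod l), j / l))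
      (((Finset.range X).filter fun j => ((a + P * j : ℕ) : ZMod l) ∈ R : Finset ℕ) : Set ℕ) := by
    intro i _ j _ hij
    simp only [Prod.mk.injEq] at hij
    obtain ⟨h1, h2⟩ := hij
    have h3 : ((P : ℕ) : ZMod l) * i = P * j := by
      push_cast at h1
      exact add_left_cancel h1
    have hP0 : ((P : ℕ) : ZMod l) ≠ 0 := by rwa [Ne, ZMod.natCast_eq_zero_iff]
    have h4 : (i : ZMod l) = j := mul_left_cancel₀ hP0 h3
    have h5 : i % l = j % l := (ZMod.natCast_eq_natCast_iff' i j l).1 h4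
    rw [← Nat.div_add_mod i l, ← Nat.div_add_mod j l, h2, h5]
  refine (Finset.card_le_card_of_injOn (t := R ×ˢ Finset.range (X / l + 1)) _ ?_ hinj).trans
    (by rw [Finset.card_product, Finset.card_range])
  intro j hj
  rw [Finset.mem_coe, Finset.mem_filter, Finset.mem_range] at hj
  rw [Finset.mem_coe, Finset.mem_product, Finset.mem_range]
  exact ⟨hj.2, Nat.lt_succ_of_le (Nat.div_le_div_right hj.1.le)⟩

theorem count_zero {l P a X : ℕ} (hl : l.Prime) (hP : ¬ l ∣ P) :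
    ((Finset.range X).filter fun j => l ∣ a + P * j).card ≤ X / l + 1 := by
  classical
  have h := count_res (a := a) (X := X) hl hP {0}
  rw [Finset.card_singleton, one_mul] at h
  refine (Finset.card_le_card fun j hj => ?_).trans h
  rw [Finset.mem_filter] at hj ⊢
  refine ⟨hj.1, ?_⟩
  rw [Finset.mem_singleton, ZMod.natCast_eq_zero_iff]
  exact hj.2

theorem count_sq {l P a X : ℕ} (hl : l.Prime) (hl2 : l ≠ 2) (hP : ¬ l ∣ P) (c : ℤ) :
    ((Finset.range X).filter fun j => (l : ℤ) ∣ 2 * ((a + P * j : ℕ) : ℤ) ^ 2 - c).card ≤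
      2 * (X / l + 1) := by
  classical
  haveI := Fact.mk hl
  obtain ⟨R, hR⟩ : ∃ R : Finset (ZMod l), R =
      (Finset.univ : Finset (ZMod l)).filter fun x => 2 * x ^ 2 - (c : ZMod l) = 0 := ⟨_, rfl⟩
  have h2 : (2 : ZMod l) ≠ 0 := by
    intro h
    have h4 : ((2 : ℕ) : ZMod l) = 0 := by exact_mod_cast h
    rw [ZMod.natCast_eq_zero_iff] at h4
    exact hl2 ((Nat.prime_dvd_prime_iff_eq hl Nat.prime_two).1 h4)
  have hcard : R.card ≤ 2 := by
    rcases R.eq_empty_or_nonempty with h | ⟨r, hr⟩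
    · rw [h]
      simp
    · have hsub : R ⊆ {r, -r} := by
        intro x hx
        rw [hR, Finset.mem_filter] at hx hr
        have h5 : (2 : ZMod l) * x ^ 2 = 2 * r ^ 2 := by
          rw [sub_eq_zero.1 hx.2, sub_eq_zero.1 hr.2]
        have h6 := mul_left_cancel₀ h2 h5
        rcases sq_eq_sq_iff_eq_or_eq_neg.1 h6 with h7 | h7
        · rw [h7]; simp
        · rw [h7]; simp
      exact (Finset.card_le_card hsub).trans Finset.card_le_two
  have h := count_res (a := a) (X := X) hl hP R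
  refine (Finset.card_le_card fun j hj => ?_).trans
    (h.trans (Nat.mul_le_mul_right _ hcard))
  rw [Finset.mem_filter] at hj ⊢
  refine ⟨hj.1, ?_⟩
  rw [hR, Finset.mem_filter]
  refine ⟨Finset.mem_univ _, ?_⟩
  have h8 := (ZMod.intCast_zmod_eq_zero_iff_dvd _ l).2 hj.2
  push_cast at h8 ⊢
  exact h8

/-- An integer has few large prime factors. -/
theorem few_primes {y M m L : ℕ} (hm : m ≠ 0) (hm2 : m < 2 ^ (L + 1)) (hy : 2 ^ M ≤ y) :
    M * (m.primeFactors.filter fun l => y < l).card ≤ L := by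
  have h1 : (2 ^ M) ^ (m.primeFactors.filter fun l => y < l).card ≤
      ∏ l ∈ m.primeFactors.filter fun l => y < l, l := by
    refine Finset.pow_card_le_prod _ _ _ fun l hl => ?_
    rw [Finset.mem_filter] at hl
    exact hy.trans hl.2.le
  have h2 : ∏ l ∈ m.primeFactors.filter fun l => y < l, l ≤ ∏ l ∈ m.primeFactors, l := by
    refine Finset.prod_le_prod_of_subset_of_one_le' (Finset.filter_subset _ _) fun l hl _ => ?_
    exact (Nat.prime_of_mem_primeFactors hl).one_lt.le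
  have h3 : ∏ l ∈ m.primeFactors, l ≤ m := Nat.le_of_dvd (Nat.pos_of_ne_zero hm)
    (Nat.prod_primeFactors_dvd m)
  have h4 : 2 ^ (M * (m.primeFactors.filter fun l => y < l).card) < 2 ^ (L + 1) := by
    rw [pow_mul]
    omega
  have h5 := (Nat.pow_lt_pow_iff_right (by norm_num : 1 < 2)).1 h4
  omega

theorem good_card {g n y X P a K : ℕ} {c : ℤ} (hg : g ≠ 0) (hn : n ≠ 0) (hy : 2 ≤ y)
    (hX : y ≤ X) (hP : ∀ l : ℕ, l.Prime → y < l → ¬ l ∣ P) (hK : 12 * K ≤ y)
    (hKg : (g.primeFactors.filter fun l => y < l).card ≤ K)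
    (hKn : (n.primeFactors.filter fun l => y < l).card ≤ K) :
    ∃ J : Finset ℕ, J ⊆ Finset.range X ∧ X / 2 ≤ J.card ∧ ∀ j ∈ J,
      (∀ l : ℕ, l.Prime → y < l → l ∣ g → ¬ l ∣ a + P * j) ∧
      ∀ l : ℕ, l.Prime → y < l → l ∣ n → ¬ (l : ℤ) ∣ 2 * ((a + P * j : ℕ) : ℤ) ^ 2 - c := by
  classical
  obtain ⟨B1, hB1⟩ : ∃ B1 : Finset ℕ, B1 = (g.primeFactors.filter fun l => y < l).biUnion
      fun l => (Finset.range X).filter fun j => l ∣ a + P * j := ⟨_, rfl⟩
  obtain ⟨B2, hB2⟩ : ∃ B2 : Finset ℕ, B2 = (n.primeFactors.filter fun l => y < l).biUnion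
      fun l => (Finset.range X).filter fun j => (l : ℤ) ∣ 2 * ((a + P * j : ℕ) : ℤ) ^ 2 - c :=
    ⟨_, rfl⟩
  have hd : ∀ l, y < l → X / l ≤ X / y := fun l hl => Nat.div_le_div_left hl.le (by omega)
  have c1 : B1.card ≤ K * (X / y + 1) := by
    rw [hB1]
    refine Finset.card_biUnion_le.trans ?_
    refine (Finset.sum_le_card_nsmul _ _ (X / y + 1) fun l hl => ?_).trans ?_
    · rw [Finset.mem_filter] at hl
      have hlp := Nat.prime_of_mem_primeFactors hl.1
      exact (count_zero hlp (hP l hlp hl.2)).trans (Nat.succ_le_succ (hd l hl.2))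
    · rw [smul_eq_mul]
      exact Nat.mul_le_mul_right _ hKg
  have c2 : B2.card ≤ K * (2 * (X / y + 1)) := by
    rw [hB2]
    refine Finset.card_biUnion_le.trans ?_
    refine (Finset.sum_le_card_nsmul _ _ (2 * (X / y + 1)) fun l hl => ?_).trans ?_
    · rw [Finset.mem_filter] at hl
      have hlp := Nat.prime_of_mem_primeFactors hl.1
      exact (count_sq hlp (by omega) (hP l hlp hl.2) c).trans
        (Nat.mul_le_mul_left _ (Nat.succ_le_succ (hd l hl.2)))
    · rw [smul_eq_mul]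
      exact Nat.mul_le_mul_right _ hKn
  have c3 : 2 * (B1.card + B2.card) ≤ X := by
    have h1 : 12 * K * (X / y + 1) ≤ y * (X / y + 1) := Nat.mul_le_mul_right _ hK
    have h2 : y * (X / y) ≤ X := Nat.mul_div_le X y
    have h3 : y * (X / y + 1) = y * (X / y) + y := by ring
    have h4 : K * (X / y + 1) + K * (2 * (X / y + 1)) = 3 * (K * (X / y + 1)) := by ring
    have h5 : 12 * K * (X / y + 1) = 12 * (K * (X / y + 1)) := by ring
    omega
  refine ⟨Finset.range X \ (B1 ∪ B2), Finset.sdiff_subset, ?_, fun j hj => ?_⟩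
  · have h1 := Finset.le_card_sdiff (B1 ∪ B2) (Finset.range X)
    have h2 := Finset.card_union_le B1 B2
    rw [Finset.card_range] at h1
    omega
  · rw [Finset.mem_sdiff, Finset.mem_union, not_or] at hj
    refine ⟨fun l hl hyl hlg hld => hj.2.1 ?_, fun l hl hyl hln hld => hj.2.2 ?_⟩
    · rw [hB1, Finset.mem_biUnion]
      exact ⟨l, Finset.mem_filter.2 ⟨Nat.mem_primeFactors.2 ⟨hl, hlg, hg⟩, hyl⟩,
        Finset.mem_filter.2 ⟨hj.1, hld⟩⟩
    · rw [hB2, Finset.mem_biUnion]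
      exact ⟨l, Finset.mem_filter.2 ⟨Nat.mem_primeFactors.2 ⟨hl, hln, hn⟩, hyl⟩,
        Finset.mem_filter.2 ⟨hj.1, hld⟩⟩

/-- The class of `b` modulo the primes up to `y`. -/
theorem exists_b0 (y g : ℕ) : ∃ b0 : ℕ, b0 < primorial y ∧ ∀ l : ℕ, l.Prime → l ≤ y →
    l ∣ primorial y ∧ (l ∣ g → (l : ℤ) ∣ (b0 : ℤ) - 1) ∧ (¬ l ∣ g → (l : ℤ) ∣ (b0 : ℤ)) := by
  classical
  obtain ⟨S, hS⟩ : ∃ S : Finset ℕ, S = (Finset.range (y + 1)).filter Nat.Prime := ⟨_, rfl⟩
  have hSp : ∀ l ∈ S, l.Prime := fun l hl => by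
    rw [hS, Finset.mem_filter] at hl
    exact hl.2
  have hprod : (∏ l ∈ S.filter (· ∣ g), l) * ∏ l ∈ S.filter (¬ · ∣ g), l = primorial y := by
    rw [Finset.prod_filter_mul_prod_filter_not, hS]
    rfl
  have hcop : Nat.Coprime (∏ l ∈ S.filter (· ∣ g), l) (∏ l ∈ S.filter (¬ · ∣ g), l) := by
    refine Nat.Coprime.prod_left fun i hi => Nat.Coprime.prod_right fun j hj => ?_
    rw [Finset.mem_filter] at hi hj
    refine (Nat.coprime_primes (hSp i hi.1) (hSp j hj.1)).2 fun h => hj.2 ?_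
    rw [← h]
    exact hi.2
  have hD : (∏ l ∈ S.filter (· ∣ g), l) ≠ 0 := Finset.prod_ne_zero_iff.2 fun l hl =>
    (hSp l (Finset.mem_filter.1 hl).1).ne_zero
  have hE : (∏ l ∈ S.filter (¬ · ∣ g), l) ≠ 0 := Finset.prod_ne_zero_iff.2 fun l hl =>
    (hSp l (Finset.mem_filter.1 hl).1).ne_zero
  have h1 := (Nat.chineseRemainder hcop 1 0).2
  have h2 := Nat.chineseRemainder_lt_mul hcop 1 0 hD hE
  generalize ((Nat.chineseRemainder hcop 1 0 : { k // _ }) : ℕ) = b0 at h1 h2
  refine ⟨b0, by rw [← hprod]; exact h2, fun l hl hly => ?_⟩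
  have hlS : l ∈ S := by
    rw [hS, Finset.mem_filter, Finset.mem_range]
    exact ⟨by omega, hl⟩
  refine ⟨?_, fun hlg => ?_, fun hlg => ?_⟩
  · by_cases hlg : l ∣ g
    · rw [← hprod]
      exact (Finset.dvd_prod_of_mem _ (Finset.mem_filter.2 ⟨hlS, hlg⟩)).mul_right _
    · rw [← hprod]
      exact (Finset.dvd_prod_of_mem _ (Finset.mem_filter.2 ⟨hlS, hlg⟩)).mul_left _
  · have h3 : l ∣ ∏ l ∈ S.filter (· ∣ g), l :=
      Finset.dvd_prod_of_mem _ (Finset.mem_filter.2 ⟨hlS, hlg⟩)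
    have h4 := (Nat.modEq_iff_dvd.1 (h1.1.symm.of_dvd h3))
    push_cast at h4
    exact h4
  · have h3 : l ∣ ∏ l ∈ S.filter (¬ · ∣ g), l :=
      Finset.dvd_prod_of_mem _ (Finset.mem_filter.2 ⟨hlS, hlg⟩)
    have h4 := (Nat.modEq_iff_dvd.1 (h1.2.symm.of_dvd h3))
    push_cast at h4
    rw [sub_zero] at h4
    exact h4

theorem not_dvd_primorial {l y : ℕ} (hl : l.Prime) (h : y < l) : ¬ l ∣ primorial y := by
  intro hd
  have h1 : l ∈ (primorial y).primeFactors :=
    Nat.mem_primeFactors.2 ⟨hl, hd, primorial_ne_zero y⟩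
  unfold primorial at hd
  obtain ⟨q, hq, hlq⟩ := (hl.prime.dvd_finset_prod_iff _).1 hd
  rw [Finset.mem_filter, Finset.mem_range] at hq
  have := (Nat.prime_dvd_prime_iff_eq hl hq.2).1 hlq
  omega

end Pool.Agent.HwS
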