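import Pool.Agent.HwS.QrCnt

/-!
# Module HwS/QrFin: many integers modulo which `n` is a square, between `n ^ 2` and `(n + 1) ^ 2`, finite form

`P` is the product of the primes up to `y`; the parameter `b` runs over an arithmetic progression modulo `P` in an interval
`(A, A + P (X + 1)]` in which `2 c n < (2 b ^ 2 - c) ^ 2 ≤ 2 (c + 1) n`.
-/

namespace Pool.Agent.HwS

theorem qr_fin {n c y X A K : ℕ} (hc : (c = 0 ∧ Odd n) ∨ (c = 3 ∧ Even n)) (hn : 4 ≤ n)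
    (hy : 2 ≤ y) (hX : y ≤ X) (hK : 12 * K ≤ y)
    (hK1 : ((n - c).primeFactors.filter fun l => y < l).card ≤ K)
    (hK2 : (n.primeFactors.filter fun l => y < l).card ≤ K)
    (hsize : ∀ b : ℕ, A < b → b ≤ A + primorial y * (X + 1) →
      c < 2 * b ^ 2 ∧ 2 * c * n < (2 * b ^ 2 - c) ^ 2 ∧ (2 * b ^ 2 - c) ^ 2 ≤ 2 * (c + 1) * n) :
    ∃ T : Finset ℕ, X / 2 ≤ T.card ∧ ∀ p ∈ T, n ^ 2 < p ∧ p < (n + 1) ^ 2 ∧ p.Coprime n ∧
      (∃ x : ℕ, x ^ 2 ≡ n [MOD p]) ∧ ∀ l : ℕ, l.Prime → l ≤ y → ¬ l ∣ p := by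
  classical
  obtain ⟨P, hPdef⟩ : ∃ P : ℕ, P = primorial y := ⟨_, rfl⟩
  have hP0 : 0 < P := by
    rw [hPdef]
    exact primorial_pos y
  obtain ⟨g, hg⟩ : ∃ g : ℕ, g = n - c := ⟨_, rfl⟩
  have hgz : (g : ℤ) = (n : ℤ) - c := by
    rw [hg]
    rcases hc with ⟨rfl, -⟩ | ⟨rfl, -⟩ <;> push_cast [show 3 ≤ n by omega] <;> simp
  have hg0 : g ≠ 0 := by rcases hc with ⟨rfl, -⟩ | ⟨rfl, -⟩ <;> omega
  have hodd : Odd ((n : ℤ) + c) := by
    rcases hc with ⟨rfl, h⟩ | ⟨rfl, h⟩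
    · push_cast
      rw [add_zero]
      exact_mod_cast h
    · have h1 : Even (n : ℤ) := by exact_mod_cast h
      exact h1.add_odd (by decide)
  have hc' : (c : ℤ) = 0 ∨ (c : ℤ) = 3 := by
    rcases hc with ⟨rfl, -⟩ | ⟨rfl, -⟩
    · exact Or.inl rfl
    · exact Or.inr rfl
  obtain ⟨b0, hb0, hb0r⟩ := exists_b0 y g
  rw [← hPdef] at hb0
  obtain ⟨a, ha⟩ : ∃ a : ℕ, a = b0 + P * (A / P + 1) := ⟨_, rfl⟩
  obtain ⟨J, hJ1, hJ2, hJ3⟩ := good_card (g := g) (n := n) (y := y) (X := X) (P := P) (a := a)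
    (K := K) (c := (c : ℤ)) hg0 (by omega) hy hX
    (fun l hl hyl => by rw [hPdef]; exact not_dvd_primorial hl hyl) hK (by rw [hg]; exact hK1) hK2
  -- the range of b
  have hbr : ∀ j ∈ J, A < a + P * j ∧ a + P * j ≤ A + P * (X + 1) := by
    intro j hj
    have h1 := Finset.mem_range.1 (hJ1 hj)
    have h2 : P * (A / P) ≤ A := Nat.mul_div_le A P
    have h3 : A < P * (A / P + 1) := Nat.lt_mul_div_succ A hP0
    have h4 : P * j + P ≤ P * X := by
      rw [← Nat.mul_succ]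
      exact Nat.mul_le_mul_left _ h1
    have h5 : P * (A / P + 1) = P * (A / P) + P := by ring
    have h6 : P * (X + 1) = P * X + P := by ring
    omega
  -- the residues of b
  have hres : ∀ j, ∀ l : ℕ, l.Prime → l ≤ y →
      (l ∣ g → (l : ℤ) ∣ ((a + P * j : ℕ) : ℤ) - 1) ∧
      (¬ l ∣ g → (l : ℤ) ∣ ((a + P * j : ℕ) : ℤ)) := by
    intro j l hl hly
    obtain ⟨h1, h2, h3⟩ := hb0r l hl hly
    rw [← hPdef] at h1
    have h4 : (l : ℤ) ∣ (P : ℤ) := by exact_mod_cast h1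
    refine ⟨fun h => ?_, fun h => ?_⟩
    · have h5 : ((a + P * j : ℕ) : ℤ) - 1 = ((b0 : ℤ) - 1) + P * ((A / P + 1 : ℕ) + j) := by
        rw [ha]
        push_cast
        ring
      rw [h5]
      exact dvd_add (h2 h) (h4.mul_right _)
    · have h5 : ((a + P * j : ℕ) : ℤ) = (b0 : ℤ) + P * ((A / P + 1 : ℕ) + j) := by
        rw [ha]
        push_cast
        ring
      rw [h5]
      exact dvd_add (h3 h) (h4.mul_right _)
  -- small primes do not divide N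
  have hsmall : ∀ j, ∀ l : ℕ, l.Prime → l ≤ y → ¬ (l : ℤ) ∣ qrN c n ((a + P * j : ℕ) : ℤ) := by
    intro j l hl hly
    obtain ⟨h1, h2⟩ := hres j l hl hly
    have hlz : Prime (l : ℤ) := Nat.prime_iff_prime_int.1 hl
    by_cases h3 : l = 2
    · subst h3
      have h4 := qrN_odd (c := (c : ℤ)) (n := (n : ℤ)) hodd ((a + P * j : ℕ) : ℤ)
      intro h5
      exact (Int.not_even_iff_odd.2 h4) (even_iff_two_dvd.2 (by exact_mod_cast h5))
    · by_cases h4 : l ∣ g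
      · refine not_dvd_of_one hlz ?_ hc' (h1 h4) ?_
        · intro h5
          have h6 : l ∣ 2 := by exact_mod_cast h5
          exact h3 ((Nat.prime_dvd_prime_iff_eq hl Nat.prime_two).1 h6)
        · rw [← hgz]
          exact_mod_cast h4
      · refine not_dvd_of_b hlz (h2 h4) ?_
        rw [← hgz]
        intro h5
        exact h4 (by exact_mod_cast h5)
  -- coprimality
  have hcop1 : ∀ j ∈ J, IsCoprime ((a + P * j : ℕ) : ℤ) ((n : ℤ) - c) := by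
    intro j hj
    rw [← hgz]
    refine Nat.isCoprime_iff_coprime.2 (Nat.coprime_of_dvd fun l hl h1 h2 => ?_)
    by_cases hly : l ≤ y
    · have h3 := (hres j l hl hly).1 h2
      have h4 : (l : ℤ) ∣ ((a + P * j : ℕ) : ℤ) := by exact_mod_cast h1
      have h5 : (l : ℤ) ∣ 1 := by
        have := dvd_sub h4 h3
        simpa using this
      have h6 : l ∣ 1 := by exact_mod_cast h5
      exact hl.one_lt.ne' (Nat.dvd_one.1 h6)
    · exact (hJ3 j hj).1 l hl (by omega) h2 h1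
  have hcop2 : ∀ j ∈ J, IsCoprime (n : ℤ) (2 * ((a + P * j : ℕ) : ℤ) ^ 2 - c) := by
    intro j hj
    obtain ⟨h1, h2⟩ := hbr j hj
    rw [hPdef] at h2
    obtain ⟨h3, -, -⟩ := hsize _ h1 (by rw [hPdef]; exact h2)
    obtain ⟨t, ht⟩ : ∃ t : ℕ, (t : ℤ) = 2 * ((a + P * j : ℕ) : ℤ) ^ 2 - c := by
      refine ⟨2 * (a + P * j) ^ 2 - c, ?_⟩
      push_cast [h3.le]
      ring
    rw [← ht]
    refine Nat.isCoprime_iff_coprime.2 (Nat.coprime_of_dvd fun l hl h4 h5 => ?_)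
    by_cases hly : l ≤ y
    · refine hsmall j l hl hly ?_
      rw [qrN_eq, ← ht]
      have h6 : (l : ℤ) ∣ (n : ℤ) := by exact_mod_cast h4
      have h7 : (l : ℤ) ∣ (t : ℤ) := by exact_mod_cast h5
      have h8 : (n : ℤ) ^ 2 - 2 * c * n + (t : ℤ) ^ 2 = n * (n - 2 * c) + t * t := by ring
      rw [h8]
      exact dvd_add (h6.mul_right _) (h7.mul_right _)
    · refine (hJ3 j hj).2 l hl (by omega) h4 ?_
      rw [← ht]
      exact_mod_cast h5
  -- size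
  have hsz : ∀ j ∈ J, (0 : ℤ) < 2 * ((a + P * j : ℕ) : ℤ) ^ 2 - c ∧
      (n : ℤ) ^ 2 < qrN c n ((a + P * j : ℕ) : ℤ) ∧
      qrN c n ((a + P * j : ℕ) : ℤ) < ((n : ℤ) + 1) ^ 2 := by
    intro j hj
    obtain ⟨h1, h2⟩ := hbr j hj
    obtain ⟨h3, h4, h5⟩ := hsize _ h1 (by rw [← hPdef]; exact h2)
    generalize a + P * j = b at *
    have h6 : ((2 * b ^ 2 - c : ℕ) : ℤ) = 2 * (b : ℤ) ^ 2 - c := by
      push_cast [h3.le]
      ring
    have h7 : (2 * c * n : ℤ) < (2 * (b : ℤ) ^ 2 - c) ^ 2 := by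
      rw [← h6]
      exact_mod_cast h4
    have h8 : (2 * (b : ℤ) ^ 2 - c) ^ 2 ≤ 2 * (c + 1) * n := by
      rw [← h6]
      exact_mod_cast h5
    have h9 : (c : ℤ) < 2 * (b : ℤ) ^ 2 := by exact_mod_cast h3
    rw [qrN_eq]
    refine ⟨by linarith, by nlinarith, by nlinarith⟩
  -- the set
  refine ⟨J.image fun j => (qrN c n ((a + P * j : ℕ) : ℤ)).toNat, ?_, ?_⟩
  · rw [Finset.card_image_of_injOn]
    · exact hJ2
    · intro i hi j hj hij
      obtain ⟨a1, a2, -⟩ := hsz i hi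
      obtain ⟨b1, b2, -⟩ := hsz j hj
      have hn2 : (0 : ℤ) ≤ (n : ℤ) ^ 2 := sq_nonneg _
      have e1 : qrN c n ((a + P * i : ℕ) : ℤ) = qrN c n ((a + P * j : ℕ) : ℤ) := by
        have := congrArg (fun x : ℕ => (x : ℤ)) hij
        simp only at this
        rwa [Int.toNat_of_nonneg (by linarith), Int.toNat_of_nonneg (by linarith)] at this
      rw [qrN_eq, qrN_eq] at e1
      have e2 : (2 * ((a + P * i : ℕ) : ℤ) ^ 2 - c) ^ 2 = (2 * ((a + P * j : ℕ) : ℤ) ^ 2 - c) ^ 2 := by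
        linarith
      have e3 := (sq_eq_sq₀ a1.le b1.le).1 e2
      have e4 : ((a + P * i : ℕ) : ℤ) ^ 2 = ((a + P * j : ℕ) : ℤ) ^ 2 := by linarith
      have e5 := (sq_eq_sq₀ (Int.natCast_nonneg _) (Int.natCast_nonneg _)).1 e4
      have e6 : a + P * i = a + P * j := by exact_mod_cast e5
      exact Nat.eq_of_mul_eq_mul_left hP0 (Nat.add_left_cancel e6)
  · intro p hp
    obtain ⟨j, hj, rfl⟩ := Finset.mem_image.1 hp
    obtain ⟨a1, a2, a3⟩ := hsz j hj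
    have hn2 : (0 : ℤ) ≤ (n : ℤ) ^ 2 := sq_nonneg _
    have hN : (((qrN c n ((a + P * j : ℕ) : ℤ)).toNat : ℕ) : ℤ) =
        qrN c n ((a + P * j : ℕ) : ℤ) := Int.toNat_of_nonneg (by linarith)
    have h1 := qrN_cop_n (hcop2 j hj)
    obtain ⟨x, hx⟩ := qrN_square (c := (c : ℤ)) (n := (n : ℤ)) hodd (hcop1 j hj)
    have h2 := hsmall j
    rw [← hN] at h1 hx a2 a3
    generalize (qrN c n ((a + P * j : ℕ) : ℤ)).toNat = p at *
    refine ⟨by exact_mod_cast a2, by exact_mod_cast a3,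
      (Nat.isCoprime_iff_coprime.1 h1).symm, ⟨x.natAbs, ?_⟩, fun l hl hly hlp => ?_⟩
    · refine (Nat.modEq_iff_dvd.2 ?_).symm
      push_cast
      rw [sq_abs]
      exact hx
    · refine h2 l hl hly ?_
      rw [← hN]
      exact_mod_cast hlp

end Pool.Agent.HwS
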