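import Pool.Agent.HwS.Base

/-!
# Module HwS/Rec: recursion of the history, measurability, elementary rules for `Ex`

Proofs.
* `H_good`: unfold `H`, use `sel_iff`.
* `H_inact`: if `z < n` and `n` is not active then `Sel z K n` is false by `sel_iff` (first alternative
  impossible as `n > z`), so `range (n+1) = insert n (range n)` adds nothing.
* `H_succ`: for active `n`: `H (n+1) = insert n (H n)` if no `m ∈ H n` with `z < m` strikes `n`, otherwise
  `H (n+1) = H n` (`sel_iff`; `n ≤ z` is impossible; `m < n` and `Sel z K m` iff `m ∈ H n`).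
* `H_filter`: the history below `m ≤ n` is the part below `m` of the history below `n`.
* `H_meas`: by induction on `n`: `{H (n+1) = B}` is a finite Boolean combination of `{H n = A}` (A ⊆ range n)
  and of the sets `S m n`.  The statement is made for the sigma-algebra generated by the sets `S m k`
  with `k < n` (needed for independence in module Step); `H_meas'` follows with `IsStrikes.meas`.
* `H` takes finitely many values (subsets of `range n`), so every `g (H ..)` is a simple function:
  integrable.  `Ex_mono` etc. are then routine (`integral_mono`, `integral_add`, ...).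
-/

open MeasureTheory ProbabilityTheory Filter Topology
open scoped ENNReal

namespace Pool.Agent.HwS

private theorem Rec_mem {z m n : ℕ} (K : ℕ → ℕ → Prop) : m ∈ H z K n ↔ m < n ∧ Sel z K m := by
  simp only [H, Finset.mem_filter, Finset.mem_range]

private theorem Rec_succ_of_sel {z n : ℕ} (K : ℕ → ℕ → Prop) (h : Sel z K n) :
    H z K (n + 1) = insert n (H z K n) := by
  ext m
  rw [Finset.mem_insert, Rec_mem, Rec_mem]
  constructor
  · rintro ⟨h1, h2⟩
    rcases Nat.lt_succ_iff_lt_or_eq.1 h1 with h3 | h3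
    · exact Or.inr ⟨h3, h2⟩
    · exact Or.inl h3
  · rintro (rfl | ⟨h1, h2⟩)
    · exact ⟨Nat.lt_succ_self _, h⟩
    · exact ⟨by omega, h2⟩

private theorem Rec_succ_of_nsel {z n : ℕ} (K : ℕ → ℕ → Prop) (h : ¬ Sel z K n) :
    H z K (n + 1) = H z K n := by
  ext m
  rw [Rec_mem, Rec_mem]
  constructor
  · rintro ⟨h1, h2⟩
    rcases Nat.lt_succ_iff_lt_or_eq.1 h1 with h3 | h3
    · exact ⟨h3, h2⟩
    · exact absurd (h3 ▸ h2) h
  · rintro ⟨h1, h2⟩
    exact ⟨by omega, h2⟩

theorem H_good (z : ℕ) (K : ℕ → ℕ → Prop) (n : ℕ) : Good z n (H z K n) := by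
  refine ⟨fun m hm => Finset.mem_range.2 ((Rec_mem K).1 hm).1, fun m hm => ?_⟩
  rcases (sel_iff z K m).1 ((Rec_mem K).1 hm).2 with h | h
  · exact Or.inl h
  · exact Or.inr h.1

theorem H_inact {z n : ℕ} (K : ℕ → ℕ → Prop) (hz : z < n) (hn : ¬ act z n) :
    H z K (n + 1) = H z K n := by
  refine Rec_succ_of_nsel K fun h => ?_
  rcases (sel_iff z K n).1 h with h | h
  · exact absurd h.1 (by omega)
  · exact hn h.1

theorem H_succ_of_not {z n : ℕ} (K : ℕ → ℕ → Prop) (hn : act z n)
    (h : ∀ m ∈ H z K n, z < m → ¬ K m n) : H z K (n + 1) = insert n (H z K n) := by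
  refine Rec_succ_of_sel K ((sel_iff z K n).2 (Or.inr ⟨hn, fun m h1 h2 h3 => ?_⟩))
  exact h m ((Rec_mem K).2 ⟨h2, h3⟩) h1

theorem H_succ_of_struck {z n : ℕ} (K : ℕ → ℕ → Prop) (hn : act z n)
    (h : ∃ m ∈ H z K n, z < m ∧ K m n) : H z K (n + 1) = H z K n := by
  refine Rec_succ_of_nsel K fun h' => ?_
  obtain ⟨m, h1, h2, h3⟩ := h
  rcases (sel_iff z K n).1 h' with h | h
  · exact absurd h.1 (by have := hn.1; omega)
  · exact h.2 m h2 ((Rec_mem K).1 h1).1 ((Rec_mem K).1 h1).2 h3

theorem H_filter {z m n : ℕ} (K : ℕ → ℕ → Prop) (hmn : m ≤ n) :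
    (H z K n).filter (fun j => j < m) = H z K m := by
  ext j
  rw [Finset.mem_filter, Rec_mem, Rec_mem]
  constructor
  · rintro ⟨⟨h1, h2⟩, h3⟩
    exact ⟨h3, h2⟩
  · rintro ⟨h1, h2⟩
    exact ⟨⟨by omega, h2⟩, h1⟩

theorem mem_H {z m n : ℕ} (K : ℕ → ℕ → Prop) : m ∈ H z K n ↔ m < n ∧ Sel z K m := by
  exact Rec_mem K

/-- `yy` at `m` depends only on the history below `m`. -/
theorem yy_H {z m n : ℕ} (K : ℕ → ℕ → Prop) (hmn : m ≤ n) :
    yy z (H z K n) m = yy z (H z K m) m := by
  have h : (H z K n).filter (fun j => z < j ∧ j < m) =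
      (H z K m).filter (fun j => z < j ∧ j < m) := by
    ext j
    rw [Finset.mem_filter, Finset.mem_filter, Rec_mem, Rec_mem]
    constructor
    · rintro ⟨⟨h1, h2⟩, h3, h4⟩
      exact ⟨⟨h4, h2⟩, h3, h4⟩
    · rintro ⟨⟨h1, h2⟩, h3, h4⟩
      exact ⟨⟨by omega, h2⟩, h3, h4⟩
  unfold yy
  rw [h]

variable {Ω : Type} [MeasurableSpace Ω] {μ : Measure Ω} {S : ℕ → ℕ → Set Ω}

private theorem Rec_meas_aux {Ω' : Type} [MeasurableSpace Ω'] {S' : ℕ → ℕ → Set Ω'} (z n : ℕ)
    (hS : ∀ m k, k < n → MeasurableSet (S' m k)) (A : Finset ℕ) :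
    MeasurableSet {ω | H z (Kof S' ω) n = A} := by
  induction n generalizing A with
  | zero =>
    have h1 : ∀ ω, H z (Kof S' ω) 0 = ∅ := by
      intro ω
      ext m
      rw [Rec_mem]
      simp
    simp only [h1]
    exact MeasurableSet.const _
  | succ n ih =>
    have ih' := ih fun m k hk => hS m k (by omega)
    by_cases hn : z < n ∧ ¬ act z n
    · simp only [H_inact _ hn.1 hn.2]
      exact ih' A
    · by_cases hz : n ≤ z
      · by_cases hp : n.Prime
        · have h1 : ∀ ω, H z (Kof S' ω) (n + 1) = insert n (H z (Kof S' ω) n) := fun ω =>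
            Rec_succ_of_sel _ ((sel_iff z _ n).2 (Or.inl ⟨hz, hp⟩))
          have h2 : {ω | H z (Kof S' ω) (n + 1) = A} =
              ⋃ B ∈ {B : Finset ℕ | insert n B = A}, {ω | H z (Kof S' ω) n = B} := by
            ext ω
            rw [Set.mem_iUnion₂]
            constructor
            · intro h
              rw [Set.mem_setOf_eq, h1] at h
              exact ⟨_, h, rfl⟩
            · rintro ⟨B, hB, h⟩
              rw [Set.mem_setOf_eq] at h
              rw [Set.mem_setOf_eq, h1, h]
              exact hB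
          rw [h2]
          exact MeasurableSet.biUnion (Set.to_countable _) fun B _ => ih' B
        · have h1 : ∀ ω, H z (Kof S' ω) (n + 1) = H z (Kof S' ω) n := fun ω =>
            Rec_succ_of_nsel _ fun h => by
              rcases (sel_iff z _ n).1 h with h | h
              · exact hp h.2
              · exact absurd h.1.1 (by omega)
          simp only [h1]
          exact ih' A
      · have hact : act z n := by
          by_contra h
          exact hn ⟨by omega, h⟩
        have hstr : ∀ B : Finset ℕ, MeasurableSet {ω | ∃ m ∈ B, z < m ∧ ω ∈ S' m n} := by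
          intro B
          have h1 : {ω | ∃ m ∈ B, z < m ∧ ω ∈ S' m n} =
              ⋃ m ∈ {m : ℕ | m ∈ B ∧ z < m}, S' m n := by
            ext ω
            rw [Set.mem_iUnion₂]
            constructor
            · rintro ⟨m, h1, h2, h3⟩
              exact ⟨m, ⟨h1, h2⟩, h3⟩
            · rintro ⟨m, ⟨h1, h2⟩, h3⟩
              exact ⟨m, h1, h2, h3⟩
          rw [h1]
          exact MeasurableSet.biUnion (Set.to_countable _) fun m _ => hS m n (by omega)
        have h2 : {ω | H z (Kof S' ω) (n + 1) = A} =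
            ({ω | H z (Kof S' ω) n = A} ∩ {ω | ∃ m ∈ A, z < m ∧ ω ∈ S' m n}) ∪
            ⋃ B ∈ {B : Finset ℕ | insert n B = A}, ({ω | H z (Kof S' ω) n = B} ∩
              {ω | ∃ m ∈ B, z < m ∧ ω ∈ S' m n}ᶜ) := by
          ext ω
          rw [Set.mem_union, Set.mem_iUnion₂]
          constructor
          · intro h
            rw [Set.mem_setOf_eq] at h
            by_cases hs : ∃ m ∈ H z (Kof S' ω) n, z < m ∧ Kof S' ω m n
            · rw [H_succ_of_struck _ hact hs] at h
              left
              rw [h] at hs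
              exact ⟨h, hs⟩
            · right
              rw [H_succ_of_not _ hact (fun m hm hzm hK => hs ⟨m, hm, hzm, hK⟩)] at h
              exact ⟨_, h, rfl, hs⟩
          · rintro (⟨h, hs⟩ | ⟨B, hB, h, hs⟩)
            · rw [Set.mem_setOf_eq] at h
              rw [Set.mem_setOf_eq, H_succ_of_struck _ hact (by rw [h]; exact hs)]
              exact h
            · rw [Set.mem_setOf_eq] at h
              rw [Set.mem_setOf_eq, H_succ_of_not _ hact, h]
              · exact hB
              · rw [h]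
                exact fun m hm hzm hK => hs ⟨m, hm, hzm, hK⟩
        rw [h2]
        exact ((ih' A).inter (hstr A)).union
          (MeasurableSet.biUnion (Set.to_countable _) fun B _ => (ih' B).inter (hstr B).compl)

theorem H_meas (S : ℕ → ℕ → Set Ω) (z n : ℕ) (A : Finset ℕ) :
    MeasurableSet[MeasurableSpace.generateFrom
      {t | ∃ p ∈ {p : ℕ × ℕ | p.2 < n}, S p.1 p.2 = t}] {ω | H z (Kof S ω) n = A} := by
  exact @Rec_meas_aux Ω (MeasurableSpace.generateFrom
      {t | ∃ p ∈ {p : ℕ × ℕ | p.2 < n}, S p.1 p.2 = t}) S z n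
    (fun m k hk => MeasurableSpace.measurableSet_generateFrom ⟨(m, k), hk, rfl⟩) A

theorem H_meas' (hS : IsStrikes μ S) (z n : ℕ) (A : Finset ℕ) :
    MeasurableSet {ω | H z (Kof S ω) n = A} := by
  exact Rec_meas_aux z n (fun m k _ => hS.meas m k) A

theorem H_meas_set (hS : IsStrikes μ S) (z n : ℕ) (P : Finset ℕ → Prop) :
    MeasurableSet {ω | P (H z (Kof S ω) n)} := by
  have h : {ω | P (H z (Kof S ω) n)} = ⋃ A ∈ {A : Finset ℕ | P A}, {ω | H z (Kof S ω) n = A} := by
    ext ω
    rw [Set.mem_iUnion₂]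
    constructor
    · intro h
      exact ⟨_, h, rfl⟩
    · rintro ⟨A, hA, h⟩
      rw [Set.mem_setOf_eq] at h
      rw [Set.mem_setOf_eq, h]
      exact hA
  rw [h]
  exact MeasurableSet.biUnion (Set.to_countable _) fun A _ => H_meas' hS z n A

variable [IsProbabilityMeasure μ]

theorem integrable_H (hS : IsStrikes μ S) (z n : ℕ) (g : Finset ℕ → ℝ) :
    Integrable (fun ω => g (H z (Kof S ω) n)) μ := by
  have hm : Measurable fun ω => g (H z (Kof S ω) n) := fun s _ =>
    H_meas_set hS z n (fun A => g A ∈ s)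
  refine Integrable.of_bound hm.aestronglyMeasurable (∑ A ∈ (Finset.range n).powerset, |g A|)
    (Eventually.of_forall fun ω => ?_)
  rw [Real.norm_eq_abs]
  exact Finset.single_le_sum (f := fun A => |g A|) (fun A _ => abs_nonneg _)
    (Finset.mem_powerset.2 (H_good z (Kof S ω) n).1)

theorem Ex_mono (hS : IsStrikes μ S) {z n : ℕ} {g g' : Finset ℕ → ℝ}
    (h : ∀ A, Good z n A → g A ≤ g' A) : Ex μ S z n g ≤ Ex μ S z n g' := by
  exact integral_mono (integrable_H hS z n g) (integrable_H hS z n g') fun ω => h _ (H_good _ _ _)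

theorem Ex_congr (hS : IsStrikes μ S) {z n : ℕ} {g g' : Finset ℕ → ℝ}
    (h : ∀ A, Good z n A → g A = g' A) : Ex μ S z n g = Ex μ S z n g' := by
  exact integral_congr_ae (Eventually.of_forall fun ω => h _ (H_good _ _ _))

theorem Ex_add (hS : IsStrikes μ S) (z n : ℕ) (g g' : Finset ℕ → ℝ) :
    Ex μ S z n (fun A => g A + g' A) = Ex μ S z n g + Ex μ S z n g' := by
  exact integral_add (integrable_H hS z n g) (integrable_H hS z n g')

theorem Ex_const (μ : Measure Ω) [IsProbabilityMeasure μ] (S : ℕ → ℕ → Set Ω) (z n : ℕ) (c : ℝ) :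
    Ex μ S z n (fun _ => c) = c := by
  unfold Ex
  simp

theorem Ex_const_mul (hS : IsStrikes μ S) (z n : ℕ) (c : ℝ) (g : Finset ℕ → ℝ) :
    Ex μ S z n (fun A => c * g A) = c * Ex μ S z n g := by
  exact integral_const_mul _ _

open Classical in
theorem Ex_ind (hS : IsStrikes μ S) (z n : ℕ) (P : Finset ℕ → Prop) :
    μ.real {ω | P (H z (Kof S ω) n)} = Ex μ S z n (fun A => if P A then 1 else 0) := by
  have h : (fun ω => if P (H z (Kof S ω) n) then (1 : ℝ) else 0) =
      {ω | P (H z (Kof S ω) n)}.indicator 1 := by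
    funext ω
    by_cases hω : P (H z (Kof S ω) n)
    · rw [if_pos hω, Set.indicator_of_mem (by exact hω)]
      rfl
    · rw [if_neg hω, Set.indicator_of_notMem (by exact hω)]
  change _ = ∫ ω, (if P (H z (Kof S ω) n) then (1 : ℝ) else 0) ∂μ
  rw [h, integral_indicator_one (H_meas_set hS z n P)]

private theorem Rec_two_le {z n : ℕ} {A : Finset ℕ} (hA : Good z n A) {m j : ℕ}
    (hj : j ∈ A.filter (fun j => z < j ∧ j < m)) : (2 : ℝ) ≤ j := by
  rw [Finset.mem_filter] at hj
  rcases hA.2 j hj.1 with h | h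
  · exact absurd h.1 (by have := hj.2.1; omega)
  · exact_mod_cast h.2.1

theorem yy_pos {z n : ℕ} {A : Finset ℕ} (hA : Good z n A) (m : ℕ) : 0 < yy z A m := by
  refine Finset.prod_pos fun j hj => ?_
  have h := Rec_two_le hA hj
  have h1 : 1 / (j : ℝ) ≤ 1 / 2 := one_div_le_one_div_of_le (by norm_num) h
  linarith

theorem yy_le_one {z n : ℕ} {A : Finset ℕ} (hA : Good z n A) (m : ℕ) : yy z A m ≤ 1 := by
  refine Finset.prod_le_one (fun j hj => ?_) fun j hj => ?_
  · have h := Rec_two_le hA hj
    have h1 : 1 / (j : ℝ) ≤ 1 / 2 := one_div_le_one_div_of_le (by norm_num) h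
    linarith
  · have h1 : 0 ≤ 1 / (j : ℝ) := by positivity
    linarith

end Pool.Agent.HwS
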