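import Pool.Agent.HwS.YAs
import Pool.Agent.HwS.TailC

/-!
# Module HwS/Rep: existence of selected tuples, general form

`I N` finite index sets, `t N i` (i ∈ I N) pairwise disjoint sets of at most `s` active numbers in `[a N, b N)`,
`a N → ∞`, `b N ≤ (a N)^C`, and `Σ_N exp(-|I N| (c / log (b N))^s) < ∞` for every `c > 0`.
Then almost surely for all large `N` some `t N i` consists of selected numbers.

Proof.  Put `c = min 1 (1/(2 rho z))`... and `q N m = c / log (b N)` (constant in `m`; `0 ≤ q ≤ 1` for large `N`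
since `b N ≥ a N → ∞`).  By `yy_tendsto` almost surely `yy z (H m) m ≥ (1/(2 rho z)) / log m` for all large
`m`, hence, by `yy_H`, almost surely for all large `N`: `q N m ≤ yy z (H (b N)) m` for all `m ∈ [a N, b N)`
(`log m ≤ log (b N)`).  `tail_zero`: the probability of (this condition and no `t N i ⊆ H (b N)`) is at most
`exp(-Σ_i q^{card (t N i)}) ≤ exp(-|I N| q^s)` (`q ≤ 1`, `card ≤ s`), summable over the `N` for which the
hypotheses hold; Borel-Cantelli, and `mem_H`.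
-/

open MeasureTheory ProbabilityTheory Filter Topology
open scoped ENNReal

namespace Pool.Agent.HwS

variable {Ω : Type} [MeasurableSpace Ω] {μ : Measure Ω} {S : ℕ → ℕ → Set Ω} [IsProbabilityMeasure μ]

theorem rep (hS : IsStrikes μ S) (z s : ℕ) (I : ℕ → Finset ℕ) (t : ℕ → ℕ → Finset ℕ) (a b : ℕ → ℕ)
    (ha : Tendsto a atTop atTop) (hab : ∀ᶠ N in atTop, a N ≤ b N)
    (hdisj : ∀ᶠ N in atTop, ∀ i ∈ I N, ∀ j ∈ I N, i ≠ j → Disjoint (t N i) (t N j))
    (hmem : ∀ᶠ N in atTop, ∀ i ∈ I N, ∀ m ∈ t N i, a N ≤ m ∧ m < b N ∧ act z m)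
    (hcard : ∀ᶠ N in atTop, ∀ i ∈ I N, (t N i).card ≤ s)
    (hsum : ∀ c : ℝ, 0 < c →
      Summable (fun N : ℕ => Real.exp (-(((I N).card : ℝ) * (c / Real.log (b N)) ^ s)))) :
    ∀ᵐ ω ∂μ, ∀ᶠ N : ℕ in atTop, ∃ i ∈ I N, ∀ m ∈ t N i, Sel z (Kof S ω) m := by
  classical
  have hrho := rho_pos z
  obtain ⟨c, hc⟩ : ∃ c : ℝ, c = min 1 (2 * rho z)⁻¹ := ⟨_, rfl⟩
  have hc0 : 0 < c := by
    rw [hc]
    exact lt_min one_pos (by positivity)
  have hc1 : c ≤ 1 := by
    rw [hc]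
    exact min_le_left _ _
  have hc2 : c ≤ (2 * rho z)⁻¹ := by
    rw [hc]
    exact min_le_right _ _
  have hgood : ∀ᶠ N in atTop, z < a N ∧ 3 ≤ a N ∧ a N ≤ b N ∧
      (∀ i ∈ I N, ∀ j ∈ I N, i ≠ j → Disjoint (t N i) (t N j)) ∧
      (∀ i ∈ I N, ∀ m ∈ t N i, a N ≤ m ∧ m < b N ∧ act z m) ∧
      (∀ i ∈ I N, (t N i).card ≤ s) := by
    filter_upwards [ha.eventually_gt_atTop z, ha.eventually_ge_atTop 3, hab, hdisj, hmem, hcard]
      with N h1 h2 h3 h4 h5 h6
    exact ⟨h1, h2, h3, h4, h5, h6⟩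
  obtain ⟨N0, hN0⟩ := eventually_atTop.1 hgood
  obtain ⟨q, hq⟩ : ∃ q : ℕ → ℝ, q = fun N => c / Real.log (b N) := ⟨_, rfl⟩
  have hlogb : ∀ N, N0 ≤ N → 1 ≤ Real.log (b N) := by
    intro N hN
    obtain ⟨h1, h2, h3, -⟩ := hN0 N hN
    have h4 : (3 : ℝ) ≤ b N := by exact_mod_cast h2.trans h3
    rw [Real.le_log_iff_exp_le (by linarith)]
    have := Real.exp_one_lt_d9
    linarith
  have hq0 : ∀ N, N0 ≤ N → 0 ≤ q N := by
    intro N hN
    have := hlogb N hN
    rw [hq]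
    exact div_nonneg hc0.le (by linarith)
  have hq1 : ∀ N, N0 ≤ N → q N ≤ 1 := by
    intro N hN
    have := hlogb N hN
    rw [hq]
    simp only
    rw [div_le_one (by linarith)]
    linarith
  obtain ⟨E, hE⟩ : ∃ E : ℕ → Set Ω, E = fun N =>
    {ω | (∀ m, a N ≤ m → m < b N → act z m → q N ≤ yy z (H z (Kof S ω) (b N)) m) ∧
        ∀ i ∈ I N, ¬ t N i ⊆ H z (Kof S ω) (b N)} := ⟨_, rfl⟩
  have hEb : ∀ N, N0 ≤ N → μ (E N) ≤
      ENNReal.ofReal (Real.exp (-(((I N).card : ℝ) * (c / Real.log (b N)) ^ s))) := by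
    intro N hN
    obtain ⟨h1, h2, h3, h4, h5, h6⟩ := hN0 N hN
    have key := tail_zero (μ := μ) (S := S) hS h1 h3 (I N) (t N) h4 h5 (fun _ => q N)
      (fun _ => hq0 N hN) (fun _ => hq1 N hN)
    have hge : ((I N).card : ℝ) * (c / Real.log (b N)) ^ s ≤
        ∑ i ∈ I N, ∏ m ∈ t N i, q N := by
      rw [← nsmul_eq_mul, ← Finset.sum_const]
      apply Finset.sum_le_sum
      intro i hi
      rw [Finset.prod_const]
      have e : c / Real.log (b N) = q N := by rw [hq]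
      rw [e]
      exact pow_le_pow_of_le_one (hq0 N hN) (hq1 N hN) (h6 i hi)
    have h7 : μ.real (E N) ≤ Real.exp (-(((I N).card : ℝ) * (c / Real.log (b N)) ^ s)) := by
      rw [hE]
      exact key.trans (Real.exp_le_exp.2 (neg_le_neg hge))
    rw [← ENNReal.ofReal_toReal (measure_ne_top μ (E N))]
    exact ENNReal.ofReal_le_ofReal h7
  have hsum' : ∑' N, μ (E (N + N0)) ≠ ∞ := by
    refine ne_top_of_le_ne_top ?_ (ENNReal.tsum_le_tsum fun N => hEb (N + N0) (by omega))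
    have hs := (summable_nat_add_iff N0).2 (hsum c hc0)
    rw [← ENNReal.ofReal_tsum_of_nonneg (fun _ => (Real.exp_pos _).le) hs]
    exact ENNReal.ofReal_ne_top
  have hBC := ae_eventually_notMem hsum'
  filter_upwards [hBC, yy_tendsto (μ := μ) (S := S) hS z] with ω h1 h2
  have hlim : (2 * rho z)⁻¹ < (rho z)⁻¹ := by
    apply inv_strictAnti₀ hrho
    linarith
  have h3 := h2.eventually (lt_mem_nhds hlim)
  obtain ⟨M, hM⟩ := eventually_atTop.1 h3
  obtain ⟨N1, hN1⟩ := eventually_atTop.1 h1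
  filter_upwards [eventually_ge_atTop N0, eventually_ge_atTop (N0 + N1),
    ha.eventually_ge_atTop M] with N a1 a2 a3
  obtain ⟨g1, g2, g3, g4, g5, g6⟩ := hN0 N a1
  have hnot : ω ∉ E N := by
    have := hN1 (N - N0) (by omega)
    rwa [Nat.sub_add_cancel a1] at this
  have hcond : ∀ m, a N ≤ m → m < b N → act z m →
      q N ≤ yy z (H z (Kof S ω) (b N)) m := by
    intro m hm1 hm2 _
    rw [yy_H _ hm2.le]
    have h5 := hM m (a3.trans hm1)
    have hm0 : (3 : ℝ) ≤ m := by exact_mod_cast g2.trans hm1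
    have hlm : 0 < Real.log m := Real.log_pos (by linarith)
    have h6 : Real.log m ≤ Real.log (b N) :=
      Real.log_le_log (by linarith) (by exact_mod_cast hm2.le)
    have h7 : (2 * rho z)⁻¹ / Real.log m ≤ yy z (H z (Kof S ω) m) m := by
      rw [div_le_iff₀ hlm]
      exact h5.le
    refine le_trans ?_ h7
    rw [hq]
    simp only
    exact div_le_div₀ (by positivity) hc2 hlm h6
  have hex : ∃ i ∈ I N, t N i ⊆ H z (Kof S ω) (b N) := by
    by_contra hcon
    push Not at hcon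
    apply hnot
    rw [hE]
    exact ⟨hcond, hcon⟩
  obtain ⟨i, hi, hsub⟩ := hex
  refine ⟨i, hi, fun m hm => ?_⟩
  exact ((mem_H _).1 (hsub hm)).2

end Pool.Agent.HwS
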