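import Pool.Agent.HwS.Rec

/-!
# Module HwS/Step: the one-step rule and the supermartingale rule

Proof of `step`.  Let `n` be active.  Split the integral over the finitely many sets `{H n = A}`,
`A` good.  On `{H n = A}` we have `H (n+1) = insert n A` iff no `m ∈ A` with `z < m` (`m < n` as
`A ⊆ range n`) has `ω ∈ S m n` (`H_succ_of_not`, `H_succ_of_struck`).  The set `{H n = A}` belongs to the
sigma-algebra generated by the `S m k` with `k < n` (`H_meas`), the event `⋂_{m ∈ A, z < m} (S m n)ᶜ` to the
one generated by the `S m n`; these are independent by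
`ProbabilityTheory.iIndepSet.indep_generateFrom_of_disjoint` (index sets `{p | p.2 < n}`, `{p | p.2 = n}`).
The second event has probability `∏_{m ∈ A, z < m < n} (1 - 1/m) = yy z A n` by independence and
`IsStrikes.prob` (complements of independent events are independent, e.g. through
`iIndepSet.compl`-type lemmas or induction on the finset with `indep_generateFrom_of_disjoint`).
So `∫_{H n = A} g(H (n+1)) = μ(H n = A) (yy z A n * g (insert n A) + (1 - yy z A n) * g A)`; sum over `A`.

`supermart`: induction on `b`, with `step`, `step_inact` and `Ex_mono`.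
`mart`: the same with equalities (`Ex_congr`).
`Ex_lift`: `H_filter`.
-/

open MeasureTheory ProbabilityTheory Filter Topology
open scoped ENNReal

namespace Pool.Agent.HwS

variable {Ω : Type} [MeasurableSpace Ω] {μ : Measure Ω} {S : ℕ → ℕ → Set Ω} [IsProbabilityMeasure μ]

private theorem step_Ex_sum (hS : IsStrikes μ S) (z n : ℕ) (f : Finset ℕ → ℝ) :
    Ex μ S z n f =
      ∑ A ∈ (Finset.range n).powerset, μ.real {ω | H z (Kof S ω) n = A} * f A := by
  classical
  unfold Ex
  have h1 : ∀ ω, f (H z (Kof S ω) n) = ∑ A ∈ (Finset.range n).powerset,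
      ({ω | H z (Kof S ω) n = A}.indicator (fun _ => f A)) ω := by
    intro ω
    rw [Finset.sum_eq_single (H z (Kof S ω) n)]
    · simp
    · intro A _ hA
      exact Set.indicator_of_notMem (fun h => hA h.symm) _
    · intro h
      exact absurd (Finset.mem_powerset.2 (H_good z (Kof S ω) n).1) h
  simp_rw [h1]
  rw [integral_finsetSum]
  · refine Finset.sum_congr rfl fun A _ => ?_
    rw [integral_indicator_const _ (H_meas' hS z n A), smul_eq_mul]
  · intro A _
    exact (integrable_const _).indicator (H_meas' hS z n A)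

/-- No selected number strikes `n`. -/
private def stepN (S : ℕ → ℕ → Set Ω) (z n : ℕ) (A : Finset ℕ) : Set Ω :=
  ⋂ p ∈ (A.filter (fun m => z < m ∧ m < n)).image (fun m => (m, n)), (S p.1 p.2)ᶜ

omit [MeasurableSpace Ω] in
private theorem step_mem_N {z n : ℕ} {A : Finset ℕ} (hA : A ⊆ Finset.range n) (ω : Ω) :
    ω ∈ stepN S z n A ↔ ∀ m ∈ A, z < m → ω ∉ S m n := by
  unfold stepN
  simp only [Set.mem_iInter, Finset.mem_image, Finset.mem_filter, Set.mem_compl_iff]
  constructor
  · intro h m hm hz
    exact h (m, n) ⟨m, ⟨hm, hz, Finset.mem_range.1 (hA hm)⟩, rfl⟩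
  · rintro h p ⟨m, ⟨hm, hz, -⟩, rfl⟩
    exact h m hm hz

omit [MeasurableSpace Ω] in
private theorem step_N_meas (S : ℕ → ℕ → Set Ω) (z n : ℕ) (A : Finset ℕ) :
    MeasurableSet[MeasurableSpace.generateFrom
      {t | ∃ p ∈ {p : ℕ × ℕ | p.2 = n}, S p.1 p.2 = t}] (stepN S z n A) := by
  unfold stepN
  refine Finset.measurableSet_biInter _ fun p hp => ?_
  refine MeasurableSet.compl (MeasurableSpace.measurableSet_generateFrom ⟨p, ?_, rfl⟩)
  obtain ⟨m, -, rfl⟩ := Finset.mem_image.1 hp
  rfl

private theorem step_N_prob (hS : IsStrikes μ S) (z n : ℕ) (A : Finset ℕ) :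
    μ.real (stepN S z n A) = yy z A n := by
  have hind : iIndep (fun p : ℕ × ℕ => MeasurableSpace.generateFrom {S p.1 p.2}) μ :=
    (iIndepSet_iff_iIndep _ _).1 hS.indep
  have h1 : μ (stepN S z n A) = ∏ p ∈ (A.filter (fun m => z < m ∧ m < n)).image (fun m => (m, n)),
      μ ((S p.1 p.2)ᶜ) := by
    unfold stepN
    refine hind.meas_biInter fun p _ => ?_
    exact MeasurableSet.compl (MeasurableSpace.measurableSet_generateFrom rfl)
  unfold Measure.real yy
  rw [h1, Finset.prod_image (fun a _ b _ h => (Prod.mk.inj h).1), ENNReal.toReal_prod]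
  refine Finset.prod_congr rfl fun m hm => ?_
  have hm1 : 1 ≤ m := by
    have := (Finset.mem_filter.1 hm).2.1
    omega
  have h2 : (μ ((S m n)ᶜ)).toReal = 1 - (μ (S m n)).toReal := by
    have := probReal_compl_eq_one_sub (μ := μ) (hS.meas m n)
    exact this
  rw [h2, hS.prob m n hm1, ENNReal.toReal_inv, ENNReal.toReal_natCast, one_div]

theorem step (hS : IsStrikes μ S) {z n : ℕ} (hn : act z n) (g : Finset ℕ → ℝ) :
    Ex μ S z (n + 1) g =
      Ex μ S z n (fun A => yy z A n * g (insert n A) + (1 - yy z A n) * g A) := by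
  classical
  rw [step_Ex_sum hS z n]
  unfold Ex
  have hNm : ∀ A, MeasurableSet (stepN S z n A) := by
    intro A
    unfold stepN
    exact Finset.measurableSet_biInter _ fun p _ => (hS.meas p.1 p.2).compl
  have hXm := H_meas' hS z n
  have h1 : ∀ ω, g (H z (Kof S ω) (n + 1)) = ∑ A ∈ (Finset.range n).powerset,
      (({ω | H z (Kof S ω) n = A} ∩ stepN S z n A).indicator (fun _ => g (insert n A) - g A) ω +
        ({ω | H z (Kof S ω) n = A}.indicator (fun _ => g A)) ω) := by
    intro ω
    rw [Finset.sum_eq_single (H z (Kof S ω) n)]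
    · have hmem : ω ∈ {ω' | H z (Kof S ω') n = H z (Kof S ω) n} := rfl
      rw [Set.indicator_of_mem hmem]
      by_cases hN : ω ∈ stepN S z n (H z (Kof S ω) n)
      · have hmem2 : ω ∈ {ω' | H z (Kof S ω') n = H z (Kof S ω) n} ∩
            stepN S z n (H z (Kof S ω) n) := ⟨hmem, hN⟩
        rw [Set.indicator_of_mem hmem2]
        have := (step_mem_N (H_good z (Kof S ω) n).1 ω).1 hN
        rw [H_succ_of_not (Kof S ω) hn this]
        ring
      · rw [Set.indicator_of_notMem (fun h => hN h.2)]
        rw [step_mem_N (H_good z (Kof S ω) n).1 ω] at hN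
        push Not at hN
        rw [H_succ_of_struck (Kof S ω) hn hN]
        ring
    · intro A _ hA
      rw [Set.indicator_of_notMem (fun h => hA h.1.symm), Set.indicator_of_notMem
        (fun h => hA h.symm), add_zero]
    · intro h
      exact absurd (Finset.mem_powerset.2 (H_good z (Kof S ω) n).1) h
  simp_rw [h1]
  rw [integral_finsetSum]
  · refine Finset.sum_congr rfl fun A _ => ?_
    rw [integral_add ((integrable_const _).indicator ((hXm A).inter (hNm A)))
      ((integrable_const _).indicator (hXm A)),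
      integral_indicator_const _ ((hXm A).inter (hNm A)), integral_indicator_const _ (hXm A)]
    have hI : Indep (MeasurableSpace.generateFrom
        {t | ∃ p ∈ {p : ℕ × ℕ | p.2 < n}, S p.1 p.2 = t}) (MeasurableSpace.generateFrom
        {t | ∃ p ∈ {p : ℕ × ℕ | p.2 = n}, S p.1 p.2 = t}) μ := by
      refine iIndepSet.indep_generateFrom_of_disjoint (s := fun p : ℕ × ℕ => S p.1 p.2)
        (fun p => hS.meas p.1 p.2) hS.indep _ _ ?_
      rw [Set.disjoint_left]
      intro p h1 h2
      simp only [Set.mem_ofPred_eq] at h1 h2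
      omega
    have h3 := (Indep_iff _ _ μ).1 hI _ _ (H_meas S z n A) (step_N_meas S z n A)
    have h4 : μ.real ({ω | H z (Kof S ω) n = A} ∩ stepN S z n A) =
        μ.real {ω | H z (Kof S ω) n = A} * yy z A n := by
      rw [← step_N_prob hS z n A]
      unfold Measure.real
      rw [h3, ENNReal.toReal_mul]
    rw [h4, smul_eq_mul, smul_eq_mul]
    ring
  · intro A _
    exact ((integrable_const _).indicator ((hXm A).inter (hNm A))).add
      ((integrable_const _).indicator (hXm A))

theorem step_inact {z n : ℕ} (hz : z < n) (hn : ¬ act z n) (g : Finset ℕ → ℝ) :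
    Ex μ S z (n + 1) g = Ex μ S z n g := by
  unfold Ex
  simp_rw [H_inact _ hz hn]

theorem supermart (hS : IsStrikes μ S) {z a b : ℕ} (hza : z < a) (hab : a ≤ b)
    (g : ℕ → Finset ℕ → ℝ)
    (h : ∀ m, a ≤ m → m < b → ∀ A, Good z m A → act z m →
      yy z A m * g (m + 1) (insert m A) + (1 - yy z A m) * g (m + 1) A ≤ g m A)
    (h' : ∀ m, a ≤ m → m < b → ∀ A, Good z m A → ¬ act z m → g (m + 1) A ≤ g m A) :
    Ex μ S z b (g b) ≤ Ex μ S z a (g a) := by
  induction b, hab using Nat.le_induction with
  | base => exact le_rfl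
  | succ b hab ih =>
    refine le_trans ?_ (ih (fun m h1 h2 => h m h1 (by omega)) (fun m h1 h2 => h' m h1 (by omega)))
    by_cases hact : act z b
    · rw [step hS hact]
      exact Ex_mono hS fun A hA => h b hab (by omega) A hA hact
    · rw [step_inact (by omega) hact]
      exact Ex_mono hS fun A hA => h' b hab (by omega) A hA hact

theorem mart (hS : IsStrikes μ S) {z a b : ℕ} (hza : z < a) (hab : a ≤ b)
    (g : ℕ → Finset ℕ → ℝ)
    (h : ∀ m, a ≤ m → m < b → ∀ A, Good z m A → act z m →
      yy z A m * g (m + 1) (insert m A) + (1 - yy z A m) * g (m + 1) A = g m A)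
    (h' : ∀ m, a ≤ m → m < b → ∀ A, Good z m A → ¬ act z m → g (m + 1) A = g m A) :
    Ex μ S z b (g b) = Ex μ S z a (g a) := by
  induction b, hab using Nat.le_induction with
  | base => rfl
  | succ b hab ih =>
    refine Eq.trans ?_ (ih (fun m h1 h2 => h m h1 (by omega)) (fun m h1 h2 => h' m h1 (by omega)))
    by_cases hact : act z b
    · rw [step hS hact]
      exact Ex_congr hS fun A hA => h b hab (by omega) A hA hact
    · rw [step_inact (by omega) hact]
      exact Ex_congr hS fun A hA => h' b hab (by omega) A hA hact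

end Pool.Agent.HwS
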