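import Pool.Agent.HwS.Step

/-!
# Module HwS/Tail: the master inequality

Setting: `I` a finite set of indices, `t i` (i ∈ I) pairwise disjoint finite sets of active numbers in
`[a, b)`, `q m ∈ [0,1]`, `θ ≥ -1`.  `Cnd θ q z A m`: `yy z A m ≤ q m` if `θ ≥ 0` and `q m ≤ yy z A m` if `θ ≤ 0`.

Claim: `E[ 1(Cnd holds at all active m ∈ [a,b)) (1+θ)^{#{i : t i ⊆ R}} ] ≤ ∏_i (1 + θ ∏_{m ∈ t i} q m)`.

Proof.  Put `F i m A = 1 + θ ∏_{m' ∈ t i, m ≤ m'} q m'` if `(t i).filter (· < m) ⊆ A` and `F i m A = 1`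
otherwise, and `g m A = ∏_{i ∈ I} F i m A` if `Cnd θ q z A m'` for all active `m' ∈ [a, m)`, `g m A = 0`
otherwise.  All `F i m A ≥ 0` since `θ ≥ -1` and the products of `q` are in `[0,1]`.
`supermart` applies with this `g`:
* `m` not active: `m` is in no `t i`, so `F i (m+1) A = F i m A` (A ⊆ range m), and the condition on
  `[a, m+1)` is the same as on `[a, m)` (only active `m'` count).
* `m` active, `A` good, `A ⊆ range m`.  If the condition fails for some `m' < m` then both `g (m+1) (..)`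
  vanish (`yy z (insert m A) m' = yy z A m'` for `m' ≤ m`) and `g m A = 0`.  If it fails at `m` then
  `g (m+1) (..) = 0 ≤ g m A`.  Otherwise, if `m` is in no `t i` nothing changes.  If `m ∈ t i0` (unique `i0`),
  the factors with `i ≠ i0` do not change (`m ∉ t i`), and for `i0`: if `(t i0).filter (· < m) ⊄ A` then the
  factor is 1 before and after.  Otherwise let `r = ∏_{m' ∈ t i0, m < m'} q m'`; the factor before is
  `1 + θ (q m * r)`, after it is `1 + θ r` if `m` is selected and `1` if not, with average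
  `1 + θ (yy z A m) r ≤ 1 + θ (q m) r` by `Cnd` at `m`.
At `a`: `g a A ≤ ∏_i (1 + θ ∏_{m ∈ t i} q m)` (equality: `(t i).filter (· < a) = ∅`), at `b`:
`F i b A = 1 + θ` if `t i ⊆ A` and 1 otherwise, so `g b A = (1+θ)^{card}` under the condition.
-/

open MeasureTheory ProbabilityTheory Filter Topology
open scoped ENNReal

namespace Pool.Agent.HwS

variable {Ω : Type} [MeasurableSpace Ω] {μ : Measure Ω} {S : ℕ → ℕ → Set Ω} [IsProbabilityMeasure μ]

/-- the side condition at `m` -/
def Cnd (θ : ℝ) (q : ℕ → ℝ) (z : ℕ) (A : Finset ℕ) (m : ℕ) : Prop :=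
  (0 ≤ θ → yy z A m ≤ q m) ∧ (θ ≤ 0 → q m ≤ yy z A m)

open Classical in
/-- product of the remaining `q` -/
private noncomputable def prT (t : ℕ → Finset ℕ) (q : ℕ → ℝ) (i m : ℕ) : ℝ :=
  ∏ m' ∈ (t i).filter (fun m' => m ≤ m'), q m'

open Classical in
/-- the factor of the index `i` -/
private noncomputable def FT (t : ℕ → Finset ℕ) (q : ℕ → ℝ) (θ : ℝ) (i m : ℕ) (A : Finset ℕ) : ℝ :=
  if (t i).filter (fun m' => m' < m) ⊆ A then 1 + θ * prT t q i m else 1

/-- the condition on `[a, m)` -/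
private def PT (θ : ℝ) (q : ℕ → ℝ) (z a m : ℕ) (A : Finset ℕ) : Prop :=
  ∀ m', a ≤ m' → m' < m → act z m' → Cnd θ q z A m'

open Classical in
/-- the supermartingale -/
private noncomputable def GT (I : Finset ℕ) (t : ℕ → Finset ℕ) (q : ℕ → ℝ) (θ : ℝ) (z a m : ℕ)
    (A : Finset ℕ) : ℝ :=
  if PT θ q z a m A then ∏ i ∈ I, FT t q θ i m A else 0

private theorem prT_nonneg {t : ℕ → Finset ℕ} {q : ℕ → ℝ} (hq0 : ∀ m, 0 ≤ q m) (i m : ℕ) :
    0 ≤ prT t q i m := Finset.prod_nonneg fun j _ => hq0 j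

private theorem prT_le_one {t : ℕ → Finset ℕ} {q : ℕ → ℝ} (hq0 : ∀ m, 0 ≤ q m)
    (hq1 : ∀ m, q m ≤ 1) (i m : ℕ) : prT t q i m ≤ 1 :=
  Finset.prod_le_one (fun j _ => hq0 j) fun j _ => hq1 j

private theorem FT_nonneg {t : ℕ → Finset ℕ} {q : ℕ → ℝ} (hq0 : ∀ m, 0 ≤ q m)
    (hq1 : ∀ m, q m ≤ 1) {θ : ℝ} (hθ : -1 ≤ θ) (i m : ℕ) (A : Finset ℕ) :
    0 ≤ FT t q θ i m A := by
  unfold FT
  split_ifs
  · have h0 := prT_nonneg (t := t) hq0 i m
    have h1 := prT_le_one (t := t) hq0 hq1 i m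
    nlinarith
  · exact zero_le_one

private theorem GT_nonneg {I : Finset ℕ} {t : ℕ → Finset ℕ} {q : ℕ → ℝ} (hq0 : ∀ m, 0 ≤ q m)
    (hq1 : ∀ m, q m ≤ 1) {θ : ℝ} (hθ : -1 ≤ θ) (z a m : ℕ) (A : Finset ℕ) :
    0 ≤ GT I t q θ z a m A := by
  unfold GT
  split_ifs
  · exact Finset.prod_nonneg fun i _ => FT_nonneg hq0 hq1 hθ i m A
  · exact le_rfl

/-- a number outside `t i` changes nothing -/
private theorem FT_succ {t : ℕ → Finset ℕ} {q : ℕ → ℝ} {θ : ℝ} {i m : ℕ} (hm : m ∉ t i)
    (A : Finset ℕ) : FT t q θ i (m + 1) A = FT t q θ i m A := by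
  have h1 : (t i).filter (fun m' => m' < m + 1) = (t i).filter (fun m' => m' < m) := by
    ext x
    simp only [Finset.mem_filter]
    constructor
    · rintro ⟨h, h'⟩
      have : x ≠ m := fun e => hm (e ▸ h)
      exact ⟨h, by omega⟩
    · rintro ⟨h, h'⟩
      exact ⟨h, by omega⟩
  have h2 : (t i).filter (fun m' => m + 1 ≤ m') = (t i).filter (fun m' => m ≤ m') := by
    ext x
    simp only [Finset.mem_filter]
    constructor
    · rintro ⟨h, h'⟩
      exact ⟨h, by omega⟩
    · rintro ⟨h, h'⟩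
      have : x ≠ m := fun e => hm (e ▸ h)
      exact ⟨h, by omega⟩
  unfold FT prT
  rw [h1, h2]

private theorem filter_sub_insert {s : Finset ℕ} {m : ℕ} {A : Finset ℕ} :
    s.filter (fun m' => m' < m) ⊆ insert m A ↔ s.filter (fun m' => m' < m) ⊆ A := by
  constructor
  · intro h x hx
    have h1 := h hx
    rw [Finset.mem_filter] at hx
    rw [Finset.mem_insert] at h1
    rcases h1 with h1 | h1
    · omega
    · exact h1
  · intro h
    exact h.trans (Finset.subset_insert m A)

private theorem FT_succ_insert {t : ℕ → Finset ℕ} {q : ℕ → ℝ} {θ : ℝ} {i m : ℕ} (hm : m ∉ t i)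
    (A : Finset ℕ) : FT t q θ i (m + 1) (insert m A) = FT t q θ i m A := by
  rw [FT_succ hm]
  unfold FT
  simp only [filter_sub_insert]

private theorem filter_lt_succ {s : Finset ℕ} {m : ℕ} (hm : m ∈ s) :
    s.filter (fun m' => m' < m + 1) = insert m (s.filter (fun m' => m' < m)) := by
  ext x
  simp only [Finset.mem_filter, Finset.mem_insert]
  constructor
  · rintro ⟨h, h'⟩
    by_cases e : x = m
    · exact Or.inl e
    · exact Or.inr ⟨h, by omega⟩
  · rintro (h | ⟨h, h'⟩)
    · exact ⟨h ▸ hm, by omega⟩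
    · exact ⟨h, by omega⟩

private theorem prT_mem {t : ℕ → Finset ℕ} {q : ℕ → ℝ} {i m : ℕ} (hm : m ∈ t i) :
    prT t q i m = q m * prT t q i (m + 1) := by
  have h1 : (t i).filter (fun m' => m ≤ m') =
      insert m ((t i).filter (fun m' => m + 1 ≤ m')) := by
    ext x
    simp only [Finset.mem_filter, Finset.mem_insert]
    constructor
    · rintro ⟨h, h'⟩
      by_cases e : x = m
      · exact Or.inl e
      · exact Or.inr ⟨h, by omega⟩
    · rintro (h | ⟨h, h'⟩)
      · exact ⟨h ▸ hm, by omega⟩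
      · exact ⟨h, by omega⟩
  unfold prT
  rw [h1, Finset.prod_insert]
  simp

/-- the factor which contains `m` -/
private theorem FT_mem {t : ℕ → Finset ℕ} {q : ℕ → ℝ} (hq0 : ∀ m, 0 ≤ q m) {θ : ℝ}
    {z i m : ℕ} (hm : m ∈ t i) {A : Finset ℕ} (hA : A ⊆ Finset.range m) (hC : Cnd θ q z A m) :
    yy z A m * FT t q θ i (m + 1) (insert m A) + (1 - yy z A m) * FT t q θ i (m + 1) A ≤
      FT t q θ i m A := by
  have hmA : m ∉ A := fun h => by
    have := Finset.mem_range.1 (hA h)
    omega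
  have h1 : FT t q θ i (m + 1) A = 1 := by
    unfold FT
    rw [if_neg]
    intro h
    exact hmA (h (Finset.mem_filter.2 ⟨hm, by omega⟩))
  have h2 : ((t i).filter (fun m' => m' < m + 1) ⊆ insert m A) ↔
      (t i).filter (fun m' => m' < m) ⊆ A := by
    rw [filter_lt_succ hm, Finset.insert_subset_iff, filter_sub_insert]
    simp
  rw [h1]
  unfold FT
  by_cases h : (t i).filter (fun m' => m' < m) ⊆ A
  · rw [if_pos h, if_pos (h2.2 h), prT_mem hm]
    have hr := prT_nonneg (t := t) hq0 i (m + 1)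
    have h3 : θ * yy z A m ≤ θ * q m := by
      rcases le_total 0 θ with h0 | h0
      · exact mul_le_mul_of_nonneg_left (hC.1 h0) h0
      · exact mul_le_mul_of_nonpos_left (hC.2 h0) h0
    nlinarith [mul_le_mul_of_nonneg_right h3 hr]
  · rw [if_neg h, if_neg (fun h' => h (h2.1 h'))]
    linarith

private theorem yy_insert {z m m' : ℕ} (h : m' ≤ m) (A : Finset ℕ) :
    yy z (insert m A) m' = yy z A m' := by
  unfold yy
  congr 1
  ext x
  simp only [Finset.mem_filter, Finset.mem_insert]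
  constructor
  · rintro ⟨h1 | h1, h2⟩
    · omega
    · exact ⟨h1, h2⟩
  · rintro ⟨h1, h2⟩
    exact ⟨Or.inr h1, h2⟩

private theorem PT_insert {θ : ℝ} {q : ℕ → ℝ} {z a m : ℕ} {A : Finset ℕ} :
    PT θ q z a (m + 1) (insert m A) ↔ PT θ q z a (m + 1) A := by
  unfold PT Cnd
  constructor
  · intro h m' h1 h2 h3
    have := h m' h1 h2 h3
    rwa [yy_insert (by omega)] at this
  · intro h m' h1 h2 h3
    rw [yy_insert (by omega)]
    exact h m' h1 h2 h3

private theorem PT_mono {θ : ℝ} {q : ℕ → ℝ} {z a m : ℕ} {A : Finset ℕ}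
    (h : PT θ q z a (m + 1) A) : PT θ q z a m A :=
  fun m' h1 h2 h3 => h m' h1 (by omega) h3

open Classical in
theorem master (hS : IsStrikes μ S) {z a b : ℕ} (hza : z < a) (hab : a ≤ b)
    (I : Finset ℕ) (t : ℕ → Finset ℕ)
    (hdisj : ∀ i ∈ I, ∀ j ∈ I, i ≠ j → Disjoint (t i) (t j))
    (hmem : ∀ i ∈ I, ∀ m ∈ t i, a ≤ m ∧ m < b ∧ act z m)
    (q : ℕ → ℝ) (hq0 : ∀ m, 0 ≤ q m) (hq1 : ∀ m, q m ≤ 1) (θ : ℝ) (hθ : -1 ≤ θ) :
    Ex μ S z b (fun A => if (∀ m, a ≤ m → m < b → act z m → Cnd θ q z A m) then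
        (1 + θ) ^ (I.filter (fun i => t i ⊆ A)).card else 0) ≤
      ∏ i ∈ I, (1 + θ * ∏ m ∈ t i, q m) := by
  have hb : ∀ A, (if (∀ m, a ≤ m → m < b → act z m → Cnd θ q z A m) then
      (1 + θ) ^ (I.filter (fun i => t i ⊆ A)).card else (0 : ℝ)) = GT I t q θ z a b A := by
    intro A
    unfold GT
    have h1 : ∏ i ∈ I, FT t q θ i b A = (1 + θ) ^ (I.filter (fun i => t i ⊆ A)).card := by
      rw [← Finset.prod_const, Finset.prod_filter]
      refine Finset.prod_congr rfl fun i hi => ?_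
      have e1 : (t i).filter (fun m' => m' < b) = t i :=
        Finset.filter_true_of_mem fun m hm => (hmem i hi m hm).2.1
      have e2 : (t i).filter (fun m' => b ≤ m') = ∅ :=
        Finset.filter_false_of_mem fun m hm => by
          have := (hmem i hi m hm).2.1
          omega
      unfold FT prT
      rw [e1, e2, Finset.prod_empty, mul_one]
    rw [h1]
    by_cases hP : PT θ q z a b A
    · rw [if_pos hP]
      exact if_pos hP
    · rw [if_neg hP]
      exact if_neg hP
  have ha : ∀ A, GT I t q θ z a a A = ∏ i ∈ I, (1 + θ * ∏ m ∈ t i, q m) := by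
    intro A
    unfold GT
    have hP : PT θ q z a a A := fun m' h1 h2 _ => by omega
    rw [if_pos hP]
    refine Finset.prod_congr rfl fun i hi => ?_
    have e1 : (t i).filter (fun m' => m' < a) = ∅ :=
      Finset.filter_false_of_mem fun m hm => by
        have := (hmem i hi m hm).1
        omega
    have e2 : (t i).filter (fun m' => a ≤ m') = t i :=
      Finset.filter_true_of_mem fun m hm => (hmem i hi m hm).1
    unfold FT prT
    rw [e1, e2, if_pos (Finset.empty_subset A)]
  have hsup := supermart hS hza hab (fun m A => GT I t q θ z a m A) ?_ ?_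
  · calc Ex μ S z b (fun A => if (∀ m, a ≤ m → m < b → act z m → Cnd θ q z A m) then
          (1 + θ) ^ (I.filter (fun i => t i ⊆ A)).card else 0)
        = Ex μ S z b (fun A => GT I t q θ z a b A) := by
          refine Ex_congr hS fun A _ => hb A
      _ ≤ Ex μ S z a (fun A => GT I t q θ z a a A) := hsup
      _ = Ex μ S z a (fun _ => ∏ i ∈ I, (1 + θ * ∏ m ∈ t i, q m)) :=
          Ex_congr hS fun A _ => ha A
      _ = _ := Ex_const μ S z a _
  · intro m ham hmb A hA hact
    change yy z A m * GT I t q θ z a (m + 1) (insert m A) +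
      (1 - yy z A m) * GT I t q θ z a (m + 1) A ≤ GT I t q θ z a m A
    by_cases hP : PT θ q z a (m + 1) A
    · have hC : Cnd θ q z A m := hP m ham (by omega) hact
      unfold GT
      rw [if_pos hP, if_pos (PT_insert.2 hP), if_pos (PT_mono hP)]
      by_cases hex : ∃ i0 ∈ I, m ∈ t i0
      · obtain ⟨i0, hi0, hm0⟩ := hex
        have hoth : ∀ i ∈ I.erase i0, m ∉ t i := by
          intro i hi hmi
          rw [Finset.mem_erase] at hi
          exact Finset.disjoint_left.1 (hdisj i hi.2 i0 hi0 hi.1) hmi hm0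
        rw [← Finset.mul_prod_erase I _ hi0, ← Finset.mul_prod_erase I _ hi0,
          ← Finset.mul_prod_erase I _ hi0]
        have e1 : ∏ i ∈ I.erase i0, FT t q θ i (m + 1) (insert m A) =
            ∏ i ∈ I.erase i0, FT t q θ i m A :=
          Finset.prod_congr rfl fun i hi => FT_succ_insert (hoth i hi) A
        have e2 : ∏ i ∈ I.erase i0, FT t q θ i (m + 1) A =
            ∏ i ∈ I.erase i0, FT t q θ i m A :=
          Finset.prod_congr rfl fun i hi => FT_succ (hoth i hi) A
        rw [e1, e2]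
        have h1 := FT_mem hq0 hm0 hA.1 hC
        have h2 : 0 ≤ ∏ i ∈ I.erase i0, FT t q θ i m A :=
          Finset.prod_nonneg fun i _ => FT_nonneg hq0 hq1 hθ i m A
        calc _ = (yy z A m * FT t q θ i0 (m + 1) (insert m A) +
              (1 - yy z A m) * FT t q θ i0 (m + 1) A) * ∏ i ∈ I.erase i0, FT t q θ i m A := by ring
          _ ≤ _ := mul_le_mul_of_nonneg_right h1 h2
      · push Not at hex
        have e1 : ∏ i ∈ I, FT t q θ i (m + 1) (insert m A) = ∏ i ∈ I, FT t q θ i m A :=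
          Finset.prod_congr rfl fun i hi => FT_succ_insert (hex i hi) A
        have e2 : ∏ i ∈ I, FT t q θ i (m + 1) A = ∏ i ∈ I, FT t q θ i m A :=
          Finset.prod_congr rfl fun i hi => FT_succ (hex i hi) A
        rw [e1, e2]
        exact le_of_eq (by ring)
    · have e1 : GT I t q θ z a (m + 1) (insert m A) = 0 := by
        unfold GT
        rw [if_neg (fun h => hP (PT_insert.1 h))]
      have e2 : GT I t q θ z a (m + 1) A = 0 := by
        unfold GT
        rw [if_neg hP]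
      rw [e1, e2, mul_zero, mul_zero, add_zero]
      exact GT_nonneg hq0 hq1 hθ z a m A
  · intro m ham hmb A hA hact
    change GT I t q θ z a (m + 1) A ≤ GT I t q θ z a m A
    by_cases hP : PT θ q z a (m + 1) A
    · unfold GT
      rw [if_pos hP, if_pos (PT_mono hP)]
      refine le_of_eq (Finset.prod_congr rfl fun i hi => FT_succ (fun hm => ?_) A)
      exact hact (hmem i hi m hm).2.2
    · have e2 : GT I t q θ z a (m + 1) A = 0 := by
        unfold GT
        rw [if_neg hP]
      rw [e2]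
      exact GT_nonneg hq0 hq1 hθ z a m A

end Pool.Agent.HwS
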