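import Pool.Agent.HwS.YAs
import Pool.Agent.HwS.TailC

/-!
# Module HwS/Win: counts in short geometric windows, chains of length at least `k`

Let `δ = 1/(r+3)`, `X r i = ⌈(1+δ)^i⌉`, `x = X r i`, `x' = X r (i+1)`, `L = log x`, `κ = sing z k`.
Claim: almost surely for all large `i` the number `Z_i` of `n ∈ [x, x')` with `Sel (ch j n)` for all `j < k`
differs from `κ (x' - x) / L^k` by at most `η` times this.

Proof.  Choose a small `e > 0` (depending on `η, k`).  `I = {n ∈ [x,x') : ∀ j < k, act z (ch j n)}`,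
`t n = {ch j n : j < k}` (`k` different numbers), `b = 2^k x'`.  The sets `t n` (n ∈ [x,x')) are pairwise
disjoint: `ch j n = ch j n'` gives `n = n'`; for `j < j'`:
`ch j n ≤ 2^j x' - 1 < 2^(j+1) (x+1) - 1 ≤ ch j' n'` because `x' < 2 (x+1)`.  All elements are in `[x, b)`.
Let `q± = (1 ± e) / (rho z * L)` (in `[0,1]` for large `i`).  By `yy_tendsto`, `yy_H` and
`L ≤ log m ≤ L + (k+1) log 2` for `m ∈ [x, b)`: almost surely for all large `i` the conditions
`yy z (H b) m ≤ q+` and `q- ≤ yy z (H b) m` hold for all `m ∈ [x,b)`.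
By `count_ch`, `M± := |I| (q±)^k = κ (1±e)^k (x' - x + O(1)) / L^k`, and `M± ≥ c x / L^k ≥ i^2`... eventually
(x grows exponentially in `i`, `x' - x ≥ δ x - 1`), so `exp(-c' M±)` is summable for every `c' > 0`.
`tail_up` with `T = (1+e) M+`, `l = log (1+e)`: probability `≤ exp(-c1 M+)`,
`c1 = (1+e) log (1+e) - e > 0`.  `tail_lo` with `T = (1-e) M-`, `l = - log (1-e)`: probability `≤ exp(-c2 M-)`,
`c2 = e + (1-e) log (1-e) > 0`.  Borel-Cantelli: almost surely for all large `i`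
`(1-e) M- < card (I.filter (t n ⊆ H b)) < (1+e) M+`.  This card is `Z_i`: if `Sel (ch j n)` with
`ch j n > z` then `act z (ch j n)` (`sel_iff`), and `mem_H`.  For small `e` and large `i`:
`(1+e)^(k+1) (1 + O(1/(x'-x))) ≤ 1 + η` and `(1-e)^(k+1) (1 - O(1/(x'-x))) ≥ 1 - η`.
-/

open MeasureTheory ProbabilityTheory Filter Topology
open scoped ENNReal

namespace Pool.Agent.HwS

/-- end points of the windows -/
noncomputable def X (r i : ℕ) : ℕ := ⌈(1 + 1 / ((r : ℝ) + 3)) ^ i⌉₊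

private theorem Win_dpos (r : ℕ) : (0 : ℝ) < 1 / ((r : ℝ) + 3) := by positivity

private theorem Win_dle (r : ℕ) : 1 / ((r : ℝ) + 3) ≤ 1 / 3 := by
  apply one_div_le_one_div_of_le (by norm_num)
  have : (0 : ℝ) ≤ r := Nat.cast_nonneg r
  linarith

private theorem Win_lb (r i : ℕ) : (1 + 1 / ((r : ℝ) + 3)) ^ i ≤ (X r i : ℝ) := Nat.le_ceil _

private theorem Win_ub (r i : ℕ) : (X r i : ℝ) < (1 + 1 / ((r : ℝ) + 3)) ^ i + 1 :=
  Nat.ceil_lt_add_one (by positivity)

private theorem Win_mono (r i : ℕ) : X r i ≤ X r (i + 1) := by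
  apply Nat.ceil_le_ceil
  have h := Win_dpos r
  exact pow_le_pow_right₀ (by linarith) (by omega)

private theorem Win_one (r i : ℕ) : (1 : ℝ) ≤ (X r i : ℝ) := by
  refine le_trans ?_ (Win_lb r i)
  have h := Win_dpos r
  exact one_le_pow₀ (by linarith)

private theorem Win_two (r i : ℕ) : X r (i + 1) < 2 * (X r i + 1) := by
  have h1 := Win_ub r (i + 1)
  have h2 := Win_lb r i
  have h3 := Win_dle r
  have h4 := Win_dpos r
  have h5 := Win_one r i
  have h6 : (1 + 1 / ((r : ℝ) + 3)) ^ (i + 1) ≤ (4 / 3) * (X r i : ℝ) := by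
    rw [pow_succ, mul_comm]
    apply mul_le_mul (by linarith) h2 (by positivity) (by norm_num)
  have h7 : (X r (i + 1) : ℝ) < ((2 * (X r i + 1) : ℕ) : ℝ) := by
    push_cast
    linarith
  exact_mod_cast h7

private theorem Win_gap (r i : ℕ) :
    1 / ((r : ℝ) + 3) * (1 + 1 / ((r : ℝ) + 3)) ^ i - 1 ≤ (X r (i + 1) : ℝ) - X r i := by
  have h1 := Win_ub r i
  have h2 := Win_lb r (i + 1)
  rw [pow_succ] at h2
  nlinarith

private theorem Win_log_le (r i : ℕ) : Real.log (X r i) ≤ (i : ℝ) + 1 := by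
  have h1 := Win_ub r i
  have h2 := Win_one r i
  have h3 := Win_dpos r
  have h4 := Win_dle r
  have h5 : (1 : ℝ) ≤ (1 + 1 / ((r : ℝ) + 3)) ^ i := one_le_pow₀ (by linarith)
  have h6 : (X r i : ℝ) ≤ 2 * (1 + 1 / ((r : ℝ) + 3)) ^ i := by linarith
  calc Real.log (X r i) ≤ Real.log (2 * (1 + 1 / ((r : ℝ) + 3)) ^ i) :=
        Real.log_le_log (by linarith) h6
    _ = Real.log 2 + i * Real.log (1 + 1 / ((r : ℝ) + 3)) := by
        rw [Real.log_mul (by norm_num) (by positivity), Real.log_pow]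
    _ ≤ (i : ℝ) + 1 := by
        have e1 : Real.log 2 ≤ 1 := by
          have := Real.log_le_sub_one_of_pos (show (0 : ℝ) < 2 by norm_num)
          linarith
        have e2 : Real.log (1 + 1 / ((r : ℝ) + 3)) ≤ 1 := by
          have := Real.log_le_sub_one_of_pos (show (0 : ℝ) < 1 + 1 / ((r : ℝ) + 3) by linarith)
          linarith
        have e3 : (0 : ℝ) ≤ i := Nat.cast_nonneg i
        nlinarith

private theorem Win_pow_large (r m : ℕ) (A : ℝ) :
    ∀ᶠ i : ℕ in atTop, A * (i : ℝ) ^ m ≤ (1 + 1 / ((r : ℝ) + 3)) ^ i := by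
  have h3 := Win_dpos r
  have h := tendsto_pow_const_div_const_pow_of_one_lt m
    (show (1 : ℝ) < 1 + 1 / ((r : ℝ) + 3) by linarith)
  have hA : (0 : ℝ) < 1 / (|A| + 1) := by positivity
  filter_upwards [h.eventually (gt_mem_nhds hA)] with i hi
  have hp : (0 : ℝ) < (1 + 1 / ((r : ℝ) + 3)) ^ i := by positivity
  rw [div_lt_div_iff₀ hp (by positivity)] at hi
  have h5 : (0 : ℝ) ≤ (i : ℝ) ^ m := by positivity
  have h6 : A ≤ |A| + 1 := by
    have := le_abs_self A
    linarith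
  nlinarith [mul_le_mul_of_nonneg_right h6 h5]

private theorem Win_gap_large (r : ℕ) (A : ℝ) :
    ∀ᶠ i : ℕ in atTop, A ≤ (X r (i + 1) : ℝ) - X r i := by
  have h3 := Win_dpos r
  filter_upwards [Win_pow_large r 0 ((A + 1) / (1 / ((r : ℝ) + 3)))] with i hi
  have h1 := Win_gap r i
  rw [pow_zero, mul_one, div_le_iff₀ h3] at hi
  linarith

private theorem Win_X_tendsto (r : ℕ) : Tendsto (fun i : ℕ => (X r i : ℝ)) atTop atTop := by
  have h3 := Win_dpos r
  refine tendsto_atTop_mono (Win_lb r) ?_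
  exact tendsto_pow_atTop_atTop_of_one_lt (by linarith)

private theorem Win_log_tendsto (r : ℕ) :
    Tendsto (fun i : ℕ => Real.log (X r i)) atTop atTop :=
  Real.tendsto_log_atTop.comp (Win_X_tendsto r)

private theorem Win_D_large (r k : ℕ) {κ : ℝ} (hκ : 0 < κ) (A : ℝ) :
    ∀ᶠ i : ℕ in atTop, A * (i : ℝ) ≤ κ * ((X r (i + 1) : ℝ) - X r i) / Real.log (X r i) ^ k := by
  have h3 := Win_dpos r
  set d := 1 / ((r : ℝ) + 3) with hd
  filter_upwards [Win_pow_large r (k + 1) ((|A| / κ * 2 ^ k + 1) / d), eventually_ge_atTop 1,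
    (Win_log_tendsto r).eventually_gt_atTop 0] with i hi hi1 hL
  have h1 := Win_gap r i
  rw [← hd] at h1 hi
  rw [div_mul_eq_mul_div, div_le_iff₀ h3] at hi
  have hi1' : (1 : ℝ) ≤ i := by exact_mod_cast hi1
  have hLi : Real.log (X r i) ≤ 2 * i := by
    have := Win_log_le r i
    linarith
  have hLk : Real.log (X r i) ^ k ≤ 2 ^ k * (i : ℝ) ^ k := by
    rw [← mul_pow]
    exact pow_le_pow_left₀ hL.le hLi k
  rw [le_div_iff₀ (by positivity)]
  have e1 : (1 : ℝ) ≤ (i : ℝ) ^ (k + 1) := one_le_pow₀ hi1'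
  have e2 : |A| / κ * 2 ^ k * (i : ℝ) ^ (k + 1) ≤ (X r (i + 1) : ℝ) - X r i := by nlinarith
  have e3 : |A| * 2 ^ k * (i : ℝ) ^ (k + 1) ≤ κ * ((X r (i + 1) : ℝ) - X r i) := by
    have := mul_le_mul_of_nonneg_left e2 hκ.le
    have e4 : κ * (|A| / κ * 2 ^ k * (i : ℝ) ^ (k + 1)) = |A| * 2 ^ k * (i : ℝ) ^ (k + 1) := by
      field_simp
    linarith
  refine le_trans ?_ e3
  have e5 : A * (i : ℝ) ≤ |A| * (i : ℝ) :=
    mul_le_mul_of_nonneg_right (le_abs_self A) (by positivity)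
  have e6 : |A| * (i : ℝ) * Real.log (X r i) ^ k ≤ |A| * (i : ℝ) * (2 ^ k * (i : ℝ) ^ k) :=
    mul_le_mul_of_nonneg_left hLk (by positivity)
  have e7 : A * (i : ℝ) * Real.log (X r i) ^ k ≤ |A| * (i : ℝ) * Real.log (X r i) ^ k :=
    mul_le_mul_of_nonneg_right e5 (by positivity)
  have e8 : |A| * (i : ℝ) * (2 ^ k * (i : ℝ) ^ k) = |A| * 2 ^ k * (i : ℝ) ^ (k + 1) := by ring
  linarith

/-! ### the sets of the chains -/

private theorem Win_ch_add (j n : ℕ) : ch j n + 1 = 2 ^ j * (n + 1) := by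
  unfold ch
  have : 1 ≤ 2 ^ j * (n + 1) := Nat.one_le_iff_ne_zero.2 (by positivity)
  omega

private theorem Win_ch_ge (j n : ℕ) : n ≤ ch j n := by
  have h := Win_ch_add j n
  have h1 : 1 ≤ 2 ^ j := Nat.one_le_two_pow
  nlinarith

private theorem Win_ch_lt {j k n x' : ℕ} (hj : j < k) (hn : n < x') : ch j n < 2 ^ k * x' := by
  have h := Win_ch_add j n
  have h1 : 2 ^ j ≤ 2 ^ k := Nat.pow_le_pow_right (by norm_num) hj.le
  have h2 : 2 ^ j * (n + 1) ≤ 2 ^ k * x' := Nat.mul_le_mul h1 hn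
  omega

private theorem Win_ch_inj {x x' n n' j j' : ℕ} (hx : x' < 2 * (x + 1)) (hn : n < x')
    (hn' : x ≤ n') (hj : j < j') : ch j n < ch j' n' := by
  have h := Win_ch_add j n
  have h' := Win_ch_add j' n'
  have h1 : 2 ^ (j + 1) ≤ 2 ^ j' := Nat.pow_le_pow_right (by norm_num) hj
  have h2 : 2 ^ j * (n + 1) ≤ 2 ^ j * x' := Nat.mul_le_mul le_rfl hn
  have h3 : 2 ^ j * x' < 2 ^ j * (2 * (x + 1)) := Nat.mul_lt_mul_of_pos_left hx (by positivity)
  have h4 : 2 ^ j * (2 * (x + 1)) = 2 ^ (j + 1) * (x + 1) := by ring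
  have h5 : 2 ^ (j + 1) * (x + 1) ≤ 2 ^ j' * (n' + 1) := Nat.mul_le_mul h1 (by omega)
  omega

/-- the set of the chain members -/
private def Win_t (k n : ℕ) : Finset ℕ := (Finset.range k).image (fun j => ch j n)

private theorem Win_mem_t {k n m : ℕ} : m ∈ Win_t k n ↔ ∃ j < k, ch j n = m := by
  simp [Win_t]

private theorem Win_t_disj {x x' k n n' : ℕ} (hx : x' < 2 * (x + 1)) (hn : x ≤ n) (hn2 : n < x')
    (hn' : x ≤ n') (hn'2 : n' < x') (hne : n ≠ n') : Disjoint (Win_t k n) (Win_t k n') := by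
  rw [Finset.disjoint_left]
  intro m hm hm'
  obtain ⟨j, hj, hjm⟩ := Win_mem_t.1 hm
  obtain ⟨j', hj', hjm'⟩ := Win_mem_t.1 hm'
  rcases lt_trichotomy j j' with h | h | h
  · have := Win_ch_inj hx hn2 hn' h
    omega
  · subst h
    have h1 := Win_ch_add j n
    have h2 := Win_ch_add j n'
    have h3 : 2 ^ j * (n + 1) = 2 ^ j * (n' + 1) := by omega
    have h4 := Nat.eq_of_mul_eq_mul_left (by positivity) h3
    omega
  · have := Win_ch_inj hx hn'2 hn h
    omega

private theorem Win_t_prod {k n : ℕ} (q : ℝ) : ∏ _m ∈ Win_t k n, q = q ^ k := by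
  rw [Finset.prod_const, Win_t, Finset.card_image_of_injOn, Finset.card_range]
  intro j _ j' _ h
  have h' : ch j n = ch j' n := h
  rcases lt_trichotomy j j' with h1 | h1 | h1
  · have := Win_ch_inj (x := n) (x' := n + 1) (by omega) (by omega) le_rfl h1 (n := n) (n' := n)
    omega
  · exact h1
  · have := Win_ch_inj (x := n) (x' := n + 1) (by omega) (by omega) le_rfl h1 (n := n) (n' := n)
    omega

open Classical in
/-- the set of the possible chains in a window -/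
private noncomputable def Win_I (z k a b : ℕ) : Finset ℕ :=
  (Finset.Ico a b).filter (fun n => ∀ j < k, act z (ch j n))

open Classical in
private theorem Win_card (z k : ℕ) (K : ℕ → ℕ → Prop) {x x' : ℕ} (hz : z < x) :
    (Win_I z k x x').filter (fun n => Win_t k n ⊆ H z K (2 ^ k * x')) =
      (Finset.Ico x x').filter (fun n => ∀ j < k, Sel z K (ch j n)) := by
  ext n
  rw [Finset.mem_filter, Win_I, Finset.mem_filter, Finset.mem_filter, Finset.mem_Ico]
  constructor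
  · rintro ⟨⟨h1, h2⟩, h3⟩
    refine ⟨h1, fun j hj => ?_⟩
    exact ((mem_H K).1 (h3 (Win_mem_t.2 ⟨j, hj, rfl⟩))).2
  · rintro ⟨h1, h2⟩
    refine ⟨⟨h1, fun j hj => ?_⟩, fun m hm => ?_⟩
    · have h3 := Win_ch_ge j n
      rcases (sel_iff z K _).1 (h2 j hj) with h | h
      · omega
      · exact h.1
    · obtain ⟨j, hj, rfl⟩ := Win_mem_t.1 hm
      exact (mem_H K).2 ⟨Win_ch_lt hj h1.2, h2 j hj⟩

/-! ### the path -/

private theorem Win_cond {z k r : ℕ} {K : ℕ → ℕ → Prop} {e : ℝ} (he : 0 < e) (he1 : e < 1)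
    (h : Tendsto (fun n : ℕ => yy z (H z K n) n * Real.log n) atTop (𝓝 (rho z)⁻¹)) :
    ∀ᶠ i : ℕ in atTop, ∀ m, X r i ≤ m → m < 2 ^ k * X r (i + 1) →
      (1 - e) / (rho z * Real.log (X r i)) ≤ yy z (H z K (2 ^ k * X r (i + 1))) m ∧
      yy z (H z K (2 ^ k * X r (i + 1))) m ≤ (1 + e) / (rho z * Real.log (X r i)) := by
  have hρ := rho_pos z
  have hρ' : 0 < (rho z)⁻¹ := inv_pos.2 hρ
  have h1 : (1 - e / 2) * (rho z)⁻¹ < (rho z)⁻¹ := by nlinarith
  have h2 : (rho z)⁻¹ < (1 + e) * (rho z)⁻¹ := by nlinarith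
  have h3 := (h.eventually (lt_mem_nhds h1)).and (h.eventually (gt_mem_nhds h2))
  obtain ⟨m0, hm0⟩ := eventually_atTop.1 h3
  set c : ℝ := ((k : ℝ) + 2) * Real.log 2 with hc
  have hc0 : 0 ≤ c := by positivity
  filter_upwards [(Win_X_tendsto r).eventually_ge_atTop (m0 : ℝ),
    (Win_log_tendsto r).eventually_gt_atTop 0,
    (Win_log_tendsto r).eventually_ge_atTop (2 * c / e)] with i hi hL hLc m hm1 hm2
  have hx := Win_one r i
  have hm0m : m0 ≤ m := by
    have : m0 ≤ X r i := by exact_mod_cast hi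
    omega
  obtain ⟨g1, g2⟩ := hm0 m hm0m
  rw [yy_H K hm2.le]
  have hxm : (X r i : ℝ) ≤ m := by exact_mod_cast hm1
  have hLm : Real.log (X r i) ≤ Real.log m := Real.log_le_log (by linarith) hxm
  have hlm : 0 < Real.log m := lt_of_lt_of_le hL hLm
  have hmx : (m : ℝ) ≤ 2 ^ (k + 2) * (X r i : ℝ) := by
    have h4 : m ≤ 2 ^ (k + 2) * X r i := by
      have h5 := Win_two r i
      have h6 : 1 ≤ X r i := by exact_mod_cast hx
      calc m ≤ 2 ^ k * X r (i + 1) := hm2.le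
        _ ≤ 2 ^ k * (4 * X r i) := Nat.mul_le_mul le_rfl (by omega)
        _ = 2 ^ (k + 2) * X r i := by ring
    exact_mod_cast h4
  have hLm2 : Real.log m ≤ c + Real.log (X r i) := by
    calc Real.log m ≤ Real.log (2 ^ (k + 2) * (X r i : ℝ)) :=
          Real.log_le_log (by linarith) hmx
      _ = c + Real.log (X r i) := by
          rw [Real.log_mul (by positivity) (by positivity), Real.log_pow, hc]
          push_cast
          ring
  constructor
  · have g3 : (1 - e / 2) * (rho z)⁻¹ / Real.log m ≤ yy z (H z K m) m := by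
      rw [div_le_iff₀ hlm]
      exact g1.le
    refine le_trans ?_ g3
    rw [div_le_div_iff₀ (by positivity) hlm]
    have g4 : (1 - e / 2) * (rho z)⁻¹ * (rho z * Real.log (X r i)) =
        (1 - e / 2) * Real.log (X r i) := by
      field_simp
    rw [g4]
    have g5 : 2 * c ≤ Real.log (X r i) * e := by rwa [div_le_iff₀ he] at hLc
    nlinarith
  · have g3 : yy z (H z K m) m ≤ (1 + e) * (rho z)⁻¹ / Real.log m := by
      rw [le_div_iff₀ hlm]
      exact g2.le
    refine le_trans g3 ?_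
    rw [div_le_div_iff₀ hlm (by positivity)]
    have g4 : (1 + e) * (rho z)⁻¹ * (rho z * Real.log (X r i)) =
        (1 + e) * Real.log (X r i) := by
      field_simp
    rw [g4]
    nlinarith

private theorem Win_choose (k : ℕ) {η : ℝ} (hη : 0 < η) :
    ∃ e : ℝ, 0 < e ∧ e < 1 ∧ (1 + e) ^ (k + 1) ≤ 1 + η / 2 ∧ 1 - η / 2 ≤ (1 - e) ^ (k + 1) := by
  have h1 : Tendsto (fun e : ℝ => (1 + e) ^ (k + 1)) (𝓝 0) (𝓝 1) := by
    have : Continuous (fun e : ℝ => (1 + e) ^ (k + 1)) := by fun_prop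
    have h := this.tendsto 0
    simpa using h
  have h2 : Tendsto (fun e : ℝ => (1 - e) ^ (k + 1)) (𝓝 0) (𝓝 1) := by
    have : Continuous (fun e : ℝ => (1 - e) ^ (k + 1)) := by fun_prop
    have h := this.tendsto 0
    simpa using h
  have g1 := h1.eventually (gt_mem_nhds (show (1 : ℝ) < 1 + η / 2 by linarith))
  have g2 := h2.eventually (lt_mem_nhds (show 1 - η / 2 < (1 : ℝ) by linarith))
  have g3 : ∀ᶠ e : ℝ in 𝓝 0, e < 1 := gt_mem_nhds (by norm_num)
  have g4 : ∀ᶠ e : ℝ in 𝓝[>] 0, 0 < e := self_mem_nhdsWithin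
  obtain ⟨e, ⟨⟨a1, a2⟩, a3⟩, a4⟩ :=
    ((((g1.and g2).and g3).filter_mono nhdsWithin_le_nhds).and g4).exists
  exact ⟨e, a4, a3, a1.le, a2.le⟩

variable {Ω : Type} [MeasurableSpace Ω] {μ : Measure Ω} {S : ℕ → ℕ → Set Ω} [IsProbabilityMeasure μ]

private theorem Win_BC (E : ℕ → Set Ω) (h : ∀ᶠ i : ℕ in atTop, μ.real (E i) ≤ Real.exp (-(i : ℝ))) :
    ∀ᵐ ω ∂μ, ∀ᶠ i : ℕ in atTop, ω ∉ E i := by
  obtain ⟨i0, hi0⟩ := eventually_atTop.1 h
  have hs : ∑' i : ℕ, μ (E (i + i0)) ≠ ∞ := by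
    have h1 : ∀ i : ℕ, μ (E (i + i0)) ≤ ENNReal.ofReal (Real.exp (-(i : ℝ))) := by
      intro i
      have h2 := hi0 (i + i0) (by omega)
      rw [← ENNReal.ofReal_toReal (measure_ne_top μ (E (i + i0)))]
      apply ENNReal.ofReal_le_ofReal
      refine le_trans h2 (Real.exp_le_exp.2 ?_)
      push_cast
      have : (0 : ℝ) ≤ i0 := Nat.cast_nonneg i0
      linarith
    refine ne_top_of_le_ne_top ?_ (ENNReal.tsum_le_tsum h1)
    have hsum : Summable (fun i : ℕ => Real.exp (-(i : ℝ))) := Real.summable_exp_neg_nat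
    exact hsum.tsum_ofReal_ne_top
  filter_upwards [ae_eventually_notMem hs] with ω hω
  obtain ⟨N, hN⟩ := eventually_atTop.1 hω
  refine eventually_atTop.2 ⟨N + i0, fun i hi => ?_⟩
  have := hN (i - i0) (by omega)
  rwa [Nat.sub_add_cancel (by omega)] at this

/-- the expected number -/
private noncomputable def Win_D (z k r i : ℕ) : ℝ :=
  sing z k * ((X r (i + 1) : ℝ) - X r i) / Real.log (X r i) ^ k

private theorem Win_D_eq (z k r i : ℕ) : Win_D z k r i =
    dens z k * ((X r (i + 1) : ℝ) - X r i) * (1 / (rho z * Real.log (X r i))) ^ k := by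
  unfold Win_D
  rw [sing_eq, one_div, inv_pow, mul_pow]
  field_simp

open Classical in
private theorem Win_I_card (z k r : ℕ) {e : ℝ} (he : 0 < e) : ∀ᶠ i : ℕ in atTop,
    (1 - e) * (dens z k * ((X r (i + 1) : ℝ) - X r i)) ≤
      ((Win_I z k (X r i) (X r (i + 1))).card : ℝ) ∧
    ((Win_I z k (X r i) (X r (i + 1))).card : ℝ) ≤
      (1 + e) * (dens z k * ((X r (i + 1) : ℝ) - X r i)) := by
  obtain ⟨C, hC⟩ := count_ch z k
  have hd := dens_pos z k
  filter_upwards [Win_gap_large r (C / (e * dens z k)),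
    (Win_X_tendsto r).eventually_gt_atTop (max (z : ℝ) 2)] with i hi hx
  have h1 : z < X r i := by
    have : (z : ℝ) < X r i := lt_of_le_of_lt (le_max_left _ _) hx
    exact_mod_cast this
  have h2 : 2 ≤ X r i := by
    have : (2 : ℝ) < X r i := lt_of_le_of_lt (le_max_right _ _) hx
    have h3 : 2 < X r i := by exact_mod_cast this
    omega
  have h3 := abs_le.1 (hC (X r i) (X r (i + 1)) h1 h2 (Win_mono r i))
  rw [div_le_iff₀ (by positivity)] at hi
  have h4 : ((Win_I z k (X r i) (X r (i + 1))).card : ℝ) = ((((Finset.Ico (X r i)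
      (X r (i + 1))).filter (fun n => ∀ j < k, act z (ch j n))).card : ℕ) : ℝ) := rfl
  rw [h4]
  constructor <;> nlinarith [h3.1, h3.2]

private theorem Win_exp_up {l : ℝ} (h0 : 0 ≤ l) (h1 : l ≤ 1) : Real.exp l - 1 ≤ l + l ^ 2 := by
  have := Real.abs_exp_sub_one_sub_id_le (x := l) (by rw [abs_le]; constructor <;> linarith)
  have := (abs_le.1 this).2
  linarith

private theorem Win_exp_lo {l : ℝ} (h0 : 0 ≤ l) (h1 : l ≤ 1) : l - l ^ 2 ≤ 1 - Real.exp (-l) := by
  have := Real.abs_exp_sub_one_sub_id_le (x := -l) (by rw [abs_le]; constructor <;> linarith)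
  have := (abs_le.1 this).2
  nlinarith

open Classical in
private theorem Win_hyp {z k r i : ℕ} (hz : z < X r i) :
    (∀ n ∈ Win_I z k (X r i) (X r (i + 1)), ∀ n' ∈ Win_I z k (X r i) (X r (i + 1)), n ≠ n' →
      Disjoint (Win_t k n) (Win_t k n')) ∧
    (∀ n ∈ Win_I z k (X r i) (X r (i + 1)), ∀ m ∈ Win_t k n,
      X r i ≤ m ∧ m < 2 ^ k * X r (i + 1) ∧ act z m) := by
  constructor
  · intro n hn n' hn' hne
    rw [Win_I, Finset.mem_filter, Finset.mem_Ico] at hn hn'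
    exact Win_t_disj (Win_two r i) hn.1.1 hn.1.2 hn'.1.1 hn'.1.2 hne
  · intro n hn m hm
    rw [Win_I, Finset.mem_filter, Finset.mem_Ico] at hn
    obtain ⟨j, hj, rfl⟩ := Win_mem_t.1 hm
    exact ⟨hn.1.1.trans (Win_ch_ge j n), Win_ch_lt hj hn.1.2, hn.2 j hj⟩

open Classical in
private theorem Win_up (hS : IsStrikes μ S) (z k r : ℕ) {η e : ℝ} (hη : 0 < η) (hη1 : η < 1)
    (he : 0 < e) (hek : (1 + e) ^ (k + 1) ≤ 1 + η / 2) : ∀ᶠ i : ℕ in atTop,
    μ.real {ω | (∀ m, X r i ≤ m → m < 2 ^ k * X r (i + 1) → act z m →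
        yy z (H z (Kof S ω) (2 ^ k * X r (i + 1))) m ≤ (1 + e) / (rho z * Real.log (X r i))) ∧
        (1 + η) * Win_D z k r i ≤ (((Win_I z k (X r i) (X r (i + 1))).filter
          (fun n => Win_t k n ⊆ H z (Kof S ω) (2 ^ k * X r (i + 1)))).card : ℝ)} ≤
      Real.exp (-(i : ℝ)) := by
  have hρ := rho_pos z
  filter_upwards [Win_I_card z k r he, (Win_X_tendsto r).eventually_gt_atTop (z : ℝ),
    (Win_log_tendsto r).eventually_gt_atTop 0,
    (Win_log_tendsto r).eventually_ge_atTop ((1 + e) / rho z),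
    Win_D_large r k (sing_pos z k) (32 / η ^ 2)] with i hI hz hL hL2 hD
  have hz' : z < X r i := by exact_mod_cast hz
  obtain ⟨h1, h2⟩ := Win_hyp (k := k) hz'
  have hxx := Win_mono r i
  have hab : X r i ≤ 2 ^ k * X r (i + 1) := by
    have : 1 ≤ 2 ^ k := Nat.one_le_two_pow
    nlinarith
  have hD' : 32 / η ^ 2 * (i : ℝ) ≤ Win_D z k r i := hD
  set q : ℝ := (1 + e) / (rho z * Real.log (X r i)) with hq
  have hq0 : 0 ≤ q := by positivity
  have hq1 : q ≤ 1 := by
    rw [hq, div_le_one (by positivity)]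
    rw [div_le_iff₀ hρ] at hL2
    linarith
  have key := tail_up hS hz' hab (Win_I z k (X r i) (X r (i + 1))) (Win_t k) h1 h2
    (fun _ => q) (fun _ => hq0) (fun _ => hq1) (η / 8) ((1 + η) * Win_D z k r i) (by positivity)
  refine key.trans (Real.exp_le_exp.2 ?_)
  have hsum : ∑ n ∈ Win_I z k (X r i) (X r (i + 1)), ∏ _m ∈ Win_t k n, q =
      ((Win_I z k (X r i) (X r (i + 1))).card : ℝ) * q ^ k := by
    rw [Finset.sum_congr rfl (fun n _ => Win_t_prod q), Finset.sum_const, nsmul_eq_mul]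
  have hDi : 0 ≤ Win_D z k r i := le_trans (by positivity) hD'
  have hM : ((Win_I z k (X r i) (X r (i + 1))).card : ℝ) * q ^ k ≤ (1 + η / 2) * Win_D z k r i := by
    have hqk : q ^ k = (1 + e) ^ k * (1 / (rho z * Real.log (X r i))) ^ k := by
      rw [hq, ← mul_pow]
      congr 1
      ring
    calc ((Win_I z k (X r i) (X r (i + 1))).card : ℝ) * q ^ k
        ≤ (1 + e) * (dens z k * ((X r (i + 1) : ℝ) - X r i)) * q ^ k :=
          mul_le_mul_of_nonneg_right hI.2 (by positivity)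
      _ = (1 + e) ^ (k + 1) * Win_D z k r i := by
          rw [hqk, Win_D_eq]
          ring
      _ ≤ (1 + η / 2) * Win_D z k r i := mul_le_mul_of_nonneg_right hek hDi
  rw [hsum]
  have hl := Win_exp_up (l := η / 8) (by positivity) (by linarith)
  have hl0 : 0 ≤ Real.exp (η / 8) - 1 := by
    have := Real.add_one_le_exp (η / 8)
    linarith
  have g1 : (Real.exp (η / 8) - 1) * (((Win_I z k (X r i) (X r (i + 1))).card : ℝ) * q ^ k) ≤
      (η / 8 + (η / 8) ^ 2) * ((1 + η / 2) * Win_D z k r i) :=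
    mul_le_mul hl hM (by positivity) (by positivity)
  have g2 : (i : ℝ) ≤ η ^ 2 / 32 * Win_D z k r i := by
    have := mul_le_mul_of_nonneg_left hD' (show 0 ≤ η ^ 2 / 32 by positivity)
    have g3 : η ^ 2 / 32 * (32 / η ^ 2 * (i : ℝ)) = i := by
      field_simp
    linarith
  have g4 : (η / 8 + (η / 8) ^ 2) * (1 + η / 2) - η / 8 * (1 + η) ≤ - (η ^ 2 / 32) := by
    nlinarith [mul_pos hη hη, mul_pos (mul_pos hη hη) hη]
  have g5 := mul_le_mul_of_nonneg_right g4 hDi
  nlinarith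

open Classical in
private theorem Win_lo (hS : IsStrikes μ S) (z k r : ℕ) {η e : ℝ} (hη : 0 < η) (hη1 : η < 1)
    (he : 0 < e) (he1 : e < 1) (hek : 1 - η / 2 ≤ (1 - e) ^ (k + 1)) : ∀ᶠ i : ℕ in atTop,
    μ.real {ω | (∀ m, X r i ≤ m → m < 2 ^ k * X r (i + 1) → act z m →
        (1 - e) / (rho z * Real.log (X r i)) ≤ yy z (H z (Kof S ω) (2 ^ k * X r (i + 1))) m) ∧
        (((Win_I z k (X r i) (X r (i + 1))).filter
          (fun n => Win_t k n ⊆ H z (Kof S ω) (2 ^ k * X r (i + 1)))).card : ℝ) ≤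
          (1 - η) * Win_D z k r i} ≤
      Real.exp (-(i : ℝ)) := by
  have hρ := rho_pos z
  filter_upwards [Win_I_card z k r he, (Win_X_tendsto r).eventually_gt_atTop (z : ℝ),
    (Win_log_tendsto r).eventually_gt_atTop 0,
    (Win_log_tendsto r).eventually_ge_atTop ((1 + e) / rho z),
    Win_D_large r k (sing_pos z k) (32 / η ^ 2)] with i hI hz hL hL2 hD
  have hz' : z < X r i := by exact_mod_cast hz
  obtain ⟨h1, h2⟩ := Win_hyp (k := k) hz'
  have hxx := Win_mono r i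
  have hab : X r i ≤ 2 ^ k * X r (i + 1) := by
    have : 1 ≤ 2 ^ k := Nat.one_le_two_pow
    nlinarith
  have hD' : 32 / η ^ 2 * (i : ℝ) ≤ Win_D z k r i := hD
  set q : ℝ := (1 - e) / (rho z * Real.log (X r i)) with hq
  have he2 : 0 < 1 - e := by linarith
  have hq0 : 0 ≤ q := by positivity
  have hq1 : q ≤ 1 := by
    rw [hq, div_le_one (by positivity)]
    rw [div_le_iff₀ hρ] at hL2
    linarith
  have key := tail_lo hS hz' hab (Win_I z k (X r i) (X r (i + 1))) (Win_t k) h1 h2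
    (fun _ => q) (fun _ => hq0) (fun _ => hq1) (η / 8) ((1 - η) * Win_D z k r i) (by positivity)
  refine key.trans (Real.exp_le_exp.2 ?_)
  have hsum : ∑ n ∈ Win_I z k (X r i) (X r (i + 1)), ∏ _m ∈ Win_t k n, q =
      ((Win_I z k (X r i) (X r (i + 1))).card : ℝ) * q ^ k := by
    rw [Finset.sum_congr rfl (fun n _ => Win_t_prod q), Finset.sum_const, nsmul_eq_mul]
  have hDi : 0 ≤ Win_D z k r i := le_trans (by positivity) hD'
  have hM : (1 - η / 2) * Win_D z k r i ≤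
      ((Win_I z k (X r i) (X r (i + 1))).card : ℝ) * q ^ k := by
    have hqk : q ^ k = (1 - e) ^ k * (1 / (rho z * Real.log (X r i))) ^ k := by
      rw [hq, ← mul_pow]
      congr 1
      ring
    calc (1 - η / 2) * Win_D z k r i ≤ (1 - e) ^ (k + 1) * Win_D z k r i :=
          mul_le_mul_of_nonneg_right hek hDi
      _ = (1 - e) * (dens z k * ((X r (i + 1) : ℝ) - X r i)) * q ^ k := by
          rw [hqk, Win_D_eq]
          ring
      _ ≤ ((Win_I z k (X r i) (X r (i + 1))).card : ℝ) * q ^ k :=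
          mul_le_mul_of_nonneg_right hI.1 (by positivity)
  rw [hsum]
  have hl := Win_exp_lo (l := η / 8) (by positivity) (by linarith)
  have hl0 : 0 ≤ η / 8 - (η / 8) ^ 2 := by nlinarith
  have g1 : (η / 8 - (η / 8) ^ 2) * ((1 - η / 2) * Win_D z k r i) ≤
      (1 - Real.exp (-(η / 8))) * (((Win_I z k (X r i) (X r (i + 1))).card : ℝ) * q ^ k) :=
    mul_le_mul hl hM (mul_nonneg (by linarith) hDi) (by linarith)
  have g2 : (i : ℝ) ≤ η ^ 2 / 32 * Win_D z k r i := by
    have := mul_le_mul_of_nonneg_left hD' (show 0 ≤ η ^ 2 / 32 by positivity)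
    have g3 : η ^ 2 / 32 * (32 / η ^ 2 * (i : ℝ)) = i := by
      field_simp
    linarith
  have g4 : η / 8 * (1 - η) - (η / 8 - (η / 8) ^ 2) * (1 - η / 2) ≤ - (η ^ 2 / 32) := by
    nlinarith [mul_pos hη hη, mul_pos (mul_pos hη hη) hη]
  have g5 := mul_le_mul_of_nonneg_right g4 hDi
  nlinarith

open Classical in
theorem window (hS : IsStrikes μ S) (z k r : ℕ) (hk : 1 ≤ k) {η : ℝ} (hη : 0 < η) (hη1 : η < 1) :
    ∀ᵐ ω ∂μ, ∀ᶠ i : ℕ in atTop,
      |((((Finset.Ico (X r i) (X r (i + 1))).filter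
          (fun n => ∀ j < k, Sel z (Kof S ω) (ch j n))).card : ℝ) -
        sing z k * ((X r (i + 1) : ℝ) - X r i) / Real.log (X r i) ^ k)| ≤
        η * (sing z k * ((X r (i + 1) : ℝ) - X r i) / Real.log (X r i) ^ k) := by
  obtain ⟨e, he, he1, hek1, hek2⟩ := Win_choose k hη
  filter_upwards [yy_tendsto hS z, Win_BC _ (Win_up hS z k r hη hη1 he hek1),
    Win_BC _ (Win_lo hS z k r hη hη1 he he1 hek2)] with ω h1 h2 h3
  filter_upwards [Win_cond (k := k) (r := r) he he1 h1, h2, h3,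
    (Win_X_tendsto r).eventually_gt_atTop (z : ℝ)] with i g1 g2 g3 hz
  have hz' : z < X r i := by exact_mod_cast hz
  rw [not_and, not_le] at g2 g3
  have g2' := g2 (fun m hm1 hm2 _ => (g1 m hm1 hm2).2)
  have g3' := g3 (fun m hm1 hm2 _ => (g1 m hm1 hm2).1)
  rw [Win_card z k (Kof S ω) hz'] at g2' g3'
  unfold Win_D at g2' g3'
  rw [abs_le]
  constructor <;> linarith

end Pool.Agent.HwS
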