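import Pool.Agent.HwS.Mom
import Pool.Agent.HwS.Den

/-!
# Module HwS/YAs: almost surely `yy z (H n) n * log n → 1 / rho z`

Proof.  Let `Y_n = (yy z (H n) n)⁻¹`, `M_n = Y_n - 1 - hsum z n`.  By `EM2` and Chebyshev/Markov
`P(|M_{2^i}| > δ i) ≤ C / (δ i)^2`, summable in `i`; Borel-Cantelli (`measure_limsup_atTop_eq_zero` or
`ae_eventually_notMem`) for `δ = 1/(r+1)`, all `r`: almost surely `M_{2^i} / i → 0`.  With `hsum_tendsto`
(along `n = 2^i`): `Y_{2^i} / log (2^i) → rho z`.  Pathwise `yy z (H n) n` is nonincreasing in `n`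
(`yy z (H (n+1)) (n+1)` is `yy z (H n) n` times factors in `(0,1]`), so `Y` is nondecreasing and for
`2^i ≤ n < 2^(i+1)`: `Y_{2^i} / log 2^(i+1) ≤ Y_n / log n ≤ Y_{2^(i+1)} / log 2^i`; both bounds tend to `rho z`.
Invert (`rho z > 0`).
-/

open MeasureTheory ProbabilityTheory Filter Topology
open scoped ENNReal

namespace Pool.Agent.HwS

variable {Ω : Type} [MeasurableSpace Ω] {μ : Measure Ω} {S : ℕ → ℕ → Set Ω} [IsProbabilityMeasure μ]

theorem yy_anti (z : ℕ) (K : ℕ → ℕ → Prop) {m n : ℕ} (hmn : m ≤ n) :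
    yy z (H z K n) n ≤ yy z (H z K m) m := by
  classical
  have hsub : (H z K m).filter (fun j => z < j ∧ j < m) ⊆
      (H z K n).filter (fun j => z < j ∧ j < n) := by
    intro j hj
    rw [Finset.mem_filter, mem_H] at hj ⊢
    exact ⟨⟨hj.1.1.trans_le hmn, hj.1.2⟩, hj.2.1, hj.2.2.trans_le hmn⟩
  unfold yy
  rw [← Finset.prod_sdiff hsub]
  have h0 : ∀ j : ℕ, z < j → 0 ≤ 1 - 1 / (j : ℝ) ∧ 1 - 1 / (j : ℝ) ≤ 1 := by
    intro j hj
    have hj1 : (1 : ℝ) ≤ j := by exact_mod_cast (Nat.succ_le_of_lt (Nat.zero_lt_of_lt hj))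
    have hj0 : (0 : ℝ) < j := by linarith
    constructor
    · have : 1 / (j : ℝ) ≤ 1 := by
        rw [div_le_one hj0]
        exact hj1
      linarith
    · have : 0 ≤ 1 / (j : ℝ) := by positivity
      linarith
  apply mul_le_of_le_one_left
  · apply Finset.prod_nonneg
    intro j hj
    rw [Finset.mem_filter] at hj
    exact (h0 j hj.2.1).1
  · apply Finset.prod_le_one
    · intro j hj
      rw [Finset.mem_sdiff, Finset.mem_filter] at hj
      exact (h0 j hj.1.2.1).1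
    · intro j hj
      rw [Finset.mem_sdiff, Finset.mem_filter] at hj
      exact (h0 j hj.1.2.1).2

private theorem yas_det {Y : ℕ → ℝ} {r : ℝ} (hmono : Monotone Y) (hpos : ∀ n, 0 < Y n)
    (h : Tendsto (fun j : ℕ => Y (2 ^ j) / ((j : ℝ) * Real.log 2)) atTop (𝓝 r)) :
    Tendsto (fun n : ℕ => Y n / Real.log n) atTop (𝓝 r) := by
  have hlog2 : 0 < Real.log 2 := Real.log_pos one_lt_two
  have hk : Tendsto (fun n : ℕ => Nat.log 2 n) atTop atTop :=
    tendsto_atTop_atTop.mpr fun b => ⟨2 ^ b, fun _ hn => Nat.le_log_of_pow_le one_lt_two hn⟩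
  have hq1 : Tendsto (fun k : ℕ => (k : ℝ) / ((k : ℝ) + 1)) atTop (𝓝 1) :=
    tendsto_natCast_div_add_atTop (1 : ℝ)
  have hq2 : Tendsto (fun k : ℕ => ((k : ℝ) + 1) / (k : ℝ)) atTop (𝓝 1) := by
    have h2 := hq1.inv₀ one_ne_zero
    rw [inv_one] at h2
    refine h2.congr fun k => ?_
    rw [inv_div]
  have hlow : Tendsto (fun k : ℕ => Y (2 ^ k) / ((k : ℝ) * Real.log 2) * ((k : ℝ) / ((k : ℝ) + 1)))
      atTop (𝓝 r) := by
    have h3 := h.mul hq1
    rwa [mul_one] at h3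
  have hupp : Tendsto (fun k : ℕ => Y (2 ^ (k + 1)) / (((k + 1 : ℕ) : ℝ) * Real.log 2) *
      (((k : ℝ) + 1) / (k : ℝ))) atTop (𝓝 r) := by
    have h3 := (h.comp (tendsto_add_atTop_nat 1)).mul hq2
    rwa [mul_one] at h3
  refine tendsto_of_tendsto_of_tendsto_of_le_of_le' (hlow.comp hk) (hupp.comp hk) ?_ ?_
  · filter_upwards [eventually_ge_atTop 2] with n hn
    change Y (2 ^ Nat.log 2 n) / ((Nat.log 2 n : ℝ) * Real.log 2) *
      ((Nat.log 2 n : ℝ) / ((Nat.log 2 n : ℝ) + 1)) ≤ _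
    have hk1 : 1 ≤ Nat.log 2 n := Nat.log_pos one_lt_two hn
    have hlt : n < 2 ^ (Nat.log 2 n + 1) := Nat.lt_pow_succ_log_self one_lt_two n
    have hle : 2 ^ Nat.log 2 n ≤ n := Nat.pow_log_le_self 2 (by omega)
    generalize Nat.log 2 n = k at *
    have hk0 : (0 : ℝ) < k := by exact_mod_cast hk1
    have hn0 : (1 : ℝ) < n := by exact_mod_cast hn
    have e1 : Y (2 ^ k) / ((k : ℝ) * Real.log 2) * ((k : ℝ) / ((k : ℝ) + 1)) =
        Y (2 ^ k) / (((k : ℝ) + 1) * Real.log 2) := by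
      field_simp
    rw [e1]
    apply div_le_div₀ (hpos n).le (hmono hle) (Real.log_pos hn0)
    have h4 : (n : ℝ) ≤ 2 ^ (k + 1) := by exact_mod_cast hlt.le
    have h5 := Real.log_le_log (by linarith) h4
    rw [Real.log_pow] at h5
    push_cast at h5
    exact h5
  · filter_upwards [eventually_ge_atTop 2] with n hn
    change _ ≤ Y (2 ^ (Nat.log 2 n + 1)) / (((Nat.log 2 n + 1 : ℕ) : ℝ) * Real.log 2) *
      (((Nat.log 2 n : ℝ) + 1) / (Nat.log 2 n : ℝ))
    have hk1 : 1 ≤ Nat.log 2 n := Nat.log_pos one_lt_two hn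
    have hlt : n < 2 ^ (Nat.log 2 n + 1) := Nat.lt_pow_succ_log_self one_lt_two n
    have hle : 2 ^ Nat.log 2 n ≤ n := Nat.pow_log_le_self 2 (by omega)
    generalize Nat.log 2 n = k at *
    have hk0 : (0 : ℝ) < k := by exact_mod_cast hk1
    have hn0 : (1 : ℝ) < n := by exact_mod_cast hn
    have e1 : Y (2 ^ (k + 1)) / (((k + 1 : ℕ) : ℝ) * Real.log 2) * (((k : ℝ) + 1) / (k : ℝ)) =
        Y (2 ^ (k + 1)) / ((k : ℝ) * Real.log 2) := by
      push_cast
      field_simp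
    rw [e1]
    apply div_le_div₀ (hpos _).le (hmono hlt.le) (by positivity)
    have h4 : (2 : ℝ) ^ k ≤ n := by exact_mod_cast hle
    have h5 := Real.log_le_log (by positivity) h4
    rwa [Real.log_pow] at h5

/-- from the error term `M` to the asymptotics of `Y` along the powers of two -/
private theorem yas_pow {Y h : ℕ → ℝ} {r : ℝ} (z : ℕ)
    (hM : Tendsto (fun i : ℕ => (Y (2 ^ (i + z)) - 1 - h (2 ^ (i + z))) / ((i : ℝ) + 1)) atTop (𝓝 0))
    (hh : Tendsto (fun n : ℕ => h n / Real.log n) atTop (𝓝 r)) :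
    Tendsto (fun j : ℕ => Y (2 ^ j) / ((j : ℝ) * Real.log 2)) atTop (𝓝 r) := by
  have hlog2 : 0 < Real.log 2 := Real.log_pos one_lt_two
  rw [← tendsto_add_atTop_iff_nat z]
  have hjz : Tendsto (fun i : ℕ => ((i + z : ℕ) : ℝ)) atTop atTop :=
    tendsto_natCast_atTop_atTop.comp (tendsto_add_atTop_nat z)
  have hden : Tendsto (fun i : ℕ => ((i + z : ℕ) : ℝ) * Real.log 2) atTop atTop :=
    hjz.atTop_mul_const hlog2
  have a1 : Tendsto (fun i : ℕ => 1 / (((i + z : ℕ) : ℝ) * Real.log 2)) atTop (𝓝 0) := by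
    have := hden.inv_tendsto_atTop
    refine this.congr fun i => ?_
    rw [one_div]
    rfl
  have hpow : Tendsto (fun i : ℕ => 2 ^ (i + z)) atTop atTop :=
    (tendsto_pow_atTop_atTop_of_one_lt (one_lt_two (α := ℕ))).comp (tendsto_add_atTop_nat z)
  have a2 : Tendsto (fun i : ℕ => h (2 ^ (i + z)) / (((i + z : ℕ) : ℝ) * Real.log 2)) atTop (𝓝 r) := by
    refine (hh.comp hpow).congr fun i => ?_
    change h (2 ^ (i + z)) / Real.log ((2 ^ (i + z) : ℕ) : ℝ) = _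
    rw [Nat.cast_pow, Nat.cast_ofNat, Real.log_pow]
  have a3 : Tendsto (fun i : ℕ => ((i : ℝ) + 1) / (((i + z : ℕ) : ℝ) * Real.log 2)) atTop
      (𝓝 (1 / Real.log 2)) := by
    have b1 : Tendsto (fun i : ℕ => (i : ℝ) / ((i : ℝ) + z)) atTop (𝓝 1) :=
      tendsto_natCast_div_add_atTop (z : ℝ)
    have b2 : Tendsto (fun i : ℕ => 1 / ((i + z : ℕ) : ℝ)) atTop (𝓝 0) := by
      have := hjz.inv_tendsto_atTop
      refine this.congr fun i => ?_
      rw [one_div]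
      rfl
    have b3 := (b1.add b2).div_const (Real.log 2)
    rw [add_zero] at b3
    refine b3.congr fun i => ?_
    push_cast
    rw [← add_div, div_div]
  have a4 := hM.mul a3
  rw [zero_mul] at a4
  have a5 := (a1.add a2).add a4
  rw [zero_add, add_zero] at a5
  refine a5.congr fun i => ?_
  have hi : ((i : ℝ) + 1) ≠ 0 := by positivity
  have e1 : (Y (2 ^ (i + z)) - 1 - h (2 ^ (i + z))) / ((i : ℝ) + 1) *
      (((i : ℝ) + 1) / (((i + z : ℕ) : ℝ) * Real.log 2)) =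
      (Y (2 ^ (i + z)) - 1 - h (2 ^ (i + z))) / (((i + z : ℕ) : ℝ) * Real.log 2) := by
    rw [div_mul_div_comm, mul_comm (Y (2 ^ (i + z)) - 1 - h (2 ^ (i + z))), mul_div_mul_left _ _ hi]
  rw [e1, ← add_div, ← add_div]
  congr 1
  ring

theorem yy_tendsto (hS : IsStrikes μ S) (z : ℕ) :
    ∀ᵐ ω ∂μ, Tendsto (fun n : ℕ => yy z (H z (Kof S ω) n) n * Real.log n) atTop
      (𝓝 (rho z)⁻¹) := by
  obtain ⟨C, hC⟩ := EM2 z
  have hC' := hC Ω inferInstance μ inferInstance S hS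
  have hlt : ∀ i : ℕ, z < 2 ^ (i + z) := fun i =>
    (Nat.lt_two_pow_self (n := z)).trans_le (Nat.pow_le_pow_right (by norm_num) (by omega))
  -- Borel-Cantelli
  have hBC : ∀ r : ℕ, ∀ᵐ ω ∂μ, ∀ᶠ i : ℕ in atTop,
      ¬ ((1 / ((r : ℝ) + 1) * ((i : ℝ) + 1)) ^ 2 ≤
        ((yy z (H z (Kof S ω) (2 ^ (i + z))) (2 ^ (i + z)))⁻¹ - 1 - hsum z (2 ^ (i + z))) ^ 2) := by
    intro r
    have hr : (0 : ℝ) < 1 / ((r : ℝ) + 1) := by positivity
    set s : ℕ → Set Ω := fun i => {ω | (1 / ((r : ℝ) + 1) * ((i : ℝ) + 1)) ^ 2 ≤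
        ((yy z (H z (Kof S ω) (2 ^ (i + z))) (2 ^ (i + z)))⁻¹ - 1 - hsum z (2 ^ (i + z))) ^ 2}
      with hs
    have hbound : ∀ i, μ (s i) ≤ ENNReal.ofReal
        (C / (1 / ((r : ℝ) + 1)) ^ 2 * (1 / ((i : ℝ) + 1) ^ 2)) := by
      intro i
      have hi : (0 : ℝ) < (i : ℝ) + 1 := by positivity
      have hint := integrable_H hS z (2 ^ (i + z))
        (fun A => ((yy z A (2 ^ (i + z)))⁻¹ - 1 - hsum z (2 ^ (i + z))) ^ 2)
      have h1 := mul_meas_ge_le_integral_of_nonneg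
        (Eventually.of_forall fun ω : Ω => sq_nonneg
          ((yy z (H z (Kof S ω) (2 ^ (i + z))) (2 ^ (i + z)))⁻¹ - 1 - hsum z (2 ^ (i + z))))
        hint ((1 / ((r : ℝ) + 1) * ((i : ℝ) + 1)) ^ 2)
      have h2 : (1 / ((r : ℝ) + 1) * ((i : ℝ) + 1)) ^ 2 * μ.real (s i) ≤ C :=
        h1.trans (hC' _ (hlt i))
      have hpos : 0 < (1 / ((r : ℝ) + 1) * ((i : ℝ) + 1)) ^ 2 := by positivity
      have h3 : μ.real (s i) ≤ C / (1 / ((r : ℝ) + 1)) ^ 2 * (1 / ((i : ℝ) + 1) ^ 2) := by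
        rw [mul_comm, ← le_div_iff₀ hpos] at h2
        refine h2.trans (le_of_eq ?_)
        rw [mul_pow, div_mul_div_comm, mul_one]
      rw [← ENNReal.ofReal_toReal (measure_ne_top μ (s i))]
      exact ENNReal.ofReal_le_ofReal h3
    have hsum1 : Summable fun i : ℕ => C / (1 / ((r : ℝ) + 1)) ^ 2 * (1 / ((i : ℝ) + 1) ^ 2) := by
      apply Summable.mul_left
      have h4 : Summable fun i : ℕ => 1 / ((i : ℝ)) ^ 2 := Real.summable_one_div_nat_pow.mpr one_lt_two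
      have h5 := (summable_nat_add_iff 1).mpr h4
      refine h5.congr fun i => ?_
      push_cast
      rfl
    have hne : (∑' i, μ (s i)) ≠ ∞ := by
      refine ne_top_of_le_ne_top ?_ (ENNReal.tsum_le_tsum hbound)
      exact hsum1.tsum_ofReal_ne_top
    exact ae_eventually_notMem hne
  rw [← ae_all_iff] at hBC
  filter_upwards [hBC] with ω hω
  have hpos : ∀ n, 0 < yy z (H z (Kof S ω) n) n := fun n => yy_pos (H_good z _ n) n
  have hM : Tendsto (fun i : ℕ => ((yy z (H z (Kof S ω) (2 ^ (i + z))) (2 ^ (i + z)))⁻¹ - 1 -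
      hsum z (2 ^ (i + z))) / ((i : ℝ) + 1)) atTop (𝓝 0) := by
    rw [Metric.tendsto_nhds]
    intro ep hep
    obtain ⟨r, hr⟩ := exists_nat_one_div_lt hep
    filter_upwards [hω r] with i hi
    have hi0 : (0 : ℝ) < (i : ℝ) + 1 := by positivity
    rw [Real.dist_0_eq_abs, abs_div, abs_of_pos hi0, div_lt_iff₀ hi0]
    push Not at hi
    have h6 := abs_lt_of_sq_lt_sq hi (by positivity)
    exact h6.trans_le (mul_le_mul_of_nonneg_right hr.le hi0.le)
  have hmono : Monotone fun n : ℕ => (yy z (H z (Kof S ω) n) n)⁻¹ := by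
    intro m n hmn
    exact inv_anti₀ (hpos n) (yy_anti z _ hmn)
  have h7 := yas_pow (Y := fun n : ℕ => (yy z (H z (Kof S ω) n) n)⁻¹) (h := hsum z) z hM
    (hsum_tendsto z)
  have h8 := yas_det hmono (fun n => inv_pos.mpr (hpos n)) h7
  have h9 := h8.inv₀ (rho_pos z).ne'
  refine h9.congr fun n => ?_
  rw [inv_div, div_inv_eq_mul, mul_comm]

end Pool.Agent.HwS
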